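import Pool.Agent.Lib.R5.Defs

/-! R5 module Basic: parity, complements, matchings. -/

set_option autoImplicit false

namespace R5

open Finset Classical

namespace DG

variable {V D : Type*} (G : DG V D)

lemma mem_bd {X : Finset V} {d : D} :
    d ∈ G.bd X ↔ d ∈ G.ds ∧ G.pi d ∈ X ∧ G.pi (G.al d) ∉ X := by
  unfold bd; rw [mem_filter]

lemma mem_tk {X : Finset V} {d : D} :
    d ∈ G.tk X ↔ d ∈ G.ds ∧ G.pi d ∈ X ∧ G.al d = d := by
  unfold tk; rw [mem_filter]

lemma mem_lg {X : Finset V} {d : D} :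
    d ∈ G.lg X ↔ d ∈ G.ds ∧ G.pi d ∈ X ∧ (G.pi (G.al d) ∉ X ∨ G.al d = d) := by
  unfold lg; rw [mem_filter]

/-- a set of darts closed under `al` and without tokens has even size -/
lemma even_of_closed {A : Finset D} (hA : A ⊆ G.ds) (hc : ∀ d ∈ A, G.al d ∈ A)
    (hn : ∀ d ∈ A, G.al d ≠ d) : Even A.card := by
  have h : ∑ _d ∈ A, (1 : ZMod 2) = 0 := by
    refine Finset.sum_involution (fun d _ => G.al d) ?_ ?_ ?_ ?_
    · intro d _
      decide
    · intro d hd _
      exact hn d hd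
    · intro d hd
      exact hc d hd
    · intro d hd
      exact G.al_al d (hA hd)
  rw [Finset.sum_const, nsmul_eq_mul, mul_one] at h
  exact (ZMod.natCast_eq_zero_iff_even).1 h

/-- number of darts in `X` -/
lemma card_darts {X : Finset V} (hX : X ⊆ G.vs) :
    (G.ds.filter fun d => G.pi d ∈ X).card = 5 * X.card := by
  have h0 := Finset.card_eq_sum_card_fiberwise (s := G.ds.filter fun d => G.pi d ∈ X) (t := X)
    (f := G.pi) (by
      intro d hd
      exact (Finset.mem_filter.1 (Finset.mem_coe.1 hd)).2)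
  rw [h0]
  have h : ∀ v ∈ X, ((G.ds.filter fun d => G.pi d ∈ X).filter fun d => G.pi d = v).card = 5 := by
    intro v hv
    rw [← G.five v (hX hv)]
    congr 1
    ext d
    simp only [Finset.mem_filter]
    constructor
    · rintro ⟨⟨h1, _⟩, h3⟩
      exact ⟨h1, h3⟩
    · rintro ⟨h1, h3⟩
      exact ⟨⟨h1, h3 ▸ hv⟩, h3⟩
  rw [Finset.sum_congr rfl h, Finset.sum_const, smul_eq_mul, mul_comm]

theorem card_lg (X : Finset V) : (G.lg X).card = G.dg X := by
  have h1 : G.lg X = G.bd X ∪ G.tk X := by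
    ext d
    rw [mem_union, G.mem_lg, G.mem_bd, G.mem_tk]
    tauto
  have h2 : Disjoint (G.bd X) (G.tk X) := by
    rw [Finset.disjoint_left]
    intro d h3 h4
    rw [G.mem_bd] at h3
    rw [G.mem_tk] at h4
    rw [h4.2.2] at h3
    exact h3.2.2 h3.2.1
  rw [h1, card_union_of_disjoint h2]
  rfl

theorem lg_single {v : V} (hv : v ∈ G.vs) (hl : ∀ d ∈ G.ds, G.al d ≠ d → G.pi (G.al d) ≠ G.pi d) :
    (G.lg {v}).card = 5 := by
  rw [← G.five v hv]
  congr 1
  ext d
  rw [G.mem_lg, mem_filter, mem_singleton, mem_singleton]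
  constructor
  · rintro ⟨h1, h2, -⟩
    exact ⟨h1, h2⟩
  · rintro ⟨h1, h2⟩
    refine ⟨h1, h2, ?_⟩
    by_cases h : G.al d = d
    · exact Or.inr h
    · refine Or.inl ?_
      have := hl d h1 h
      rwa [h2] at this

/-- `c(X) ≡ |X|` mod 2 -/
theorem par {X : Finset V} (hX : X ⊆ G.vs) : Even (G.dg X) ↔ Even X.card := by
  have hin : Even (G.ds.filter fun d => G.pi d ∈ X ∧ G.pi (G.al d) ∈ X ∧ G.al d ≠ d).card := by
    apply G.even_of_closed (Finset.filter_subset _ _)
    · intro d hd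
      rw [Finset.mem_filter] at hd ⊢
      obtain ⟨h1, h2, h3, h4⟩ := hd
      refine ⟨G.al_mem d h1, h3, ?_, ?_⟩
      · rw [G.al_al d h1]; exact h2
      · rw [G.al_al d h1]; exact fun h => h4 h.symm
    · intro d hd
      rw [Finset.mem_filter] at hd
      exact hd.2.2.2
  have hsum : G.dg X + (G.ds.filter fun d => G.pi d ∈ X ∧ G.pi (G.al d) ∈ X ∧ G.al d ≠ d).card
      = 5 * X.card := by
    rw [← G.card_darts hX, ← G.card_lg]
    have h1 : (G.ds.filter fun d => G.pi d ∈ X) =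
        G.lg X ∪ (G.ds.filter fun d => G.pi d ∈ X ∧ G.pi (G.al d) ∈ X ∧ G.al d ≠ d) := by
      ext d
      rw [mem_union, G.mem_lg, mem_filter, mem_filter]
      tauto
    rw [h1, card_union_of_disjoint]
    rw [Finset.disjoint_left]
    intro d h3 h4
    rw [G.mem_lg] at h3
    rw [mem_filter] at h4
    rcases h3.2.2 with h5 | h5
    · exact h5 h4.2.2.1
    · exact h4.2.2.2 h5
  obtain ⟨k, hk⟩ := hin
  rw [Nat.even_iff, Nat.even_iff]
  omega

theorem mem_bd_compl {X : Finset V} {d : D} (hd : d ∈ G.bd X) : G.al d ∈ G.bd (G.vs \ X) := by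
  rw [G.mem_bd] at hd ⊢
  obtain ⟨h1, h2, h3⟩ := hd
  refine ⟨G.al_mem d h1, mem_sdiff.2 ⟨G.pi_mem _ (G.al_mem d h1), h3⟩, ?_⟩
  rw [G.al_al d h1]
  exact fun h => (mem_sdiff.1 h).2 h2

theorem card_bd_compl {X : Finset V} (hX : X ⊆ G.vs) : (G.bd (G.vs \ X)).card = (G.bd X).card := by
  have key : ∀ Y : Finset V, (G.bd Y).card ≤ (G.bd (G.vs \ Y)).card := by
    intro Y
    refine Finset.card_le_card_of_injOn G.al (fun d hd => G.mem_bd_compl hd) ?_
    intro d hd e he h
    have h1 := G.al_al d (G.mem_bd.1 hd).1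
    have h2 := G.al_al e (G.mem_bd.1 he).1
    rw [← h1, ← h2, h]
  refine le_antisymm ?_ (key X)
  have := key (G.vs \ X)
  rwa [Finset.sdiff_sdiff_eq_self hX] at this

theorem card_tk_add {X Y : Finset V} (h : Disjoint X Y) :
    (G.tk (X ∪ Y)).card = (G.tk X).card + (G.tk Y).card := by
  have h1 : G.tk (X ∪ Y) = G.tk X ∪ G.tk Y := by
    ext d
    rw [mem_union, G.mem_tk, G.mem_tk, G.mem_tk, mem_union]
    tauto
  rw [h1, card_union_of_disjoint]
  rw [Finset.disjoint_left]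
  intro d h3 h4
  rw [G.mem_tk] at h3 h4
  exact (Finset.disjoint_left.1 h) h3.2.1 h4.2.1

theorem card_tk_compl {X : Finset V} (hX : X ⊆ G.vs) :
    (G.tk X).card + (G.tk (G.vs \ X)).card = (G.tk G.vs).card := by
  rw [← G.card_tk_add disjoint_sdiff, union_sdiff_of_subset hX]

theorem dg_vs : G.dg G.vs = (G.tk G.vs).card := by
  have h : G.bd G.vs = ∅ := by
    rw [Finset.eq_empty_iff_forall_notMem]
    intro d hd
    rw [G.mem_bd] at hd
    exact hd.2.2 (G.pi_mem _ (G.al_mem d hd.1))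
  unfold dg
  rw [h, card_empty, zero_add]

/-- no loops in the class -/
theorem C4.noloop {G : DG V D} (h : G.C4) (h2 : 2 ≤ G.vs.card) :
    ∀ d ∈ G.ds, G.al d ≠ d → G.pi (G.al d) ≠ G.pi d := by
  intro d hd hne heq
  have hv := G.pi_mem d hd
  have h4 := h {G.pi d} (singleton_subset_iff.2 hv) (singleton_nonempty _) (by
    intro h5
    rw [← h5, card_singleton] at h2
    omega)
  rw [← G.card_lg] at h4
  have h5 := G.five (G.pi d) hv
  have hd1 : d ∈ G.ds.filter fun e => G.pi e = G.pi d := mem_filter.2 ⟨hd, rfl⟩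
  have hd2 : G.al d ∈ (G.ds.filter fun e => G.pi e = G.pi d).erase d :=
    mem_erase.2 ⟨hne, mem_filter.2 ⟨G.al_mem d hd, heq⟩⟩
  have h6 : G.lg {G.pi d} ⊆ ((G.ds.filter fun e => G.pi e = G.pi d).erase d).erase (G.al d) := by
    intro e he
    rw [G.mem_lg, mem_singleton, mem_singleton] at he
    obtain ⟨he1, he2, he3⟩ := he
    refine mem_erase.2 ⟨?_, mem_erase.2 ⟨?_, mem_filter.2 ⟨he1, he2⟩⟩⟩
    · rintro rfl
      rw [G.al_al d hd] at he3
      rcases he3 with he3 | he3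
      · exact he3 rfl
      · exact hne he3.symm
    · rintro rfl
      rcases he3 with he3 | he3
      · exact he3 heq
      · exact hne he3
  have h7 := card_le_card h6
  rw [card_erase_of_mem hd2, card_erase_of_mem hd1, h5] at h7
  omega

theorem C4.five_le {G : DG V D} (h : G.C4) {X : Finset V} (hX : X ⊆ G.vs) (h1 : X ≠ G.vs)
    (ho : Odd X.card) : 5 ≤ G.dg X := by
  have h2 : X.Nonempty := by
    rw [← card_pos]
    exact ho.pos
  have h3 := h X hX h2 h1
  have h4 := G.par hX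
  have h5 : ¬ Even (G.dg X) := by
    rw [h4, Nat.not_even_iff_odd]
    exact ho
  rw [Nat.even_iff] at h5
  omega

theorem Mat.uniq {G : DG V D} {U M : Finset D} (h : G.Mat U M) {d e : D} (hd : d ∈ M) (he : e ∈ M)
    (hpi : G.pi d = G.pi e) : d = e := by
  have h1 := h.one (G.pi e) (G.pi_mem e (h.sub he))
  obtain ⟨a, ha⟩ := card_eq_one.1 h1
  have h2 : d ∈ M.filter fun d => G.pi d = G.pi e := mem_filter.2 ⟨hd, hpi⟩
  have h3 : e ∈ M.filter fun d => G.pi d = G.pi e := mem_filter.2 ⟨he, rfl⟩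
  rw [ha, mem_singleton] at h2 h3
  rw [h2, h3]

theorem Mat.ex {G : DG V D} {U M : Finset D} (h : G.Mat U M) {v : V} (hv : v ∈ G.vs) :
    ∃ d ∈ M, G.pi d = v := by
  have h1 := h.one v hv
  obtain ⟨a, ha⟩ := card_eq_one.1 h1
  have h2 : a ∈ M.filter fun d => G.pi d = v := by rw [ha]; exact mem_singleton_self a
  rw [mem_filter] at h2
  exact ⟨a, h2⟩

/-- the number of matching darts at the legs of `X` has the parity of `X` -/
theorem Mat.par {G : DG V D} {U M : Finset D} (h : G.Mat U M) {X : Finset V} (hX : X ⊆ G.vs) :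
    Even (M ∩ G.lg X).card ↔ Even X.card := by
  have hin : Even (M.filter fun d => G.pi d ∈ X ∧ G.pi (G.al d) ∈ X ∧ G.al d ≠ d).card := by
    apply G.even_of_closed ((Finset.filter_subset _ _).trans h.sub)
    · intro d hd
      rw [Finset.mem_filter] at hd ⊢
      obtain ⟨h1, h2, h3, h4⟩ := hd
      refine ⟨h.closed d h1, h3, ?_, ?_⟩
      · rw [G.al_al d (h.sub h1)]; exact h2
      · rw [G.al_al d (h.sub h1)]; exact fun h => h4 h.symm
    · intro d hd
      rw [Finset.mem_filter] at hd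
      exact hd.2.2.2
  have hall : (M.filter fun d => G.pi d ∈ X).card = X.card := by
    have h0 := Finset.card_eq_sum_card_fiberwise (s := M.filter fun d => G.pi d ∈ X) (t := X)
      (f := G.pi) (by
        intro d hd
        exact (Finset.mem_filter.1 (Finset.mem_coe.1 hd)).2)
    rw [h0]
    have h1 : ∀ v ∈ X, ((M.filter fun d => G.pi d ∈ X).filter fun d => G.pi d = v).card = 1 := by
      intro v hv
      rw [← h.one v (hX hv)]
      congr 1
      ext d
      simp only [Finset.mem_filter]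
      constructor
      · rintro ⟨⟨h1, _⟩, h3⟩
        exact ⟨h1, h3⟩
      · rintro ⟨h1, h3⟩
        exact ⟨⟨h1, h3 ▸ hv⟩, h3⟩
    rw [Finset.sum_congr rfl h1, Finset.sum_const, smul_eq_mul, mul_one]
  have hsum : (M ∩ G.lg X).card +
      (M.filter fun d => G.pi d ∈ X ∧ G.pi (G.al d) ∈ X ∧ G.al d ≠ d).card = X.card := by
    rw [← hall]
    have h1 : (M.filter fun d => G.pi d ∈ X) = (M ∩ G.lg X) ∪
        (M.filter fun d => G.pi d ∈ X ∧ G.pi (G.al d) ∈ X ∧ G.al d ≠ d) := by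
      ext d
      rw [mem_union, mem_inter, G.mem_lg, mem_filter, mem_filter]
      constructor
      · rintro ⟨h1, h2⟩
        have := h.sub h1
        tauto
      · rintro (⟨h1, -, h2, -⟩ | ⟨h1, h2, -⟩)
        · exact ⟨h1, h2⟩
        · exact ⟨h1, h2⟩
    rw [h1, card_union_of_disjoint]
    rw [Finset.disjoint_left]
    intro d h3 h4
    rw [mem_inter, G.mem_lg] at h3
    rw [mem_filter] at h4
    rcases h3.2.2.2 with h5 | h5
    · exact h5 h4.2.2.1
    · exact h4.2.2.2 h5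
  obtain ⟨k, hk⟩ := hin
  rw [Nat.even_iff, Nat.even_iff]
  omega

/-- it is enough to look at the sets avoiding one vertex -/
theorem con_of_avoid {M : Finset D} (hM : ∀ d ∈ M, G.al d ∈ M) (hs : M ⊆ G.ds) {v : V}
    (h : ∀ X ⊆ G.vs, X.Nonempty → v ∉ X → ∃ d ∈ G.bd X, d ∉ M) (hv : v ∈ G.vs) : G.Con M := by
  intro X hX hne hX2
  by_cases hvX : v ∈ X
  · have h1 : (G.vs \ X).Nonempty := by
      rw [sdiff_nonempty]
      exact fun h' => hX2 (Subset.antisymm hX h')
    obtain ⟨d, hd1, hd2⟩ := h (G.vs \ X) sdiff_subset h1 (fun h' => (mem_sdiff.1 h').2 hvX)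
    have h3 := G.mem_bd_compl hd1
    rw [Finset.sdiff_sdiff_eq_self hX] at h3
    refine ⟨G.al d, h3, fun h4 => hd2 ?_⟩
    have h5 := hM _ h4
    rwa [G.al_al d (G.mem_bd.1 hd1).1] at h5
  · exact h X hX hne hvX

end DG

end R5
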