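import Pool.Agent.Lib.R5.Basic

/-! R5 module Ctr: the contraction `G.ctr Z z hz h5` of a set with five legs. -/

set_option autoImplicit false

namespace R5

open Finset Classical

namespace DG

variable {V D : Type*} (G : DG V D) {Z : Finset V} {z : V} (hz : z ∈ Z) (h5 : (G.lg Z).card = 5)

theorem ctr_vs : (G.ctr Z z hz h5).vs = insert z (G.vs \ Z) := rfl

theorem ctr_al : (G.ctr Z z hz h5).al = G.al := rfl

theorem mem_ctr_ds {d : D} : d ∈ (G.ctr Z z hz h5).ds ↔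
    d ∈ G.ds ∧ (G.pi d ∉ Z ∨ G.pi (G.al d) ∉ Z ∨ G.al d = d) := by
  show d ∈ G.ds.filter (fun d => G.pi d ∉ Z ∨ G.pi (G.al d) ∉ Z ∨ G.al d = d) ↔ _
  exact mem_filter

theorem ctr_pi_pos {d : D} (h : G.pi d ∈ Z) : (G.ctr Z z hz h5).pi d = z := by
  show (if G.pi d ∈ Z then z else G.pi d) = _
  exact if_pos h

theorem ctr_pi_neg {d : D} (h : G.pi d ∉ Z) : (G.ctr Z z hz h5).pi d = G.pi d := by
  show (if G.pi d ∈ Z then z else G.pi d) = _
  exact if_neg h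

theorem ctr_pi_out {X : Finset V} (hX : Disjoint X Z) {d : D} :
    (G.ctr Z z hz h5).pi d ∈ X ↔ G.pi d ∈ X := by
  by_cases h : G.pi d ∈ Z
  · rw [ctr_pi_pos G hz h5 h]
    constructor
    · intro h1
      exact absurd hz (Finset.disjoint_left.1 hX h1)
    · intro h1
      exact absurd h (Finset.disjoint_left.1 hX h1)
  · rw [ctr_pi_neg G hz h5 h]

theorem ctr_pi_in {X : Finset V} {d : D} :
    (G.ctr Z z hz h5).pi d ∈ insert z X ↔ G.pi d ∈ X ∪ Z := by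
  rw [mem_insert, mem_union]
  by_cases h : G.pi d ∈ Z
  · rw [ctr_pi_pos G hz h5 h]
    exact ⟨fun _ => Or.inr h, fun _ => Or.inl rfl⟩
  · rw [ctr_pi_neg G hz h5 h]
    constructor
    · rintro (h1 | h1)
      · exact Or.inr (h1 ▸ hz)
      · exact Or.inl h1
    · rintro (h1 | h1)
      · exact Or.inr h1
      · exact absurd h1 h

theorem ctr_card (hZ : Z ⊆ G.vs) : (G.ctr Z z hz h5).vs.card = G.vs.card - Z.card + 1 := by
  rw [ctr_vs, card_insert_of_notMem (fun h => (mem_sdiff.1 h).2 hz), card_sdiff_of_subset hZ]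

theorem ctr_bd_out {X : Finset V} (hX : Disjoint X Z) : (G.ctr Z z hz h5).bd X = G.bd X := by
  ext d
  rw [mem_bd, mem_bd, mem_ctr_ds, ctr_al, ctr_pi_out G hz h5 hX, ctr_pi_out G hz h5 hX]
  constructor
  · rintro ⟨⟨h1, -⟩, h2, h3⟩
    exact ⟨h1, h2, h3⟩
  · rintro ⟨h1, h2, h3⟩
    exact ⟨⟨h1, Or.inl (Finset.disjoint_left.1 hX h2)⟩, h2, h3⟩

theorem ctr_bd_in {X : Finset V} (hX : Disjoint X Z) :
    (G.ctr Z z hz h5).bd (insert z X) = G.bd (X ∪ Z) := by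
  have _ := hX
  ext d
  rw [mem_bd, mem_bd, mem_ctr_ds, ctr_al, ctr_pi_in G hz h5, ctr_pi_in G hz h5]
  constructor
  · rintro ⟨⟨h1, -⟩, h2, h3⟩
    exact ⟨h1, h2, h3⟩
  · rintro ⟨h1, h2, h3⟩
    exact ⟨⟨h1, Or.inr (Or.inl (fun h => h3 (mem_union_right _ h)))⟩, h2, h3⟩

theorem ctr_tk_out {X : Finset V} (hX : Disjoint X Z) : (G.ctr Z z hz h5).tk X = G.tk X := by
  ext d
  rw [mem_tk, mem_tk, mem_ctr_ds, ctr_al, ctr_pi_out G hz h5 hX]
  constructor
  · rintro ⟨⟨h1, -⟩, h2, h3⟩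
    exact ⟨h1, h2, h3⟩
  · rintro ⟨h1, h2, h3⟩
    exact ⟨⟨h1, Or.inr (Or.inr h3)⟩, h2, h3⟩

theorem ctr_tk_in {X : Finset V} : (G.ctr Z z hz h5).tk (insert z X) = G.tk (X ∪ Z) := by
  ext d
  rw [mem_tk, mem_tk, mem_ctr_ds, ctr_al, ctr_pi_in G hz h5]
  constructor
  · rintro ⟨⟨h1, -⟩, h2, h3⟩
    exact ⟨h1, h2, h3⟩
  · rintro ⟨h1, h2, h3⟩
    exact ⟨⟨h1, Or.inr (Or.inr h3)⟩, h2, h3⟩

theorem ctr_dg_out {X : Finset V} (hX : Disjoint X Z) : (G.ctr Z z hz h5).dg X = G.dg X := by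
  unfold dg
  rw [ctr_bd_out G hz h5 hX, ctr_tk_out G hz h5 hX]

theorem ctr_dg_in {X : Finset V} (hX : Disjoint X Z) :
    (G.ctr Z z hz h5).dg (insert z X) = G.dg (X ∪ Z) := by
  unfold dg
  rw [ctr_bd_in G hz h5 hX, ctr_tk_in G hz h5]

theorem ctr_tk (hZ : Z ⊆ G.vs) : (G.ctr Z z hz h5).tk (G.ctr Z z hz h5).vs = G.tk G.vs := by
  rw [ctr_vs, ctr_tk_in, sdiff_union_of_subset hZ]

theorem C4.ctr {G : DG V D} (h : G.C4) {Z : Finset V} (hZ : Z ⊆ G.vs) {z : V} (hz : z ∈ Z)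
    (h5 : (G.lg Z).card = 5) : (G.ctr Z z hz h5).C4 := by
  intro X hX hne hX2
  rw [ctr_vs] at hX hX2
  by_cases hzX : z ∈ X
  · have hsub : X.erase z ⊆ G.vs \ Z := by
      intro v hv
      obtain ⟨h1, h2⟩ := mem_erase.1 hv
      rcases mem_insert.1 (hX h2) with h3 | h3
      · exact absurd h3 h1
      · exact h3
    have hdis : Disjoint (X.erase z) Z := by
      rw [Finset.disjoint_left]
      intro v hv
      exact (mem_sdiff.1 (hsub hv)).2
    rw [← insert_erase hzX, ctr_dg_in G hz h5 hdis]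
    refine h _ (union_subset (hsub.trans sdiff_subset) hZ) ⟨z, mem_union_right _ hz⟩ ?_
    intro heq
    apply hX2
    apply Subset.antisymm hX
    intro v hv
    rcases mem_insert.1 hv with rfl | hv
    · exact hzX
    · obtain ⟨h1, h2⟩ := mem_sdiff.1 hv
      rw [← heq] at h1
      rcases mem_union.1 h1 with h3 | h3
      · exact (mem_erase.1 h3).2
      · exact absurd h3 h2
  · have hsub : X ⊆ G.vs \ Z := by
      intro v hv
      rcases mem_insert.1 (hX hv) with rfl | h3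
      · exact absurd hv hzX
      · exact h3
    have hdis : Disjoint X Z := by
      rw [Finset.disjoint_left]
      intro v hv
      exact (mem_sdiff.1 (hsub hv)).2
    rw [ctr_dg_out G hz h5 hdis]
    refine h _ (hsub.trans sdiff_subset) hne ?_
    intro heq
    apply hzX
    rw [heq]
    exact hZ hz

end DG

end R5
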