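import Mathlib

/-! The 5-regular world of MP_c95763_co (S11409), dart model with tokens.

A graph `G : DG V D` has vertices `vs`, darts (half edges) `ds`; `pi d` is the vertex of `d`, `al d` the
other dart of its edge, `al d = d` means that `d` is a token (a dead stub, one unit of deficiency).
Every vertex has exactly five darts, tokens included. `dg X` is the function `c(X)` of r5core64.md.
All constructions keep the types `V` and `D`, so inductions run over the number of vertices. -/

set_option autoImplicit false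

namespace R5

open Finset Classical

/-- 5-valent graph with tokens -/
structure DG (V D : Type*) where
  vs : Finset V
  ds : Finset D
  pi : D → V
  al : D → D
  pi_mem : ∀ d ∈ ds, pi d ∈ vs
  al_mem : ∀ d ∈ ds, al d ∈ ds
  al_al : ∀ d ∈ ds, al (al d) = d
  five : ∀ v ∈ vs, (ds.filter fun d => pi d = v).card = 5

namespace DG

variable {V D : Type*} (G : DG V D)

/-- darts of the edges leaving `X` (the darts at `X`) -/
noncomputable def bd (X : Finset V) : Finset D :=
  G.ds.filter fun d => G.pi d ∈ X ∧ G.pi (G.al d) ∉ X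

/-- tokens at `X` -/
noncomputable def tk (X : Finset V) : Finset D :=
  G.ds.filter fun d => G.pi d ∈ X ∧ G.al d = d

/-- legs of `X`: darts at `X` which are tokens or whose edge leaves `X` -/
noncomputable def lg (X : Finset V) : Finset D :=
  G.ds.filter fun d => G.pi d ∈ X ∧ (G.pi (G.al d) ∉ X ∨ G.al d = d)

/-- `c(X)`: edges leaving `X` plus tokens at `X` -/
noncomputable def dg (X : Finset V) : ℕ := (G.bd X).card + (G.tk X).card

/-- the class: `c(X) ≥ 4` for all nonempty proper `X` -/
def C4 : Prop := ∀ X ⊆ G.vs, X.Nonempty → X ≠ G.vs → 4 ≤ G.dg X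

/-- `M` (a set of darts) matches every vertex exactly once, `U` is the set of tokens which are used -/
structure Mat (U M : Finset D) : Prop where
  sub : M ⊆ G.ds
  closed : ∀ d ∈ M, G.al d ∈ M
  tok : ∀ d ∈ M, (G.al d = d ↔ d ∈ U)
  usub : U ⊆ M
  one : ∀ v ∈ G.vs, (M.filter fun d => G.pi d = v).card = 1

/-- `G - M` is connected -/
def Con (M : Finset D) : Prop :=
  ∀ X ⊆ G.vs, X.Nonempty → X ≠ G.vs → ∃ d ∈ G.bd X, d ∉ M

/-- some matching using exactly the tokens `U` has connected complement -/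
def Sol (U : Finset D) : Prop := ∃ M, G.Mat U M ∧ G.Con M

/-- the statements (S) and (T) for `G` -/
structure PP : Prop where
  s : Even G.vs.card → (G.tk G.vs).card ≤ 6 → G.Sol ∅
  t : Odd G.vs.card → (G.tk G.vs).card = 5 → ∀ τ ∈ G.tk G.vs, G.Sol {τ}

/-- induction hypothesis -/
def IH (n : ℕ) (V D : Type*) : Prop := ∀ G : DG V D, G.vs.card < n → G.C4 → G.PP

/-- restriction to `Z`: edges leaving `Z` become tokens -/
noncomputable def res (Z : Finset V) (hZ : Z ⊆ G.vs) : DG V D where
  vs := Z
  ds := G.ds.filter fun d => G.pi d ∈ Z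
  pi := G.pi
  al := fun d => if G.pi (G.al d) ∈ Z then G.al d else d
  pi_mem := fun d hd => (mem_filter.1 hd).2
  al_mem := fun d hd => by
    obtain ⟨h1, h2⟩ := mem_filter.1 hd
    by_cases h : G.pi (G.al d) ∈ Z
    · simp only [h, if_true]
      exact mem_filter.2 ⟨G.al_mem d h1, h⟩
    · simp only [h, if_false]
      exact hd
  al_al := fun d hd => by
    obtain ⟨h1, h2⟩ := mem_filter.1 hd
    by_cases h : G.pi (G.al d) ∈ Z
    · simp only [h, if_true, G.al_al d h1, h2]
    · simp only [h, if_false]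
  five := fun v hv => by
    rw [← G.five v (hZ hv)]
    congr 1
    ext d
    simp only [mem_filter]
    constructor
    · rintro ⟨⟨h1, -⟩, h3⟩
      exact ⟨h1, h3⟩
    · rintro ⟨h1, h3⟩
      exact ⟨⟨h1, by rw [h3]; exact hv⟩, h3⟩

/-- contraction of a set `Z` with five legs to the vertex `z` (`z ∈ Z`) -/
noncomputable def ctr (Z : Finset V) (z : V) (hz : z ∈ Z)
    (h5 : (G.lg Z).card = 5) : DG V D where
  vs := insert z (G.vs \ Z)
  ds := G.ds.filter fun d => G.pi d ∉ Z ∨ G.pi (G.al d) ∉ Z ∨ G.al d = d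
  pi := fun d => if G.pi d ∈ Z then z else G.pi d
  al := G.al
  pi_mem := fun d hd => by
    by_cases h : G.pi d ∈ Z
    · simp only [h, if_true]
      exact mem_insert_self _ _
    · simp only [h, if_false]
      exact mem_insert_of_mem (mem_sdiff.2 ⟨G.pi_mem d (mem_filter.1 hd).1, h⟩)
  al_mem := fun d hd => by
    obtain ⟨h1, h2⟩ := mem_filter.1 hd
    refine mem_filter.2 ⟨G.al_mem d h1, ?_⟩
    rw [G.al_al d h1]
    rcases h2 with h2 | h2 | h2
    · exact Or.inr (Or.inl h2)
    · exact Or.inl h2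
    · exact Or.inr (Or.inr h2.symm)
  al_al := fun d hd => G.al_al d (mem_filter.1 hd).1
  five := fun v hv => by
    rcases mem_insert.1 hv with rfl | hv
    · rw [← h5]
      congr 1
      ext d
      simp only [mem_filter, lg]
      constructor
      · rintro ⟨⟨h1, h2⟩, h3⟩
        have h4 : G.pi d ∈ Z := by
          by_contra h
          rw [if_neg h] at h3
          exact h (h3 ▸ hz)
        refine ⟨h1, h4, ?_⟩
        rcases h2 with h2 | h2 | h2
        · exact absurd h4 h2
        · exact Or.inl h2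
        · exact Or.inr h2
      · rintro ⟨h1, h4, h2⟩
        exact ⟨⟨h1, Or.inr h2⟩, by rw [if_pos h4]⟩
    · obtain ⟨hv1, hv2⟩ := mem_sdiff.1 hv
      rw [← G.five v hv1]
      congr 1
      ext d
      simp only [mem_filter]
      constructor
      · rintro ⟨⟨h1, h2⟩, h3⟩
        by_cases h : G.pi d ∈ Z
        · rw [if_pos h] at h3
          exact absurd (h3 ▸ hz) hv2
        · rw [if_neg h] at h3
          exact ⟨h1, h3⟩
      · rintro ⟨h1, h3⟩
        have h : G.pi d ∉ Z := by rw [h3]; exact hv2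
        exact ⟨⟨h1, Or.inl h⟩, by rw [if_neg h]; exact h3⟩

/-- core hypotheses on the cuts (minimal counterexample) -/
structure Cuts7 : Prop where
  odd : ∀ Z ⊆ G.vs, Odd Z.card → 3 ≤ Z.card → Z ≠ G.vs → 7 ≤ G.dg Z
  even : ∀ Z ⊆ G.vs, Even Z.card → 4 ≤ Z.card → 2 ≤ (G.vs \ Z).card → 6 ≤ G.dg Z

/-- what is left open: (S) with six tokens and (T) in the core, given all smaller graphs -/
structure CoreThm (V D : Type*) : Prop where
  s : ∀ G : DG V D, G.C4 → IH G.vs.card V D → G.Cuts7 → Even G.vs.card → (G.tk G.vs).card = 6 →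
    (∀ v ∈ G.vs, (G.tk {v}).card ≤ 2) →
    (∀ Z ⊆ G.vs, Even Z.card → Z.Nonempty → Z ≠ G.vs → ¬ (G.dg Z ≤ 6 ∧ G.dg (G.vs \ Z) ≤ 6)) →
    G.Sol ∅
  t : ∀ G : DG V D, G.C4 → IH G.vs.card V D → G.Cuts7 → Odd G.vs.card → (G.tk G.vs).card = 5 →
    ∀ τ ∈ G.tk G.vs, (G.tk {G.pi τ}).card = 1 → G.Sol {τ}

end DG

end R5
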