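import Pool.Agent.Lib.R5.Defs

/-! R5 module DelE: deleting an edge (its two darts become tokens). -/

set_option autoImplicit false

namespace R5

open Finset Classical

namespace DG

variable {V D : Type*}

/-- delete the edge of the dart `d` -/
private noncomputable def DelE_del (G : DG V D) (d : D) (hd : d ∈ G.ds) : DG V D where
  vs := G.vs
  ds := G.ds
  pi := G.pi
  al := fun e => if e = d ∨ e = G.al d then e else G.al e
  pi_mem := G.pi_mem
  al_mem := fun e he => by
    by_cases h : e = d ∨ e = G.al d
    · simp only [h, if_true]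
      exact he
    · simp only [h, if_false]
      exact G.al_mem e he
  al_al := fun e he => by
    by_cases h : e = d ∨ e = G.al d
    · simp only [h, if_true]
    · have h1 : ¬ (G.al e = d ∨ G.al e = G.al d) := by
        rintro (h1 | h1)
        · exact h (Or.inr (by rw [← h1, G.al_al e he]))
        · refine h (Or.inl ?_)
          rw [← G.al_al e he, h1, G.al_al d hd]
      simp only [h, if_false, h1]
      exact G.al_al e he
  five := G.five

private theorem DelE_disj (G : DG V D) (X : Finset V) : Disjoint (G.bd X) (G.tk X) := by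
  rw [Finset.disjoint_left]
  intro e h1 h2
  obtain ⟨-, h3, h4⟩ := mem_filter.1 h1
  obtain ⟨-, -, h5⟩ := mem_filter.1 h2
  rw [h5] at h4
  exact h4 h3

private theorem DelE_dg (G : DG V D) (X : Finset V) : G.dg X = (G.bd X ∪ G.tk X).card := by
  rw [card_union_of_disjoint (DelE_disj G X)]
  rfl

private theorem DelE_le (G : DG V D) {d : D} (hd : d ∈ G.ds) (X : Finset V) :
    G.dg X ≤ (DelE_del G d hd).dg X := by
  rw [DelE_dg, DelE_dg]
  refine card_le_card ?_
  intro e he
  by_cases h : e = d ∨ e = G.al d
  · refine mem_union_right _ (mem_filter.2 ⟨?_, ?_, ?_⟩)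
    · rcases mem_union.1 he with he | he
      · exact (mem_filter.1 he).1
      · exact (mem_filter.1 he).1
    · rcases mem_union.1 he with he | he
      · exact (mem_filter.1 he).2.1
      · exact (mem_filter.1 he).2.1
    · change (if e = d ∨ e = G.al d then e else G.al e) = e
      rw [if_pos h]
  · rcases mem_union.1 he with he | he
    · obtain ⟨h1, h2, h3⟩ := mem_filter.1 he
      refine mem_union_left _ (mem_filter.2 ⟨h1, h2, ?_⟩)
      change G.pi (if e = d ∨ e = G.al d then e else G.al e) ∉ X
      rw [if_neg h]
      exact h3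
    · obtain ⟨h1, h2, h3⟩ := mem_filter.1 he
      refine mem_union_right _ (mem_filter.2 ⟨h1, h2, ?_⟩)
      change (if e = d ∨ e = G.al d then e else G.al e) = e
      rw [if_neg h]
      exact h3

/-- for (S) only six tokens matter -/
theorem dele {G : DG V D} (hC : G.C4) (he : Even G.vs.card) (hn : G.vs.Nonempty)
    (h4 : (G.tk G.vs).card ≤ 4) :
    ∃ H : DG V D, H.vs = G.vs ∧ H.C4 ∧ (H.tk H.vs).card = (G.tk G.vs).card + 2 ∧
      (H.Sol ∅ → G.Sol ∅) := by
  obtain ⟨v, hv⟩ := hn
  -- a dart which is not a token
  obtain ⟨d, hd, hdt⟩ : ∃ d ∈ G.ds, G.al d ≠ d := by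
    by_contra hcon
    push Not at hcon
    have h1 : (G.ds.filter fun d => G.pi d = v) ⊆ G.tk G.vs := by
      intro d hd
      obtain ⟨h1, h2⟩ := mem_filter.1 hd
      exact mem_filter.2 ⟨h1, by rw [h2]; exact hv, hcon d h1⟩
    have h2 := card_le_card h1
    rw [G.five v hv] at h2
    omega
  refine ⟨DelE_del G d hd, rfl, ?_, ?_, ?_⟩
  · intro X hX hX1 hX2
    exact (hC X hX hX1 hX2).trans (DelE_le G hd X)
  · have h1 : (DelE_del G d hd).tk (DelE_del G d hd).vs = insert d (insert (G.al d) (G.tk G.vs)) := by
      ext e
      simp only [mem_insert]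
      constructor
      · intro he
        obtain ⟨h1, h2, h3⟩ := mem_filter.1 he
        by_cases h : e = d ∨ e = G.al d
        · rcases h with h | h
          · exact Or.inl h
          · exact Or.inr (Or.inl h)
        · refine Or.inr (Or.inr (mem_filter.2 ⟨h1, h2, ?_⟩))
          change (if e = d ∨ e = G.al d then e else G.al e) = e at h3
          rwa [if_neg h] at h3
      · intro he
        have h5 : e ∈ G.ds ∧ G.pi e ∈ G.vs ∧ (if e = d ∨ e = G.al d then e else G.al e) = e := by
          rcases he with he | he | he
          · subst he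
            exact ⟨hd, G.pi_mem _ hd, by rw [if_pos (Or.inl rfl)]⟩
          · subst he
            exact ⟨G.al_mem _ hd, G.pi_mem _ (G.al_mem _ hd), by rw [if_pos (Or.inr rfl)]⟩
          · obtain ⟨h1, h2, h3⟩ := mem_filter.1 he
            refine ⟨h1, h2, ?_⟩
            by_cases h : e = d ∨ e = G.al d
            · rw [if_pos h]
            · rw [if_neg h]
              exact h3
        exact mem_filter.2 h5
    have h2 : G.al d ∉ G.tk G.vs := by
      intro h
      have h3 := (mem_filter.1 h).2.2
      rw [G.al_al d hd] at h3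
      exact hdt h3.symm
    have h3 : d ∉ insert (G.al d) (G.tk G.vs) := by
      intro h
      rcases mem_insert.1 h with h | h
      · exact hdt h.symm
      · exact hdt (mem_filter.1 h).2.2
    rw [h1, card_insert_of_notMem h3, card_insert_of_notMem h2]
  · rintro ⟨M, hM, hcon⟩
    have hnot : ∀ e ∈ M, ¬ (e = d ∨ e = G.al d) := by
      intro e he h
      have h1 : (DelE_del G d hd).al e = e := by
        change (if e = d ∨ e = G.al d then e else G.al e) = e
        rw [if_pos h]
      exact absurd ((hM.tok e he).1 h1) (notMem_empty e)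
    have hal : ∀ e ∈ M, (DelE_del G d hd).al e = G.al e := by
      intro e he
      change (if e = d ∨ e = G.al d then e else G.al e) = G.al e
      rw [if_neg (hnot e he)]
    refine ⟨M, ⟨hM.sub, ?_, ?_, hM.usub, hM.one⟩, ?_⟩
    · intro e he
      rw [← hal e he]
      exact hM.closed e he
    · intro e he
      rw [← hal e he]
      exact hM.tok e he
    · intro X hX hX1 hX2
      obtain ⟨e, he, heM⟩ := hcon X hX hX1 hX2
      refine ⟨e, ?_, heM⟩
      obtain ⟨h1, h2, h3⟩ := mem_filter.1 he
      refine mem_filter.2 ⟨h1, h2, ?_⟩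
      change G.pi (if e = d ∨ e = G.al d then e else G.al e) ∉ X at h3
      by_cases h : e = d ∨ e = G.al d
      · rw [if_pos h] at h3
        exact absurd h2 h3
      · rwa [if_neg h] at h3

end DG

end R5
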