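import Pool.Agent.Lib.R5.Glue

/-! R5 module Gadget: (G2), replacing an even set `Z` with four legs `a b | c d` by two vertices
`p, p'` of `Z` joined by a triple edge (six other darts of `Z`), legs `a, b` at `p`, `c, d` at `p'`. -/

set_option autoImplicit false

namespace R5

open Finset Classical

namespace DG

variable {V D : Type*}

/-- the data of the replacement -/
private structure GadgetData (G : DG V D) (Z : Finset V) where
  p : V
  q : V
  a : D
  b : D
  c : D
  d : D
  e : Fin 3 × Bool → D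
  hZ : Z ⊆ G.vs
  hp : p ∈ Z
  hq : q ∈ Z
  hpq : p ≠ q
  hlg : G.lg Z = {a, b, c, d}
  hab : a ≠ b
  hac : a ≠ c
  had : a ≠ d
  hbc : b ≠ c
  hbd : b ≠ d
  hcd : c ≠ d
  einj : Function.Injective e
  eds : ∀ i, e i ∈ G.ds
  eZ : ∀ i, G.pi (e i) ∈ Z
  elg : ∀ i, e i ∉ G.lg Z

namespace GadgetData

variable {G : DG V D} {Z : Finset V} (g : GadgetData G Z)

private noncomputable def npi (x : D) : V :=
  if G.pi x ∉ Z then G.pi x else
    if x = g.a ∨ x = g.b ∨ ∃ k, g.e (k, false) = x then g.p else g.q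

private noncomputable def nal (x : D) : D :=
  if h : ∃ i, g.e i = x then g.e (h.choose.1, !h.choose.2) else G.al x

private noncomputable def nds : Finset D :=
  G.ds.filter fun x => G.pi x ∉ Z ∨ x ∈ G.lg Z ∨ ∃ i, g.e i = x

private theorem nal_e (i : Fin 3 × Bool) : g.nal (g.e i) = g.e (i.1, !i.2) := by
  have h : ∃ j, g.e j = g.e i := ⟨i, rfl⟩
  have h1 : h.choose = i := g.einj h.choose_spec
  unfold nal
  rw [dif_pos h, h1]

private theorem nal_of {x : D} (h : ∀ i, g.e i ≠ x) : g.nal x = G.al x := by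
  unfold nal
  rw [dif_neg]
  rintro ⟨i, hi⟩
  exact h i hi

private theorem npi_out {x : D} (h : G.pi x ∉ Z) : g.npi x = G.pi x := by
  unfold npi
  rw [if_pos h]

private theorem npi_in {x : D} (h : G.pi x ∈ Z) : g.npi x = g.p ∨ g.npi x = g.q := by
  unfold npi
  rw [if_neg (not_not.2 h)]
  by_cases h1 : x = g.a ∨ x = g.b ∨ ∃ k, g.e (k, false) = x
  · rw [if_pos h1]
    exact Or.inl rfl
  · rw [if_neg h1]
    exact Or.inr rfl

private theorem npi_p {x : D} (h : G.pi x ∈ Z) :
    g.npi x = g.p ↔ x = g.a ∨ x = g.b ∨ ∃ k, g.e (k, false) = x := by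
  unfold npi
  rw [if_neg (not_not.2 h)]
  constructor
  · intro h1
    by_contra h2
    rw [if_neg h2] at h1
    exact g.hpq h1.symm
  · intro h1
    rw [if_pos h1]

private theorem mem_lg {x : D} : x ∈ G.lg Z ↔
    x ∈ G.ds ∧ G.pi x ∈ Z ∧ (G.pi (G.al x) ∉ Z ∨ G.al x = x) := by
  unfold DG.lg
  rw [mem_filter]

private theorem mem_nds {x : D} : x ∈ g.nds ↔
    x ∈ G.ds ∧ (G.pi x ∉ Z ∨ x ∈ G.lg Z ∨ ∃ i, g.e i = x) := by
  unfold nds
  rw [mem_filter]

private theorem ha : g.a ∈ G.lg Z := by rw [g.hlg]; simp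
private theorem hb : g.b ∈ G.lg Z := by rw [g.hlg]; simp
private theorem hc : g.c ∈ G.lg Z := by rw [g.hlg]; simp
private theorem hd : g.d ∈ G.lg Z := by rw [g.hlg]; simp

private theorem ne_e {x : D} (h : x ∈ G.lg Z) (i : Fin 3 × Bool) : g.e i ≠ x := by
  rintro rfl
  exact g.elg i h

private theorem ne_e' {x : D} (h : G.pi x ∉ Z) (i : Fin 3 × Bool) : g.e i ≠ x := by
  rintro rfl
  exact h (g.eZ i)

private theorem npi_q {x : D} (hx : x ∈ g.nds) (h : G.pi x ∈ Z) :
    g.npi x = g.q ↔ x = g.c ∨ x = g.d ∨ ∃ k, g.e (k, true) = x := by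
  have h0 : g.npi x = g.q ↔ ¬ g.npi x = g.p := by
    rcases g.npi_in h with h1 | h1
    · rw [h1]
      exact ⟨fun h2 => absurd h2 g.hpq, fun h2 => absurd rfl h2⟩
    · rw [h1]
      exact ⟨fun _ h2 => g.hpq h2.symm, fun _ => rfl⟩
  rw [h0, g.npi_p h]
  constructor
  · intro h1
    rcases (g.mem_nds.1 hx).2 with h2 | h2 | ⟨⟨k, β⟩, rfl⟩
    · exact absurd h h2
    · rw [g.hlg] at h2
      simp only [mem_insert, mem_singleton] at h2
      rcases h2 with h2 | h2 | h2 | h2
      · exact absurd (Or.inl h2) h1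
      · exact absurd (Or.inr (Or.inl h2)) h1
      · exact Or.inl h2
      · exact Or.inr (Or.inl h2)
    · cases β
      · exact absurd (Or.inr (Or.inr ⟨k, rfl⟩)) h1
      · exact Or.inr (Or.inr ⟨k, rfl⟩)
  · rintro (rfl | rfl | ⟨k, rfl⟩) (h1 | h1 | ⟨k', h1⟩)
    · exact g.hac h1.symm
    · exact g.hbc h1.symm
    · exact g.ne_e g.hc _ h1
    · exact g.had h1.symm
    · exact g.hbd h1.symm
    · exact g.ne_e g.hd _ h1
    · exact g.ne_e g.ha _ h1
    · exact g.ne_e g.hb _ h1
    · have h2 := g.einj h1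
      simp at h2

/-- partners of old darts are old -/
private theorem al_ne_e {x : D} (hx : x ∈ g.nds) (h : ∀ i, g.e i ≠ x) (i : Fin 3 × Bool) :
    g.e i ≠ G.al x := by
  intro h1
  obtain ⟨h2, h3⟩ := g.mem_nds.1 hx
  have h4 : x = G.al (g.e i) := by rw [h1, G.al_al x h2]
  have h5 : ¬ (G.pi (G.al (g.e i)) ∉ Z ∨ G.al (g.e i) = g.e i) := fun h6 =>
    g.elg i (mem_lg.2 ⟨g.eds i, g.eZ i, h6⟩)
  rw [not_or, not_not, ← h4] at h5
  rcases h3 with h3 | h3 | ⟨j, h3⟩
  · exact h3 h5.1
  · obtain ⟨-, -, h6 | h6⟩ := mem_lg.1 h3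
    · rw [← h1] at h6
      exact h6 (g.eZ i)
    · exact h5.2 (h6.symm.trans h1.symm)
  · exact h j h3

private theorem e_mem (i : Fin 3 × Bool) : g.e i ∈ g.nds :=
  g.mem_nds.2 ⟨g.eds i, Or.inr (Or.inr ⟨i, rfl⟩)⟩

private theorem lg_mem {x : D} (h : x ∈ G.lg Z) : x ∈ g.nds :=
  g.mem_nds.2 ⟨(mem_lg.1 h).1, Or.inr (Or.inl h)⟩

private theorem out_mem {x : D} (hx : x ∈ G.ds) (h : G.pi x ∉ Z) : x ∈ g.nds :=
  g.mem_nds.2 ⟨hx, Or.inl h⟩

private theorem not_e {x : D} (hx : x ∈ g.nds) (h : ∀ i, g.e i ≠ x) :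
    G.pi x ∉ Z ∨ x ∈ G.lg Z := by
  rcases (g.mem_nds.1 hx).2 with h1 | h1 | ⟨i, h1⟩
  · exact Or.inl h1
  · exact Or.inr h1
  · exact absurd h1 (h i)

private theorem nal_mem {x : D} (hx : x ∈ g.nds) : g.nal x ∈ g.nds := by
  by_cases h : ∃ i, g.e i = x
  · obtain ⟨i, rfl⟩ := h
    rw [g.nal_e]
    exact g.e_mem _
  · push Not at h
    rw [g.nal_of h]
    have hds := (g.mem_nds.1 hx).1
    by_cases h1 : G.pi (G.al x) ∈ Z
    · refine g.lg_mem (mem_lg.2 ⟨G.al_mem x hds, h1, ?_⟩)
      rw [G.al_al x hds]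
      rcases g.not_e hx h with h2 | h2
      · exact Or.inl h2
      · rcases (mem_lg.1 h2).2.2 with h3 | h3
        · exact absurd h1 h3
        · exact Or.inr h3.symm
    · exact g.out_mem (G.al_mem x hds) h1

private theorem nal_nal {x : D} (hx : x ∈ g.nds) : g.nal (g.nal x) = x := by
  by_cases h : ∃ i, g.e i = x
  · obtain ⟨i, rfl⟩ := h
    rw [g.nal_e, g.nal_e]
    simp
  · push Not at h
    rw [g.nal_of h, g.nal_of (g.al_ne_e hx h), G.al_al x (g.mem_nds.1 hx).1]

private theorem card_img (β : Bool) :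
    ((univ : Finset (Fin 3)).image fun k => g.e (k, β)).card = 3 := by
  rw [card_image_of_injective]
  · rfl
  · intro k l h
    have := g.einj h
    exact (Prod.mk.inj this).1

private theorem five_aux (x y : D) (β : Bool) (hxy : x ≠ y) (hx : x ∈ G.lg Z) (hy : y ∈ G.lg Z)
    (v : V) (hv : v ∈ Z)
    (h : ∀ z ∈ g.nds, G.pi z ∈ Z → (g.npi z = v ↔ z = x ∨ z = y ∨ ∃ k, g.e (k, β) = z)) :
    (g.nds.filter fun z => g.npi z = v).card = 5 := by
  have h1 : (g.nds.filter fun z => g.npi z = v) =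
      {x, y} ∪ (univ : Finset (Fin 3)).image fun k => g.e (k, β) := by
    ext z
    rw [mem_filter, mem_union, mem_insert, mem_singleton, mem_image]
    constructor
    · rintro ⟨h2, h3⟩
      have h4 : G.pi z ∈ Z := by
        by_contra h4
        rw [g.npi_out h4] at h3
        exact h4 (h3 ▸ hv)
      rcases (h z h2 h4).1 h3 with h5 | h5 | ⟨k, h5⟩
      · exact Or.inl (Or.inl h5)
      · exact Or.inl (Or.inr h5)
      · exact Or.inr ⟨k, mem_univ _, h5⟩
    · rintro ((rfl | rfl) | ⟨k, -, rfl⟩)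
      · exact ⟨g.lg_mem hx, (h _ (g.lg_mem hx) (mem_lg.1 hx).2.1).2 (Or.inl rfl)⟩
      · exact ⟨g.lg_mem hy, (h _ (g.lg_mem hy) (mem_lg.1 hy).2.1).2 (Or.inr (Or.inl rfl))⟩
      · exact ⟨g.e_mem _, (h _ (g.e_mem _) (g.eZ _)).2 (Or.inr (Or.inr ⟨k, rfl⟩))⟩
  rw [h1, card_union_of_disjoint, card_pair hxy, g.card_img]
  rw [disjoint_left]
  intro z hz hz'
  obtain ⟨k, -, rfl⟩ := mem_image.1 hz'
  rw [mem_insert, mem_singleton] at hz
  rcases hz with hz | hz
  · exact g.ne_e hx _ hz
  · exact g.ne_e hy _ hz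

/-- the new graph -/
private noncomputable def gr : DG V D where
  vs := insert g.p (insert g.q (G.vs \ Z))
  ds := g.nds
  pi := g.npi
  al := g.nal
  pi_mem := fun x hx => by
    by_cases h : G.pi x ∈ Z
    · rcases g.npi_in h with h1 | h1
      · rw [h1]
        exact mem_insert_self _ _
      · rw [h1]
        exact mem_insert_of_mem (mem_insert_self _ _)
    · rw [g.npi_out h]
      exact mem_insert_of_mem (mem_insert_of_mem
        (mem_sdiff.2 ⟨G.pi_mem x (g.mem_nds.1 hx).1, h⟩))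
  al_mem := fun x hx => g.nal_mem hx
  al_al := fun x hx => g.nal_nal hx
  five := fun v hv => by
    rw [mem_insert, mem_insert] at hv
    rcases hv with rfl | rfl | hv
    · exact g.five_aux g.a g.b false g.hab g.ha g.hb _ g.hp fun z _ h2 => g.npi_p h2
    · exact g.five_aux g.c g.d true g.hcd g.hc g.hd _ g.hq fun z h1 h2 => g.npi_q h1 h2
    · obtain ⟨hv1, hv2⟩ := mem_sdiff.1 hv
      rw [← G.five v hv1]
      congr 1
      ext x
      rw [mem_filter, mem_filter]
      constructor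
      · rintro ⟨h1, h2⟩
        refine ⟨(g.mem_nds.1 h1).1, ?_⟩
        by_cases h : G.pi x ∈ Z
        · rcases g.npi_in h with h3 | h3
          · rw [h3] at h2
            exact absurd (h2 ▸ g.hp) hv2
          · rw [h3] at h2
            exact absurd (h2 ▸ g.hq) hv2
        · rw [← g.npi_out h]
          exact h2
      · rintro ⟨h1, rfl⟩
        exact ⟨g.out_mem h1 hv2, g.npi_out hv2⟩

private theorem gr_lg {X : Finset V} {x : D} : x ∈ g.gr.lg X ↔
    x ∈ g.nds ∧ g.npi x ∈ X ∧ (g.npi (g.nal x) ∉ X ∨ g.nal x = x) := by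
  unfold DG.lg
  rw [mem_filter]
  rfl

private theorem le_dg {X : Finset V} {S : Finset D} (h : S ⊆ g.gr.lg X) (h4 : 4 ≤ S.card) :
    4 ≤ g.gr.dg X := by
  rw [← g.gr.card_lg]
  exact le_trans h4 (card_le_card h)

/-- sets which contain exactly one of the two new vertices -/
private theorem one_side (hC : G.C4) (x y : D) (β : Bool) (hx : x ∈ G.lg Z) (hy : y ∈ G.lg Z)
    (v : V) (hv : v ∈ Z)
    (h : ∀ z ∈ g.nds, G.pi z ∈ Z → (g.npi z = v ↔ z = x ∨ z = y ∨ ∃ k, g.e (k, β) = z))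
    {X : Finset V} (hX : X ⊆ g.gr.vs) (hvX : v ∈ X)
    (hout : ∀ z, G.pi z ∈ Z → g.npi z ≠ v → g.npi z ∉ X)
    (hoff : ∀ u ∈ X, u ≠ v → u ∈ G.vs \ Z) : 4 ≤ g.gr.dg X := by
  have he : ∀ k, g.e (k, β) ∈ g.gr.lg X := by
    intro k
    rw [g.gr_lg]
    refine ⟨g.e_mem _, ?_, Or.inl ?_⟩
    · rw [(h _ (g.e_mem _) (g.eZ _)).2 (Or.inr (Or.inr ⟨k, rfl⟩))]
      exact hvX
    · rw [g.nal_e]
      refine hout _ (g.eZ _) fun h1 => ?_
      rcases (h _ (g.e_mem _) (g.eZ _)).1 h1 with h2 | h2 | ⟨l, h2⟩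
      · exact g.ne_e hx _ h2
      · exact g.ne_e hy _ h2
      · have h3 := g.einj h2
        have h4 := (Prod.mk.inj h3).2
        cases β <;> simp at h4
  by_cases hY : (X.erase v).Nonempty
  · have hYs : X.erase v ⊆ G.vs := fun u hu =>
      (mem_sdiff.1 (hoff u (mem_of_mem_erase hu) (ne_of_mem_erase hu))).1
    have hYZ : ∀ u ∈ X.erase v, u ∉ Z := fun u hu =>
      (mem_sdiff.1 (hoff u (mem_of_mem_erase hu) (ne_of_mem_erase hu))).2
    have hYv : X.erase v ≠ G.vs := by
      intro h1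
      exact hYZ v (h1 ▸ g.hZ hv) hv
    have h4 := hC _ hYs hY hYv
    rw [← G.card_lg] at h4
    refine g.le_dg (S := (G.lg (X.erase v) \ {G.al x, G.al y}) ∪
      (univ : Finset (Fin 3)).image fun k => g.e (k, β)) ?_ ?_
    · intro z hz
      rcases mem_union.1 hz with hz | hz
      · obtain ⟨hz1, hz2⟩ := mem_sdiff.1 hz
        obtain ⟨hz3, hz4, hz5⟩ := mem_filter.1 hz1
        have hz6 := hYZ _ hz4
        have hz7 := g.ne_e' hz6
        have hz8 := g.out_mem hz3 hz6
        rw [g.gr_lg, g.nal_of hz7, g.npi_out hz6]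
        refine ⟨hz8, mem_of_mem_erase hz4, ?_⟩
        rcases hz5 with hz5 | hz5
        · left
          by_cases hz9 : G.pi (G.al z) ∈ Z
          · refine hout _ hz9 fun h1 => ?_
            rcases (h _ (by
                have := g.nal_mem hz8
                rwa [g.nal_of hz7] at this) hz9).1 h1 with h2 | h2 | ⟨l, h2⟩
            · apply hz2
              rw [← h2, G.al_al z hz3]
              simp
            · apply hz2
              rw [← h2, G.al_al z hz3]
              simp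
            · exact g.al_ne_e hz8 hz7 _ h2
          · rw [g.npi_out hz9]
            intro h1
            apply hz5
            rw [mem_erase]
            refine ⟨fun h2 => ?_, h1⟩
            rw [h2] at hz9
            exact hz9 hv
        · exact Or.inr hz5
      · obtain ⟨k, -, rfl⟩ := mem_image.1 hz
        exact he k
    · rw [card_union_of_disjoint, g.card_img]
      · have h5 : ({G.al x, G.al y} : Finset D).card ≤ 2 := card_le_two
        have h6 := le_card_sdiff ({G.al x, G.al y} : Finset D) (G.lg (X.erase v))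
        omega
      · rw [disjoint_left]
        intro z hz hz'
        obtain ⟨k, -, rfl⟩ := mem_image.1 hz'
        obtain ⟨hz1, -⟩ := mem_sdiff.1 hz
        obtain ⟨-, hz4, -⟩ := mem_filter.1 hz1
        exact hYZ _ hz4 (g.eZ _)
  · rw [not_nonempty_iff_eq_empty] at hY
    have hXv : ∀ u ∈ X, u = v := by
      intro u hu
      by_contra h1
      have : u ∈ X.erase v := mem_erase.2 ⟨h1, hu⟩
      rw [hY] at this
      exact notMem_empty _ this
    refine g.le_dg (S := insert x ((univ : Finset (Fin 3)).image fun k => g.e (k, β))) ?_ ?_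
    · intro z hz
      rcases mem_insert.1 hz with rfl | hz
      · have hz7 := g.ne_e hx
        rw [g.gr_lg, g.nal_of hz7, (h _ (g.lg_mem hx) (mem_lg.1 hx).2.1).2 (Or.inl rfl)]
        refine ⟨g.lg_mem hx, hvX, ?_⟩
        rcases (mem_lg.1 hx).2.2 with h1 | h1
        · left
          rw [g.npi_out h1]
          intro h2
          rw [hXv _ h2] at h1
          exact h1 hv
        · exact Or.inr h1
      · obtain ⟨k, -, rfl⟩ := mem_image.1 hz
        exact he k
    · rw [card_insert_of_notMem, g.card_img]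
      intro h1
      obtain ⟨k, -, h2⟩ := mem_image.1 h1
      exact g.ne_e hx _ h2

private theorem gr_C4 (hC : G.C4) : g.gr.C4 := by
  intro X hX hne hX2
  have hmem : ∀ u ∈ X, u = g.p ∨ u = g.q ∨ u ∈ G.vs \ Z := by
    intro u hu
    have := hX hu
    change u ∈ insert g.p (insert g.q (G.vs \ Z)) at this
    rwa [mem_insert, mem_insert] at this
  by_cases hp : g.p ∈ X
  · by_cases hq : g.q ∈ X
    · -- both
      have h1 : X ∪ Z ⊆ G.vs := by
        intro u hu
        rcases mem_union.1 hu with hu | hu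
        · rcases hmem u hu with rfl | rfl | h2
          · exact g.hZ g.hp
          · exact g.hZ g.hq
          · exact (mem_sdiff.1 h2).1
        · exact g.hZ hu
      have h2 : X ∪ Z ≠ G.vs := by
        intro h2
        apply hX2
        refine Subset.antisymm hX fun u hu => ?_
        change u ∈ insert g.p (insert g.q (G.vs \ Z)) at hu
        rw [mem_insert, mem_insert] at hu
        rcases hu with rfl | rfl | hu
        · exact hp
        · exact hq
        · obtain ⟨h3, h4⟩ := mem_sdiff.1 hu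
          rw [← h2] at h3
          rcases mem_union.1 h3 with h5 | h5
          · exact h5
          · exact absurd h5 h4
      have h4 := hC _ h1 (hne.mono subset_union_left) h2
      rw [← G.card_lg] at h4
      refine g.le_dg ?_ h4
      intro z hz
      obtain ⟨hz3, hz4, hz5⟩ := mem_filter.1 hz
      have key : z ∈ g.nds ∧ (∀ i, g.e i ≠ z) ∧ g.npi z ∈ X := by
        by_cases hzZ : G.pi z ∈ Z
        · have h6 : z ∈ G.lg Z := by
            refine mem_lg.2 ⟨hz3, hzZ, ?_⟩
            rcases hz5 with h7 | h7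
            · exact Or.inl fun h8 => h7 (mem_union_right _ h8)
            · exact Or.inr h7
          refine ⟨g.lg_mem h6, g.ne_e h6, ?_⟩
          rcases g.npi_in hzZ with h8 | h8
          · rw [h8]
            exact hp
          · rw [h8]
            exact hq
        · refine ⟨g.out_mem hz3 hzZ, g.ne_e' hzZ, ?_⟩
          rw [g.npi_out hzZ]
          rcases mem_union.1 hz4 with h8 | h8
          · exact h8
          · exact absurd h8 hzZ
      rw [g.gr_lg, g.nal_of key.2.1]
      refine ⟨key.1, key.2.2, ?_⟩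
      rcases hz5 with h7 | h7
      · left
        rw [mem_union, not_or] at h7
        rw [g.npi_out h7.2]
        exact h7.1
      · exact Or.inr h7
    · refine g.one_side hC g.a g.b false g.ha g.hb g.p g.hp (fun z _ h2 => g.npi_p h2) hX hp
        ?_ ?_
      · intro z h1 h2
        rcases g.npi_in h1 with h3 | h3
        · exact absurd h3 h2
        · rw [h3]
          exact hq
      · intro u hu h1
        rcases hmem u hu with h2 | rfl | h2
        · exact absurd h2 h1
        · exact absurd hu hq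
        · exact h2
  · by_cases hq : g.q ∈ X
    · refine g.one_side hC g.c g.d true g.hc g.hd g.q g.hq (fun z h1 h2 => g.npi_q h1 h2) hX hq
        ?_ ?_
      · intro z h1 h2
        rcases g.npi_in h1 with h3 | h3
        · rw [h3]
          exact hp
        · exact absurd h3 h2
      · intro u hu h1
        rcases hmem u hu with rfl | h2 | h2
        · exact absurd hu hp
        · exact absurd h2 h1
        · exact h2
    · -- none
      have hoff : ∀ u ∈ X, u ∈ G.vs ∧ u ∉ Z := by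
        intro u hu
        rcases hmem u hu with rfl | rfl | h2
        · exact absurd hu hp
        · exact absurd hu hq
        · exact mem_sdiff.1 h2
      have h2 : X ≠ G.vs := by
        intro h2
        exact (hoff g.p (h2 ▸ g.hZ g.hp)).2 g.hp
      have h4 := hC _ (fun u hu => (hoff u hu).1) hne h2
      rw [← G.card_lg] at h4
      refine g.le_dg ?_ h4
      intro z hz
      obtain ⟨hz3, hz4, hz5⟩ := mem_filter.1 hz
      have hz6 := (hoff _ hz4).2
      rw [g.gr_lg, g.nal_of (g.ne_e' hz6), g.npi_out hz6]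
      refine ⟨g.out_mem hz3 hz6, hz4, ?_⟩
      rcases hz5 with h7 | h7
      · left
        by_cases h8 : G.pi (G.al z) ∈ Z
        · rcases g.npi_in h8 with h9 | h9
          · rw [h9]
            exact hp
          · rw [h9]
            exact hq
        · rw [g.npi_out h8]
          exact h7
      · exact Or.inr h7

private theorem gr_tk : g.gr.tk g.gr.vs = G.tk G.vs := by
  ext x
  unfold DG.tk
  rw [mem_filter, mem_filter]
  change (x ∈ g.nds ∧ g.npi x ∈ g.gr.vs ∧ g.nal x = x) ↔ _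
  constructor
  · rintro ⟨h1, -, h3⟩
    by_cases h : ∃ i, g.e i = x
    · obtain ⟨⟨k, β⟩, rfl⟩ := h
      rw [g.nal_e] at h3
      have h4 := (Prod.mk.inj (g.einj h3)).2
      cases β <;> simp at h4
    · push Not at h
      rw [g.nal_of h] at h3
      have h4 := (g.mem_nds.1 h1).1
      exact ⟨h4, G.pi_mem x h4, h3⟩
  · rintro ⟨h1, -, h3⟩
    have h4 : x ∈ g.nds ∧ ∀ i, g.e i ≠ x := by
      by_cases hZ : G.pi x ∈ Z
      · have h5 : x ∈ G.lg Z := mem_lg.2 ⟨h1, hZ, Or.inr h3⟩
        exact ⟨g.lg_mem h5, g.ne_e h5⟩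
      · exact ⟨g.out_mem h1 hZ, g.ne_e' hZ⟩
    refine ⟨h4.1, g.gr.pi_mem x h4.1, ?_⟩
    rw [g.nal_of h4.2]
    exact h3

/-- the inner solution which fits to a matching of the new graph -/
private theorem inner (h0 : (G.res Z g.hZ).Sol ∅) (h1 : (G.res Z g.hZ).Sol {g.a, g.c})
    (h2 : (G.res Z g.hZ).Sol {g.a, g.d}) (h3 : (G.res Z g.hZ).Sol {g.b, g.c})
    (h5 : (G.res Z g.hZ).Sol {g.b, g.d}) {U M : Finset D} (hM : g.gr.Mat U M) :
    (G.res Z g.hZ).Sol (M ∩ G.lg Z) := by
  obtain ⟨x, hx, hxp⟩ := hM.ex (v := g.p) (mem_insert_self _ _)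
  obtain ⟨y, hy, hyq⟩ := hM.ex (v := g.q) (mem_insert_of_mem (mem_insert_self _ _))
  change g.npi x = g.p at hxp
  change g.npi y = g.q at hyq
  have hxn : x ∈ g.nds := hM.sub hx
  have hyn : y ∈ g.nds := hM.sub hy
  have hxZ : G.pi x ∈ Z := by
    by_contra h
    rw [g.npi_out h] at hxp
    exact h (hxp ▸ g.hp)
  have hyZ : G.pi y ∈ Z := by
    by_contra h
    rw [g.npi_out h] at hyq
    exact h (hyq ▸ g.hq)
  have hu : ∀ z ∈ M, G.pi z ∈ Z → z = x ∨ z = y := by
    intro z hz hzZ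
    rcases g.npi_in hzZ with h | h
    · exact Or.inl (hM.uniq hz hx (h.trans hxp.symm))
    · exact Or.inr (hM.uniq hz hy (h.trans hyq.symm))
  have hxy : ∀ l l' : D, x = l → y = l' → l ∈ G.lg Z → l' ∈ G.lg Z → M ∩ G.lg Z = {l, l'} := by
    rintro l l' rfl rfl hl hl'
    ext z
    rw [mem_inter, mem_insert, mem_singleton]
    constructor
    · rintro ⟨hz, hz'⟩
      exact hu z hz (mem_lg.1 hz').2.1
    · rintro (rfl | rfl)
      · exact ⟨hx, hl⟩
      · exact ⟨hy, hl'⟩
  have hex : ∀ k, x = g.e (k, false) → y = g.e (k, true) := by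
    rintro k rfl
    have h6 := hM.closed _ hx
    change g.nal _ ∈ M at h6
    rw [g.nal_e] at h6
    refine hM.uniq hy h6 (hyq.trans ?_)
    exact ((g.npi_q (g.e_mem _) (g.eZ _)).2 (Or.inr (Or.inr ⟨k, rfl⟩))).symm
  have hey : ∀ k, y = g.e (k, true) → x = g.e (k, false) := by
    rintro k rfl
    have h6 := hM.closed _ hy
    change g.nal _ ∈ M at h6
    rw [g.nal_e] at h6
    refine hM.uniq hx h6 (hxp.trans ?_)
    exact ((g.npi_p (g.eZ _)).2 (Or.inr (Or.inr ⟨k, rfl⟩))).symm
  have hemp : ∀ k, x = g.e (k, false) → M ∩ G.lg Z = ∅ := by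
    intro k hk
    rw [eq_empty_iff_forall_notMem]
    intro z hz
    obtain ⟨hz1, hz2⟩ := mem_inter.1 hz
    rcases hu z hz1 (mem_lg.1 hz2).2.1 with h6 | h6
    · exact g.ne_e hz2 (k, false) (h6.trans hk).symm
    · exact g.ne_e hz2 (k, true) (h6.trans (hex k hk)).symm
  rcases (g.npi_p hxZ).1 hxp with rfl | rfl | ⟨k, hk⟩
  · rcases (g.npi_q hyn hyZ).1 hyq with rfl | rfl | ⟨l, hl⟩
    · rw [hxy _ _ rfl rfl g.ha g.hc]
      exact h1
    · rw [hxy _ _ rfl rfl g.ha g.hd]
      exact h2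
    · rw [hemp l (hey l hl.symm)]
      exact h0
  · rcases (g.npi_q hyn hyZ).1 hyq with rfl | rfl | ⟨l, hl⟩
    · rw [hxy _ _ rfl rfl g.hb g.hc]
      exact h3
    · rw [hxy _ _ rfl rfl g.hb g.hd]
      exact h5
    · rw [hemp l (hey l hl.symm)]
      exact h0
  · rw [hemp k hk.symm]
    exact h0

private theorem lift (h0 : (G.res Z g.hZ).Sol ∅) (h1 : (G.res Z g.hZ).Sol {g.a, g.c})
    (h2 : (G.res Z g.hZ).Sol {g.a, g.d}) (h3 : (G.res Z g.hZ).Sol {g.b, g.c})
    (h5 : (G.res Z g.hZ).Sol {g.b, g.d}) {U : Finset D} (hS : g.gr.Sol U) : G.Sol U := by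
  obtain ⟨M, hM, hMC⟩ := hS
  obtain ⟨Mi, hMi, hCi⟩ := g.inner h0 h1 h2 h3 h5 hM
  have hne : ∀ z ∈ M, G.pi z ∉ Z ∨ z ∈ G.lg Z → g.nal z = G.al z ∧ ∀ i, g.e i ≠ z := by
    intro z _ hz
    have : ∀ i, g.e i ≠ z := by
      rcases hz with hz | hz
      · exact g.ne_e' hz
      · exact g.ne_e hz
    exact ⟨g.nal_of this, this⟩
  have ho : ∀ d ∈ M.filter (fun x => G.pi x ∉ Z), d ∈ G.ds ∧ G.pi d ∉ Z := by
    intro d hd
    obtain ⟨h6, h7⟩ := mem_filter.1 hd
    exact ⟨(g.mem_nds.1 (hM.sub h6)).1, h7⟩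
  have htok : ∀ d ∈ M, (G.pi d ∉ Z ∨ d ∈ G.lg Z) → (G.al d = d ↔ d ∈ U) := by
    intro d hd h6
    have h7 := hM.tok d hd
    change g.nal d = d ↔ d ∈ U at h7
    rwa [(hne d hd h6).1] at h7
  have hMil : ∀ d ∈ Mi, d ∈ G.lg Z → d ∈ M := by
    intro d hd hl
    have h6 := (hMi.tok d hd).1 (by
      change (if G.pi (G.al d) ∈ Z then G.al d else d) = d
      rcases (mem_lg.1 hl).2.2 with h7 | h7
      · rw [if_neg h7]
      · split_ifs
        · exact h7
        · rfl)
    exact (mem_inter.1 h6).1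
  have hMiZ : ∀ d ∈ Mi, G.pi d ∈ Z := fun d hd => (mem_filter.1 (hMi.sub hd)).2
  refine ⟨M.filter (fun x => G.pi x ∉ Z) ∪ Mi, ?_, ?_⟩
  · refine glue_mat hMi ho ?_ ?_ ?_ ?_ ?_
    · intro d hd
      obtain ⟨h6, h7⟩ := mem_filter.1 hd
      have h8 := hM.closed d h6
      change g.nal d ∈ M at h8
      rw [(hne d h6 (Or.inl h7)).1] at h8
      by_cases h9 : G.pi (G.al d) ∈ Z
      · right
        refine mem_inter.2 ⟨h8, mem_lg.2 ⟨G.al_mem d (ho d hd).1, h9, Or.inl ?_⟩⟩
        rw [G.al_al d (ho d hd).1]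
        exact h7
      · exact Or.inl (mem_filter.2 ⟨h8, h9⟩)
    · intro d hd
      obtain ⟨h6, h7⟩ := mem_inter.1 hd
      rcases (mem_lg.1 h7).2.2 with h8 | h8
      · right
        have h9 := hM.closed d h6
        change g.nal d ∈ M at h9
        rw [(hne d h6 (Or.inr h7)).1] at h9
        exact mem_filter.2 ⟨h9, h8⟩
      · exact Or.inl h8
    · intro v hv
      obtain ⟨hv1, hv2⟩ := mem_sdiff.1 hv
      have h6 := hM.one v (mem_insert_of_mem (mem_insert_of_mem hv))
      rw [← h6]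
      congr 1
      ext d
      rw [mem_filter, mem_filter, mem_filter]
      change _ ↔ d ∈ M ∧ g.npi d = v
      constructor
      · rintro ⟨⟨h7, h8⟩, h9⟩
        exact ⟨h7, by rw [g.npi_out h8]; exact h9⟩
      · rintro ⟨h7, h8⟩
        have h9 : G.pi d ∉ Z := by
          intro h9
          rcases g.npi_in h9 with h10 | h10
          · rw [h10] at h8
            exact hv2 (h8 ▸ g.hp)
          · rw [h10] at h8
            exact hv2 (h8 ▸ g.hq)
        rw [g.npi_out h9] at h8
        exact ⟨⟨h7, h9⟩, h8⟩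
    · intro d hd
      rcases mem_union.1 hd with hd | hd
      · obtain ⟨h6, h7⟩ := mem_filter.1 hd
        exact htok d h6 (Or.inl h7)
      · obtain ⟨h6, h7⟩ := mem_inter.1 hd
        exact htok d h6 (Or.inr h7)
    · intro d hd
      have h6 := hM.usub hd
      have h7 := (hM.tok d h6).2 hd
      change g.nal d = d at h7
      have h8 : ∀ i, g.e i ≠ d := by
        rintro ⟨k, β⟩ rfl
        rw [g.nal_e] at h7
        have h9 := (Prod.mk.inj (g.einj h7)).2
        cases β <;> simp at h9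
      rcases g.not_e (hM.sub h6) h8 with h9 | h9
      · exact mem_union_left _ (mem_filter.2 ⟨h6, h9⟩)
      · exact mem_union_right _ (mem_inter.2 ⟨h6, h9⟩)
  · refine glue_con hMi hCi ho ?_
    intro Y hY hYn hYv hYZ
    rcases hYZ with hYZ | hYZ
    · -- `Z ⊆ Y`
      have h6 : insert g.p (insert g.q (Y \ Z)) ⊆ g.gr.vs := by
        intro u hu
        rw [mem_insert, mem_insert] at hu
        rcases hu with rfl | rfl | hu
        · exact mem_insert_self _ _
        · exact mem_insert_of_mem (mem_insert_self _ _)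
        · obtain ⟨h7, h8⟩ := mem_sdiff.1 hu
          exact mem_insert_of_mem (mem_insert_of_mem (mem_sdiff.2 ⟨hY h7, h8⟩))
      have h7 : insert g.p (insert g.q (Y \ Z)) ≠ g.gr.vs := by
        intro h7
        apply hYv
        refine Subset.antisymm hY fun u hu => ?_
        by_cases hu2 : u ∈ Z
        · exact hYZ hu2
        · have h8 : u ∈ g.gr.vs :=
            mem_insert_of_mem (mem_insert_of_mem (mem_sdiff.2 ⟨hu, hu2⟩))
          rw [← h7, mem_insert, mem_insert] at h8
          rcases h8 with rfl | rfl | h8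
          · exact absurd g.hp hu2
          · exact absurd g.hq hu2
          · exact (mem_sdiff.1 h8).1
      obtain ⟨d, hd, hdM⟩ := hMC _ h6 ⟨g.p, mem_insert_self _ _⟩ h7
      obtain ⟨hd1, hd2, hd3⟩ := mem_filter.1 hd
      change d ∈ g.nds at hd1
      change g.npi d ∈ _ at hd2
      change g.npi (g.nal d) ∉ _ at hd3
      have hin : ∀ z, G.pi z ∈ Z → g.npi z ∈ insert g.p (insert g.q (Y \ Z)) := by
        intro z hz
        rcases g.npi_in hz with h8 | h8
        · rw [h8]
          exact mem_insert_self _ _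
        · rw [h8]
          exact mem_insert_of_mem (mem_insert_self _ _)
      have h8 : ∀ i, g.e i ≠ d := by
        rintro i rfl
        apply hd3
        rw [g.nal_e]
        exact hin _ (g.eZ _)
      rw [g.nal_of h8] at hd3
      have h9 : G.pi (G.al d) ∉ Z := fun h9 => hd3 (hin _ h9)
      rw [g.npi_out h9] at hd3
      have h10 : G.pi (G.al d) ∉ Y := fun h10 =>
        hd3 (mem_insert_of_mem (mem_insert_of_mem (mem_sdiff.2 ⟨h10, h9⟩)))
      have h11 : G.pi d ∈ Y := by
        by_cases h11 : G.pi d ∈ Z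
        · exact hYZ h11
        · rw [g.npi_out h11, mem_insert, mem_insert] at hd2
          rcases hd2 with h12 | h12 | h12
          · rw [h12]
            exact hYZ g.hp
          · rw [h12]
            exact hYZ g.hq
          · exact (mem_sdiff.1 h12).1
      refine ⟨d, mem_filter.2 ⟨(g.mem_nds.1 hd1).1, h11, h10⟩, ?_⟩
      rw [mem_union, not_or]
      refine ⟨fun h12 => hdM (mem_filter.1 h12).1, fun h12 => hdM ?_⟩
      exact hMil d h12 (mem_lg.2 ⟨(g.mem_nds.1 hd1).1, hMiZ d h12, Or.inl h9⟩)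
    · -- disjoint
      have hoff : ∀ u ∈ Y, u ∉ Z := fun u hu hu2 => (disjoint_left.1 hYZ) hu2 hu
      have h6 : Y ⊆ g.gr.vs := fun u hu =>
        mem_insert_of_mem (mem_insert_of_mem (mem_sdiff.2 ⟨hY hu, hoff u hu⟩))
      have h7 : Y ≠ g.gr.vs := by
        intro h7
        exact hoff g.p (h7 ▸ mem_insert_self _ _) g.hp
      obtain ⟨d, hd, hdM⟩ := hMC _ h6 hYn h7
      obtain ⟨hd1, hd2, hd3⟩ := mem_filter.1 hd
      change d ∈ g.nds at hd1
      change g.npi d ∈ Y at hd2
      change g.npi (g.nal d) ∉ Y at hd3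
      have h8 : G.pi d ∉ Z := by
        intro h8
        rcases g.npi_in h8 with h9 | h9
        · exact hoff _ hd2 (h9 ▸ g.hp)
        · exact hoff _ hd2 (h9 ▸ g.hq)
      rw [g.npi_out h8] at hd2
      rw [g.nal_of (g.ne_e' h8)] at hd3
      have h9 : G.pi (G.al d) ∉ Y := by
        intro h9
        apply hd3
        rw [g.npi_out (hoff _ h9)]
        exact h9
      refine ⟨d, mem_filter.2 ⟨(g.mem_nds.1 hd1).1, hd2, h9⟩, ?_⟩
      rw [mem_union, not_or]
      exact ⟨fun h12 => hdM (mem_filter.1 h12).1, fun h12 => h8 (hMiZ d h12)⟩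

end GadgetData

private theorem gadget_exists_e {G : DG V D} {Z : Finset V} (hZ : Z ⊆ G.vs) (h4 : 4 ≤ Z.card)
    (hl : (G.lg Z).card ≤ 4) : ∃ e : Fin 3 × Bool → D, Function.Injective e ∧
      ∀ i, e i ∈ G.ds ∧ G.pi (e i) ∈ Z ∧ e i ∉ G.lg Z := by
  have h1 : (G.ds.filter fun d => G.pi d ∈ Z).card = 5 * Z.card := by
    have hmap : ∀ d ∈ (G.ds.filter fun d => G.pi d ∈ Z), G.pi d ∈ Z :=
      fun d hd => (mem_filter.1 hd).2
    rw [card_eq_sum_card_fiberwise (f := G.pi) (s := G.ds.filter fun d => G.pi d ∈ Z) (t := Z)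
      hmap, sum_const_nat (m := 5), mul_comm]
    intro v hv
    rw [← G.five v (hZ hv), filter_filter]
    congr 1
    ext d
    rw [mem_filter, mem_filter]
    constructor
    · rintro ⟨h1, -, h2⟩
      exact ⟨h1, h2⟩
    · rintro ⟨h1, h2⟩
      exact ⟨h1, by rw [h2]; exact hv, h2⟩
  have h2 := le_card_sdiff (G.lg Z) (G.ds.filter fun d => G.pi d ∈ Z)
  have h3 : Fintype.card (Fin 3 × Bool) ≤
      Fintype.card ((G.ds.filter fun d => G.pi d ∈ Z) \ G.lg Z : Finset D) := by
    rw [Fintype.card_coe]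
    have : Fintype.card (Fin 3 × Bool) = 6 := rfl
    omega
  obtain ⟨f⟩ := Function.Embedding.nonempty_of_card_le h3
  refine ⟨fun i => (f i : D), fun i j h => f.injective (Subtype.ext h), fun i => ?_⟩
  obtain ⟨h5, h6⟩ := mem_sdiff.1 (f i).2
  obtain ⟨h7, h8⟩ := mem_filter.1 h5
  exact ⟨h7, h8, h6⟩

theorem gadget {G : DG V D} (hC : G.C4) (hI : IH G.vs.card V D) {Z : Finset V} (hZ : Z ⊆ G.vs)
    (he : Even Z.card) (h4 : 4 ≤ Z.card) (hne : Z ≠ G.vs) {a b c d : D}
    (hlg : G.lg Z = {a, b, c, d}) (hab : a ≠ b) (hac : a ≠ c) (had : a ≠ d) (hbc : b ≠ c)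
    (hbd : b ≠ d) (hcd : c ≠ d)
    (h0 : (G.res Z hZ).Sol ∅) (h1 : (G.res Z hZ).Sol {a, c}) (h2 : (G.res Z hZ).Sol {a, d})
    (h3 : (G.res Z hZ).Sol {b, c}) (h5 : (G.res Z hZ).Sol {b, d}) : G.PP := by
  have hl : (G.lg Z).card ≤ 4 := by
    rw [hlg]
    exact card_le_four
  obtain ⟨e, einj, hee⟩ := gadget_exists_e hZ h4 hl
  obtain ⟨p, hp, q, hq, hpq⟩ := one_lt_card.1 (show 1 < Z.card by omega)
  let g : GadgetData G Z := ⟨p, q, a, b, c, d, e, hZ, hp, hq, hpq, hlg, hab, hac, had, hbc, hbd,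
    hcd, einj, fun i => (hee i).1, fun i => (hee i).2.1, fun i => (hee i).2.2⟩
  have hcard : g.gr.vs.card = (G.vs \ Z).card + 2 := by
    change (insert p (insert q (G.vs \ Z))).card = _
    rw [card_insert_of_notMem, card_insert_of_notMem]
    · intro h
      exact (mem_sdiff.1 h).2 hq
    · intro h
      rcases mem_insert.1 h with h | h
      · exact hpq h
      · exact (mem_sdiff.1 h).2 hp
  have hcard2 : (G.vs \ Z).card + Z.card = G.vs.card := card_sdiff_add_card_eq_card hZ
  have hP : g.gr.PP := hI g.gr (by omega) (g.gr_C4 hC)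
  have htk := g.gr_tk
  have hpar : Even g.gr.vs.card ↔ Even G.vs.card := by
    rw [hcard, ← hcard2]
    obtain ⟨m, hm⟩ := he
    constructor
    · rintro ⟨k, hk⟩
      exact ⟨k + m - 1, by omega⟩
    · rintro ⟨k, hk⟩
      exact ⟨k - m + 1, by omega⟩
  refine ⟨fun hev ht => ?_, fun hodd ht τ hτ => ?_⟩
  · exact g.lift h0 h1 h2 h3 h5 (hP.s (hpar.2 hev) (by rw [htk]; exact ht))
  · refine g.lift h0 h1 h2 h3 h5 (hP.t ?_ (by rw [htk]; exact ht) τ (by rw [htk]; exact hτ))
    rw [← Nat.not_even_iff_odd] at hodd ⊢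
    exact fun h => hodd (hpar.1 h)

end DG

end R5
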