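import Pool.Agent.Lib.R5.Res

/-! R5 module Glue: gluing an outer set of darts `Mo` and a matching `Mi` of the restriction to `Z`. -/

set_option autoImplicit false

namespace R5

open Finset Classical

namespace DG

variable {V D : Type*} {G : DG V D} {Z : Finset V} {hZ : Z ⊆ G.vs} {U L Mo Mi : Finset D}

/-- `L` = legs of `Z` used by the inner matching -/
theorem glue_mat (hMi : (G.res Z hZ).Mat L Mi)
    (ho : ∀ d ∈ Mo, d ∈ G.ds ∧ G.pi d ∉ Z)
    (hcl : ∀ d ∈ Mo, G.al d ∈ Mo ∨ G.al d ∈ L)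
    (hL : ∀ d ∈ L, G.al d = d ∨ G.al d ∈ Mo)
    (hone : ∀ v ∈ G.vs \ Z, (Mo.filter fun d => G.pi d = v).card = 1)
    (hU : ∀ d ∈ Mo ∪ L, (G.al d = d ↔ d ∈ U)) (hUs : U ⊆ Mo ∪ L) :
    G.Mat U (Mo ∪ Mi) := by
  have hin : ∀ d ∈ Mi, d ∈ G.ds ∧ G.pi d ∈ Z := fun d hd => by
    have h := hMi.sub hd
    exact ⟨(mem_filter.1 h).1, (mem_filter.1 h).2⟩
  have hLM : L ⊆ Mi := hMi.usub
  have hmi : ∀ d ∈ Mi, (d ∈ L ∧ True) ∨ (d ∉ L ∧ G.pi (G.al d) ∈ Z ∧ G.al d ≠ d ∧ G.al d ∈ Mi) := by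
    intro d hd
    by_cases hdL : d ∈ L
    · exact Or.inl ⟨hdL, trivial⟩
    · right
      have h1 : (G.res Z hZ).al d ≠ d := fun h => hdL ((hMi.tok d hd).1 h)
      have h2 : (G.res Z hZ).al d = if G.pi (G.al d) ∈ Z then G.al d else d := rfl
      by_cases h3 : G.pi (G.al d) ∈ Z
      · rw [if_pos h3] at h2
        refine ⟨hdL, h3, ?_, ?_⟩
        · rw [← h2]; exact h1
        · rw [← h2]; exact hMi.closed d hd
      · rw [if_neg h3] at h2
        exact absurd h2 h1
  refine ⟨?_, ?_, ?_, ?_, ?_⟩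
  · intro d hd
    rcases mem_union.1 hd with h | h
    · exact (ho d h).1
    · exact (hin d h).1
  · intro d hd
    rcases mem_union.1 hd with h | h
    · rcases hcl d h with h1 | h1
      · exact mem_union_left _ h1
      · exact mem_union_right _ (hLM h1)
    · rcases hmi d h with ⟨h1, -⟩ | ⟨-, -, -, h4⟩
      · rcases hL d h1 with h2 | h2
        · rw [h2]; exact mem_union_right _ h
        · exact mem_union_left _ h2
      · exact mem_union_right _ h4
  · intro d hd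
    rcases mem_union.1 hd with h | h
    · exact hU d (mem_union_left _ h)
    · rcases hmi d h with ⟨h1, -⟩ | ⟨h1, -, h3, -⟩
      · exact hU d (mem_union_right _ h1)
      · constructor
        · intro h5
          exact absurd h5 h3
        · intro h5
          rcases mem_union.1 (hUs h5) with h6 | h6
          · exact absurd (hin d h).2 (ho d h6).2
          · exact absurd h6 h1
  · intro d hd
    rcases mem_union.1 (hUs hd) with h | h
    · exact mem_union_left _ h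
    · exact mem_union_right _ (hLM h)
  · intro v hv
    by_cases hvZ : v ∈ Z
    · have h1 := hMi.one v hvZ
      rw [← h1]
      congr 1
      ext d
      simp only [mem_filter, mem_union]
      constructor
      · rintro ⟨h2 | h2, h3⟩
        · exact absurd (h3 ▸ hvZ) (ho d h2).2
        · exact ⟨h2, h3⟩
      · rintro ⟨h2, h3⟩
        exact ⟨Or.inr h2, h3⟩
    · rw [← hone v (mem_sdiff.2 ⟨hv, hvZ⟩)]
      congr 1
      ext d
      simp only [mem_filter, mem_union]
      constructor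
      · rintro ⟨h2 | h2, h3⟩
        · exact ⟨h2, h3⟩
        · exact absurd (h3 ▸ (hin d h2).2) hvZ
      · rintro ⟨h2, h3⟩
        exact ⟨Or.inl h2, h3⟩

theorem glue_con (hMi : (G.res Z hZ).Mat L Mi) (hCi : (G.res Z hZ).Con Mi)
    (ho : ∀ d ∈ Mo, d ∈ G.ds ∧ G.pi d ∉ Z)
    (hout : ∀ Y ⊆ G.vs, Y.Nonempty → Y ≠ G.vs → (Z ⊆ Y ∨ Disjoint Z Y) →
      ∃ d ∈ G.bd Y, d ∉ Mo ∪ Mi) : G.Con (Mo ∪ Mi) := by
  intro X hX hXn hXv
  by_cases hc : Z ⊆ X ∨ Disjoint Z X
  · exact hout X hX hXn hXv hc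
  · rw [not_or] at hc
    obtain ⟨hc1, hc2⟩ := hc
    have hn : (X ∩ Z).Nonempty := by
      rw [disjoint_iff_inter_eq_empty, ← Ne, ← nonempty_iff_ne_empty, inter_comm] at hc2
      exact hc2
    have hne : X ∩ Z ≠ Z := fun h => hc1 (by rw [← h]; exact inter_subset_left)
    obtain ⟨d, hd, hdM⟩ := hCi (X ∩ Z) inter_subset_right hn hne
    have hd' := (mem_filter.1 hd)
    have h1 : d ∈ G.ds := (mem_filter.1 hd'.1).1
    have h2 : G.pi d ∈ X ∩ Z := hd'.2.1
    have h3 : G.pi ((G.res Z hZ).al d) ∉ X ∩ Z := hd'.2.2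
    have h4 : (G.res Z hZ).al d = if G.pi (G.al d) ∈ Z then G.al d else d := rfl
    by_cases h5 : G.pi (G.al d) ∈ Z
    · rw [h4, if_pos h5] at h3
      refine ⟨d, mem_filter.2 ⟨h1, (mem_inter.1 h2).1, fun h6 => h3 (mem_inter.2 ⟨h6, h5⟩)⟩, ?_⟩
      intro h6
      rcases mem_union.1 h6 with h7 | h7
      · exact (ho d h7).2 (mem_inter.1 h2).2
      · exact hdM h7
    · rw [h4, if_neg h5] at h3
      exact absurd h2 h3

end DG

end R5
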