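import Pool.Agent.Lib.R5.Basic

/-! R5 module Patt: patterns of an even set with four legs, (G2)(ii) of r5core64.md.
`G` is the graph on `Z` (four tokens); the new vertex `q` gets the five darts `Q`:
two of them are joined to the tokens `k, l`, three are tokens. (T) with `τ = i`. -/

set_option autoImplicit false

namespace R5

open Finset Classical

namespace DG

variable {V D : Type*}

/-- the matching dart at `q` is `q0` -/
private theorem patt_half {G G' : DG V D} {q : V} {Q : Finset D} {i k l q0 q1 : D}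
    (hq : q ∉ G.vs) (hvs : G'.vs = insert q G.vs) (hds : G'.ds = G.ds ∪ Q)
    (hdisj : ∀ d ∈ Q, d ∉ G.ds) (hpiQ : ∀ d ∈ Q, G'.pi d = q)
    (hpi : ∀ d ∈ G.ds, G'.pi d = G.pi d) (hk : k ∈ G.ds) (hl : l ∈ G.ds) (hak : G.al k = k)
    (hkl : k ≠ l) (hq0 : q0 ∈ Q) (hq1 : q1 ∈ Q) (h01 : q0 ≠ q1)
    (a1 : G'.al k = q0) (a2 : G'.al q0 = k) (a3 : G'.al l = q1) (a4 : G'.al q1 = l)
    (aQ : ∀ d ∈ Q, d ≠ q0 → d ≠ q1 → G'.al d = d)
    (aG : ∀ d ∈ G.ds, d ≠ k → d ≠ l → G'.al d = G.al d) (hi : i ∈ G.ds) {M : Finset D}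
    (hM : G'.Mat {i} M) (hCon : G'.Con M) (hm : q0 ∈ M) : G.Sol {i, k} := by
  have hq1M : q1 ∉ M := fun h => h01 (hM.uniq hm h (by rw [hpiQ _ hq0, hpiQ _ hq1]))
  have hlM : l ∉ M := fun h => hq1M (by
    have := hM.closed l h
    rwa [a3] at this)
  have hkM : k ∈ M := by
    have := hM.closed q0 hm
    rwa [a2] at this
  have hne : ∀ d ∈ G.ds, d ≠ k → d ≠ l → G.al d ≠ k ∧ G.al d ≠ l := by
    intro d hd h1 h2
    constructor
    · intro h
      apply h1
      rw [← G.al_al d hd, h, hak]
    · intro h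
      have h3 := aG d hd h1 h2
      have h4 := G'.al_al d (by rw [hds]; exact mem_union_left _ hd)
      rw [h3, h, a3] at h4
      exact hdisj q1 hq1 (h4 ▸ hd)
  refine ⟨M.filter fun d => d ∈ G.ds, ⟨?_, ?_, ?_, ?_, ?_⟩, ?_⟩
  · intro d hd
    exact (mem_filter.1 hd).2
  · intro d hd
    obtain ⟨h1, h2⟩ := mem_filter.1 hd
    refine mem_filter.2 ⟨?_, G.al_mem d h2⟩
    by_cases hdk : d = k
    · rw [hdk, hak]
      exact hkM
    · have hdl : d ≠ l := fun h => hlM (h ▸ h1)
      rw [← aG d h2 hdk hdl]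
      exact hM.closed d h1
  · intro d hd
    obtain ⟨h1, h2⟩ := mem_filter.1 hd
    by_cases hdk : d = k
    · rw [hdk, hak]
      simp
    · have hdl : d ≠ l := fun h => hlM (h ▸ h1)
      have h3 := hM.tok d h1
      rw [aG d h2 hdk hdl, mem_singleton] at h3
      rw [h3, mem_insert, mem_singleton]
      constructor
      · exact Or.inl
      · rintro (h | h)
        · exact h
        · exact absurd h hdk
  · intro d hd
    rw [mem_insert, mem_singleton] at hd
    rcases hd with rfl | rfl
    · exact mem_filter.2 ⟨hM.usub (mem_singleton_self _), hi⟩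
    · exact mem_filter.2 ⟨hkM, hk⟩
  · intro v hv
    have hv' : v ∈ G'.vs := by rw [hvs]; exact mem_insert_of_mem hv
    rw [← hM.one v hv']
    congr 1
    ext d
    simp only [mem_filter]
    constructor
    · rintro ⟨⟨h1, h2⟩, h3⟩
      exact ⟨h1, by rw [hpi d h2, h3]⟩
    · rintro ⟨h1, h3⟩
      have h4 := hM.sub h1
      rw [hds, mem_union] at h4
      rcases h4 with h4 | h4
      · exact ⟨⟨h1, h4⟩, by rw [← hpi d h4, h3]⟩
      · exfalso
        rw [hpiQ d h4] at h3
        exact hq (h3 ▸ hv)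
  · intro X hX hXn hXne
    by_cases hlX : G.pi l ∈ X
    · have hX' : insert q X ⊆ G'.vs := by
        rw [hvs]
        exact insert_subset_insert q hX
      have hne' : insert q X ≠ G'.vs := by
        intro h
        apply hXne
        rw [hvs] at h
        ext v
        constructor
        · exact fun hv => hX hv
        · intro hv
          have h5 : v ∈ insert q X := by rw [h]; exact mem_insert_of_mem hv
          rcases mem_insert.1 h5 with rfl | h5
          · exact absurd hv hq
          · exact h5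
      obtain ⟨d, hd, hdM⟩ := hCon _ hX' (insert_nonempty q X) hne'
      obtain ⟨h1, h2, h3⟩ := mem_filter.1 hd
      rw [hds, mem_union] at h1
      rcases h1 with h1 | h1
      · have hdk : d ≠ k := fun h => hdM (h ▸ hkM)
        have hdl : d ≠ l := by
          rintro rfl
          rw [a3, hpiQ q1 hq1] at h3
          exact h3 (mem_insert_self _ _)
        rw [aG d h1 hdk hdl, hpi _ (G.al_mem d h1)] at h3
        rw [hpi d h1] at h2
        refine ⟨d, mem_filter.2 ⟨h1, ?_, fun h => h3 (mem_insert_of_mem h)⟩, fun h =>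
          hdM (mem_filter.1 h).1⟩
        rcases mem_insert.1 h2 with h2 | h2
        · exact absurd (h2 ▸ G.pi_mem d h1) hq
        · exact h2
      · exfalso
        have hd0 : d ≠ q0 := fun h => hdM (h ▸ hm)
        by_cases hd1 : d = q1
        · rw [hd1, a4, hpi l hl] at h3
          exact h3 (mem_insert_of_mem hlX)
        · rw [aQ d h1 hd0 hd1, hpiQ d h1] at h3
          exact h3 (mem_insert_self _ _)
    · have hX' : X ⊆ G'.vs := by
        rw [hvs]
        exact hX.trans (subset_insert _ _)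
      have hne' : X ≠ G'.vs := by
        intro h
        apply hq
        apply hX
        rw [h, hvs]
        exact mem_insert_self _ _
      obtain ⟨d, hd, hdM⟩ := hCon _ hX' hXn hne'
      obtain ⟨h1, h2, h3⟩ := mem_filter.1 hd
      rw [hds, mem_union] at h1
      rcases h1 with h1 | h1
      · have hdk : d ≠ k := fun h => hdM (h ▸ hkM)
        rw [hpi d h1] at h2
        have hdl : d ≠ l := by
          rintro rfl
          exact hlX h2
        rw [aG d h1 hdk hdl, hpi _ (G.al_mem d h1)] at h3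
        exact ⟨d, mem_filter.2 ⟨h1, h2, h3⟩, fun h => hdM (mem_filter.1 h).1⟩
      · exfalso
        rw [hpiQ d h1] at h2
        exact hq (hX h2)

/-- the graph with the new vertex -/
private theorem patt_graph {G : DG V D} {q : V} (hq : q ∉ G.vs) {Q : Finset D}
    (hQ : Q.card = 5) (hdisj : ∀ d ∈ Q, d ∉ G.ds) {k l q0 q1 : D}
    (hk : k ∈ G.ds) (hl : l ∈ G.ds) (hak : G.al k = k) (hal : G.al l = l)
    (hkl : k ≠ l) (hq0 : q0 ∈ Q) (hq1 : q1 ∈ Q) (h01 : q0 ≠ q1) :
    ∃ G' : DG V D, G'.vs = insert q G.vs ∧ G'.ds = G.ds ∪ Q ∧ (∀ d ∈ Q, G'.pi d = q) ∧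
      (∀ d ∈ G.ds, G'.pi d = G.pi d) ∧ G'.al k = q0 ∧ G'.al q0 = k ∧ G'.al l = q1 ∧
      G'.al q1 = l ∧ (∀ d ∈ Q, d ≠ q0 → d ≠ q1 → G'.al d = d) ∧
      (∀ d ∈ G.ds, d ≠ k → d ≠ l → G'.al d = G.al d) := by
  have n0 : q0 ∉ G.ds := hdisj _ hq0
  have n1 : q1 ∉ G.ds := hdisj _ hq1
  have k0 : q0 ≠ k := fun h => n0 (h ▸ hk)
  have k1 : q1 ≠ k := fun h => n1 (h ▸ hk)
  have l0 : l ≠ q0 := fun h => n0 (h ▸ hl)
  have l1 : q1 ≠ l := fun h => n1 (h ▸ hl)
  have kQ : k ∉ Q := fun h => hdisj k h hk
  have lQ : l ∉ Q := fun h => hdisj l h hl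
  obtain ⟨f, hf⟩ : ∃ f : D → D, f = fun d => if d = k then q0 else if d = q0 then k else
    if d = l then q1 else if d = q1 then l else if d ∈ Q then d else G.al d := ⟨_, rfl⟩
  have f1 : f k = q0 := by rw [hf]; simp
  have f2 : f q0 = k := by rw [hf]; simp [k0]
  have f3 : f l = q1 := by rw [hf]; simp [l0, hkl.symm]
  have f4 : f q1 = l := by rw [hf]; simp [k1, l1, h01.symm]
  have f5 : ∀ d ∈ Q, d ≠ q0 → d ≠ q1 → f d = d := by
    intro d hd h0 h1
    have h2 : d ≠ k := fun h => kQ (h ▸ hd)
    have h3 : d ≠ l := fun h => lQ (h ▸ hd)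
    rw [hf]
    simp [h0, h1, h2, h3, hd]
  have f6 : ∀ d ∈ G.ds, d ≠ k → d ≠ l → f d = G.al d := by
    intro d hd h2 h3
    have h0 : d ≠ q0 := fun h => n0 (h ▸ hd)
    have h1 : d ≠ q1 := fun h => n1 (h ▸ hd)
    have h4 : d ∉ Q := fun h => hdisj d h hd
    rw [hf]
    simp [h0, h1, h2, h3, h4]
  have hcase : ∀ d ∈ G.ds ∪ Q, d = k ∨ d = l ∨ d = q0 ∨ d = q1 ∨
      (d ∈ Q ∧ d ≠ q0 ∧ d ≠ q1) ∨ (d ∈ G.ds ∧ d ≠ k ∧ d ≠ l) := by
    intro d hd
    rw [mem_union] at hd
    tauto
  have hnal : ∀ d ∈ G.ds, d ≠ k → d ≠ l → G.al d ≠ k ∧ G.al d ≠ l := by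
    intro d hd h1 h2
    constructor
    · intro h
      apply h1
      rw [← G.al_al d hd, h, hak]
    · intro h
      apply h2
      rw [← G.al_al d hd, h, hal]
  refine ⟨⟨insert q G.vs, G.ds ∪ Q, fun d => if d ∈ Q then q else G.pi d, f, ?_, ?_, ?_, ?_⟩,
    rfl, rfl, ?_, ?_, f1, f2, f3, f4, f5, f6⟩
  · intro d hd
    by_cases h : d ∈ Q
    · simp only [h, if_true]
      exact mem_insert_self _ _
    · simp only [h, if_false]
      exact mem_insert_of_mem (G.pi_mem d ((mem_union.1 hd).resolve_right h))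
  · intro d hd
    rcases hcase d hd with rfl | rfl | rfl | rfl | ⟨h1, h2, h3⟩ | ⟨h1, h2, h3⟩
    · rw [f1]
      exact mem_union_right _ hq0
    · rw [f3]
      exact mem_union_right _ hq1
    · rw [f2]
      exact mem_union_left _ hk
    · rw [f4]
      exact mem_union_left _ hl
    · rw [f5 d h1 h2 h3]
      exact hd
    · rw [f6 d h1 h2 h3]
      exact mem_union_left _ (G.al_mem d h1)
  · intro d hd
    rcases hcase d hd with rfl | rfl | rfl | rfl | ⟨h1, h2, h3⟩ | ⟨h1, h2, h3⟩
    · rw [f1, f2]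
    · rw [f3, f4]
    · rw [f2, f1]
    · rw [f4, f3]
    · rw [f5 d h1 h2 h3, f5 d h1 h2 h3]
    · obtain ⟨h4, h5⟩ := hnal d h1 h2 h3
      rw [f6 d h1 h2 h3, f6 _ (G.al_mem d h1) h4 h5, G.al_al d h1]
  · intro v hv
    rcases mem_insert.1 hv with rfl | hv
    · rw [← hQ]
      congr 1
      ext d
      simp only [mem_filter, mem_union]
      constructor
      · rintro ⟨h1, h2⟩
        by_contra h
        rw [if_neg h] at h2
        exact hq (h2 ▸ G.pi_mem d (h1.resolve_right h))
      · intro h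
        exact ⟨Or.inr h, by rw [if_pos h]⟩
    · rw [← G.five v hv]
      congr 1
      ext d
      simp only [mem_filter, mem_union]
      constructor
      · rintro ⟨h1, h2⟩
        by_cases h : d ∈ Q
        · rw [if_pos h] at h2
          exact absurd (h2 ▸ hv) hq
        · rw [if_neg h] at h2
          exact ⟨h1.resolve_right h, h2⟩
      · rintro ⟨h1, h2⟩
        exact ⟨Or.inl h1, by rw [if_neg (fun h => hdisj d h h1)]; exact h2⟩
  · intro d hd
    show (if d ∈ Q then q else G.pi d) = q
    rw [if_pos hd]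
  · intro d hd
    show (if d ∈ Q then q else G.pi d) = G.pi d
    rw [if_neg (fun h => hdisj d h hd)]

theorem patt {G : DG V D} (hC : G.C4) {n : ℕ} (hI : IH n V D) (hn : G.vs.card + 1 < n)
    (he : Even G.vs.card) (ht : (G.tk G.vs).card = 4) {q : V} (hq : q ∉ G.vs) {Q : Finset D}
    (hQ : Q.card = 5) (hQd : Disjoint Q G.ds) {i k l : D} (hi : i ∈ G.tk G.vs)
    (hk : k ∈ G.tk G.vs) (hl : l ∈ G.tk G.vs) (hik : i ≠ k) (hil : i ≠ l) (hkl : k ≠ l) :
    G.Sol {i, k} ∨ G.Sol {i, l} := by
  have hdisj : ∀ d ∈ Q, d ∉ G.ds := fun d hd h => disjoint_left.1 hQd hd h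
  obtain ⟨hi1, hi2, hi3⟩ := mem_filter.1 hi
  obtain ⟨hk1, hk2, hk3⟩ := mem_filter.1 hk
  obtain ⟨hl1, hl2, hl3⟩ := mem_filter.1 hl
  obtain ⟨q0, hq0, q1, hq1, h01⟩ := one_lt_card.1 (by rw [hQ]; omega : 1 < Q.card)
  obtain ⟨G', hvs, hds, hpiQ, hpi, a1, a2, a3, a4, aQ, aG⟩ :=
    patt_graph hq hQ hdisj hk1 hl1 hk3 hl3 hkl hq0 hq1 h01
  have kQ : k ∉ Q := fun h => hdisj k h hk1
  have lQ : l ∉ Q := fun h => hdisj l h hl1
  have cQ : (Q \ {q0, q1}).card = 3 := by
    rw [card_sdiff_of_subset (by
      intro d hd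
      rw [mem_insert, mem_singleton] at hd
      rcases hd with rfl | rfl
      · exact hq0
      · exact hq1), card_pair h01, hQ]
  -- sets without `q`
  have lg0 : ∀ X ⊆ G.vs, G'.dg X = G.dg X := by
    intro X hX
    rw [← card_lg, ← card_lg]
    congr 1
    have hqX : q ∉ X := fun h => hq (hX h)
    ext d
    simp only [lg, mem_filter]
    rw [hds, mem_union]
    constructor
    · rintro ⟨h1, h2, h3⟩
      rcases h1 with h1 | h1
      · rw [hpi d h1] at h2
        refine ⟨h1, h2, ?_⟩
        by_cases hdk : d = k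
        · rw [hdk]
          exact Or.inr hk3
        · by_cases hdl : d = l
          · rw [hdl]
            exact Or.inr hl3
          · rwa [aG d h1 hdk hdl, hpi _ (G.al_mem d h1)] at h3
      · rw [hpiQ d h1] at h2
        exact absurd h2 hqX
    · rintro ⟨h1, h2, h3⟩
      refine ⟨Or.inl h1, by rw [hpi d h1]; exact h2, ?_⟩
      by_cases hdk : d = k
      · left
        rw [hdk, a1, hpiQ q0 hq0]
        exact hqX
      · by_cases hdl : d = l
        · left
          rw [hdl, a3, hpiQ q1 hq1]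
          exact hqX
        · rw [aG d h1 hdk hdl, hpi _ (G.al_mem d h1)]
          exact h3
  have hC' : G'.C4 := by
    intro X hX hXn hXne
    by_cases hqX : q ∈ X
    · obtain ⟨W, hW⟩ : ∃ W, W = X.erase q := ⟨_, rfl⟩
      have hqW : q ∉ W := by rw [hW]; exact notMem_erase q X
      have hXW : X = insert q W := by rw [hW, insert_erase hqX]
      have hWv : W ⊆ G.vs := by
        intro v hv
        have h1 : v ∈ G'.vs := hX (by rw [hXW]; exact mem_insert_of_mem hv)
        rw [hvs] at h1
        rcases mem_insert.1 h1 with rfl | h1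
        · exact absurd hv hqW
        · exact h1
      rw [← card_lg]
      by_cases hW0 : W = ∅
      · have : Q ⊆ G'.lg X := by
          intro d hd
          refine mem_filter.2 ⟨by rw [hds]; exact mem_union_right _ hd,
            by rw [hpiQ d hd]; exact hqX, ?_⟩
          rw [hXW, hW0]
          by_cases h0 : d = q0
          · left
            rw [h0, a2, hpi k hk1]
            intro h
            simp only [insert_empty_eq, mem_singleton] at h
            exact hq (h ▸ hk2)
          · by_cases h1 : d = q1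
            · left
              rw [h1, a4, hpi l hl1]
              intro h
              simp only [insert_empty_eq, mem_singleton] at h
              exact hq (h ▸ hl2)
            · right
              exact aQ d hd h0 h1
        have := card_le_card this
        omega
      · have hWne : W ≠ G.vs := by
          intro h
          apply hXne
          rw [hXW, hvs, h]
        have h4 := hC W hWv (nonempty_iff_ne_empty.2 hW0) hWne
        rw [← card_lg] at h4
        have hsub : (Q \ {q0, q1}) ∪ (G.lg W \ {k, l}) ⊆ G'.lg X := by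
          intro d hd
          rcases mem_union.1 hd with hd | hd
          · obtain ⟨h1, h2⟩ := mem_sdiff.1 hd
            rw [mem_insert, mem_singleton, not_or] at h2
            exact mem_filter.2 ⟨by rw [hds]; exact mem_union_right _ h1,
              by rw [hpiQ d h1]; exact hqX, Or.inr (aQ d h1 h2.1 h2.2)⟩
          · obtain ⟨h1, h2⟩ := mem_sdiff.1 hd
            rw [mem_insert, mem_singleton, not_or] at h2
            obtain ⟨h3, h5, h6⟩ := mem_filter.1 h1
            refine mem_filter.2 ⟨by rw [hds]; exact mem_union_left _ h3,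
              by rw [hpi d h3, hXW]; exact mem_insert_of_mem h5, ?_⟩
            rw [aG d h3 h2.1 h2.2, hpi _ (G.al_mem d h3), hXW]
            rcases h6 with h6 | h6
            · left
              intro h
              rcases mem_insert.1 h with h | h
              · exact hq (h ▸ G.pi_mem _ (G.al_mem d h3))
              · exact h6 h
            · exact Or.inr h6
        have hdis : Disjoint (Q \ {q0, q1}) (G.lg W \ {k, l}) := by
          rw [disjoint_left]
          intro d h1 h2
          exact hdisj d (mem_sdiff.1 h1).1 (mem_filter.1 (mem_sdiff.1 h2).1).1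
        have h5 := card_le_card hsub
        rw [card_union_of_disjoint hdis, cQ] at h5
        have h6 := le_card_sdiff {k, l} (G.lg W)
        have h7 : ({k, l} : Finset D).card ≤ 2 := card_le_two
        omega
    · have hXv : X ⊆ G.vs := by
        intro v hv
        have h1 := hX hv
        rw [hvs] at h1
        rcases mem_insert.1 h1 with rfl | h1
        · exact absurd hv hqX
        · exact h1
      rw [lg0 X hXv]
      by_cases h : X = G.vs
      · rw [h, dg_vs, ht]
      · exact hC X hXv hXn h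
  have htk : G'.tk G'.vs = (G.tk G.vs \ {k, l}) ∪ (Q \ {q0, q1}) := by
    ext d
    rw [mem_union, mem_sdiff, mem_sdiff, mem_insert, mem_singleton, mem_insert, mem_singleton,
      not_or, not_or]
    simp only [tk, mem_filter]
    rw [hds, mem_union]
    constructor
    · rintro ⟨h1, h2, h3⟩
      rcases h1 with h1 | h1
      · left
        have hdk : d ≠ k := by
          rintro rfl
          rw [a1] at h3
          exact kQ (h3 ▸ hq0)
        have hdl : d ≠ l := by
          rintro rfl
          rw [a3] at h3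
          exact lQ (h3 ▸ hq1)
        rw [aG d h1 hdk hdl] at h3
        exact ⟨⟨h1, G.pi_mem d h1, h3⟩, hdk, hdl⟩
      · right
        refine ⟨h1, ?_, ?_⟩
        · rintro rfl
          rw [a2] at h3
          exact kQ (h3 ▸ h1)
        · rintro rfl
          rw [a4] at h3
          exact lQ (h3 ▸ h1)
    · rintro (⟨⟨h1, h2, h3⟩, h4, h5⟩ | ⟨h1, h4, h5⟩)
      · refine ⟨Or.inl h1, ?_, ?_⟩
        · rw [hpi d h1, hvs]
          exact mem_insert_of_mem h2
        · rw [aG d h1 h4 h5]
          exact h3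
      · refine ⟨Or.inr h1, ?_, aQ d h1 h4 h5⟩
        rw [hpiQ d h1, hvs]
        exact mem_insert_self _ _
  have htk5 : (G'.tk G'.vs).card = 5 := by
    rw [htk, card_union_of_disjoint, cQ, card_sdiff_of_subset, card_pair hkl, ht]
    · intro d hd
      rw [mem_insert, mem_singleton] at hd
      rcases hd with rfl | rfl
      · exact hk
      · exact hl
    · rw [disjoint_left]
      intro d h1 h2
      exact hdisj d (mem_sdiff.1 h2).1 (mem_filter.1 (mem_sdiff.1 h1).1).1
  have hcard : G'.vs.card = G.vs.card + 1 := by rw [hvs, card_insert_of_notMem hq]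
  obtain ⟨M, hM, hCon⟩ := (hI G' (by rw [hcard]; exact hn) hC').t
    (by rw [hcard]; exact he.add_one) htk5 i (by
      rw [htk]
      refine mem_union_left _ (mem_sdiff.2 ⟨hi, ?_⟩)
      rw [mem_insert, mem_singleton, not_or]
      exact ⟨hik, hil⟩)
  obtain ⟨d, hdM, hdq⟩ := hM.ex (v := q) (by rw [hvs]; exact mem_insert_self _ _)
  have hdQ : d ∈ Q := by
    have h1 := hM.sub hdM
    rw [hds, mem_union] at h1
    rcases h1 with h1 | h1
    · exfalso
      rw [hpi d h1] at hdq
      exact hq (hdq ▸ G.pi_mem d h1)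
    · exact h1
  by_cases h0 : d = q0
  · left
    exact patt_half hq hvs hds hdisj hpiQ hpi hk1 hl1 hk3 hkl hq0 hq1 h01 a1 a2 a3 a4 aQ aG hi1 hM
      hCon (h0 ▸ hdM)
  · by_cases h1 : d = q1
    · right
      exact patt_half hq hvs hds hdisj hpiQ hpi hl1 hk1 hl3 hkl.symm hq1 hq0 h01.symm a3 a4 a1 a2
        (fun d hd h1 h2 => aQ d hd h2 h1) (fun d hd h1 h2 => aG d hd h2 h1) hi1 hM hCon (h1 ▸ hdM)
    · exfalso
      have h2 := (hM.tok d hdM).1 (aQ d hdQ h0 h1)
      rw [mem_singleton] at h2
      exact hdisj d hdQ (h2 ▸ hi1)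

/-- a symmetric relation on four elements in which everybody misses at most one partner contains
a 4-cycle `a c b d` -/
theorem four {α : Type*} {R : α → α → Prop} (hs : ∀ x y, R x y → R y x) {S : Finset α}
    (hS : S.card = 4)
    (h : ∀ i ∈ S, ∀ k ∈ S, ∀ l ∈ S, i ≠ k → i ≠ l → k ≠ l → R i k ∨ R i l) :
    ∃ a b c d, S = {a, b, c, d} ∧ a ≠ b ∧ a ≠ c ∧ a ≠ d ∧ b ≠ c ∧ b ≠ d ∧ c ≠ d ∧
      R a c ∧ R a d ∧ R b c ∧ R b d := by
  obtain ⟨w, T, hwT, rfl, hT⟩ := card_eq_succ.1 hS
  obtain ⟨x, y, z, hxy, hxz, hyz, rfl⟩ := card_eq_three.1 hT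
  simp only [mem_insert, mem_singleton, not_or] at hwT
  have hwx : w ≠ x := hwT.1
  have hwy : w ≠ y := hwT.2.1
  have hwz : w ≠ z := hwT.2.2
  have mw : w ∈ insert w ({x, y, z} : Finset α) := by simp
  have mx : x ∈ insert w ({x, y, z} : Finset α) := by simp
  have my : y ∈ insert w ({x, y, z} : Finset α) := by simp
  have mz : z ∈ insert w ({x, y, z} : Finset α) := by simp
  have p1 : (insert w ({x, y, z} : Finset α)) = {w, y, x, z} := by ext; simp; tauto
  have p2 : (insert w ({x, y, z} : Finset α)) = {w, z, x, y} := by ext; simp; tauto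
  have p3 : (insert w ({x, y, z} : Finset α)) = {x, y, w, z} := by ext; simp; tauto
  have p4 : (insert w ({x, y, z} : Finset α)) = {x, z, w, y} := by ext; simp; tauto
  have p5 : (insert w ({x, y, z} : Finset α)) = {y, z, w, x} := by ext; simp; tauto
  by_cases c1 : R w x
  · by_cases c2 : R w y
    · by_cases c3 : R w z
      · by_cases c4 : R x y
        · by_cases c5 : R x z
          · by_cases c6 : R y z
            · exact ⟨x, y, w, z, p3, hxy, hwx.symm, hxz, hwy.symm, hyz, hwz, hs _ _ c1, c5,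
                hs _ _ c2, c6⟩
            · exact ⟨y, z, w, x, p5, hyz, hwy.symm, hxy.symm, hwz.symm, hxz.symm, hwx, hs _ _ c2,
                hs _ _ c4, hs _ _ c3, hs _ _ c5⟩
          · exact ⟨x, z, w, y, p4, hxz, hwx.symm, hxy, hwz.symm, hyz.symm, hwy, hs _ _ c1, c4,
              hs _ _ c3, ((h z mz x mx y my hxz.symm hyz.symm hxy).resolve_left
                fun h => c5 (hs _ _ h))⟩
        · exact ⟨x, y, w, z, p3, hxy, hwx.symm, hxz, hwy.symm, hyz, hwz, hs _ _ c1,
            (h x mx y my z mz hxy hxz hyz).resolve_left c4, hs _ _ c2,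
            ((h y my x mx z mz hxy.symm hyz hxz).resolve_left fun h => c4 (hs _ _ h))⟩
      · exact ⟨w, z, x, y, p2, hwz, hwx, hwy, hxz.symm, hyz.symm, hxy, c1, c2,
          (h z mz w mw x mx hwz.symm hxz.symm hwx).resolve_left fun h => c3 (hs _ _ h),
          (h z mz w mw y my hwz.symm hyz.symm hwy).resolve_left fun h => c3 (hs _ _ h)⟩
    · exact ⟨w, y, x, z, p1, hwy, hwx, hwz, hxy.symm, hyz, hxz, c1,
        (h w mw y my z mz hwy hwz hyz).resolve_left c2,
        (h y my w mw x mx hwy.symm hxy.symm hwx).resolve_left fun h => c2 (hs _ _ h),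
        (h y my w mw z mz hwy.symm hyz hwz).resolve_left fun h => c2 (hs _ _ h)⟩
  · exact ⟨w, x, y, z, rfl, hwx, hwy, hwz, hxy, hxz, hyz,
      (h w mw x mx y my hwx hwy hxy).resolve_left c1,
      (h w mw x mx z mz hwx hwz hxz).resolve_left c1,
      (h x mx w mw y my hwx.symm hxy hwy).resolve_left fun h => c1 (hs _ _ h),
      (h x mx w mw z mz hwx.symm hxz hwz).resolve_left fun h => c1 (hs _ _ h)⟩

end DG

end R5
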