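import Pool.Agent.Lib.R5.Gadget
import Pool.Agent.Lib.R5.Patt

/-! R5 module Glue4: (G2) of r5core64.md, assembled. -/

set_option autoImplicit false

namespace R5

open Finset Classical

namespace DG

variable {V D : Type*}

/-- even sets with `c(Z) = 4` glue -/
theorem glue4 {G : DG V D} (hC : G.C4) (hI : IH G.vs.card V D) {Z : Finset V} (hZ : Z ⊆ G.vs)
    (he : Even Z.card) (h4 : 4 ≤ Z.card) (h2 : 2 ≤ (G.vs \ Z).card) (hc : G.dg Z = 4) : G.PP := by
  have hsd := card_sdiff_add_card_eq_card hZ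
  have hlt : Z.card < G.vs.card := by omega
  have hn : Z.card + 1 < G.vs.card := by omega
  have hne : Z ≠ G.vs := by
    rintro rfl
    exact lt_irrefl _ hlt
  have hlg : (G.lg Z).card = 4 := by rw [G.card_lg]; exact hc
  have htk : (G.res Z hZ).tk (G.res Z hZ).vs = G.lg Z := G.res_tk hZ
  have hCr : (G.res Z hZ).C4 := hC.res hZ
  have hvs : (G.res Z hZ).vs = Z := G.res_vs hZ
  -- the pattern 0
  have h0 : (G.res Z hZ).Sol ∅ := by
    refine (hI (G.res Z hZ) (by rw [hvs]; exact hlt) hCr).s (by rw [hvs]; exact he) ?_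
    rw [htk, hlg]
    omega
  -- the new vertex
  obtain ⟨q, hq⟩ : (G.vs \ Z).Nonempty := card_pos.1 (by omega)
  obtain ⟨hq1, hq2⟩ := mem_sdiff.1 hq
  have hQd : Disjoint (G.ds.filter fun d => G.pi d = q) (G.res Z hZ).ds := by
    rw [Finset.disjoint_left]
    intro d h1 h3
    have h5 : d ∈ G.ds.filter fun d => G.pi d ∈ Z := h3
    rw [mem_filter] at h1 h5
    exact hq2 (h1.2 ▸ h5.2)
  have hR : ∀ i ∈ G.lg Z, ∀ k ∈ G.lg Z, ∀ l ∈ G.lg Z, i ≠ k → i ≠ l → k ≠ l →
      (G.res Z hZ).Sol {i, k} ∨ (G.res Z hZ).Sol {i, l} := by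
    intro i hi k hk l hl hik hil hkl
    exact patt hCr hI (by rw [hvs]; exact hn) (by rw [hvs]; exact he) (by rw [htk]; exact hlg)
      (q := q) (by rw [hvs]; exact hq2) (G.five q hq1) hQd (by rw [htk]; exact hi)
      (by rw [htk]; exact hk) (by rw [htk]; exact hl) hik hil hkl
  obtain ⟨a, b, c, d, hS, hab, hac, had, hbc, hbd, hcd, h1, h3, h5, h6⟩ :=
    four (R := fun x y => (G.res Z hZ).Sol {x, y})
      (fun x y h => by
        have h' : ({y, x} : Finset D) = {x, y} := Finset.pair_comm y x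
        show (G.res Z hZ).Sol {y, x}
        rw [h']
        exact h) hlg hR
  exact gadget hC hI hZ he h4 hne hS hab hac had hbc hbd hcd h0 h1 h3 h5 h6

end DG

end R5
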