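import Pool.Agent.Lib.R5.Glue
import Pool.Agent.Lib.R5.Ctr

/-! R5 module Glue5: (G1) of r5core64.md. -/

set_option autoImplicit false

namespace R5

open Finset Classical

namespace DG

variable {V D : Type*}

/-- a solution of the contraction of `Z` lifts -/
theorem ctr_lift {G : DG V D} (hC : G.C4) (hI : IH G.vs.card V D) {Z : Finset V} (hZ : Z ⊆ G.vs)
    (ho : Odd Z.card) (hne : Z ≠ G.vs) {z : V} (hz : z ∈ Z) (h5 : (G.lg Z).card = 5)
    {U : Finset D} (hS : (G.ctr Z z hz h5).Sol U) : G.Sol U := by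
  obtain ⟨M', hM, hCon⟩ := hS
  have hvs : (G.ctr Z z hz h5).vs = insert z (G.vs \ Z) := rfl
  have hal : ∀ d, (G.ctr Z z hz h5).al d = G.al d := fun d => rfl
  have hpi : ∀ d, (G.ctr Z z hz h5).pi d = if G.pi d ∈ Z then z else G.pi d := fun d => rfl
  have hds : ∀ d, d ∈ (G.ctr Z z hz h5).ds ↔
      d ∈ G.ds ∧ (G.pi d ∉ Z ∨ G.pi (G.al d) ∉ Z ∨ G.al d = d) := fun d => mem_filter
  have hMds : ∀ d ∈ M', d ∈ G.ds ∧ (G.pi d ∉ Z ∨ G.pi (G.al d) ∉ Z ∨ G.al d = d) :=
    fun d hd => (hds d).1 (hM.sub hd)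
  have hpin : ∀ d, G.pi d ∈ Z → (G.ctr Z z hz h5).pi d = z := fun d hd => by
    rw [hpi, if_pos hd]
  have hpout : ∀ d, G.pi d ∉ Z → (G.ctr Z z hz h5).pi d = G.pi d := fun d hd => by
    rw [hpi, if_neg hd]
  obtain ⟨f, hf, hfz⟩ := hM.ex (v := z) (by rw [hvs]; exact mem_insert_self _ _)
  have hfZ : G.pi f ∈ Z := by
    by_contra h
    rw [hpout f h] at hfz
    exact h (hfz ▸ hz)
  have huf : ∀ d ∈ M', G.pi d ∈ Z → d = f := fun d hd hdZ =>
    hM.uniq hd hf (by rw [hpin d hdZ, hfz])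
  have hf' := hMds f hf
  have hfo : G.pi (G.al f) ∉ Z ∨ G.al f = f := by
    rcases hf'.2 with h | h | h
    · exact absurd hfZ h
    · exact Or.inl h
    · exact Or.inr h
  -- the inner side
  have hcard : Z.card < G.vs.card := card_lt_card (Finset.ssubset_iff_subset_ne.2 ⟨hZ, hne⟩)
  have hin : (G.res Z hZ).Sol {f} := by
    have hP := hI (G.res Z hZ) hcard (hC.res hZ)
    have htk : (G.res Z hZ).tk (G.res Z hZ).vs = G.lg Z := G.res_tk hZ
    refine hP.t ho ?_ f ?_
    · rw [htk]; exact h5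
    · rw [htk, G.mem_lg]
      exact ⟨hf'.1, hfZ, hfo⟩
  obtain ⟨Mi, hMi, hCi⟩ := hin
  have hiZ : ∀ d ∈ Mi, d ∈ G.ds ∧ G.pi d ∈ Z := fun d hd => mem_filter.1 (hMi.sub hd)
  have hMo : ∀ d ∈ M'.filter (fun d => G.pi d ∉ Z), d ∈ G.ds ∧ G.pi d ∉ Z := fun d hd =>
    ⟨(hMds d (mem_filter.1 hd).1).1, (mem_filter.1 hd).2⟩
  refine ⟨M'.filter (fun d => G.pi d ∉ Z) ∪ Mi, glue_mat (L := {f}) hMi hMo ?_ ?_ ?_ ?_ ?_,
    glue_con hMi hCi hMo ?_⟩
  · intro d hd
    obtain ⟨h1, h2⟩ := mem_filter.1 hd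
    have h3 := hM.closed d h1
    rw [hal] at h3
    by_cases h4 : G.pi (G.al d) ∈ Z
    · exact Or.inr (mem_singleton.2 (huf _ h3 h4))
    · exact Or.inl (mem_filter.2 ⟨h3, h4⟩)
  · intro d hd
    rw [mem_singleton.1 hd]
    rcases hfo with h | h
    · have h3 := hM.closed f hf
      rw [hal] at h3
      exact Or.inr (mem_filter.2 ⟨h3, h⟩)
    · exact Or.inl h
  · intro v hv
    obtain ⟨hv1, hv2⟩ := mem_sdiff.1 hv
    rw [← hM.one v (by rw [hvs]; exact mem_insert_of_mem hv)]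
    congr 1
    ext d
    simp only [mem_filter]
    constructor
    · rintro ⟨⟨h1, h2⟩, h3⟩
      exact ⟨h1, by rw [hpout d h2]; exact h3⟩
    · rintro ⟨h1, h3⟩
      have h2 : G.pi d ∉ Z := by
        intro h
        rw [hpin d h] at h3
        exact hv2 (h3 ▸ hz)
      rw [hpout d h2] at h3
      exact ⟨⟨h1, h2⟩, h3⟩
  · intro d hd
    have h1 : d ∈ M' := by
      rcases mem_union.1 hd with h | h
      · exact (mem_filter.1 h).1
      · rw [mem_singleton.1 h]; exact hf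
    have h2 := hM.tok d h1
    rwa [hal] at h2
  · intro d hd
    have h1 := hM.usub hd
    by_cases h2 : G.pi d ∈ Z
    · exact mem_union_right _ (mem_singleton.2 (huf d h1 h2))
    · exact mem_union_left _ (mem_filter.2 ⟨h1, h2⟩)
  · intro Y hY hYn hYv hc
    have hkey : ∀ d ∈ G.bd Y, d ∉ M' → (∀ e ∈ Mi, e ∈ G.bd Y → e ∈ M') →
        d ∉ M'.filter (fun d => G.pi d ∉ Z) ∪ Mi := by
      intro d hd hdM hh h
      rcases mem_union.1 h with h1 | h1
      · exact hdM (mem_filter.1 h1).1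
      · exact hdM (hh d h1 hd)
    rcases hc with hc | hc
    · -- `Z ⊆ Y`
      have hdj : Disjoint (Y \ Z) Z := sdiff_disjoint
      have hYZ : Y \ Z ∪ Z = Y := sdiff_union_of_subset hc
      have hb := G.ctr_bd_in hz h5 hdj
      rw [hYZ] at hb
      obtain ⟨v, hv1, hv2⟩ : ∃ v ∈ G.vs, v ∉ Y := by
        by_contra h
        push Not at h
        exact hYv (Subset.antisymm hY h)
      obtain ⟨d, hd1, hd2⟩ := hCon (insert z (Y \ Z)) (by
          rw [hvs]
          exact insert_subset_insert _ (sdiff_subset_sdiff hY (Subset.refl _)))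
        (insert_nonempty _ _) (by
          rw [hvs]
          intro h
          have h1 : v ∈ insert z (G.vs \ Z) :=
            mem_insert_of_mem (mem_sdiff.2 ⟨hv1, fun h' => hv2 (hc h')⟩)
          rw [← h, mem_insert] at h1
          rcases h1 with h1 | h1
          · exact hv2 (hc (h1 ▸ hz))
          · exact hv2 (mem_sdiff.1 h1).1)
      rw [hb] at hd1
      refine ⟨d, hd1, hkey d hd1 hd2 ?_⟩
      intro e he heb
      rw [G.mem_bd] at heb
      have h1 : (G.res Z hZ).al e = e := by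
        show (if G.pi (G.al e) ∈ Z then G.al e else e) = e
        rw [if_neg (fun h => heb.2.2 (hc h))]
      have h2 := (hMi.tok e he).1 h1
      rw [mem_singleton.1 h2]
      exact hf
    · -- disjoint
      have hb := G.ctr_bd_out hz h5 hc.symm
      obtain ⟨d, hd1, hd2⟩ := hCon Y (by
          rw [hvs]
          intro v hv
          exact mem_insert_of_mem (mem_sdiff.2 ⟨hY hv, fun h => (Finset.disjoint_left.1 hc) h hv⟩))
        hYn (by
          rw [hvs]
          intro h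
          have h1 : z ∈ Y := by rw [h]; exact mem_insert_self _ _
          exact (Finset.disjoint_left.1 hc) hz h1)
      rw [hb] at hd1
      refine ⟨d, hd1, hkey d hd1 hd2 ?_⟩
      intro e he heb
      rw [G.mem_bd] at heb
      exact absurd heb.2.1 ((Finset.disjoint_left.1 hc) (hiZ e he).2)

/-- odd sets with `c(Z) = 5` glue -/
theorem glue5 {G : DG V D} (hC : G.C4) (hI : IH G.vs.card V D) {Z : Finset V} (hZ : Z ⊆ G.vs)
    (ho : Odd Z.card) (h3 : 3 ≤ Z.card) (hne : Z ≠ G.vs) (h5 : G.dg Z = 5) : G.PP := by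
  have h5' : (G.lg Z).card = 5 := by rw [G.card_lg]; exact h5
  obtain ⟨z, hz⟩ : Z.Nonempty := by rw [← card_pos]; omega
  have hcZ : Z.card ≤ G.vs.card := card_le_card hZ
  have hcard := G.ctr_card hz h5' hZ
  have hP : (G.ctr Z z hz h5').PP := hI _ (by rw [hcard]; omega) (hC.ctr hZ hz h5')
  have htk := G.ctr_tk hz h5' hZ
  have hpar : Even (G.ctr Z z hz h5').vs.card ↔ Even G.vs.card := by
    rw [hcard, Nat.even_iff, Nat.even_iff]
    rw [Nat.odd_iff] at ho
    omega
  refine ⟨?_, ?_⟩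
  · intro he h6
    exact ctr_lift hC hI hZ ho hne hz h5' (hP.s (hpar.2 he) (by rw [htk]; exact h6))
  · intro hod h6 τ hτ
    refine ctr_lift hC hI hZ ho hne hz h5' (hP.t ?_ (by rw [htk]; exact h6) τ (by rw [htk]; exact hτ))
    rw [← Nat.not_even_iff_odd, hpar, Nat.not_even_iff_odd]
    exact hod

end DG

end R5
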