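import Pool.Agent.Lib.R5.Glue

/-! R5 module Glue6: (G5) of r5core64.md: (S) on both sides of an even set. -/

set_option autoImplicit false

namespace R5

open Finset Classical

namespace DG

variable {V D : Type*}

/-- darts of a matching of `res Z` which uses no leg -/
private theorem res_mat_in {G : DG V D} {Z : Finset V} {hZ : Z ⊆ G.vs} {M : Finset D}
    (h : (G.res Z hZ).Mat ∅ M) {d : D} (hd : d ∈ M) :
    d ∈ G.ds ∧ G.pi d ∈ Z ∧ G.pi (G.al d) ∈ Z ∧ G.al d ≠ d ∧ G.al d ∈ M := by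
  have h1 := mem_filter.1 (h.sub hd)
  have h2 : (G.res Z hZ).al d ≠ d := fun h3 => by
    have := (h.tok d hd).1 h3
    simp at this
  have h3 : (G.res Z hZ).al d = if G.pi (G.al d) ∈ Z then G.al d else d := rfl
  by_cases h4 : G.pi (G.al d) ∈ Z
  · rw [if_pos h4] at h3
    refine ⟨h1.1, h1.2, h4, ?_, ?_⟩
    · rw [← h3]; exact h2
    · rw [← h3]; exact h.closed d hd
  · rw [if_neg h4] at h3
    exact absurd h3 h2

theorem glue6 {G : DG V D} (hC : G.C4) (hI : IH G.vs.card V D) (he : Even G.vs.card)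
    (h6 : (G.tk G.vs).card = 6) {Z : Finset V} (hZ : Z ⊆ G.vs) (heZ : Even Z.card)
    (hn : Z.Nonempty) (hne : Z ≠ G.vs) (h1 : G.dg Z ≤ 6) (h2 : G.dg (G.vs \ Z) ≤ 6) :
    G.Sol ∅ := by
  have hZ' : G.vs \ Z ⊆ G.vs := sdiff_subset
  have hn' : (G.vs \ Z).Nonempty := by
    rw [sdiff_nonempty]
    exact fun h => hne (Subset.antisymm hZ h)
  have hcard : (G.vs \ Z).card + Z.card = G.vs.card := card_sdiff_add_card_eq_card hZ
  have hp1 : 0 < Z.card := card_pos.2 hn
  have hp2 : 0 < (G.vs \ Z).card := card_pos.2 hn'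
  have hne' : G.vs \ Z ≠ G.vs := fun h => by
    have := congrArg card h
    omega
  have heZ' : Even (G.vs \ Z).card := by
    rw [← hcard] at he
    exact (Nat.even_add.1 he).2 heZ
  -- the two sides
  have sol : ∀ (W : Finset V) (hW : W ⊆ G.vs), Even W.card → W.card < G.vs.card → G.dg W ≤ 6 →
      (G.res W hW).Sol ∅ := by
    intro W hW heW hlt hdg
    have h3 := hI (G.res W hW) (by rw [res_vs]; exact hlt) (hC.res hW)
    refine h3.s heW ?_
    show ((G.res W hW).tk W).card ≤ 6
    rw [res_tk, card_lg]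
    exact hdg
  obtain ⟨M1, hM1, hC1⟩ := sol Z hZ heZ (by omega) h1
  obtain ⟨M2, hM2, hC2⟩ := sol (G.vs \ Z) hZ' heZ' (by omega) h2
  have hbd : 0 < (G.bd Z).card := by
    have a1 := hC Z hZ hn hne
    have a2 := hC (G.vs \ Z) hZ' hn' hne'
    have a3 := G.card_bd_compl hZ
    have a4 := G.card_tk_compl hZ
    unfold dg at a1 a2
    omega
  have ho : ∀ d ∈ M2, d ∈ G.ds ∧ G.pi d ∉ Z := fun d hd =>
    ⟨(res_mat_in hM2 hd).1, (mem_sdiff.1 (res_mat_in hM2 hd).2.1).2⟩
  refine ⟨M2 ∪ M1, ?_, ?_⟩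
  · refine glue_mat hM1 ho ?_ ?_ ?_ ?_ ?_
    · exact fun d hd => Or.inl (res_mat_in hM2 hd).2.2.2.2
    · intro d hd
      simp at hd
    · exact hM2.one
    · intro d hd
      rw [union_empty] at hd
      constructor
      · intro h
        exact absurd h (res_mat_in hM2 hd).2.2.2.1
      · intro h
        simp at h
    · exact empty_subset _
  · refine glue_con hM1 hC1 ho ?_
    intro Y hY hYn hYv hZY
    by_cases hc1 : (Y ∩ (G.vs \ Z)).Nonempty
    · by_cases hc2 : Y ∩ (G.vs \ Z) = G.vs \ Z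
      · -- `Y` contains the outer side
        have h3 : G.vs \ Z ⊆ Y := by rw [← hc2]; exact inter_subset_left
        have h4 : Y = G.vs \ Z := by
          rcases hZY with h5 | h5
          · exfalso
            apply hYv
            apply Subset.antisymm hY
            intro v hv
            by_cases h6 : v ∈ Z
            · exact h5 h6
            · exact h3 (mem_sdiff.2 ⟨hv, h6⟩)
          · apply Subset.antisymm _ h3
            intro v hv
            exact mem_sdiff.2 ⟨hY hv, fun h6 => disjoint_left.1 h5 h6 hv⟩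
        obtain ⟨d, hd⟩ := card_pos.1 hbd
        have h5 := G.mem_bd_compl hd
        refine ⟨G.al d, by rw [h4]; exact h5, ?_⟩
        rw [mem_bd] at h5
        intro h6
        rcases mem_union.1 h6 with h7 | h7
        · exact h5.2.2 (res_mat_in hM2 h7).2.2.1
        · exact (mem_sdiff.1 h5.2.1).2 (res_mat_in hM1 h7).2.1
      · obtain ⟨d, hd, hdM⟩ := hC2 (Y ∩ (G.vs \ Z)) inter_subset_right hc1 hc2
        rw [res_bd G hZ' inter_subset_right, mem_filter, mem_bd] at hd
        obtain ⟨⟨h3, h4, h5⟩, h6⟩ := hd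
        refine ⟨d, (G.mem_bd).2 ⟨h3, (mem_inter.1 h4).1, fun h7 => h5 (mem_inter.2 ⟨h7, h6⟩)⟩, ?_⟩
        intro h7
        rcases mem_union.1 h7 with h8 | h8
        · exact hdM h8
        · exact (mem_sdiff.1 (mem_inter.1 h4).2).2 (res_mat_in hM1 h8).2.1
    · -- `Y = Z`
      have h3 : Y ⊆ Z := by
        intro v hv
        by_contra h4
        exact hc1 ⟨v, mem_inter.2 ⟨hv, mem_sdiff.2 ⟨hY hv, h4⟩⟩⟩
      have h4 : Y = Z := by
        rcases hZY with h5 | h5
        · exact Subset.antisymm h3 h5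
        · obtain ⟨v, hv⟩ := hYn
          exact absurd hv (disjoint_left.1 h5 (h3 hv))
      obtain ⟨d, hd⟩ := card_pos.1 hbd
      refine ⟨d, by rw [h4]; exact hd, ?_⟩
      rw [mem_bd] at hd
      intro h6
      rcases mem_union.1 h6 with h7 | h7
      · exact (ho d h7).2 hd.2.1
      · exact hd.2.2 (res_mat_in hM1 h7).2.2.1

end DG

end R5
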