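import Pool.Agent.Lib.R5.Glue

/-! R5 module Small: (G3), (G4) of r5core64.md (vertices with many tokens). -/

set_option autoImplicit false

namespace R5

open Finset Classical

namespace DG

variable {V D : Type*}

/-- one vertex `v` is matched by the dart `a`, the rest by `Mi` -/
private theorem small_sol {G : DG V D} {v : V} (hv : v ∈ G.vs) {a : D} (ha : a ∈ G.ds)
    (hav : G.pi a = v) {L U Mi : Finset D}
    (hMi : (G.res (G.vs \ {v}) sdiff_subset).Mat L Mi)
    (hCi : (G.res (G.vs \ {v}) sdiff_subset).Con Mi)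
    (hL : (G.al a = a ∧ L = ∅ ∧ U = {a}) ∨ (G.al a ≠ a ∧ L = {G.al a} ∧ U = ∅))
    (hb : G.vs ≠ {v} → ∃ b ∈ G.bd {v}, b ≠ a) : G.Sol U := by
  have hZ : ∀ w, w ∈ G.vs \ {v} ↔ w ∈ G.vs ∧ w ≠ v := fun w => by
    rw [mem_sdiff, mem_singleton]
  have ho : ∀ d ∈ ({a} : Finset D), d ∈ G.ds ∧ G.pi d ∉ G.vs \ {v} := by
    intro d hd
    rw [mem_singleton] at hd
    subst hd
    exact ⟨ha, fun h => ((hZ _).1 h).2 hav⟩
  refine ⟨{a} ∪ Mi, ?_, ?_⟩
  · refine glue_mat hMi ho ?_ ?_ ?_ ?_ ?_
    · intro d hd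
      rw [mem_singleton] at hd
      subst hd
      rcases hL with ⟨h1, h2, -⟩ | ⟨h1, h2, -⟩
      · left
        rw [h1]
        exact mem_singleton_self _
      · right
        rw [h2]
        exact mem_singleton_self _
    · intro d hd
      rcases hL with ⟨-, h2, -⟩ | ⟨-, h2, -⟩
      · rw [h2] at hd
        simp at hd
      · rw [h2, mem_singleton] at hd
        right
        rw [hd, G.al_al a ha]
        exact mem_singleton_self _
    · intro w hw
      have hwv : w = v := by
        rw [mem_sdiff, hZ] at hw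
        by_contra h
        exact hw.2 ⟨hw.1, h⟩
      rw [filter_singleton, if_pos (by rw [hav, hwv]), card_singleton]
    · intro d hd
      rcases hL with ⟨h1, h2, h3⟩ | ⟨h1, h2, h3⟩
      · rw [h2, union_empty, mem_singleton] at hd
        rw [h3, mem_singleton, hd]
        simp [h1]
      · rw [h2, mem_union, mem_singleton, mem_singleton] at hd
        rw [h3]
        constructor
        · intro h4
          exfalso
          rcases hd with hd | hd
          · rw [hd] at h4
            exact h1 h4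
          · rw [hd, G.al_al a ha] at h4
            exact h1 h4.symm
        · intro h4
          simp at h4
    · rcases hL with ⟨-, -, h3⟩ | ⟨-, -, h3⟩
      · rw [h3]
        exact subset_union_left
      · rw [h3]
        exact empty_subset _
  · refine glue_con hMi hCi ho ?_
    intro Y hY hYn hYv hZY
    have hne : G.vs ≠ {v} := by
      intro h
      apply hYv
      rw [h] at hY ⊢
      exact hYn.subset_singleton_iff.1 hY
    obtain ⟨b, hb1, hb2⟩ := hb hne
    have hb3 := (G.mem_bd).1 hb1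
    rw [mem_singleton, mem_singleton] at hb3
    obtain ⟨hb4, hb5, hb6⟩ := hb3
    by_cases hvY : v ∈ Y
    · -- `Y = {v}`
      refine ⟨b, (G.mem_bd).2 ⟨hb4, by rw [hb5]; exact hvY, ?_⟩, ?_⟩
      · intro h
        rcases hZY with h1 | h1
        · apply hYv
          apply Subset.antisymm hY
          intro w hw
          by_cases hwv : w = v
          · rw [hwv]
            exact hvY
          · exact h1 ((hZ w).2 ⟨hw, hwv⟩)
        · exact disjoint_left.1 h1 ((hZ _).2 ⟨G.pi_mem _ (G.al_mem b hb4), hb6⟩) h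
      · intro h
        rcases mem_union.1 h with h1 | h1
        · exact hb2 (mem_singleton.1 h1)
        · have h2 := (mem_filter.1 (hMi.sub h1)).2
          exact ((hZ _).1 h2).2 hb5
    · -- `Y` is everything but `v`
      refine ⟨G.al b, (G.mem_bd).2 ⟨G.al_mem b hb4, ?_, ?_⟩, ?_⟩
      · rcases hZY with h1 | h1
        · exact h1 ((hZ _).2 ⟨G.pi_mem _ (G.al_mem b hb4), hb6⟩)
        · exfalso
          obtain ⟨w, hw⟩ := hYn
          refine disjoint_left.1 h1 ((hZ w).2 ⟨hY hw, ?_⟩) hw
          rintro rfl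
          exact hvY hw
      · rw [G.al_al b hb4, hb5]
        exact hvY
      · intro h
        rcases mem_union.1 h with h1 | h1
        · rw [mem_singleton] at h1
          rw [h1] at hb6
          exact hb6 hav
        · have h2 : (G.res (G.vs \ {v}) sdiff_subset).al (G.al b) = G.al b := by
            have h3 : (G.res (G.vs \ {v}) sdiff_subset).al (G.al b) =
              if G.pi (G.al (G.al b)) ∈ G.vs \ {v} then G.al (G.al b) else G.al b := rfl
            rw [h3, if_neg]
            rw [G.al_al b hb4, hb5]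
            exact fun h4 => ((hZ _).1 h4).2 rfl
          have h4 := (hMi.tok _ h1).1 h2
          rcases hL with ⟨-, h5, -⟩ | ⟨-, h5, -⟩
          · rw [h5] at h4
            simp at h4
          · rw [h5, mem_singleton] at h4
            apply hb2
            rw [← G.al_al b hb4, h4, G.al_al a ha]

/-- the degree of a vertex and of its complement -/
private theorem small_dg {G : DG V D} (hC : G.C4) {v : V} (hv : v ∈ G.vs) (h2 : 2 ≤ G.vs.card) :
    (G.bd {v}).card + (G.tk {v}).card = 5 ∧
      G.dg (G.vs \ {v}) + 2 * (G.tk {v}).card = 5 + (G.tk G.vs).card := by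
  have h3 := G.lg_single hv (hC.noloop h2)
  rw [card_lg] at h3
  have h4 := G.card_bd_compl (singleton_subset_iff.2 hv)
  have h5 := G.card_tk_compl (singleton_subset_iff.2 hv)
  unfold dg at h3 ⊢
  omega

/-- (G3) -/
theorem def3 {G : DG V D} (hC : G.C4) (hI : IH G.vs.card V D) (he : Even G.vs.card)
    (h6 : (G.tk G.vs).card = 6) {v : V} (hv : v ∈ G.vs) (h3 : 3 ≤ (G.tk {v}).card) :
    G.Sol ∅ := by
  have hpos : 0 < G.vs.card := card_pos.2 ⟨v, hv⟩
  have h2 : 2 ≤ G.vs.card := by
    obtain ⟨k, hk⟩ := he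
    omega
  have hcard : (G.vs \ {v}).card + 1 = G.vs.card := by
    have := card_sdiff_add_card_eq_card (singleton_subset_iff.2 hv)
    rwa [card_singleton] at this
  have ho : Odd (G.vs \ {v}).card := by
    obtain ⟨k, hk⟩ := he
    exact ⟨k - 1, by omega⟩
  obtain ⟨h7, h8⟩ := small_dg hC hv h2
  have h9 := hC.five_le (X := G.vs \ {v}) sdiff_subset (fun h => by
    have := congrArg card h
    omega) ho
  have h10 : (G.bd {v}).card = 2 := by omega
  have h11 : G.dg (G.vs \ {v}) = 5 := by omega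
  obtain ⟨a, b, hab, hbd⟩ := card_eq_two.1 h10
  have ha : a ∈ G.bd {v} := by rw [hbd]; simp
  have hb : b ∈ G.bd {v} := by rw [hbd]; simp
  have ha' := (G.mem_bd).1 ha
  rw [mem_singleton, mem_singleton] at ha'
  have haa : G.al a ≠ a := fun h => ha'.2.2 (by rw [h]; exact ha'.2.1)
  have hPP := hI (G.res (G.vs \ {v}) sdiff_subset) (by rw [res_vs]; omega) (hC.res sdiff_subset)
  have hS := hPP.t ho (by
    show ((G.res (G.vs \ {v}) sdiff_subset).tk (G.vs \ {v})).card = 5
    rw [res_tk, card_lg]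
    exact h11) (G.al a) (by
    show G.al a ∈ (G.res (G.vs \ {v}) sdiff_subset).tk (G.vs \ {v})
    rw [res_tk, mem_lg]
    have h12 := (G.mem_bd).1 (G.mem_bd_compl ha)
    exact ⟨h12.1, h12.2.1, Or.inl h12.2.2⟩)
  obtain ⟨Mi, hMi, hCi⟩ := hS
  exact small_sol hv ha'.1 ha'.2.1 hMi hCi (Or.inr ⟨haa, rfl, rfl⟩) (fun _ => ⟨b, hb, hab.symm⟩)

/-- (G4) -/
theorem def2 {G : DG V D} (hC : G.C4) (hI : IH G.vs.card V D) (ho : Odd G.vs.card)
    (h5 : (G.tk G.vs).card = 5) {τ : D} (hτ : τ ∈ G.tk G.vs) (h2 : 2 ≤ (G.tk {G.pi τ}).card) :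
    G.Sol {τ} := by
  have hτ' := (G.mem_tk).1 hτ
  obtain ⟨hτd, hv, hτa⟩ := hτ'
  have hcard : (G.vs \ {G.pi τ}).card + 1 = G.vs.card := by
    have := card_sdiff_add_card_eq_card (singleton_subset_iff.2 hv)
    rwa [card_singleton] at this
  have he : Even (G.vs \ {G.pi τ}).card := by
    obtain ⟨k, hk⟩ := ho
    exact ⟨k, by omega⟩
  have hdg : G.dg (G.vs \ {G.pi τ}) ≤ 6 ∧ (G.vs ≠ {G.pi τ} → 0 < (G.bd {G.pi τ}).card) := by
    by_cases h1 : 2 ≤ G.vs.card
    · obtain ⟨h7, h8⟩ := small_dg hC hv h1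
      refine ⟨by omega, fun _ => ?_⟩
      have h9 := hC (G.vs \ {G.pi τ}) sdiff_subset (card_pos.1 (by omega)) (fun h => by
        have := congrArg card h
        omega)
      omega
    · have h3 : G.vs.card = 1 := by
        obtain ⟨k, hk⟩ := ho
        omega
      have h4 : G.vs = {G.pi τ} := by
        obtain ⟨w, hw⟩ := card_eq_one.1 h3
        rw [hw, mem_singleton] at hv
        rw [hw, hv]
      refine ⟨?_, fun h => absurd h4 h⟩
      have h6 : G.vs \ {G.pi τ} = ∅ := by
        rw [← h4]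
        exact Finset.sdiff_self _
      have h7 : G.lg ∅ = ∅ := by
        rw [Finset.eq_empty_iff_forall_notMem]
        intro d hd
        rw [mem_lg] at hd
        exact absurd hd.2.1 (Finset.notMem_empty _)
      rw [h6, ← card_lg, h7, card_empty]
      omega
  have hPP := hI (G.res (G.vs \ {G.pi τ}) sdiff_subset) (by rw [res_vs]; omega)
    (hC.res sdiff_subset)
  have hS := hPP.s he (by
    show ((G.res (G.vs \ {G.pi τ}) sdiff_subset).tk (G.vs \ {G.pi τ})).card ≤ 6
    rw [res_tk, card_lg]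
    exact hdg.1)
  obtain ⟨Mi, hMi, hCi⟩ := hS
  refine small_sol hv hτd rfl hMi hCi (Or.inl ⟨hτa, rfl, rfl⟩) (fun h => ?_)
  obtain ⟨b, hb⟩ := card_pos.1 (hdg.2 h)
  refine ⟨b, hb, ?_⟩
  rintro rfl
  have h9 := (G.mem_bd).1 hb
  rw [hτa] at h9
  exact h9.2.2 h9.2.1

end DG

end R5
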