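import Pool.Agent.Lib.R5.Glue5
import Pool.Agent.Lib.R5.Glue4
import Pool.Agent.Lib.R5.Glue6
import Pool.Agent.Lib.R5.Small
import Pool.Agent.Lib.R5.DelE

/-! R5 module Induct: the core theorem implies (S) and (T). -/

set_option autoImplicit false

namespace R5

open Finset Classical

namespace DG

variable {V D : Type*}

/-- either some cut glues, or the cut hypotheses of the core hold -/
private theorem induct_cuts {G : DG V D} (hC : G.C4) (hI : IH G.vs.card V D) :
    G.PP ∨ G.Cuts7 := by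
  by_cases h1 : ∃ Z ⊆ G.vs, Odd Z.card ∧ 3 ≤ Z.card ∧ Z ≠ G.vs ∧ G.dg Z < 7
  · obtain ⟨Z, hZ, ho, h3, hne, h7⟩ := h1
    refine Or.inl (glue5 hC hI hZ ho h3 hne ?_)
    have h5 := hC.five_le hZ hne ho
    have hp := (G.par hZ).not
    rw [Nat.not_even_iff_odd, Nat.not_even_iff_odd] at hp
    obtain ⟨k, hk⟩ := hp.2 ho
    omega
  · by_cases h2 : ∃ Z ⊆ G.vs, Even Z.card ∧ 4 ≤ Z.card ∧ 2 ≤ (G.vs \ Z).card ∧ G.dg Z < 6
    · obtain ⟨Z, hZ, he, h4, h2, h6⟩ := h2
      refine Or.inl (glue4 hC hI hZ he h4 h2 ?_)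
      have hne : Z ≠ G.vs := by
        rintro rfl
        rw [sdiff_self] at h2
        simp at h2
      have h5 := hC Z hZ (card_pos.1 (by omega)) hne
      obtain ⟨k, hk⟩ := (G.par hZ).2 he
      omega
    · refine Or.inr ⟨fun Z hZ ho h3 hne => ?_, fun Z hZ he h4 h2' => ?_⟩
      · by_contra hlt
        exact h1 ⟨Z, hZ, ho, h3, hne, by omega⟩
      · by_contra hlt
        exact h2 ⟨Z, hZ, he, h4, h2', by omega⟩

private theorem induct_s6 (h : CoreThm V D) {G : DG V D} (hC : G.C4) (hI : IH G.vs.card V D)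
    (he : Even G.vs.card) (h6 : (G.tk G.vs).card = 6) : G.Sol ∅ := by
  rcases induct_cuts hC hI with hP | h7
  · exact hP.s he (le_of_eq h6)
  · by_cases h3 : ∃ v ∈ G.vs, 3 ≤ (G.tk {v}).card
    · obtain ⟨v, hv, h3⟩ := h3
      exact def3 hC hI he h6 hv h3
    · by_cases hZ : ∃ Z ⊆ G.vs, Even Z.card ∧ Z.Nonempty ∧ Z ≠ G.vs ∧ G.dg Z ≤ 6 ∧
          G.dg (G.vs \ Z) ≤ 6
      · obtain ⟨Z, hZ, heZ, hn, hne, h1, h2⟩ := hZ
        exact glue6 hC hI he h6 hZ heZ hn hne h1 h2
      · refine h.s G hC hI h7 he h6 (fun v hv => ?_) (fun Z hZ' heZ hn hne hle => ?_)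
        · by_contra hlt
          exact h3 ⟨v, hv, by omega⟩
        · exact hZ ⟨Z, hZ', heZ, hn, hne, hle.1, hle.2⟩

private theorem induct_s (h : CoreThm V D) (n : ℕ) (hI : IH n V D) (k : ℕ) :
    ∀ G : DG V D, G.vs.card = n → G.C4 → Even G.vs.card → (G.tk G.vs).card + 2 * k = 6 →
      G.Sol ∅ := by
  induction k with
  | zero =>
    intro G hn hC he hk
    exact induct_s6 h hC (by rw [hn]; exact hI) he (by omega)
  | succ k ih =>
    intro G hn hC he hk
    rcases G.vs.eq_empty_or_nonempty with h0 | h0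
    · refine ⟨∅, ⟨empty_subset _, fun d hd => absurd hd (notMem_empty d),
        fun d hd => absurd hd (notMem_empty d), empty_subset _, fun v hv => ?_⟩,
        fun X hX hXn _ => ?_⟩
      · rw [h0] at hv
        exact absurd hv (notMem_empty v)
      · rw [h0] at hX
        obtain ⟨v, hv⟩ := hXn
        exact absurd (hX hv) (notMem_empty v)
    · obtain ⟨H, h1, h2, h3, h4⟩ := dele hC he h0 (by omega)
      exact h4 (ih H (by rw [h1, hn]) h2 (by rw [h1]; exact he) (by omega))

theorem induct (h : CoreThm V D) : ∀ G : DG V D, G.C4 → G.PP := by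
  have key : ∀ n : ℕ, ∀ G : DG V D, G.vs.card = n → G.C4 → G.PP := by
    intro n
    induction n using Nat.strong_induction_on with
    | _ n ihn =>
      intro G hn hC
      have hI : IH n V D := fun K hK hKC => ihn K.vs.card hK K rfl hKC
      refine ⟨fun he h6 => ?_, fun ho h5 τ hτ => ?_⟩
      · have hpar := (G.par (Subset.refl G.vs)).2 he
        rw [G.dg_vs] at hpar
        obtain ⟨k, hk⟩ := hpar
        exact induct_s h n hI (3 - k) G hn hC he (by omega)
      · have hI' : IH G.vs.card V D := by rw [hn]; exact hI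
        rcases induct_cuts hC hI' with hP | h7
        · exact hP.t ho h5 τ hτ
        · by_cases h2 : 2 ≤ (G.tk {G.pi τ}).card
          · exact def2 hC hI' ho h5 hτ h2
          · refine h.t G hC hI' h7 ho h5 τ hτ ?_
            have hmem : τ ∈ G.tk {G.pi τ} := by
              have h1 := mem_filter.1 hτ
              exact mem_filter.2 ⟨h1.1, mem_singleton_self _, h1.2.2⟩
            have hpos : 0 < (G.tk {G.pi τ}).card := card_pos.2 ⟨τ, hmem⟩
            omega
  exact fun G hC => key _ G rfl hC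

end DG

end R5
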