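import Pool.Agent.Lib.R5.KDefs

/-! R5 module KCross: crossing 4-cuts, kse74.md 2c. -/

set_option autoImplicit false

namespace R5

open Finset Classical

namespace K

variable {V D : Type*}

structure Cross (G : JK.CG V D) (Z W : Finset V) : Prop where
  eA : Even (Z ∩ W).card
  eB : Even (Z \ W).card
  eC : Even (W \ Z).card
  eD : Even (G.vs \ (Z ∪ W)).card
  dA : (G.bd (Z ∩ W)).card = 4
  dB : (G.bd (Z \ W)).card = 4
  dC : (G.bd (W \ Z)).card = 4
  dD : (G.bd (G.vs \ (Z ∪ W))).card = 4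
  mu : G.ed (Z ∩ W) (G.vs \ (Z ∪ W)) = ∅
  nu : G.ed (Z \ W) (W \ Z) = ∅
  al : (G.ed (Z ∩ W) (Z \ W)).card = 2
  be : (G.ed (W \ Z) (G.vs \ (Z ∪ W))).card = 2
  ga : (G.ed (Z ∩ W) (W \ Z)).card = 2
  ep : (G.ed (Z \ W) (G.vs \ (Z ∪ W))).card = 2

lemma bd_A (G : JK.CG V D) (Z W : Finset V) :
    (G.bd (Z ∩ W)).card = (G.ed (Z ∩ W) (Z \ W)).card + (G.ed (Z ∩ W) (W \ Z)).card +
      (G.ed (Z ∩ W) (G.vs \ (Z ∪ W))).card := by
  unfold JK.CG.bd JK.CG.ed
  simp only [Finset.card_filter, ← Finset.sum_add_distrib]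
  refine Finset.sum_congr rfl fun d hd => ?_
  have hv : G.pi (G.al d) ∈ G.vs := G.pi_mem _ (G.al_mem d hd)
  by_cases h1 : G.pi d ∈ Z <;> by_cases h2 : G.pi d ∈ W <;>
    by_cases h3 : G.pi (G.al d) ∈ Z <;> by_cases h4 : G.pi (G.al d) ∈ W <;>
    simp [h1, h2, h3, h4, hv]

lemma bd_B (G : JK.CG V D) (Z W : Finset V) :
    (G.bd (Z \ W)).card = (G.ed (Z ∩ W) (Z \ W)).card + (G.ed (Z \ W) (W \ Z)).card +
      (G.ed (Z \ W) (G.vs \ (Z ∪ W))).card := by
  rw [G.ed_comm (Z ∩ W) (Z \ W)]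
  unfold JK.CG.bd JK.CG.ed
  simp only [Finset.card_filter, ← Finset.sum_add_distrib]
  refine Finset.sum_congr rfl fun d hd => ?_
  have hv : G.pi (G.al d) ∈ G.vs := G.pi_mem _ (G.al_mem d hd)
  by_cases h1 : G.pi d ∈ Z <;> by_cases h2 : G.pi d ∈ W <;>
    by_cases h3 : G.pi (G.al d) ∈ Z <;> by_cases h4 : G.pi (G.al d) ∈ W <;>
    simp [h1, h2, h3, h4, hv]

lemma bd_C (G : JK.CG V D) (Z W : Finset V) :
    (G.bd (W \ Z)).card = (G.ed (Z ∩ W) (W \ Z)).card + (G.ed (Z \ W) (W \ Z)).card +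
      (G.ed (W \ Z) (G.vs \ (Z ∪ W))).card := by
  rw [G.ed_comm (Z ∩ W) (W \ Z), G.ed_comm (Z \ W) (W \ Z)]
  unfold JK.CG.bd JK.CG.ed
  simp only [Finset.card_filter, ← Finset.sum_add_distrib]
  refine Finset.sum_congr rfl fun d hd => ?_
  have hv : G.pi (G.al d) ∈ G.vs := G.pi_mem _ (G.al_mem d hd)
  by_cases h1 : G.pi d ∈ Z <;> by_cases h2 : G.pi d ∈ W <;>
    by_cases h3 : G.pi (G.al d) ∈ Z <;> by_cases h4 : G.pi (G.al d) ∈ W <;>
    simp [h1, h2, h3, h4, hv]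

lemma bd_Z (G : JK.CG V D) (Z W : Finset V) :
    (G.bd Z).card = (G.ed (Z ∩ W) (W \ Z)).card + (G.ed (Z ∩ W) (G.vs \ (Z ∪ W))).card +
      (G.ed (Z \ W) (W \ Z)).card + (G.ed (Z \ W) (G.vs \ (Z ∪ W))).card := by
  unfold JK.CG.bd JK.CG.ed
  simp only [Finset.card_filter, ← Finset.sum_add_distrib]
  refine Finset.sum_congr rfl fun d hd => ?_
  have hv : G.pi (G.al d) ∈ G.vs := G.pi_mem _ (G.al_mem d hd)
  by_cases h1 : G.pi d ∈ Z <;> by_cases h2 : G.pi d ∈ W <;>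
    by_cases h3 : G.pi (G.al d) ∈ Z <;> by_cases h4 : G.pi (G.al d) ∈ W <;>
    simp [h1, h2, h3, h4, hv]

lemma bd_D (G : JK.CG V D) {Z W : Finset V} (hZ : Z ⊆ G.vs) (hW : W ⊆ G.vs) :
    (G.bd (G.vs \ (Z ∪ W))).card = (G.bd (Z ∪ W)).card := by
  have hU : Z ∪ W ⊆ G.vs := union_subset hZ hW
  unfold JK.CG.bd
  rw [Finset.card_filter, Finset.card_filter,
    ← G.sum_al fun d => if G.pi d ∈ Z ∪ W ∧ G.pi (G.al d) ∉ Z ∪ W then 1 else 0]
  refine Finset.sum_congr rfl fun d hd => ?_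
  have hv : G.pi d ∈ G.vs := G.pi_mem _ hd
  have hv' : G.pi (G.al d) ∈ G.vs := G.pi_mem _ (G.al_mem d hd)
  rw [G.al_al d hd]
  by_cases h1 : G.pi d ∈ Z ∪ W <;> by_cases h2 : G.pi (G.al d) ∈ Z ∪ W <;>
    simp [h1, h2, hv, hv']

lemma bd_par {G : JK.CG V D} (hT : TEC G) {X : Finset V} (hX : X ⊆ G.vs) :
    Odd (G.bd X).card ↔ Odd X.card := by
  rw [← JK.CG.dg_eq_bd hT.tok X]
  exact G.dg_parity hX

lemma bd_odd3 {G : JK.CG V D} (hT : TEC G) {X : Finset V} (hX : X ⊆ G.vs) (ho : Odd X.card) :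
    3 ≤ (G.bd X).card := by
  rw [← JK.CG.dg_eq_bd hT.tok X]
  exact hT.b0 X hX ho

theorem cross {G : JK.CG V D} (hT : TEC G) (hno : NoThree G) {Z W : Finset V} (hZ : Z ⊆ G.vs)
    (hW : W ⊆ G.vs) (eZ : Even Z.card) (eW : Even W.card) (dZ : (G.bd Z).card = 4)
    (dW : (G.bd W).card = 4) (z4 : 4 ≤ Z.card) (z4' : 4 ≤ (G.vs \ Z).card) (w4 : 4 ≤ W.card)
    (w4' : 4 ≤ (G.vs \ W).card) (nA : (Z ∩ W).Nonempty) (nB : (Z \ W).Nonempty)
    (nC : (W \ Z).Nonempty) (nD : (G.vs \ (Z ∪ W)).Nonempty) : Cross G Z W := by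
  have hA : Z ∩ W ⊆ G.vs := inter_subset_left.trans hZ
  have hB : Z \ W ⊆ G.vs := sdiff_subset.trans hZ
  have hC : W \ Z ⊆ G.vs := sdiff_subset.trans hW
  have hD : G.vs \ (Z ∪ W) ⊆ G.vs := sdiff_subset
  have hU : Z ∪ W ⊆ G.vs := union_subset hZ hW
  have c1 : (Z ∩ W).card + (Z \ W).card = Z.card := by
    rw [add_comm]; exact card_sdiff_add_card_inter Z W
  have c2 : (Z ∩ W).card + (W \ Z).card = W.card := by
    rw [add_comm, inter_comm]; exact card_sdiff_add_card_inter W Z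
  have c3 : (G.vs \ Z).card + Z.card = G.vs.card := card_sdiff_add_card_eq_card hZ
  have c4 : (G.vs \ W).card + W.card = G.vs.card := card_sdiff_add_card_eq_card hW
  have c5 : (G.vs \ (Z ∪ W)).card + (Z ∪ W).card = G.vs.card := card_sdiff_add_card_eq_card hU
  have c6 : (Z ∪ W).card + (Z ∩ W).card = Z.card + W.card := card_union_add_card_inter Z W
  have s1 := G.bd_submod Z W
  have s2 := G.bd_posimod hZ hW
  have b1 := bd_A G Z W
  have b2 := bd_B G Z W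
  have b3 := bd_C G Z W
  have b4 := bd_Z G Z W
  have b5 := bd_D G hZ hW
  have ev := hT.evenvs
  have pA := bd_par hT hA
  have pB := bd_par hT hB
  have pC := bd_par hT hC
  have pD := bd_par hT hD
  have one : ∀ X ⊆ G.vs, Odd X.card → (G.bd X).card = 3 → 4 ≤ (G.vs \ X).card → X.card = 1 := by
    intro X hX ho h3 h4
    rcases hno X hX ho h3 with h | h
    · exact h
    · omega
  have bigA : 4 ≤ (G.vs \ (Z ∩ W)).card :=
    z4'.trans (card_le_card (sdiff_subset_sdiff (Subset.refl _) inter_subset_left))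
  have bigB : 4 ≤ (G.vs \ (Z \ W)).card :=
    z4'.trans (card_le_card (sdiff_subset_sdiff (Subset.refl _) sdiff_subset))
  have bigC : 4 ≤ (G.vs \ (W \ Z)).card :=
    w4'.trans (card_le_card (sdiff_subset_sdiff (Subset.refl _) sdiff_subset))
  have bigD : 4 ≤ (G.vs \ (G.vs \ (Z ∪ W))).card := by
    rw [Finset.sdiff_sdiff_eq_self hU]
    exact z4.trans (card_le_card subset_union_left)
  rcases Nat.even_or_odd (Z ∩ W).card with hA0 | hA1
  · -- even corners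
    have eB : Even (Z \ W).card := by
      rw [← c1] at eZ
      exact (Nat.even_add.1 eZ).1 hA0
    have eC : Even (W \ Z).card := by
      rw [← c2] at eW
      exact (Nat.even_add.1 eW).1 hA0
    have eD : Even (G.vs \ (Z ∪ W)).card := by
      obtain ⟨a, ha⟩ := eZ
      obtain ⟨b, hb⟩ := eW
      obtain ⟨c, hc⟩ := ev
      obtain ⟨e, he⟩ := hA0
      exact ⟨c + e - a - b, by omega⟩
    have ne : ∀ X ⊆ G.vs, 4 ≤ (G.vs \ X).card → X ≠ G.vs := by
      rintro X _ h rfl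
      rw [sdiff_self] at h
      simp at h
    have dA := hT.evn _ hA hA0 nA (ne _ hA bigA)
    have dB := hT.evn _ hB eB nB (ne _ hB bigB)
    have dC := hT.evn _ hC eC nC (ne _ hC bigC)
    have dD := hT.evn _ hD eD nD (ne _ hD bigD)
    have hmu : (G.ed (Z ∩ W) (G.vs \ (Z ∪ W))).card = 0 := by omega
    have hnu : (G.ed (Z \ W) (W \ Z)).card = 0 := by omega
    exact ⟨hA0, eB, eC, eD, by omega, by omega, by omega, by omega, card_eq_zero.1 hmu,
      card_eq_zero.1 hnu, by omega, by omega, by omega, by omega⟩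
  · exfalso
    have oB : Odd (Z \ W).card := by
      rw [← Nat.not_even_iff_odd] at hA1 ⊢
      rw [← c1] at eZ
      exact fun h => hA1 ((Nat.even_add.1 eZ).2 h)
    have oC : Odd (W \ Z).card := by
      rw [← Nat.not_even_iff_odd] at hA1 ⊢
      rw [← c2] at eW
      exact fun h => hA1 ((Nat.even_add.1 eW).2 h)
    have oD : Odd (G.vs \ (Z ∪ W)).card := by
      obtain ⟨a, ha⟩ := eZ
      obtain ⟨b, hb⟩ := eW
      obtain ⟨c, hc⟩ := ev
      obtain ⟨e, he⟩ := hA1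
      have hpos := nD.card_pos
      exact ⟨c + e - a - b, by omega⟩
    have dA := bd_odd3 hT hA hA1
    have dB := bd_odd3 hT hB oB
    have dC := bd_odd3 hT hC oC
    have dD := bd_odd3 hT hD oD
    obtain ⟨a, ha⟩ := pA.2 hA1
    obtain ⟨b, hb⟩ := pB.2 oB
    obtain ⟨c, hc⟩ := pC.2 oC
    obtain ⟨e, he⟩ := pD.2 oD
    have h1 : (G.bd (Z ∩ W)).card = 3 ∨ (G.bd (G.vs \ (Z ∪ W))).card = 3 := by omega
    have h2 : (G.bd (Z \ W)).card = 3 ∨ (G.bd (W \ Z)).card = 3 := by omega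
    rcases h1 with h1 | h1
    · have k1 := one _ hA hA1 h1 bigA
      rcases h2 with h2 | h2
      · have k2 := one _ hB oB h2 bigB
        omega
      · have k2 := one _ hC oC h2 bigC
        omega
    · have k1 := one _ hD oD h1 bigD
      rcases h2 with h2 | h2
      · have k2 := one _ hB oB h2 bigB
        omega
      · have k2 := one _ hC oC h2 bigC
        omega

end K

end R5
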