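import Pool.Agent.Lib.R5.KDefs

/-! R5 module KGpi: the cubic graph `G_pi(X)` of kse74.md, 2b: `X` (even, `bd X = {i, j, k, l}`) plus
two adjacent new vertices `p, q` of `vs \ X`, legs `i, j` at `p`, `k, l` at `q`; the edge `p q` consists
of two darts `s, t` of `G` with both ends outside `X`. Same types: vs = insert p (insert q X),
ds = (darts with an end in `X`) plus `s, t`, pi' d = if pi d in X then pi d else if d = al i or al j or s
then p else q, al' swaps `s, t`. TEC: 2b. -/

set_option autoImplicit false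

namespace R5

open Finset Classical

namespace K

variable {V D : Type*}

/-- data of `G_pi(X)` -/
structure GP (G : JK.CG V D) (X : Finset V) (i j k l s : D) (p q : V) : Prop where
  hX : X ⊆ G.vs
  ht : G.tk G.vs = ∅
  hbd : G.bd X = {i, j, k, l}
  hij : i ≠ j
  hik : i ≠ k
  hil : i ≠ l
  hjk : j ≠ k
  hjl : j ≠ l
  hkl : k ≠ l
  hs : s ∈ G.ds
  so : G.pi s ∉ X
  so' : G.pi (G.al s) ∉ X
  hp : p ∉ X
  hq : q ∉ X
  hpq : p ≠ q

namespace GP

variable {G : JK.CG V D} {X : Finset V} {i j k l s : D} {p q : V}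

lemma notok (h : GP G X i j k l s p q) {d : D} (hd : d ∈ G.ds) : G.al d ≠ d := by
  intro he
  have h1 : d ∈ G.tk G.vs := (G.mem_tk).2 ⟨hd, G.pi_mem d hd, he⟩
  rw [h.ht] at h1
  exact absurd h1 (notMem_empty _)

lemma mi (h : GP G X i j k l s p q) : i ∈ G.ds ∧ G.pi i ∈ X ∧ G.pi (G.al i) ∉ X :=
  (G.mem_bd).1 (by rw [h.hbd]; simp)

lemma mj (h : GP G X i j k l s p q) : j ∈ G.ds ∧ G.pi j ∈ X ∧ G.pi (G.al j) ∉ X :=
  (G.mem_bd).1 (by rw [h.hbd]; simp)

lemma mk' (h : GP G X i j k l s p q) : k ∈ G.ds ∧ G.pi k ∈ X ∧ G.pi (G.al k) ∉ X :=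
  (G.mem_bd).1 (by rw [h.hbd]; simp)

lemma ml (h : GP G X i j k l s p q) : l ∈ G.ds ∧ G.pi l ∈ X ∧ G.pi (G.al l) ∉ X :=
  (G.mem_bd).1 (by rw [h.hbd]; simp)

lemma al_inj {a b : D} (ha : a ∈ G.ds) (hb : b ∈ G.ds) (hn : a ≠ b) : G.al a ≠ G.al b := by
  intro he
  apply hn
  rw [← G.al_al a ha, he, G.al_al b hb]

lemma s_ne (h : GP G X i j k l s p q) {a : D} (ha : a ∈ G.ds) (hX : G.pi a ∈ X) :
    G.al a ≠ s ∧ G.al a ≠ G.al s := by
  constructor
  · intro he
    apply h.so'
    rw [← he, G.al_al a ha]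
    exact hX
  · intro he
    apply h.so
    rw [← G.al_al s h.hs, ← he, G.al_al a ha]
    exact hX

/-- new ends -/
noncomputable def npi (G : JK.CG V D) (X : Finset V) (i j s : D) (p q : V) (d : D) : V :=
  if G.pi d ∈ X then G.pi d else if d = G.al i ∨ d = G.al j ∨ d = s then p else q

/-- new darts -/
noncomputable def nds (G : JK.CG V D) (X : Finset V) (s : D) : Finset D :=
  G.ds.filter fun d => G.pi d ∈ X ∨ G.pi (G.al d) ∈ X ∨ d = s ∨ d = G.al s

lemma mem_nds {d : D} : d ∈ nds G X s ↔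
    d ∈ G.ds ∧ (G.pi d ∈ X ∨ G.pi (G.al d) ∈ X ∨ d = s ∨ d = G.al s) := by
  unfold nds
  rw [mem_filter]

lemma npi_in {d : D} (hd : G.pi d ∈ X) : npi G X i j s p q d = G.pi d := by
  unfold npi
  rw [if_pos hd]

lemma npi_p {d : D} (hd : G.pi d ∉ X) (h1 : d = G.al i ∨ d = G.al j ∨ d = s) :
    npi G X i j s p q d = p := by
  unfold npi
  rw [if_neg hd, if_pos h1]

lemma npi_q {d : D} (hd : G.pi d ∉ X) (h1 : ¬ (d = G.al i ∨ d = G.al j ∨ d = s)) :
    npi G X i j s p q d = q := by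
  unfold npi
  rw [if_neg hd, if_neg h1]

lemma npi_mem (h : GP G X i j k l s p q) {U : Finset V} (hU : U ⊆ X) {d : D} :
    npi G X i j s p q d ∈ U ↔ G.pi d ∈ U := by
  by_cases h1 : G.pi d ∈ X
  · rw [npi_in h1]
  · by_cases h2 : d = G.al i ∨ d = G.al j ∨ d = s
    · rw [npi_p h1 h2]
      exact ⟨fun h3 => absurd (hU h3) h.hp, fun h3 => absurd (hU h3) h1⟩
    · rw [npi_q h1 h2]
      exact ⟨fun h3 => absurd (hU h3) h.hq, fun h3 => absurd (hU h3) h1⟩

/-- the outer ends of the new darts -/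
lemma out_cases (h : GP G X i j k l s p q) {d : D} (hd : d ∈ nds G X s) (hX : G.pi d ∉ X) :
    d = G.al i ∨ d = G.al j ∨ d = G.al k ∨ d = G.al l ∨ d = s ∨ d = G.al s := by
  rw [mem_nds] at hd
  obtain ⟨h1, h2 | h2 | h2 | h2⟩ := hd
  · exact absurd h2 hX
  · have h3 : G.al d ∈ G.bd X := (G.mem_bd).2 ⟨G.al_mem d h1, h2, by rwa [G.al_al d h1]⟩
    rw [h.hbd] at h3
    simp only [mem_insert, mem_singleton] at h3
    rcases h3 with h3 | h3 | h3 | h3
    · left
      rw [← h3, G.al_al d h1]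
    · right; left
      rw [← h3, G.al_al d h1]
    · right; right; left
      rw [← h3, G.al_al d h1]
    · right; right; right; left
      rw [← h3, G.al_al d h1]
  · exact Or.inr (Or.inr (Or.inr (Or.inr (Or.inl h2))))
  · exact Or.inr (Or.inr (Or.inr (Or.inr (Or.inr h2))))

lemma fib_in (h : GP G X i j k l s p q) {v : V} (hv : v ∈ X) :
    ((nds G X s).filter fun d => npi G X i j s p q d = v) = G.ds.filter fun d => G.pi d = v := by
  ext d
  rw [mem_filter, mem_filter, mem_nds]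
  constructor
  · rintro ⟨⟨h1, _⟩, h3⟩
    have h4 : G.pi d ∈ ({v} : Finset V) :=
      (h.npi_mem (singleton_subset_iff.2 hv)).1 (mem_singleton.2 h3)
    exact ⟨h1, mem_singleton.1 h4⟩
  · rintro ⟨h1, h3⟩
    have h4 : G.pi d ∈ X := by rw [h3]; exact hv
    exact ⟨⟨h1, Or.inl h4⟩, by rw [npi_in h4]; exact h3⟩

lemma fib_p (h : GP G X i j k l s p q) :
    ((nds G X s).filter fun d => npi G X i j s p q d = p) = {G.al i, G.al j, s} := by
  ext d
  rw [mem_filter]
  simp only [mem_insert, mem_singleton]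
  constructor
  · rintro ⟨_, h2⟩
    by_contra h3
    by_cases h4 : G.pi d ∈ X
    · rw [npi_in h4] at h2
      exact h.hp (h2 ▸ h4)
    · rw [npi_q h4 h3] at h2
      exact h.hpq h2.symm
  · intro h1
    have h2 : d ∈ nds G X s ∧ G.pi d ∉ X := by
      rw [mem_nds]
      rcases h1 with rfl | rfl | rfl
      · refine ⟨⟨G.al_mem _ h.mi.1, Or.inr (Or.inl ?_)⟩, h.mi.2.2⟩
        rw [G.al_al _ h.mi.1]
        exact h.mi.2.1
      · refine ⟨⟨G.al_mem _ h.mj.1, Or.inr (Or.inl ?_)⟩, h.mj.2.2⟩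
        rw [G.al_al _ h.mj.1]
        exact h.mj.2.1
      · exact ⟨⟨h.hs, Or.inr (Or.inr (Or.inl rfl))⟩, h.so⟩
    exact ⟨h2.1, npi_p h2.2 h1⟩

lemma fib_q (h : GP G X i j k l s p q) :
    ((nds G X s).filter fun d => npi G X i j s p q d = q) = {G.al k, G.al l, G.al s} := by
  ext d
  rw [mem_filter]
  simp only [mem_insert, mem_singleton]
  constructor
  · rintro ⟨h1, h2⟩
    by_cases h4 : G.pi d ∈ X
    · rw [npi_in h4] at h2
      exact absurd h4 (h2 ▸ h.hq)
    · by_cases h3 : d = G.al i ∨ d = G.al j ∨ d = s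
      · rw [npi_p h4 h3] at h2
        exact absurd h2 h.hpq
      · rcases h.out_cases h1 h4 with h5 | h5 | h5 | h5 | h5 | h5
        · exact absurd (Or.inl h5) h3
        · exact absurd (Or.inr (Or.inl h5)) h3
        · exact Or.inl h5
        · exact Or.inr (Or.inl h5)
        · exact absurd (Or.inr (Or.inr h5)) h3
        · exact Or.inr (Or.inr h5)
  · have hks := h.s_ne h.mk'.1 h.mk'.2.1
    have hls := h.s_ne h.ml.1 h.ml.2.1
    intro h1
    have h2 : d ∈ nds G X s ∧ G.pi d ∉ X ∧ ¬ (d = G.al i ∨ d = G.al j ∨ d = s) := by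
      rw [mem_nds]
      rcases h1 with rfl | rfl | rfl
      · refine ⟨⟨G.al_mem _ h.mk'.1, Or.inr (Or.inl ?_)⟩, h.mk'.2.2, ?_⟩
        · rw [G.al_al _ h.mk'.1]
          exact h.mk'.2.1
        · rintro (h3 | h3 | h3)
          · exact al_inj h.mi.1 h.mk'.1 h.hik h3.symm
          · exact al_inj h.mj.1 h.mk'.1 h.hjk h3.symm
          · exact hks.1 h3
      · refine ⟨⟨G.al_mem _ h.ml.1, Or.inr (Or.inl ?_)⟩, h.ml.2.2, ?_⟩
        · rw [G.al_al _ h.ml.1]
          exact h.ml.2.1
        · rintro (h3 | h3 | h3)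
          · exact al_inj h.mi.1 h.ml.1 h.hil h3.symm
          · exact al_inj h.mj.1 h.ml.1 h.hjl h3.symm
          · exact hls.1 h3
      · refine ⟨⟨G.al_mem _ h.hs, Or.inr (Or.inr (Or.inr rfl))⟩, h.so', ?_⟩
        rintro (h3 | h3 | h3)
        · exact (h.s_ne h.mi.1 h.mi.2.1).2 h3.symm
        · exact (h.s_ne h.mj.1 h.mj.2.1).2 h3.symm
        · exact h.notok h.hs h3
    exact ⟨h2.1, npi_q h2.2.1 h2.2.2⟩

/-- the graph `G_pi(X)` -/
noncomputable def gr (h : GP G X i j k l s p q) : JK.CG V D where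
  vs := insert p (insert q X)
  ds := nds G X s
  pi := npi G X i j s p q
  al := G.al
  pi_mem := by
    intro d _
    by_cases h1 : G.pi d ∈ X
    · rw [npi_in h1]
      exact mem_insert_of_mem (mem_insert_of_mem h1)
    · by_cases h2 : d = G.al i ∨ d = G.al j ∨ d = s
      · rw [npi_p h1 h2]
        exact mem_insert_self _ _
      · rw [npi_q h1 h2]
        exact mem_insert_of_mem (mem_insert_self _ _)
  al_mem := by
    intro d hd
    rw [mem_nds] at hd ⊢
    refine ⟨G.al_mem d hd.1, ?_⟩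
    rw [G.al_al d hd.1]
    rcases hd.2 with h1 | h1 | h1 | h1
    · exact Or.inr (Or.inl h1)
    · exact Or.inl h1
    · exact Or.inr (Or.inr (Or.inr (by rw [h1])))
    · exact Or.inr (Or.inr (Or.inl (by rw [h1, G.al_al s h.hs])))
  al_al := fun d hd => G.al_al d (mem_nds.1 hd).1
  cubic := by
    intro v hv
    rw [mem_insert, mem_insert] at hv
    rcases hv with rfl | rfl | hv
    · rw [h.fib_p, card_insert_of_notMem, card_insert_of_notMem, card_singleton]
      · rw [mem_singleton]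
        exact (h.s_ne h.mj.1 h.mj.2.1).1
      · rw [mem_insert, mem_singleton]
        rintro (h1 | h1)
        · exact al_inj h.mi.1 h.mj.1 h.hij h1
        · exact (h.s_ne h.mi.1 h.mi.2.1).1 h1
    · rw [h.fib_q, card_insert_of_notMem, card_insert_of_notMem, card_singleton]
      · rw [mem_singleton]
        exact (h.s_ne h.ml.1 h.ml.2.1).2
      · rw [mem_insert, mem_singleton]
        rintro (h1 | h1)
        · exact al_inj h.mk'.1 h.ml.1 h.hkl h1
        · exact (h.s_ne h.mk'.1 h.mk'.2.1).2 h1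
    · rw [h.fib_in hv]
      exact G.cubic v (h.hX hv)

lemma gr_vs (h : GP G X i j k l s p q) : h.gr.vs = insert p (insert q X) := rfl

lemma gr_ds (h : GP G X i j k l s p q) : h.gr.ds = nds G X s := rfl

lemma gr_pi (h : GP G X i j k l s p q) (d : D) : h.gr.pi d = npi G X i j s p q d := rfl

lemma gr_al (h : GP G X i j k l s p q) (d : D) : h.gr.al d = G.al d := rfl

lemma s_ds (h : GP G X i j k l s p q) : s ∈ h.gr.ds := by
  rw [h.gr_ds, mem_nds]
  exact ⟨h.hs, Or.inr (Or.inr (Or.inl rfl))⟩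

lemma s_pi (h : GP G X i j k l s p q) : h.gr.pi s = p := by
  rw [h.gr_pi]
  exact npi_p h.so (Or.inr (Or.inr rfl))

lemma as_pi (h : GP G X i j k l s p q) : h.gr.pi (G.al s) = q := by
  have h1 : G.al s ∈ ((nds G X s).filter fun d => npi G X i j s p q d = q) := by
    rw [h.fib_q]
    simp
  exact (mem_filter.1 h1).2

lemma gr_card (h : GP G X i j k l s p q) : h.gr.vs.card = X.card + 2 := by
  rw [h.gr_vs, card_insert_of_notMem, card_insert_of_notMem h.hq]
  rw [mem_insert]
  rintro (h1 | h1)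
  · exact h.hpq h1
  · exact h.hp h1

lemma gr_tk (h : GP G X i j k l s p q) (U : Finset V) : h.gr.tk U = ∅ := by
  rw [eq_empty_iff_forall_notMem]
  intro d hd
  rw [JK.CG.mem_tk] at hd
  exact h.notok (mem_nds.1 hd.1).1 hd.2.2

/-- boundaries of subsets of `X` -/
lemma gr_bd (h : GP G X i j k l s p q) {U : Finset V} (hU : U ⊆ X) : h.gr.bd U = G.bd U := by
  ext d
  rw [JK.CG.mem_bd, JK.CG.mem_bd, h.gr_ds, h.gr_pi, h.gr_al, h.gr_pi, h.npi_mem hU,
    h.npi_mem hU, mem_nds]
  exact ⟨fun h1 => ⟨h1.1.1, h1.2⟩, fun h1 => ⟨⟨h1.1, Or.inl (hU h1.2.1)⟩, h1.2⟩⟩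

/-- lower bound for `U + p` -/
lemma gr_bd_p (h : GP G X i j k l s p q) {U : Finset V} (hU : U ⊆ X) :
    (G.ed U (X \ U)).card + 1 ≤ (h.gr.bd (insert p U)).card := by
  have h1 : s ∉ G.ed U (X \ U) := by
    rw [JK.CG.mem_ed]
    rintro ⟨_, h2, _⟩
    exact h.so (hU h2)
  rw [← card_insert_of_notMem h1]
  apply card_le_card
  intro d hd
  rw [mem_insert] at hd
  rw [JK.CG.mem_bd, h.gr_al]
  rcases hd with rfl | hd
  · refine ⟨h.s_ds, ?_, ?_⟩
    · rw [h.s_pi]
      exact mem_insert_self _ _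
    · rw [h.as_pi, mem_insert]
      rintro (h2 | h2)
      · exact h.hpq h2.symm
      · exact h.hq (hU h2)
  · rw [JK.CG.mem_ed, mem_sdiff] at hd
    obtain ⟨h2, h3, h4, h5⟩ := hd
    refine ⟨?_, ?_, ?_⟩
    · rw [h.gr_ds, mem_nds]
      exact ⟨h2, Or.inl (hU h3)⟩
    · rw [h.gr_pi, npi_in (hU h3)]
      exact mem_insert_of_mem h3
    · rw [h.gr_pi, npi_in h4, mem_insert]
      rintro (h6 | h6)
      · exact h.hp (h6 ▸ h4)
      · exact h5 h6

/-- `{p}` and `{q}` -/
lemma gr_bd_one (h : GP G X i j k l s p q) :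
    3 ≤ (h.gr.bd {p}).card ∧ 3 ≤ (h.gr.bd {q}).card := by
  constructor
  · have h1 := h.gr.cubic p (mem_insert_self _ _)
    rw [← h1]
    apply card_le_card
    intro d hd
    rw [mem_filter] at hd
    rw [JK.CG.mem_bd, h.gr_al, mem_singleton, mem_singleton]
    refine ⟨hd.1, hd.2, ?_⟩
    have h2 : d ∈ ((nds G X s).filter fun d => npi G X i j s p q d = p) := mem_filter.2 hd
    rw [h.fib_p] at h2
    simp only [mem_insert, mem_singleton] at h2
    rcases h2 with rfl | rfl | rfl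
    · rw [G.al_al i h.mi.1, h.gr_pi, npi_in h.mi.2.1]
      intro h3
      exact h.hp (h3 ▸ h.mi.2.1)
    · rw [G.al_al j h.mj.1, h.gr_pi, npi_in h.mj.2.1]
      intro h3
      exact h.hp (h3 ▸ h.mj.2.1)
    · rw [h.as_pi]
      exact h.hpq.symm
  · have h1 := h.gr.cubic q (mem_insert_of_mem (mem_insert_self _ _))
    rw [← h1]
    apply card_le_card
    intro d hd
    rw [mem_filter] at hd
    rw [JK.CG.mem_bd, h.gr_al, mem_singleton, mem_singleton]
    refine ⟨hd.1, hd.2, ?_⟩
    have h2 : d ∈ ((nds G X s).filter fun d => npi G X i j s p q d = q) := mem_filter.2 hd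
    rw [h.fib_q] at h2
    simp only [mem_insert, mem_singleton] at h2
    rcases h2 with rfl | rfl | rfl
    · rw [G.al_al k h.mk'.1, h.gr_pi, npi_in h.mk'.2.1]
      intro h3
      exact h.hq (h3 ▸ h.mk'.2.1)
    · rw [G.al_al l h.ml.1, h.gr_pi, npi_in h.ml.2.1]
      intro h3
      exact h.hq (h3 ▸ h.ml.2.1)
    · rw [G.al_al s h.hs, h.s_pi]
      exact h.hpq

/-- at least two edges between `U` and `X - U` -/
lemma two_le (h : GP G X i j k l s p q) (hT : TEC G) (hno : NoThree G) (he : Even X.card)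
    (h4 : 4 ≤ X.card) (h4' : 4 ≤ (G.vs \ X).card) {U : Finset V} (hU : U ⊆ X)
    (hne : U.Nonempty) (hne' : (X \ U).Nonempty) : 2 ≤ (G.ed U (X \ U)).card := by
  have hcX := card_sdiff_add_card_eq_card h.hX
  have hcU := card_sdiff_add_card_eq_card hU
  have hUp : 0 < U.card := card_pos.2 hne
  have hUp' : 0 < (X \ U).card := card_pos.2 hne'
  have h1 := G.dg_union (X := U) (Y := X \ U) disjoint_sdiff
  rw [union_sdiff_of_subset hU, JK.CG.dg_eq_bd h.ht, JK.CG.dg_eq_bd h.ht,
    JK.CG.dg_eq_bd h.ht] at h1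
  have h2 : (G.bd X).card = 4 := by
    rw [h.hbd, card_insert_of_notMem, card_insert_of_notMem, card_insert_of_notMem,
      card_singleton]
    · rw [mem_singleton]
      exact h.hkl
    · rw [mem_insert, mem_singleton]
      rintro (h3 | h3)
      · exact h.hjk h3
      · exact h.hjl h3
    · rw [mem_insert, mem_insert, mem_singleton]
      rintro (h3 | h3 | h3)
      · exact h.hij h3
      · exact h.hik h3
      · exact h.hil h3
  have hUv : U ⊆ G.vs := hU.trans h.hX
  have hUv' : X \ U ⊆ G.vs := sdiff_subset.trans h.hX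
  have nev : ∀ Y ⊆ X, Y ≠ G.vs := by
    intro Y hY h3
    have h5 := card_le_card hY
    rw [h3] at h5
    omega
  have three : ∀ Y ⊆ X, Y ≠ ∅ → Odd Y.card → 3 ≤ (G.bd Y).card ∧
      ((G.bd Y).card = 3 → Y.card = 1) := by
    intro Y hY _ ho
    have h5 := hT.b0 Y (hY.trans h.hX) ho
    rw [JK.CG.dg_eq_bd h.ht] at h5
    refine ⟨h5, ?_⟩
    intro h6
    rcases hno Y (hY.trans h.hX) ho h6 with h7 | h7
    · exact h7
    · have h8 := card_sdiff_add_card_eq_card (hY.trans h.hX)
      have h9 := card_le_card hY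
      omega
  by_cases ho : Odd U.card
  · have ho' : Odd (X \ U).card := by
      rw [← hcU, Nat.even_add] at he
      by_contra h3
      exact (Nat.not_even_iff_odd.2 ho) (he.1 (Nat.not_odd_iff_even.1 h3))
    obtain ⟨a1, a2⟩ := three U hU hne.ne_empty ho
    obtain ⟨b1, b2⟩ := three (X \ U) sdiff_subset hne'.ne_empty ho'
    by_contra hc
    have c1 : (G.bd U).card = 3 := by omega
    have c2 : (G.bd (X \ U)).card = 3 := by omega
    have d1 := a2 c1
    have d2 := b2 c2
    omega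
  · have hev := Nat.not_odd_iff_even.1 ho
    have hev' : Even (X \ U).card := by
      rw [← hcU, Nat.even_add] at he
      exact he.2 hev
    have a1 := hT.evn U hUv hev hne (nev U hU)
    have b1 := hT.evn (X \ U) hUv' hev' hne' (nev _ sdiff_subset)
    omega

/-- parity in the new graph -/
lemma gr_par (h : GP G X i j k l s p q) {W : Finset V} (hW : W ⊆ h.gr.vs) :
    Odd (h.gr.bd W).card ↔ Odd W.card := by
  rw [← h.gr.dg_parity hW]
  unfold JK.CG.dg
  rw [h.gr_tk, card_empty, add_zero]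

/-- sets `U + p` -/
lemma three_le (h : GP G X i j k l s p q) (hT : TEC G) (hno : NoThree G) (he : Even X.card)
    (h4 : 4 ≤ X.card) (h4' : 4 ≤ (G.vs \ X).card) {U : Finset V} (hU : U ⊆ X) :
    3 ≤ (h.gr.bd (insert p U)).card := by
  by_cases h1 : U = ∅
  · rw [h1]
    exact h.gr_bd_one.1
  · by_cases h2 : X \ U = ∅
    · have h3 : U = X := subset_antisymm hU (sdiff_eq_empty_iff_subset.1 h2)
      have h5 : insert p U ⊆ h.gr.vs := by
        rw [h3]
        intro v hv
        rw [mem_insert] at hv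
        rcases hv with rfl | hv
        · exact mem_insert_self _ _
        · exact mem_insert_of_mem (mem_insert_of_mem hv)
      rw [← h.gr.bd_compl h5]
      have h6 : h.gr.vs \ insert p U = {q} := by
        rw [h3]
        ext v
        rw [mem_sdiff, mem_singleton, h.gr_vs, mem_insert, mem_insert, mem_insert]
        constructor
        · rintro ⟨h7 | h7 | h7, h8⟩
          · exact absurd (Or.inl h7) h8
          · exact h7
          · exact absurd (Or.inr h7) h8
        · rintro rfl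
          refine ⟨Or.inr (Or.inl rfl), ?_⟩
          rintro (h7 | h7)
          · exact h.hpq h7.symm
          · exact h.hq h7
      rw [h6]
      exact h.gr_bd_one.2
    · have h3 := h.two_le hT hno he h4 h4' hU (nonempty_iff_ne_empty.2 h1)
        (nonempty_iff_ne_empty.2 h2)
      have h5 := h.gr_bd_p hU
      omega

/-- the four kinds of sets -/
lemma kinds (h : GP G X i j k l s p q) {W : Finset V} (hW : W ⊆ h.gr.vs) :
    W ⊆ X ∨ h.gr.vs \ W ⊆ X ∨ (∃ U ⊆ X, W = insert p U) ∨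
      (∃ U ⊆ X, h.gr.vs \ W = insert p U) := by
  by_cases h1 : p ∈ W
  · by_cases h2 : q ∈ W
    · right; left
      intro v hv
      rw [mem_sdiff, h.gr_vs, mem_insert, mem_insert] at hv
      rcases hv.1 with h3 | h3 | h3
      · exact absurd (h3 ▸ h1) hv.2
      · exact absurd (h3 ▸ h2) hv.2
      · exact h3
    · right; right; left
      refine ⟨W.erase p, ?_, (insert_erase h1).symm⟩
      intro v hv
      rw [mem_erase] at hv
      have h3 := hW hv.2
      rw [h.gr_vs, mem_insert, mem_insert] at h3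
      rcases h3 with h3 | h3 | h3
      · exact absurd h3 hv.1
      · exact absurd (h3 ▸ hv.2) h2
      · exact h3
  · by_cases h2 : q ∈ W
    · right; right; right
      refine ⟨(h.gr.vs \ W).erase p, ?_, ?_⟩
      · intro v hv
        rw [mem_erase, mem_sdiff, h.gr_vs, mem_insert, mem_insert] at hv
        rcases hv.2.1 with h3 | h3 | h3
        · exact absurd h3 hv.1
        · exact absurd (h3 ▸ h2) hv.2.2
        · exact h3
      · refine (insert_erase ?_).symm
        rw [mem_sdiff]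
        exact ⟨mem_insert_self _ _, h1⟩
    · left
      intro v hv
      have h3 := hW hv
      rw [h.gr_vs, mem_insert, mem_insert] at h3
      rcases h3 with h3 | h3 | h3
      · exact absurd (h3 ▸ hv) h1
      · exact absurd (h3 ▸ hv) h2
      · exact h3

/-- `G_pi(X)` is 3-edge-connected -/
lemma tec (h : GP G X i j k l s p q) (hT : TEC G) (hno : NoThree G) (he : Even X.card)
    (h4 : 4 ≤ X.card) (h4' : 4 ≤ (G.vs \ X).card) : TEC h.gr := by
  have hevs : Even h.gr.vs.card := by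
    rw [h.gr_card]
    exact he.add (by decide)
  have hcX := card_sdiff_add_card_eq_card h.hX
  have nev : ∀ Y ⊆ X, Y ≠ G.vs := by
    intro Y hY h3
    have h5 := card_le_card hY
    rw [h3] at h5
    omega
  have compl_even : ∀ W ⊆ h.gr.vs, Even (h.gr.vs \ W).card ↔ Even W.card := by
    intro W hW
    have h1 := card_sdiff_add_card_eq_card hW
    rw [← h1, Nat.even_add] at hevs
    exact hevs
  have odd3 : ∀ W ⊆ h.gr.vs, Odd W.card → 3 ≤ (h.gr.bd W).card := by
    intro W hW ho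
    have ho' : Odd (h.gr.vs \ W).card := by
      rw [← Nat.not_even_iff_odd, compl_even W hW, Nat.not_even_iff_odd]
      exact ho
    rcases h.kinds hW with h1 | h1 | ⟨U, hU, rfl⟩ | ⟨U, hU, h1⟩
    · rw [h.gr_bd h1, ← JK.CG.dg_eq_bd h.ht]
      exact hT.b0 W (h1.trans h.hX) ho
    · rw [← h.gr.bd_compl hW, h.gr_bd h1, ← JK.CG.dg_eq_bd h.ht]
      exact hT.b0 _ (h1.trans h.hX) ho'
    · exact h.three_le hT hno he h4 h4' hU
    · rw [← h.gr.bd_compl hW, h1]
      exact h.three_le hT hno he h4 h4' hU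
  refine ⟨hevs, h.gr_tk _, ?_, ?_⟩
  · intro W hW ho
    unfold JK.CG.dg
    rw [h.gr_tk, card_empty, add_zero]
    exact odd3 W hW ho
  · intro W hW hev hne hneW
    have hev' := (compl_even W hW).2 hev
    have hne' : (h.gr.vs \ W).Nonempty := by
      rw [nonempty_iff_ne_empty]
      intro h1
      exact hneW (subset_antisymm hW (sdiff_eq_empty_iff_subset.1 h1))
    have up : ∀ Y ⊆ h.gr.vs, Even Y.card → 3 ≤ (h.gr.bd Y).card → 4 ≤ (h.gr.bd Y).card := by
      intro Y hY h1 h2
      have h3 : ¬ Odd (h.gr.bd Y).card := by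
        rw [h.gr_par hY]
        exact Nat.not_odd_iff_even.2 h1
      have h5 : (h.gr.bd Y).card ≠ 3 := by
        intro h6
        rw [h6] at h3
        exact h3 (by decide)
      omega
    rcases h.kinds hW with h1 | h1 | ⟨U, hU, rfl⟩ | ⟨U, hU, h1⟩
    · rw [h.gr_bd h1]
      exact hT.evn W (h1.trans h.hX) hev hne (nev W h1)
    · rw [← h.gr.bd_compl hW, h.gr_bd h1]
      exact hT.evn _ (h1.trans h.hX) hev' hne' (nev _ h1)
    · exact up _ hW hev (h.three_le hT hno he h4 h4' hU)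
    · apply up _ hW hev
      rw [← h.gr.bd_compl hW, h1]
      exact h.three_le hT hno he h4 h4' hU

/-- the half of a clean matching of `G_pi(X)` -/
lemma half (h : GP G X i j k l s p q) {J : Finset D} (hJ : Clean h.gr J) :
    Half G X (J.filter fun d => G.pi d ∈ X) := by
  refine ⟨?_, ?_, ?_, ?_⟩
  · intro d hd
    rw [mem_filter] at hd
    exact ⟨(mem_nds.1 (hJ.pm.sub hd.1)).1, hd.2⟩
  · intro d hd h1
    rw [mem_filter] at hd ⊢
    exact ⟨hJ.pm.closed d hd.1, h1⟩
  · intro v hv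
    rw [← hJ.pm.one v (mem_insert_of_mem (mem_insert_of_mem hv)), filter_filter]
    congr 1
    ext d
    rw [mem_filter, mem_filter, h.gr_pi]
    constructor
    · rintro ⟨h1, h2, h3⟩
      exact ⟨h1, by rw [npi_in h2]; exact h3⟩
    · rintro ⟨h1, h3⟩
      have h5 : G.pi d ∈ ({v} : Finset V) :=
        (h.npi_mem (singleton_subset_iff.2 hv)).1 (mem_singleton.2 h3)
      rw [mem_singleton] at h5
      exact ⟨h1, by rw [h5]; exact hv, h5⟩
  · intro W hW he h1
    obtain ⟨d, hd, hdJ⟩ := hJ.four W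
      (hW.trans (fun v hv => mem_insert_of_mem (mem_insert_of_mem hv))) he
      (by rw [h.gr_bd hW]; exact h1)
    rw [h.gr_bd hW] at hd
    exact ⟨d, hd, fun h2 => hdJ (mem_filter.1 h2).1⟩

/-- a matching uses exactly one dart at `p` and one at `q` -/
lemma at_p (h : GP G X i j k l s p q) {J : Finset D} (hJ : h.gr.IsPM J) {a b : D} (ha : a ∈ J)
    (hb : b ∈ J) (ha' : a ∈ ({G.al i, G.al j, s} : Finset D))
    (hb' : b ∈ ({G.al i, G.al j, s} : Finset D)) : a = b := by
  rw [← h.fib_p, mem_filter] at ha' hb'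
  exact hJ.unique ha hb (by rw [h.gr_pi, h.gr_pi, ha'.2, hb'.2])

lemma at_q (h : GP G X i j k l s p q) {J : Finset D} (hJ : h.gr.IsPM J) {a b : D} (ha : a ∈ J)
    (hb : b ∈ J) (ha' : a ∈ ({G.al k, G.al l, G.al s} : Finset D))
    (hb' : b ∈ ({G.al k, G.al l, G.al s} : Finset D)) : a = b := by
  rw [← h.fib_q, mem_filter] at ha' hb'
  exact hJ.unique ha hb (by rw [h.gr_pi, h.gr_pi, ha'.2, hb'.2])

lemma ex_p (h : GP G X i j k l s p q) {J : Finset D} (hJ : h.gr.IsPM J) :
    G.al i ∈ J ∨ G.al j ∈ J ∨ s ∈ J := by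
  have h1 := hJ.one p (mem_insert_self _ _)
  have h2 : (J.filter fun d => h.gr.pi d = p).Nonempty := by
    rw [← card_pos, h1]
    exact one_pos
  obtain ⟨d, hd⟩ := h2
  rw [mem_filter] at hd
  have h3 : d ∈ ((nds G X s).filter fun d => npi G X i j s p q d = p) :=
    mem_filter.2 ⟨hJ.sub hd.1, hd.2⟩
  rw [h.fib_p] at h3
  simp only [mem_insert, mem_singleton] at h3
  rcases h3 with rfl | rfl | rfl
  · exact Or.inl hd.1
  · exact Or.inr (Or.inl hd.1)
  · exact Or.inr (Or.inr hd.1)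

lemma ex_q (h : GP G X i j k l s p q) {J : Finset D} (hJ : h.gr.IsPM J) :
    G.al k ∈ J ∨ G.al l ∈ J ∨ G.al s ∈ J := by
  have h1 := hJ.one q (mem_insert_of_mem (mem_insert_self _ _))
  have h2 : (J.filter fun d => h.gr.pi d = q).Nonempty := by
    rw [← card_pos, h1]
    exact one_pos
  obtain ⟨d, hd⟩ := h2
  rw [mem_filter] at hd
  have h3 : d ∈ ((nds G X s).filter fun d => npi G X i j s p q d = q) :=
    mem_filter.2 ⟨hJ.sub hd.1, hd.2⟩
  rw [h.fib_q] at h3
  simp only [mem_insert, mem_singleton] at h3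
  rcases h3 with rfl | rfl | rfl
  · exact Or.inl hd.1
  · exact Or.inr (Or.inl hd.1)
  · exact Or.inr (Or.inr hd.1)

lemma al_J (h : GP G X i j k l s p q) {J : Finset D} (hJ : h.gr.IsPM J) {d : D}
    (hd : d ∈ G.ds) : G.al d ∈ J ↔ d ∈ J := by
  constructor
  · intro h1
    have h2 := hJ.closed _ h1
    rwa [h.gr_al, G.al_al d hd] at h2
  · exact fun h1 => hJ.closed d h1

/-- if `p q` is in the matching then no leg is -/
lemma no_leg (h : GP G X i j k l s p q) {J : Finset D} (hJ : h.gr.IsPM J) (hs : s ∈ J) :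
    ∀ d ∈ G.bd X, d ∉ J := by
  have hs' : G.al s ∈ J := hJ.closed s hs
  intro d hd hdJ
  rw [h.hbd] at hd
  simp only [mem_insert, mem_singleton] at hd
  rcases hd with rfl | rfl | rfl | rfl
  · exact (h.s_ne h.mi.1 h.mi.2.1).1
      (h.at_p hJ ((h.al_J hJ h.mi.1).2 hdJ) hs (by simp) (by simp))
  · exact (h.s_ne h.mj.1 h.mj.2.1).1
      (h.at_p hJ ((h.al_J hJ h.mj.1).2 hdJ) hs (by simp) (by simp))
  · exact (h.s_ne h.mk'.1 h.mk'.2.1).2
      (h.at_q hJ ((h.al_J hJ h.mk'.1).2 hdJ) hs' (by simp) (by simp))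
  · exact (h.s_ne h.ml.1 h.ml.2.1).2
      (h.at_q hJ ((h.al_J hJ h.ml.1).2 hdJ) hs' (by simp) (by simp))

/-- the 3-cut `U + p` -/
lemma cut_p (h : GP G X i j k l s p q) {U : Finset V} (hU : U ⊆ X) (h4 : (G.bd U).card = 4)
    (hi : i ∈ G.bd U) (hj : j ∈ G.bd U) :
    h.gr.bd (insert p U) = insert s (((G.bd U).erase i).erase j) ∧
      (h.gr.bd (insert p U)).card = 3 := by
  have key : h.gr.bd (insert p U) = insert s (((G.bd U).erase i).erase j) := by
    ext d
    rw [JK.CG.mem_bd, h.gr_al, mem_insert, mem_insert, mem_insert, mem_erase, mem_erase,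
      JK.CG.mem_bd]
    have hiU := ((G.mem_bd).1 hi).2.1
    have hjU := ((G.mem_bd).1 hj).2.1
    constructor
    · rintro ⟨h1, h2, h3⟩
      push Not at h3
      by_cases hX : G.pi d ∈ X
      · have h5 : G.pi d ∈ U := by
          rcases h2 with h2 | h2
          · rw [h.gr_pi, npi_in hX] at h2
            exact absurd hX (h2 ▸ h.hp)
          · rwa [h.gr_pi, h.npi_mem hU] at h2
        have h6 : G.pi (G.al d) ∉ U := by
          have h7 := h3.2
          rwa [h.gr_pi, h.npi_mem hU] at h7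
        have hds := (mem_nds.1 h1).1
        right
        refine ⟨?_, ?_, hds, h5, h6⟩
        · rintro rfl
          apply h3.1
          rw [h.gr_pi]
          exact npi_p h.mj.2.2 (Or.inr (Or.inl rfl))
        · rintro rfl
          apply h3.1
          rw [h.gr_pi]
          exact npi_p h.mi.2.2 (Or.inl rfl)
      · have h5 : h.gr.pi d = p := by
          rcases h2 with h2 | h2
          · exact h2
          · rw [h.gr_pi, h.npi_mem hU] at h2
            exact absurd (hU h2) hX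
        have h6 : d ∈ ((nds G X s).filter fun d => npi G X i j s p q d = p) :=
          mem_filter.2 ⟨h1, h5⟩
        rw [h.fib_p] at h6
        simp only [mem_insert, mem_singleton] at h6
        rcases h6 with rfl | rfl | h6
        · exfalso
          apply h3.2
          rw [G.al_al i h.mi.1, h.gr_pi, npi_in h.mi.2.1]
          exact hiU
        · exfalso
          apply h3.2
          rw [G.al_al j h.mj.1, h.gr_pi, npi_in h.mj.2.1]
          exact hjU
        · exact Or.inl h6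
    · rintro (rfl | ⟨h1, h2, h3, h5, h6⟩)
      · refine ⟨h.s_ds, Or.inl h.s_pi, ?_⟩
        rw [h.as_pi]
        rintro (h7 | h7)
        · exact h.hpq h7.symm
        · exact h.hq (hU h7)
      · have h1' : d ∈ nds G X s := mem_nds.2 ⟨h3, Or.inl (hU h5)⟩
        refine ⟨h1', Or.inr ?_, ?_⟩
        · rw [h.gr_pi, npi_in (hU h5)]
          exact h5
        · rw [h.gr_pi, h.npi_mem hU]
          rintro (h7 | h7)
          · by_cases hX : G.pi (G.al d) ∈ X
            · rw [npi_in hX] at h7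
              exact h.hp (h7 ▸ hX)
            · have h8 : G.al d ∈ ((nds G X s).filter fun d => npi G X i j s p q d = p) := by
                refine mem_filter.2 ⟨mem_nds.2 ⟨G.al_mem d h3, Or.inr (Or.inl ?_)⟩, h7⟩
                rw [G.al_al d h3]
                exact hU h5
              rw [h.fib_p] at h8
              simp only [mem_insert, mem_singleton] at h8
              rcases h8 with h8 | h8 | h8
              · exact al_inj h3 h.mi.1 h2 h8
              · exact al_inj h3 h.mj.1 h1 h8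
              · exact (h.s_ne h3 (hU h5)).1 h8
          · exact h6 h7
  refine ⟨key, ?_⟩
  have h1 : j ∈ (G.bd U).erase i := mem_erase.2 ⟨h.hij.symm, hj⟩
  rw [key, card_insert_of_notMem, card_erase_of_mem h1, card_erase_of_mem hi, h4]
  rw [mem_erase, mem_erase, JK.CG.mem_bd]
  rintro ⟨_, _, _, h2, _⟩
  exact h.so (hU h2)

end GP

/-- there is a dart with both ends outside `X` -/
lemma exists_out {G : JK.CG V D} {X : Finset V} (hX : X ⊆ G.vs)
    (h4' : 4 ≤ (G.vs \ X).card) (hc : (G.bd X).card ≤ 4) :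
    ∃ s ∈ G.ds, G.pi s ∉ X ∧ G.pi (G.al s) ∉ X := by
  by_contra hcon
  push Not at hcon
  have h1 := G.card_darts (X := G.vs \ X) sdiff_subset
  have h2 : (G.ds.filter fun d => G.pi d ∈ G.vs \ X) ⊆ G.bd (G.vs \ X) := by
    intro d hd
    rw [mem_filter] at hd
    rw [JK.CG.mem_bd]
    refine ⟨hd.1, hd.2, fun h3 => (mem_sdiff.1 h3).2 (hcon d hd.1 (mem_sdiff.1 hd.2).2)⟩
  have h3 := card_le_card h2
  rw [G.bd_compl hX] at h3
  omega

/-- halves obtained from `G_pi(X)`, `pi = ij|kl`: first part `p q` in the matching (the last clause is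
the 3-cut `U + p`), second part through any dart `e` at `X` -/
theorem half_of {G : JK.CG V D} (hT : TEC G) (hno : NoThree G) (hI : IHK G.vs.card V D)
    {X : Finset V} (hX : X ⊆ G.vs) (he : Even X.card) (h4 : 4 ≤ X.card)
    (h4' : 4 ≤ (G.vs \ X).card) {i j k l : D} (hbd : G.bd X = {i, j, k, l}) (hij : i ≠ j)
    (hik : i ≠ k) (hil : i ≠ l) (hjk : j ≠ k) (hjl : j ≠ l) (hkl : k ≠ l) :
    (∃ A, Half G X A ∧ (∀ d ∈ G.bd X, d ∉ A) ∧
      ∀ U ⊆ X, Even U.card → (G.bd U).card = 4 → i ∈ G.bd U → j ∈ G.bd U → k ∉ G.bd U →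
        l ∉ G.bd U → ∀ d ∈ G.bd U, d ≠ i → d ≠ j → d ∉ A) ∧
    ∀ e ∈ G.ds, G.pi e ∈ X → ∃ A, Half G X A ∧ e ∈ A ∧
      ((∀ d ∈ G.bd X, d ∉ A) ∨ ((i ∈ A ↔ j ∉ A) ∧ (k ∈ A ↔ l ∉ A))) := by
  have hc : (G.bd X).card ≤ 4 := by
    rw [hbd]
    exact card_le_four
  obtain ⟨s, hs, so, so'⟩ := exists_out hX h4' hc
  obtain ⟨p, hp, q, hq, hpq⟩ := one_lt_card.1 (show 1 < (G.vs \ X).card by omega)
  have h : GP G X i j k l s p q := ⟨hX, hT.tok, hbd, hij, hik, hil, hjk, hjl, hkl, hs, so, so',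
    (mem_sdiff.1 hp).2, (mem_sdiff.1 hq).2, hpq⟩
  have hcX := card_sdiff_add_card_eq_card hX
  have hKS : KS h.gr := hI h.gr (by rw [h.gr_card]; omega) (h.tec hT hno he h4 h4')
  constructor
  · obtain ⟨J, hJ, hsJ⟩ := hKS s h.s_ds
    refine ⟨J.filter fun d => G.pi d ∈ X, h.half hJ, ?_, ?_⟩
    · intro d hd h1
      exact h.no_leg hJ.pm hsJ d hd (mem_filter.1 h1).1
    · intro U hU hev hU4 hi hj _ _ d hd hdi hdj h1
      obtain ⟨c1, c2⟩ := h.cut_p hU hU4 hi hj
      have h2 : insert p U ⊆ h.gr.vs := by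
        intro v hv
        rw [mem_insert] at hv
        rcases hv with rfl | hv
        · exact mem_insert_self _ _
        · exact mem_insert_of_mem (mem_insert_of_mem (hU hv))
      have h3 : Odd (insert p U).card := by
        rw [← h.gr_par h2, c2]
        decide
      have h5 := hJ.three _ h2 h3 c2
      have h6 : s ∈ (h.gr.bd (insert p U)).filter fun d => d ∈ J := by
        rw [mem_filter, c1]
        exact ⟨mem_insert_self _ _, hsJ⟩
      have h7 : d ∈ (h.gr.bd (insert p U)).filter fun d => d ∈ J := by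
        rw [mem_filter, c1]
        exact ⟨mem_insert_of_mem (mem_erase.2 ⟨hdj, mem_erase.2 ⟨hdi, hd⟩⟩), (mem_filter.1 h1).1⟩
      obtain ⟨x, hx⟩ := card_eq_one.1 h5
      rw [hx, mem_singleton] at h6 h7
      have h8 : d = s := by rw [h6, h7]
      rw [JK.CG.mem_bd, h8] at hd
      exact so (hU hd.2.1)
  · intro e heds heX
    have he' : e ∈ h.gr.ds := GP.mem_nds.2 ⟨heds, Or.inl heX⟩
    obtain ⟨J, hJ, heJ⟩ := hKS e he'
    refine ⟨J.filter fun d => G.pi d ∈ X, h.half hJ, mem_filter.2 ⟨heJ, heX⟩, ?_⟩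
    by_cases hsJ : s ∈ J
    · left
      intro d hd h1
      exact h.no_leg hJ.pm hsJ d hd (mem_filter.1 h1).1
    · right
      have hsJ' : G.al s ∉ J := fun h1 => hsJ ((h.al_J hJ.pm hs).1 h1)
      have mem : ∀ d, d ∈ G.ds → G.pi d ∈ X → (d ∈ J.filter (fun d => G.pi d ∈ X) ↔
          G.al d ∈ J) := by
        intro d hd hdX
        rw [mem_filter, h.al_J hJ.pm hd]
        exact ⟨fun h1 => h1.1, fun h1 => ⟨h1, hdX⟩⟩
      rw [mem i h.mi.1 h.mi.2.1, mem j h.mj.1 h.mj.2.1, mem k h.mk'.1 h.mk'.2.1,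
        mem l h.ml.1 h.ml.2.1]
      refine ⟨⟨?_, ?_⟩, ⟨?_, ?_⟩⟩
      · intro h1 h2
        exact GP.al_inj h.mi.1 h.mj.1 hij (h.at_p hJ.pm h1 h2 (by simp) (by simp))
      · intro h1
        rcases h.ex_p hJ.pm with h2 | h2 | h2
        · exact h2
        · exact absurd h2 h1
        · exact absurd h2 hsJ
      · intro h1 h2
        exact GP.al_inj h.mk'.1 h.ml.1 hkl (h.at_q hJ.pm h1 h2 (by simp) (by simp))
      · intro h1
        rcases h.ex_q hJ.pm with h2 | h2 | h2
        · exact h2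
        · exact absurd h2 h1
        · exact absurd h2 hsJ'

end K

end R5
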