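import Pool.Agent.Lib.R5.KHalf
import Pool.Agent.Lib.R5.KGpi
import Pool.Agent.Lib.R5.KCross
import Pool.Agent.Lib.R5.Patt

/-! R5 module KMin: kse74.md 2e (no 4-circuit). `Z` of smallest cardinality; nothing crosses it; the
gluing is the one of (G2), `DG.four` gives the pairing. -/

set_option autoImplicit false

namespace R5

open Finset Classical

namespace K

variable {V D : Type*}

/-- the side `X` of an uncrossed 4-cut which contains `e` -/
private theorem min_side {G : JK.CG V D} (hT : TEC G) (hno : NoThree G) (hI : IHK G.vs.card V D)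
    {X : Finset V} (hX : X ⊆ G.vs) (he : Even X.card) (h4 : 4 ≤ X.card)
    (h4' : 4 ≤ (G.vs \ X).card) (hd : (G.bd X).card = 4)
    (hun : ∀ W ⊆ G.vs, Even W.card → (G.bd W).card = 4 → 4 ≤ W.card → 4 ≤ (G.vs \ W).card →
      W ∩ X = ∅ ∨ W \ X = ∅ ∨ X \ W = ∅ ∨ G.vs \ (X ∪ W) = ∅)
    {e : D} (hed : e ∈ G.ds) (heX : G.pi e ∈ X) : ∃ J, Clean G J ∧ e ∈ J := by
  have hY : G.vs \ X ⊆ G.vs := sdiff_subset
  have hYY : G.vs \ (G.vs \ X) = X := Finset.sdiff_sdiff_eq_self hX
  have hYe : Even (G.vs \ X).card := by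
    rw [card_sdiff_of_subset hX]
    obtain ⟨a, ha⟩ := hT.evenvs
    obtain ⟨b, hb⟩ := he
    exact ⟨a - b, by omega⟩
  have hbd : ∀ d ∈ G.bd X, d ∈ G.ds := fun d hd => (G.mem_bd.1 hd).1
  have halinj : ∀ x ∈ G.bd X, ∀ y ∈ G.bd X, x ≠ y → G.al x ≠ G.al y := by
    intro x hx y hy hne h
    apply hne
    rw [← G.al_al x (hbd x hx), ← G.al_al y (hbd y hy), h]
  -- the glue
  have glue : ∀ A B, Half G X A → Half G (G.vs \ X) B → e ∈ A →
      (∀ d ∈ G.bd X, (d ∈ A ↔ G.al d ∈ B)) → ∃ J, Clean G J ∧ e ∈ J := by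
    intro A B hA hB heA hag
    refine ⟨A ∪ B, clean_of hT hno (half_glue hT hX hA hB hag) ?_, mem_union_left _ heA⟩
    intro W hW hWe hWd hW4 hW4'
    exact half_four hT hX hA hB hag hW hWe hWd (hun W hW hWe hWd hW4 hW4')
  -- the halves on the other side
  have hbdY : ∀ i j k l : D, G.bd X = {i, j, k, l} →
      G.bd (G.vs \ X) = {G.al i, G.al j, G.al k, G.al l} := by
    intro i j k l h
    rw [G.bd_compl_eq hX, h]
    simp only [image_insert, image_singleton]
  have half2 : ∀ i j k l : D, G.bd X = {i, j, k, l} → i ≠ j → i ≠ k → i ≠ l → j ≠ k → j ≠ l →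
      k ≠ l →
      (∃ A, Half G (G.vs \ X) A ∧ (∀ d ∈ G.bd (G.vs \ X), d ∉ A)) ∧
      ∀ e ∈ G.ds, G.pi e ∈ G.vs \ X → ∃ A, Half G (G.vs \ X) A ∧ e ∈ A ∧
        ((∀ d ∈ G.bd (G.vs \ X), d ∉ A) ∨
          ((G.al i ∈ A ↔ G.al j ∉ A) ∧ (G.al k ∈ A ↔ G.al l ∉ A))) := by
    intro i j k l h hij hik hil hjk hjl hkl
    have hi : i ∈ G.bd X := by rw [h]; simp
    have hj : j ∈ G.bd X := by rw [h]; simp
    have hk : k ∈ G.bd X := by rw [h]; simp
    have hl : l ∈ G.bd X := by rw [h]; simp
    obtain ⟨⟨A, hA1, hA2, -⟩, h2⟩ := half_of hT hno hI hY hYe h4' (by rw [hYY]; exact h4)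
      (hbdY i j k l h) (halinj i hi j hj hij) (halinj i hi k hk hik) (halinj i hi l hl hil)
      (halinj j hj k hk hjk) (halinj j hj l hl hjl) (halinj k hk l hl hkl)
    exact ⟨⟨A, hA1, hA2⟩, h2⟩
  let R : D → D → Prop := fun x y => ∃ B, Half G (G.vs \ X) B ∧
    ∀ d ∈ G.bd X, (G.al d ∈ B ↔ (d = x ∨ d = y))
  have hRs : ∀ x y, R x y → R y x := by
    rintro x y ⟨B, hB, h⟩
    exact ⟨B, hB, fun d hd => (h d hd).trans or_comm⟩
  have hR : ∀ i ∈ G.bd X, ∀ k ∈ G.bd X, ∀ l ∈ G.bd X, i ≠ k → i ≠ l → k ≠ l →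
      R i k ∨ R i l := by
    intro i hi k hk l hl hik hil hkl
    -- the fourth leg
    obtain ⟨j, hj⟩ : ((((G.bd X).erase i).erase k).erase l).Nonempty := by
      rw [← card_pos, card_erase_of_mem, card_erase_of_mem, card_erase_of_mem hi, hd]
      · omega
      · exact mem_erase.2 ⟨hik.symm, hk⟩
      · exact mem_erase.2 ⟨hkl.symm, mem_erase.2 ⟨hil.symm, hl⟩⟩
    obtain ⟨hjl, hj⟩ := mem_erase.1 hj
    obtain ⟨hjk, hj⟩ := mem_erase.1 hj
    obtain ⟨hji, hj⟩ := mem_erase.1 hj
    have hS : G.bd X = {i, j, k, l} := by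
      symm
      apply eq_of_subset_of_card_le
      · intro d hd
        simp only [mem_insert, mem_singleton] at hd
        rcases hd with rfl | rfl | rfl | rfl <;> assumption
      · rw [hd]
        have : ({i, j, k, l} : Finset D).card = 4 := by
          rw [card_insert_of_notMem, card_insert_of_notMem, card_insert_of_notMem,
            card_singleton]
          · simpa using hkl
          · simp only [mem_insert, mem_singleton, not_or]
            exact ⟨hjk, hjl⟩
          · simp only [mem_insert, mem_singleton, not_or]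
            exact ⟨hji.symm, hik, hil⟩
        rw [this]
    have hali : G.al i ∈ G.bd (G.vs \ X) := by
      rw [G.bd_compl_eq hX]
      exact mem_image_of_mem _ hi
    obtain ⟨B, hB, hiB, h⟩ := (half2 i j k l hS hji.symm hik hil hjk hjl hkl).2 (G.al i)
      (G.mem_bd.1 hali).1 (G.mem_bd.1 hali).2.1
    rcases h with h | ⟨h1, h2⟩
    · exact absurd hiB (h _ hali)
    · have hjB : G.al j ∉ B := h1.1 hiB
      by_cases hkB : G.al k ∈ B
      · have hlB : G.al l ∉ B := h2.1 hkB
        refine Or.inl ⟨B, hB, fun d hd => ?_⟩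
        rw [hS] at hd
        simp only [mem_insert, mem_singleton] at hd
        rcases hd with rfl | rfl | rfl | rfl
        · exact ⟨fun _ => Or.inl rfl, fun _ => hiB⟩
        · exact ⟨fun h => absurd h hjB, fun h => absurd h (not_or.2 ⟨hji, hjk⟩)⟩
        · exact ⟨fun _ => Or.inr rfl, fun _ => hkB⟩
        · exact ⟨fun h => absurd h hlB, fun h => absurd h (not_or.2 ⟨hil.symm, hkl.symm⟩)⟩
      · have hlB : G.al l ∈ B := by
          by_contra hlB
          exact hkB (h2.2 hlB)
        refine Or.inr ⟨B, hB, fun d hd => ?_⟩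
        rw [hS] at hd
        simp only [mem_insert, mem_singleton] at hd
        rcases hd with rfl | rfl | rfl | rfl
        · exact ⟨fun _ => Or.inl rfl, fun _ => hiB⟩
        · exact ⟨fun h => absurd h hjB, fun h => absurd h (not_or.2 ⟨hji, hjl⟩)⟩
        · exact ⟨fun h => absurd h hkB, fun h => absurd h (not_or.2 ⟨hik.symm, hkl⟩)⟩
        · exact ⟨fun _ => Or.inr rfl, fun _ => hlB⟩
  obtain ⟨a, b, c, d, hS, hab, hac, had, hbc, hbd', hcd, r1, r2, r3, r4⟩ :=
    DG.four (R := R) hRs hd hR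
  obtain ⟨A, hA, heA, h⟩ := (half_of hT hno hI hX he h4 h4' hS hab hac had hbc hbd' hcd).2 e
    hed heX
  have ha : a ∈ G.bd X := by rw [hS]; simp
  have hb : b ∈ G.bd X := by rw [hS]; simp
  have hc : c ∈ G.bd X := by rw [hS]; simp
  have hdd : d ∈ G.bd X := by rw [hS]; simp
  rcases h with h | ⟨h1, h2⟩
  · obtain ⟨B, hB, hB2⟩ := (half2 a b c d hS hab hac had hbc hbd' hcd).1
    refine glue A B hA hB heA fun x hx => ⟨fun hxA => absurd hxA (h x hx), fun hxB => ?_⟩
    refine absurd hxB (hB2 _ ?_)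
    rw [G.bd_compl_eq hX]
    exact mem_image_of_mem _ hx
  · -- the cross pair
    have fin : ∀ x y, R x y → (∀ u ∈ G.bd X, (u ∈ A ↔ (u = x ∨ u = y))) →
        ∃ J, Clean G J ∧ e ∈ J := by
      rintro x y ⟨B, hB, hBB⟩ hA2
      exact glue A B hA hB heA fun u hu => (hA2 u hu).trans (hBB u hu).symm
    by_cases haA : a ∈ A
    · have hbA : b ∉ A := h1.1 haA
      by_cases hcA : c ∈ A
      · have hdA : d ∉ A := h2.1 hcA
        refine fin a c r1 fun u hu => ?_
        rw [hS] at hu
        simp only [mem_insert, mem_singleton] at hu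
        rcases hu with rfl | rfl | rfl | rfl
        · simp [haA]
        · simp [hbA, hab.symm, hbc]
        · simp [hcA]
        · simp [hdA, had.symm, hcd.symm]
      · have hdA : d ∈ A := by
          by_contra hdA
          exact hcA (h2.2 hdA)
        refine fin a d r2 fun u hu => ?_
        rw [hS] at hu
        simp only [mem_insert, mem_singleton] at hu
        rcases hu with rfl | rfl | rfl | rfl
        · simp [haA]
        · simp [hbA, hab.symm, hbd']
        · simp [hcA, hac.symm, hcd]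
        · simp [hdA]
    · have hbA : b ∈ A := by
        by_contra hbA
        exact haA (h1.2 hbA)
      by_cases hcA : c ∈ A
      · have hdA : d ∉ A := h2.1 hcA
        refine fin b c r3 fun u hu => ?_
        rw [hS] at hu
        simp only [mem_insert, mem_singleton] at hu
        rcases hu with rfl | rfl | rfl | rfl
        · simp [haA, hab, hac]
        · simp [hbA]
        · simp [hcA]
        · simp [hdA, hbd'.symm, hcd.symm]
      · have hdA : d ∈ A := by
          by_contra hdA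
          exact hcA (h2.2 hdA)
        refine fin b d r4 fun u hu => ?_
        rw [hS] at hu
        simp only [mem_insert, mem_singleton] at hu
        rcases hu with rfl | rfl | rfl | rfl
        · simp [haA, hab, had]
        · simp [hbA]
        · simp [hcA, hbc.symm, hcd]
        · simp [hdA]

theorem min4 {G : JK.CG V D} (hT : TEC G) (hno : NoThree G) (hI : IHK G.vs.card V D)
    (hq : ∀ Z ⊆ G.vs, Z.card = 4 → 4 ≤ (G.vs \ Z).card → (G.bd Z).card ≠ 4)
    {Z : Finset V} (hZ : Z ⊆ G.vs) (he : Even Z.card) (h4 : 4 ≤ Z.card)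
    (h4' : 4 ≤ (G.vs \ Z).card) (hd : (G.bd Z).card = 4) : KS G := by
  -- a set of smallest cardinality
  let S : Finset (Finset V) := G.vs.powerset.filter fun Y =>
    Even Y.card ∧ 4 ≤ Y.card ∧ 4 ≤ (G.vs \ Y).card ∧ (G.bd Y).card = 4
  have hS : S.Nonempty := ⟨Z, mem_filter.2 ⟨mem_powerset.2 hZ, he, h4, h4', hd⟩⟩
  obtain ⟨X, hXS, hmin⟩ := exists_min_image S card hS
  obtain ⟨hX, hXe, hX4, hX4', hXd⟩ := mem_filter.1 hXS
  rw [mem_powerset] at hX
  have hmin' : ∀ Y ⊆ G.vs, Even Y.card → 4 ≤ Y.card → 4 ≤ (G.vs \ Y).card →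
      (G.bd Y).card = 4 → X.card ≤ Y.card := fun Y hY h1 h2 h3 h5 =>
    hmin Y (mem_filter.2 ⟨mem_powerset.2 hY, h1, h2, h3, h5⟩)
  have hun : ∀ W ⊆ G.vs, Even W.card → (G.bd W).card = 4 → 4 ≤ W.card → 4 ≤ (G.vs \ W).card →
      W ∩ X = ∅ ∨ W \ X = ∅ ∨ X \ W = ∅ ∨ G.vs \ (X ∪ W) = ∅ := by
    intro W hW hWe hWd hW4 hW4'
    by_contra hcon
    simp only [not_or, ← ne_eq, ← nonempty_iff_ne_empty] at hcon
    obtain ⟨c1, c2, c3, c4⟩ := hcon
    rw [inter_comm] at c1
    have hc := cross hT hno hX hW hXe hWe hXd hWd hX4 hX4' hW4 hW4' c1 c3 c2 c4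
    have hsum : (X ∩ W).card + (X \ W).card = X.card := card_inter_add_card_sdiff X W
    have p1 : 0 < (X ∩ W).card := card_pos.2 c1
    have p2 : 0 < (X \ W).card := card_pos.2 c3
    have small : ∀ Y ⊆ X, Even Y.card → (G.bd Y).card = 4 → 0 < Y.card → Y.card < X.card →
        Y.card = 2 := by
      intro Y hY hYe hYd hpos hlt
      by_contra hne
      have h5 : 4 ≤ Y.card := by
        obtain ⟨k, hk⟩ := hYe
        omega
      have h6 : 4 ≤ (G.vs \ Y).card :=
        hX4'.trans (card_le_card (sdiff_subset_sdiff Subset.rfl hY))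
      have := hmin' Y (hY.trans hX) hYe h5 h6 hYd
      omega
    have q1 := small (X ∩ W) inter_subset_left hc.eA hc.dA p1 (by omega)
    have q2 := small (X \ W) sdiff_subset hc.eB hc.dB p2 (by omega)
    exact hq X hX (by omega) hX4' hXd
  intro e hed
  by_cases heX : G.pi e ∈ X
  · exact min_side hT hno hI hX hXe hX4 hX4' hXd hun hed heX
  · have hYY : G.vs \ (G.vs \ X) = X := Finset.sdiff_sdiff_eq_self hX
    refine min_side hT hno hI (X := G.vs \ X) sdiff_subset ?_ hX4' (by rw [hYY]; exact hX4)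
      (by rw [G.bd_compl hX]; exact hXd) ?_ hed (mem_sdiff.2 ⟨G.pi_mem e hed, heX⟩)
    · rw [card_sdiff_of_subset hX]
      obtain ⟨a, ha⟩ := hT.evenvs
      obtain ⟨b, hb⟩ := hXe
      exact ⟨a - b, by omega⟩
    · intro W hW hWe hWd hW4 hW4'
      rcases hun W hW hWe hWd hW4 hW4' with h | h | h | h
      · -- `W ∩ X = ∅`: `W ⊆ vs \ X`
        refine Or.inr (Or.inl ?_)
        rw [sdiff_eq_empty_iff_subset]
        intro v hv
        refine mem_sdiff.2 ⟨hW hv, fun hvX => ?_⟩
        have : v ∈ W ∩ X := mem_inter.2 ⟨hv, hvX⟩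
        rw [h] at this
        exact absurd this (notMem_empty _)
      · -- `W ⊆ X`
        refine Or.inl ?_
        ext v
        simp only [mem_inter, mem_sdiff, notMem_empty, iff_false, not_and, not_not]
        intro hv _
        by_contra hvX
        have : v ∈ W \ X := mem_sdiff.2 ⟨hv, hvX⟩
        rw [h] at this
        exact absurd this (notMem_empty _)
      · -- `X ⊆ W`
        refine Or.inr (Or.inr (Or.inr ?_))
        ext v
        simp only [mem_sdiff, mem_union, notMem_empty, iff_false, not_and, not_not]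
        intro hv
        by_cases hvX : v ∈ X
        · right
          by_contra hvW
          have : v ∈ X \ W := mem_sdiff.2 ⟨hvX, hvW⟩
          rw [h] at this
          exact absurd this (notMem_empty _)
        · exact Or.inl ⟨hv, hvX⟩
      · -- `X ∪ W = vs`
        refine Or.inr (Or.inr (Or.inl ?_))
        ext v
        simp only [mem_sdiff, notMem_empty, iff_false, not_and, not_not, and_imp]
        intro hv hvX
        by_contra hvW
        have : v ∈ G.vs \ (X ∪ W) := mem_sdiff.2 ⟨hv, by simp [hvX, hvW]⟩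
        rw [h] at this
        exact absurd this (notMem_empty _)

end K

end R5
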