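import Pool.Agent.Lib.R5.KDefs

/-! R5 module KHalf: halves of perfect matchings. -/

set_option autoImplicit false

namespace R5

open Finset Classical

namespace K

variable {V D : Type*}

lemma half_disj {G : JK.CG V D} {X : Finset V} {B : Finset D} (hB : Half G (G.vs \ X) B) {d : D}
    (hd : G.pi d ∈ X) : d ∉ B := fun h => (mem_sdiff.1 (hB.sub d h).2).2 hd

/-- gluing of two halves along an even cut -/
theorem half_glue {G : JK.CG V D} (hT : TEC G) {X : Finset V} (hX : X ⊆ G.vs) {A B : Finset D}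
    (hA : Half G X A) (hB : Half G (G.vs \ X) B) (hag : ∀ d ∈ G.bd X, (d ∈ A ↔ G.al d ∈ B)) :
    G.IsPM (A ∪ B) := by
  have hs : A ∪ B ⊆ G.ds := by
    intro d hd
    rcases mem_union.1 hd with h | h
    · exact (hA.sub d h).1
    · exact (hB.sub d h).1
  refine ⟨hs, ?_, ?_, ?_⟩
  · intro d hd
    rw [mem_union]
    rcases mem_union.1 hd with h | h
    · obtain ⟨h1, h2⟩ := hA.sub d h
      by_cases h3 : G.pi (G.al d) ∈ X
      · exact Or.inl (hA.cl d h h3)
      · exact Or.inr ((hag d (G.mem_bd.2 ⟨h1, h2, h3⟩)).1 h)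
    · obtain ⟨h1, h2⟩ := hB.sub d h
      by_cases h3 : G.pi (G.al d) ∈ X
      · refine Or.inl ((hag (G.al d) (G.mem_bd.2 ⟨G.al_mem _ h1, h3, ?_⟩)).2 ?_)
        · rw [G.al_al _ h1]
          exact (mem_sdiff.1 h2).2
        · rw [G.al_al _ h1]
          exact h
      · exact Or.inr (hB.cl d h (mem_sdiff.2 ⟨G.pi_mem _ (G.al_mem _ h1), h3⟩))
  · intro d hd ht
    have h1 : d ∈ G.tk G.vs := G.mem_tk.2 ⟨hs hd, G.pi_mem _ (hs hd), ht⟩
    rw [hT.tok] at h1
    exact absurd h1 (notMem_empty _)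
  · intro v hv
    by_cases hvX : v ∈ X
    · have h1 : ((A ∪ B).filter fun d => G.pi d = v) = A.filter fun d => G.pi d = v := by
        ext d
        rw [mem_filter, mem_filter, mem_union]
        constructor
        · rintro ⟨h2 | h2, h3⟩
          · exact ⟨h2, h3⟩
          · exact absurd h2 (half_disj hB (h3 ▸ hvX))
        · rintro ⟨h2, h3⟩
          exact ⟨Or.inl h2, h3⟩
      rw [h1]
      exact hA.one v hvX
    · have h1 : ((A ∪ B).filter fun d => G.pi d = v) = B.filter fun d => G.pi d = v := by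
        ext d
        rw [mem_filter, mem_filter, mem_union]
        constructor
        · rintro ⟨h2 | h2, h3⟩
          · exact absurd (h3 ▸ (hA.sub d h2).2) hvX
          · exact ⟨h2, h3⟩
        · rintro ⟨h2, h3⟩
          exact ⟨Or.inr h2, h3⟩
      rw [h1]
      exact hB.one v (mem_sdiff.2 ⟨hv, hvX⟩)

/-- a boundary dart of the complement gives a boundary dart -/
lemma bd_of_compl {G : JK.CG V D} {W : Finset V} (hW : W ⊆ G.vs) {M : Finset D}
    (hM : G.IsPM M) (h : ∃ d ∈ G.bd (G.vs \ W), d ∉ M) : ∃ d ∈ G.bd W, d ∉ M := by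
  obtain ⟨d, hd, hdM⟩ := h
  rw [G.bd_compl_eq hW, mem_image] at hd
  obtain ⟨e, he, rfl⟩ := hd
  exact ⟨e, he, fun h1 => hdM (hM.closed e h1)⟩

lemma even_sdiff {G : JK.CG V D} (hT : TEC G) {W : Finset V} (hW : W ⊆ G.vs)
    (he : Even W.card) : Even (G.vs \ W).card := by
  rw [card_sdiff_of_subset hW]
  have hle := card_le_card hW
  obtain ⟨a, ha⟩ := hT.evenvs
  obtain ⟨b, hb⟩ := he
  exact ⟨a - b, by omega⟩

/-- 4-cuts which do not cross `X` -/
theorem half_four {G : JK.CG V D} (hT : TEC G) {X : Finset V} (hX : X ⊆ G.vs) {A B : Finset D}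
    (hA : Half G X A) (hB : Half G (G.vs \ X) B) (hag : ∀ d ∈ G.bd X, (d ∈ A ↔ G.al d ∈ B))
    {W : Finset V} (hW : W ⊆ G.vs) (he : Even W.card) (h4 : (G.bd W).card = 4)
    (hcr : W ∩ X = ∅ ∨ W \ X = ∅ ∨ X \ W = ∅ ∨ G.vs \ (X ∪ W) = ∅) :
    ∃ d ∈ G.bd W, d ∉ A ∪ B := by
  have hpm := half_glue hT hX hA hB hag
  have inX : ∀ W' ⊆ X, Even W'.card → (G.bd W').card = 4 → ∃ d ∈ G.bd W', d ∉ A ∪ B := by
    intro W' h1 h2 h3
    obtain ⟨d, hd, hdA⟩ := hA.four W' h1 h2 h3
    refine ⟨d, hd, fun h5 => ?_⟩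
    rcases mem_union.1 h5 with h6 | h6
    · exact hdA h6
    · exact half_disj hB (h1 (G.mem_bd.1 hd).2.1) h6
  have inY : ∀ W' ⊆ G.vs \ X, Even W'.card → (G.bd W').card = 4 →
      ∃ d ∈ G.bd W', d ∉ A ∪ B := by
    intro W' h1 h2 h3
    obtain ⟨d, hd, hdB⟩ := hB.four W' h1 h2 h3
    refine ⟨d, hd, fun h5 => ?_⟩
    rcases mem_union.1 h5 with h6 | h6
    · exact (mem_sdiff.1 (h1 (G.mem_bd.1 hd).2.1)).2 (hA.sub d h6).2
    · exact hdB h6
  have he' := even_sdiff hT hW he
  have h4' : (G.bd (G.vs \ W)).card = 4 := by rw [G.bd_compl hW, h4]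
  rcases hcr with h | h | h | h
  · refine inY W (fun v hv => mem_sdiff.2 ⟨hW hv, fun hx => ?_⟩) he h4
    have : v ∈ W ∩ X := mem_inter.2 ⟨hv, hx⟩
    rw [h] at this
    exact absurd this (notMem_empty _)
  · exact inX W (sdiff_eq_empty_iff_subset.1 h) he h4
  · apply bd_of_compl hW hpm
    refine inY _ (fun v hv => ?_) he' h4'
    rw [mem_sdiff] at hv ⊢
    exact ⟨hv.1, fun hx => hv.2 (sdiff_eq_empty_iff_subset.1 h hx)⟩
  · apply bd_of_compl hW hpm
    refine inX _ (fun v hv => ?_) he' h4'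
    rw [mem_sdiff] at hv
    rcases mem_union.1 (sdiff_eq_empty_iff_subset.1 h hv.1) with h1 | h1
    · exact h1
    · exact absurd h1 hv.2

/-- small even sets: a perfect matching cannot contain a 4-cut -/
lemma small_four {G : JK.CG V D} {J : Finset D} (hJ : G.IsPM J) {W : Finset V} (hW : W ⊆ G.vs)
    (h4 : (G.bd W).card = 4) (h : W.card < 4) : ∃ d ∈ G.bd W, d ∉ J := by
  by_contra hc
  push Not at hc
  have h1 := JK.CG.mc_le hJ hW
  have h2 : G.mc J W = (G.bd W).card := by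
    unfold JK.CG.mc
    rw [filter_true_of_mem hc]
  omega

/-- without nontrivial 3-cuts only the 4-cuts with at least four vertices on both sides matter -/
theorem clean_of {G : JK.CG V D} (hT : TEC G) (hno : NoThree G) {J : Finset D} (hJ : G.IsPM J)
    (h4 : ∀ W ⊆ G.vs, Even W.card → (G.bd W).card = 4 → 4 ≤ W.card → 4 ≤ (G.vs \ W).card →
      ∃ d ∈ G.bd W, d ∉ J) : Clean G J := by
  refine ⟨hJ, ?_, ?_⟩
  · intro X hX ho h3
    rcases hno X hX ho h3 with h | h
    · exact JK.CG.mc_eq_one hJ hX ho (by omega)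
    · have h1 := JK.CG.mc_eq_one hJ (sdiff_subset (s := G.vs) (t := X)) (by rw [h]; decide)
        (by omega)
      rw [JK.CG.mc_compl G hJ hX] at h1
      exact h1
  · intro W hW he hb
    by_cases h1 : 4 ≤ W.card
    · by_cases h2 : 4 ≤ (G.vs \ W).card
      · exact h4 W hW he hb h1 h2
      · apply bd_of_compl hW hJ
        apply small_four hJ sdiff_subset _ (by omega)
        rw [G.bd_compl hW, hb]
    · exact small_four hJ hW hb (by omega)

end K

end R5
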