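import Pool.Agent.Lib.R5.KQuadA
import Pool.Agent.Lib.R5.KHalf
import Pool.Agent.Lib.R5.KGpi
import Pool.Agent.Lib.R5.KCross

/-! R5 module KQuadB: kse74.md 2d. `Y = vs \ {z i}`; legs of `Y` are `al (r i)`. -/

set_option autoImplicit false

namespace R5

open Finset Classical

namespace K

variable {V D : Type*} {G : JK.CG V D} {z : Fin 4 → V} {r c : Fin 4 → D}

private lemma quadb_zm (i : Fin 4) : z i ∈ univ.image z := mem_image_of_mem z (mem_univ i)

private lemma quadb_rZ (hQ : Quad G z r c) (i : Fin 4) : G.pi (G.al (r i)) ∉ univ.image z := by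
  intro h
  obtain ⟨j, -, hj⟩ := mem_image.1 h
  exact hQ.rout i j hj.symm

private lemma quadb_card (hQ : Quad G z r c) : (univ.image z).card = 4 := by
  rw [card_image_of_injective _ hQ.inj, card_univ, Fintype.card_fin]

private lemma quadb_sub (hQ : Quad G z r c) : univ.image z ⊆ G.vs := by
  intro v hv
  obtain ⟨j, -, rfl⟩ := mem_image.1 hv
  exact hQ.zvs j

private lemma quadb_rbd (hQ : Quad G z r c) (i : Fin 4) : r i ∈ G.bd (univ.image z) := by
  rw [G.mem_bd]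
  exact ⟨hQ.rds i, by rw [hQ.rpi i]; exact quadb_zm i, quadb_rZ hQ i⟩

/-- halves on the circuit -/
private lemma quadb_half (hQ : Quad G z r c) (b : Fin 4 → D) (h1 : ∀ i, b i ∈ G.ds)
    (h2 : ∀ i, G.pi (b i) = z i)
    (h3 : ∀ i, G.pi (G.al (b i)) ∈ univ.image z → ∃ j, G.al (b i) = b j)
    (h4 : ∃ i, ∀ j, r i ≠ b j) : Half G (univ.image z) (univ.image b) := by
  have hone : ∀ v ∈ univ.image z, ((univ.image b).filter fun d => G.pi d = v).card = 1 := by
    intro v hv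
    obtain ⟨i, -, rfl⟩ := mem_image.1 hv
    rw [card_eq_one]
    refine ⟨b i, ?_⟩
    ext d
    rw [mem_filter, mem_image, mem_singleton]
    constructor
    · rintro ⟨⟨j, -, rfl⟩, h5⟩
      rw [h2] at h5
      rw [hQ.inj h5]
    · rintro rfl
      exact ⟨⟨i, mem_univ _, rfl⟩, h2 i⟩
  refine ⟨?_, ?_, hone, ?_⟩
  · intro d hd
    obtain ⟨i, -, rfl⟩ := mem_image.1 hd
    exact ⟨h1 i, by rw [h2]; exact quadb_zm i⟩
  · intro d hd hp
    obtain ⟨i, -, rfl⟩ := mem_image.1 hd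
    obtain ⟨j, hj⟩ := h3 i hp
    rw [hj]
    exact mem_image_of_mem b (mem_univ j)
  · intro W hW he hb
    by_contra hcon
    have hall : ∀ d ∈ G.bd W, d ∈ univ.image b := by
      intro d hd
      by_contra h5
      exact hcon ⟨d, hd, h5⟩
    have h5 : (G.bd W).card ≤ W.card := by
      have h6 : ∀ d ∈ G.bd W, G.pi d ∈ W := fun d hd => (G.mem_bd.1 hd).2.1
      refine Finset.card_le_card_of_injOn G.pi (fun d hd => h6 d (mem_coe.1 hd)) ?_
      intro d hd e he' hde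
      obtain ⟨i, -, rfl⟩ := mem_image.1 (hall d (mem_coe.1 hd))
      obtain ⟨j, -, rfl⟩ := mem_image.1 (hall e (mem_coe.1 he'))
      rw [h2, h2] at hde
      rw [hQ.inj hde]
    have h6 : W = univ.image z := eq_of_subset_of_card_le hW (by rw [quadb_card hQ]; omega)
    obtain ⟨i, hi⟩ := h4
    subst h6
    obtain ⟨j, -, hj⟩ := mem_image.1 (hall (r i) (quadb_rbd hQ i))
    exact hi j hj.symm

/-- two legs and the opposite edge -/
private lemma quadb_leg0 (hQ : Quad G z r c) : ∃ B, Half G (univ.image z) B ∧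
    ∀ i, (r i ∈ B ↔ i = 0 ∨ i = 1) := by
  have e2 := hQ.cend 2
  have e2' : G.pi (G.al (c 2)) = z 3 := e2
  have hrc : ∀ i j, r i ≠ c j := by
    intro i j h
    have h1 := quadb_rZ hQ i
    rw [h, hQ.cend j] at h1
    exact h1 (quadb_zm _)
  have hrc' : ∀ i j, r i ≠ G.al (c j) := by
    intro i j h
    have h1 := quadb_rZ hQ i
    rw [h, G.al_al _ (hQ.cds j), hQ.cpi j] at h1
    exact h1 (quadb_zm _)
  have hrr : ∀ i j, r i = r j → i = j := by
    intro i j h
    apply hQ.inj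
    rw [← hQ.rpi i, ← hQ.rpi j, h]
  refine ⟨univ.image ![r 0, r 1, c 2, G.al (c 2)], quadb_half hQ _ ?_ ?_ ?_ ?_, ?_⟩
  · intro i
    fin_cases i
    · exact hQ.rds 0
    · exact hQ.rds 1
    · exact hQ.cds 2
    · exact G.al_mem _ (hQ.cds 2)
  · intro i
    fin_cases i
    · exact hQ.rpi 0
    · exact hQ.rpi 1
    · exact hQ.cpi 2
    · exact e2'
  · intro i
    fin_cases i
    · intro h
      exact absurd h (quadb_rZ hQ 0)
    · intro h
      exact absurd h (quadb_rZ hQ 1)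
    · intro _
      exact ⟨3, rfl⟩
    · intro _
      exact ⟨2, G.al_al _ (hQ.cds 2)⟩
  · refine ⟨2, ?_⟩
    intro j
    fin_cases j
    · intro h
      exact absurd (hrr _ _ h) (by decide)
    · intro h
      exact absurd (hrr _ _ h) (by decide)
    · exact hrc 2 2
    · exact hrc' 2 2
  · intro i
    rw [mem_image]
    constructor
    · rintro ⟨j, -, hj⟩
      revert hj
      fin_cases j
      · intro h
        exact Or.inl (hrr _ _ h).symm
      · intro h
        exact Or.inr (hrr _ _ h).symm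
      · intro h
        exact absurd h.symm (hrc i 2)
      · intro h
        exact absurd h.symm (hrc' i 2)
    · rintro (rfl | rfl)
      · exact ⟨0, mem_univ _, rfl⟩
      · exact ⟨1, mem_univ _, rfl⟩

/-- two circuit edges -/
private lemma quadb_cyc0 (hQ : Quad G z r c) : ∃ B, Half G (univ.image z) B ∧
    (∀ i, r i ∉ B) ∧ c 0 ∈ B ∧ c 2 ∈ B := by
  have e0 : G.pi (G.al (c 0)) = z 1 := hQ.cend 0
  have e2 : G.pi (G.al (c 2)) = z 3 := hQ.cend 2
  have hrc : ∀ i j, r i ≠ c j := by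
    intro i j h
    have h1 := quadb_rZ hQ i
    rw [h, hQ.cend j] at h1
    exact h1 (quadb_zm _)
  have hrc' : ∀ i j, r i ≠ G.al (c j) := by
    intro i j h
    have h1 := quadb_rZ hQ i
    rw [h, G.al_al _ (hQ.cds j), hQ.cpi j] at h1
    exact h1 (quadb_zm _)
  have hno : ∀ i j, r i ≠ (![c 0, G.al (c 0), c 2, G.al (c 2)] : Fin 4 → D) j := by
    intro i j
    fin_cases j
    · exact hrc i 0
    · exact hrc' i 0
    · exact hrc i 2
    · exact hrc' i 2
  refine ⟨univ.image ![c 0, G.al (c 0), c 2, G.al (c 2)], quadb_half hQ _ ?_ ?_ ?_ ⟨0, hno 0⟩,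
    ?_, mem_image.2 ⟨0, mem_univ _, rfl⟩, mem_image.2 ⟨2, mem_univ _, rfl⟩⟩
  · intro i
    fin_cases i
    · exact hQ.cds 0
    · exact G.al_mem _ (hQ.cds 0)
    · exact hQ.cds 2
    · exact G.al_mem _ (hQ.cds 2)
  · intro i
    fin_cases i
    · exact hQ.cpi 0
    · exact e0
    · exact hQ.cpi 2
    · exact e2
  · intro i
    fin_cases i
    · intro _
      exact ⟨1, rfl⟩
    · intro _
      exact ⟨0, G.al_al _ (hQ.cds 0)⟩
    · intro _
      exact ⟨3, rfl⟩
    · intro _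
      exact ⟨2, G.al_al _ (hQ.cds 2)⟩
  · intro i h
    obtain ⟨j, -, hj⟩ := mem_image.1 h
    exact hno i j hj.symm

private lemma quadb_img (k : Fin 4) : univ.image (fun i => z (i + k)) = univ.image z := by
  ext v
  rw [mem_image, mem_image]
  constructor
  · rintro ⟨i, -, rfl⟩
    exact ⟨i + k, mem_univ _, rfl⟩
  · rintro ⟨i, -, rfl⟩
    exact ⟨i - k, mem_univ _, by rw [sub_add_cancel]⟩

private lemma quadb_leg (hQ : Quad G z r c) (k : Fin 4) : ∃ B, Half G (univ.image z) B ∧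
    ∀ i, (r i ∈ B ↔ i = k ∨ i = k + 1) := by
  obtain ⟨B, hB, h1⟩ := quadb_leg0 (hQ.rot k)
  rw [quadb_img] at hB
  refine ⟨B, hB, fun i => ?_⟩
  have h2 := h1 (i - k)
  simp only [sub_add_cancel] at h2
  rw [h2, sub_eq_iff_eq_add, sub_eq_iff_eq_add, zero_add, add_comm 1 k]

private lemma quadb_cyc1 (hQ : Quad G z r c) : ∃ B, Half G (univ.image z) B ∧
    (∀ i, r i ∉ B) ∧ c 1 ∈ B ∧ c 3 ∈ B := by
  obtain ⟨B, hB, h1, h2, h3⟩ := quadb_cyc0 (hQ.rot 1)
  rw [quadb_img] at hB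
  refine ⟨B, hB, fun i => ?_, h2, h3⟩
  have h4 := h1 (i - 1)
  simpa only [sub_add_cancel] using h4

/-- the outer part of a crossing cut: contains the ends of the legs `m`, `m + 1` -/
private structure QBad (G : JK.CG V D) (z : Fin 4 → V) (r : Fin 4 → D) (A : Finset D) (a b p q : Fin 4)
    (C : Finset V) : Prop where
  sub : C ⊆ G.vs \ univ.image z
  even : Even C.card
  four : (G.bd C).card = 4
  ya : G.pi (G.al (r a)) ∈ C
  yb : G.pi (G.al (r b)) ∈ C
  yp : G.pi (G.al (r p)) ∉ C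
  yq : G.pi (G.al (r q)) ∉ C
  two : (G.ed C ((G.vs \ univ.image z) \ C)).card = 2
  inA : ∀ d ∈ G.ed C ((G.vs \ univ.image z) \ C), d ∈ A

private lemma quadb_S : ∀ S : Finset (Fin 4), S.card = 2 → (1 : Fin 4) ∈ S →
    S = {0, 1} ∨ S = {1, 2} ∨ S = {1, 3} := by
  decide

/-- a crossing 4-cut contained in a perfect matching -/
private lemma quadb_key (hQ : Quad G z r c) {W : Finset V} (hWv : W ⊆ G.vs)
    (hc : Cross G (univ.image z) W) (nB : (univ.image z \ W).Nonempty)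
    {B A : Finset D} (hB : Half G (univ.image z) B)
    (hJ : G.IsPM (B ∪ A)) (hall : ∀ d ∈ G.bd W, d ∈ B ∪ A) (h1 : z 1 ∈ W) :
    (∀ i, r i ∉ B ∪ A) ∧ ((c 1 ∈ B ∪ A ∧ QBad G z r A 0 1 2 3 (W \ univ.image z)) ∨
      (c 2 ∈ B ∪ A ∧ QBad G z r A 1 2 3 0 (W \ univ.image z))) := by
  have c0 : G.pi (G.al (c 0)) = z 1 := hQ.cend 0
  have c1 : G.pi (G.al (c 1)) = z 2 := hQ.cend 1
  have c2 : G.pi (G.al (c 2)) = z 3 := hQ.cend 2
  have c3 : G.pi (G.al (c 3)) = z 0 := hQ.cend 3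
  -- the vertices of the circuit in `W`
  have hS2 : (univ.filter fun i => z i ∈ W).card = 2 := by
    have e1 : univ.image z ∩ W = (univ.filter fun i => z i ∈ W).image z := by
      ext v
      rw [mem_inter, mem_image, mem_image]
      constructor
      · rintro ⟨⟨i, -, rfl⟩, h⟩
        exact ⟨i, mem_filter.2 ⟨mem_univ _, h⟩, rfl⟩
      · rintro ⟨i, hi, rfl⟩
        exact ⟨⟨i, mem_univ _, rfl⟩, (mem_filter.1 hi).2⟩
    have e2 : (univ.image z ∩ W).card = (univ.filter fun i => z i ∈ W).card := by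
      rw [e1, card_image_of_injective _ hQ.inj]
    have e3 := card_sdiff_add_card_inter (univ.image z) W
    rw [quadb_card hQ] at e3
    have e4 : 0 < (univ.image z ∩ W).card := card_pos.2 ⟨z 1, mem_inter.2 ⟨quadb_zm 1, h1⟩⟩
    have e5 : 0 < (univ.image z \ W).card := card_pos.2 nB
    obtain ⟨k1, hk1⟩ := hc.eA
    obtain ⟨k2, hk2⟩ := hc.eB
    omega
  have hmS : ∀ i, i ∈ (univ.filter fun i => z i ∈ W) ↔ z i ∈ W := by
    intro i
    rw [mem_filter]
    exact ⟨fun h => h.2, fun h => ⟨mem_univ _, h⟩⟩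
  -- legs
  have yin : ∀ i, z i ∈ W → G.pi (G.al (r i)) ∈ W \ univ.image z := by
    intro i hi
    refine mem_sdiff.2 ⟨?_, quadb_rZ hQ i⟩
    by_contra h
    have h2 : r i ∈ G.ed (univ.image z ∩ W) (G.vs \ (univ.image z ∪ W)) := by
      rw [G.mem_ed, hQ.rpi i]
      refine ⟨hQ.rds i, mem_inter.2 ⟨quadb_zm i, hi⟩, mem_sdiff.2
        ⟨G.pi_mem _ (G.al_mem _ (hQ.rds i)), ?_⟩⟩
      rw [mem_union, not_or]
      exact ⟨quadb_rZ hQ i, h⟩
    rw [hc.mu] at h2
    exact notMem_empty _ h2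
  have yout : ∀ i, z i ∉ W → G.pi (G.al (r i)) ∉ W \ univ.image z := by
    intro i hi h
    have h2 : r i ∈ G.ed (univ.image z \ W) (W \ univ.image z) := by
      rw [G.mem_ed, hQ.rpi i]
      exact ⟨hQ.rds i, mem_sdiff.2 ⟨quadb_zm i, hi⟩, h⟩
    rw [hc.nu] at h2
    exact notMem_empty _ h2
  have hD : (G.vs \ univ.image z) \ (W \ univ.image z) = G.vs \ (univ.image z ∪ W) := by
    ext v
    simp only [mem_sdiff, mem_union]
    tauto
  have hinA : ∀ d ∈ G.ed (W \ univ.image z) ((G.vs \ univ.image z) \ (W \ univ.image z)),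
      d ∈ A := by
    intro d hd
    rw [hD, G.mem_ed] at hd
    obtain ⟨h2, h3, h4⟩ := hd
    have h5 : d ∈ G.bd W := G.mem_bd.2 ⟨h2, (mem_sdiff.1 h3).1, fun h =>
      (mem_sdiff.1 h4).2 (mem_union_right _ h)⟩
    rcases mem_union.1 (hall d h5) with h6 | h6
    · exact absurd (hB.sub d h6).2 (mem_sdiff.1 h3).2
    · exact h6
  have hbad : ∀ a b p q, z a ∈ W → z b ∈ W → z p ∉ W → z q ∉ W →
      QBad G z r A a b p q (W \ univ.image z) := by
    intro a b p q ha hb hp hq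
    refine ⟨?_, hc.eC, hc.dC, yin a ha, yin b hb, yout p hp, yout q hq, ?_, hinA⟩
    · intro v hv
      exact mem_sdiff.2 ⟨hWv (mem_sdiff.1 hv).1, (mem_sdiff.1 hv).2⟩
    · rw [hD]
      exact hc.be
  -- no legs in the matching
  have hleg : ∀ i, (∃ d, d ∈ B ∪ A ∧ G.pi d = z i ∧ G.pi (G.al d) ∈ univ.image z) →
      r i ∉ B ∪ A := by
    rintro i ⟨d, h2, h3, h4⟩ h5
    have h6 := hJ.unique h2 h5 (by rw [h3, hQ.rpi i])
    rw [h6] at h4
    exact quadb_rZ hQ i h4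
  have hcl : ∀ i, c i ∈ B ∪ A → G.al (c i) ∈ B ∪ A := fun i h => hJ.closed _ h
  have hcl' : ∀ i, G.al (c i) ∈ B ∪ A → c i ∈ B ∪ A := by
    intro i h
    have := hJ.closed _ h
    rwa [G.al_al _ (hQ.cds i)] at this
  rcases quadb_S _ hS2 ((hmS 1).2 h1) with hS | hS | hS
  · -- `z 0, z 1`
    have w0 : z 0 ∈ W := by rw [← hmS 0, hS]; decide
    have w2 : z 2 ∉ W := by rw [← hmS 2, hS]; decide
    have w3 : z 3 ∉ W := by rw [← hmS 3, hS]; decide
    have j1 : c 1 ∈ B ∪ A := hall _ (G.mem_bd.2 ⟨hQ.cds 1, by rw [hQ.cpi 1]; exact h1,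
      by rw [c1]; exact w2⟩)
    have j3' : G.al (c 3) ∈ B ∪ A := hall _ (G.mem_bd.2 ⟨G.al_mem _ (hQ.cds 3),
      by rw [c3]; exact w0, by rw [G.al_al _ (hQ.cds 3), hQ.cpi 3]; exact w3⟩)
    have j3 := hcl' 3 j3'
    have j1' := hcl 1 j1
    refine ⟨?_, Or.inl ⟨j1, hbad 0 1 2 3 w0 h1 w2 w3⟩⟩
    intro i
    fin_cases i
    · exact hleg 0 ⟨_, j3', c3, by rw [G.al_al _ (hQ.cds 3), hQ.cpi 3]; exact quadb_zm 3⟩
    · exact hleg 1 ⟨_, j1, hQ.cpi 1, by rw [c1]; exact quadb_zm 2⟩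
    · exact hleg 2 ⟨_, j1', c1, by rw [G.al_al _ (hQ.cds 1), hQ.cpi 1]; exact quadb_zm 1⟩
    · exact hleg 3 ⟨_, j3, hQ.cpi 3, by rw [c3]; exact quadb_zm 0⟩
  · -- `z 1, z 2`
    have w0 : z 0 ∉ W := by rw [← hmS 0, hS]; decide
    have w2 : z 2 ∈ W := by rw [← hmS 2, hS]; decide
    have w3 : z 3 ∉ W := by rw [← hmS 3, hS]; decide
    have j2 : c 2 ∈ B ∪ A := hall _ (G.mem_bd.2 ⟨hQ.cds 2, by rw [hQ.cpi 2]; exact w2,
      by rw [c2]; exact w3⟩)
    have j0' : G.al (c 0) ∈ B ∪ A := hall _ (G.mem_bd.2 ⟨G.al_mem _ (hQ.cds 0),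
      by rw [c0]; exact h1, by rw [G.al_al _ (hQ.cds 0), hQ.cpi 0]; exact w0⟩)
    have j0 := hcl' 0 j0'
    have j2' := hcl 2 j2
    refine ⟨?_, Or.inr ⟨j2, hbad 1 2 3 0 h1 w2 w3 w0⟩⟩
    intro i
    fin_cases i
    · exact hleg 0 ⟨_, j0, hQ.cpi 0, by rw [c0]; exact quadb_zm 1⟩
    · exact hleg 1 ⟨_, j0', c0, by rw [G.al_al _ (hQ.cds 0), hQ.cpi 0]; exact quadb_zm 0⟩
    · exact hleg 2 ⟨_, j2, hQ.cpi 2, by rw [c2]; exact quadb_zm 3⟩
    · exact hleg 3 ⟨_, j2', c2, by rw [G.al_al _ (hQ.cds 2), hQ.cpi 2]; exact quadb_zm 2⟩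
  · -- `z 1, z 3`
    exfalso
    have w0 : z 0 ∉ W := by rw [← hmS 0, hS]; decide
    have w2 : z 2 ∉ W := by rw [← hmS 2, hS]; decide
    have w3 : z 3 ∈ W := by rw [← hmS 3, hS]; decide
    have hi : ∀ {a b : Fin 4}, z a = z b → a = b := fun h => hQ.inj h
    have m1 : c 1 ∈ G.ed (univ.image z ∩ W) (univ.image z \ W) := by
      rw [G.mem_ed, hQ.cpi 1, c1]
      exact ⟨hQ.cds 1, mem_inter.2 ⟨quadb_zm 1, h1⟩, mem_sdiff.2 ⟨quadb_zm 2, w2⟩⟩
    have m2 : G.al (c 0) ∈ G.ed (univ.image z ∩ W) (univ.image z \ W) := by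
      rw [G.mem_ed, c0, G.al_al _ (hQ.cds 0), hQ.cpi 0]
      exact ⟨G.al_mem _ (hQ.cds 0), mem_inter.2 ⟨quadb_zm 1, h1⟩, mem_sdiff.2 ⟨quadb_zm 0, w0⟩⟩
    have m3 : c 3 ∈ G.ed (univ.image z ∩ W) (univ.image z \ W) := by
      rw [G.mem_ed, hQ.cpi 3, c3]
      exact ⟨hQ.cds 3, mem_inter.2 ⟨quadb_zm 3, w3⟩, mem_sdiff.2 ⟨quadb_zm 0, w0⟩⟩
    have d1 : c 1 ≠ G.al (c 0) := by
      intro h
      have h2 : G.pi (G.al (c 1)) = G.pi (c 0) := by rw [h, G.al_al _ (hQ.cds 0)]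
      rw [c1, hQ.cpi 0] at h2
      exact absurd (hi h2) (by decide)
    have d2 : c 1 ≠ c 3 := by
      intro h
      have h2 : G.pi (c 1) = G.pi (c 3) := by rw [h]
      rw [hQ.cpi 1, hQ.cpi 3] at h2
      exact absurd (hi h2) (by decide)
    have d3 : G.al (c 0) ≠ c 3 := by
      intro h
      have h2 : G.pi (G.al (c 0)) = G.pi (c 3) := by rw [h]
      rw [c0, hQ.cpi 3] at h2
      exact absurd (hi h2) (by decide)
    have h3 : ({c 1, G.al (c 0), c 3} : Finset D).card = 3 := by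
      rw [card_insert_of_notMem, card_pair d3]
      rw [mem_insert, mem_singleton, not_or]
      exact ⟨d1, d2⟩
    have h4 : ({c 1, G.al (c 0), c 3} : Finset D) ⊆
        G.ed (univ.image z ∩ W) (univ.image z \ W) := by
      intro d hd
      rcases mem_insert.1 hd with rfl | hd
      · exact m1
      rcases mem_insert.1 hd with rfl | hd
      · exact m2
      · rw [mem_singleton.1 hd]
        exact m3
    have h5 := card_le_card h4
    rw [h3, hc.al] at h5
    omega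

private lemma quadb_bd4 (hT : TEC G) (hQ : Quad G z r c) :
    (G.bd (univ.image z)).card = 4 := by
  have hr : Function.Injective r := by
    intro i j h
    apply hQ.inj
    rw [← hQ.rpi i, ← hQ.rpi j, h]
  have h1 : ({r 0, r 1, r 2, r 3} : Finset D) = univ.image r := by
    ext d
    simp only [mem_insert, mem_singleton, mem_image, mem_univ, true_and]
    constructor
    · rintro (rfl | rfl | rfl | rfl)
      · exact ⟨0, rfl⟩
      · exact ⟨1, rfl⟩
      · exact ⟨2, rfl⟩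
      · exact ⟨3, rfl⟩
    · rintro ⟨i, rfl⟩
      fin_cases i
      · exact Or.inl rfl
      · exact Or.inr (Or.inl rfl)
      · exact Or.inr (Or.inr (Or.inl rfl))
      · exact Or.inr (Or.inr (Or.inr rfl))
  rw [hQ.bd hT, h1, card_image_of_injective _ hr, card_univ, Fintype.card_fin]

/-- a crossing 4-cut inside `B ∪ A` -/
private lemma quadb_cr (hT : TEC G) (hno : NoThree G) (hQ : Quad G z r c)
    (h4 : 4 ≤ (G.vs \ univ.image z).card) {B A : Finset D} (hB : Half G (univ.image z) B)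
    (hJ : G.IsPM (B ∪ A)) {W : Finset V} (hW : W ⊆ G.vs) (eW : Even W.card)
    (dW : (G.bd W).card = 4) (w4 : 4 ≤ W.card) (w4' : 4 ≤ (G.vs \ W).card)
    (hall : ∀ d ∈ G.bd W, d ∈ B ∪ A)
    (nA : (univ.image z ∩ W).Nonempty) (nB : (univ.image z \ W).Nonempty)
    (nC : (W \ univ.image z).Nonempty) (nD : (G.vs \ (univ.image z ∪ W)).Nonempty)
    (h1 : z 1 ∈ W) : (∀ i, r i ∉ B ∪ A) ∧ ∃ C, ((c 1 ∈ B ∪ A ∧ QBad G z r A 0 1 2 3 C) ∨
      (c 2 ∈ B ∪ A ∧ QBad G z r A 1 2 3 0 C)) := by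
  have hc := cross hT hno (quadb_sub hQ) hW (by rw [quadb_card hQ]; decide) eW
    (quadb_bd4 hT hQ) dW (le_of_eq (quadb_card hQ).symm) h4 w4 w4' nA nB nC nD
  obtain ⟨k1, k2⟩ := quadb_key hQ hW hc nB hB hJ hall h1
  exact ⟨k1, _, k2⟩

/-- glued matchings are clean or there is a bad set -/
private lemma quadb_drive (hT : TEC G) (hno : NoThree G) (hQ : Quad G z r c)
    (h4 : 4 ≤ (G.vs \ univ.image z).card) {B A : Finset D} (hB : Half G (univ.image z) B)
    (hA : Half G (G.vs \ univ.image z) A)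
    (hag : ∀ d ∈ G.bd (univ.image z), (d ∈ B ↔ G.al d ∈ A)) :
    Clean G (B ∪ A) ∨ ((∀ i, r i ∉ B ∪ A) ∧ ∃ C, ((c 1 ∈ B ∪ A ∧ QBad G z r A 0 1 2 3 C) ∨
      (c 2 ∈ B ∪ A ∧ QBad G z r A 1 2 3 0 C))) := by
  have hZ := quadb_sub hQ
  have hJ := half_glue hT hZ hB hA hag
  by_contra hcon
  rw [not_or] at hcon
  obtain ⟨hc1, hc2⟩ := hcon
  apply hc1
  refine clean_of hT hno hJ fun W hW eW dW w4 w4' => ?_
  by_contra hall'
  have hall : ∀ d ∈ G.bd W, d ∈ B ∪ A := by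
    intro d hd
    by_contra h
    exact hall' ⟨d, hd, h⟩
  by_cases hcr : W ∩ univ.image z = ∅ ∨ W \ univ.image z = ∅ ∨ univ.image z \ W = ∅ ∨
      G.vs \ (univ.image z ∪ W) = ∅
  · obtain ⟨d, hd1, hd2⟩ := half_four hT hZ hB hA hag hW eW dW hcr
    exact hd2 (hall d hd1)
  · rw [not_or, not_or, not_or, ← Ne, ← Ne, ← Ne, ← Ne, ← nonempty_iff_ne_empty,
      ← nonempty_iff_ne_empty, ← nonempty_iff_ne_empty, ← nonempty_iff_ne_empty] at hcr
    obtain ⟨nA, nC, nB, nD⟩ := hcr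
    rw [inter_comm] at nA
    by_cases h1 : z 1 ∈ W
    · exact hc2 (quadb_cr hT hno hQ h4 hB hJ hW eW dW w4 w4' hall nA nB nC nD h1)
    · have hsub : G.vs \ W ⊆ G.vs := sdiff_subset
      have hss : G.vs \ (G.vs \ W) = W := Finset.sdiff_sdiff_eq_self hW
      have e2 : Even (G.vs \ W).card := by
        have h5 := card_sdiff_add_card_eq_card hW
        obtain ⟨a, ha⟩ := hT.evenvs
        obtain ⟨b, hb⟩ := eW
        exact ⟨a - b, by omega⟩
      refine hc2 (quadb_cr hT hno hQ h4 hB hJ hsub e2 (by rw [G.bd_compl hW]; exact dW) w4'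
        (by rw [hss]; exact w4) ?_ ?_ ?_ ?_ ?_ (mem_sdiff.2 ⟨hQ.zvs 1, h1⟩))
      · intro d hd
        obtain ⟨p1, p2, p3⟩ := G.mem_bd.1 hd
        have h5 : G.al d ∈ G.bd W := by
          rw [G.mem_bd, G.al_al d p1]
          refine ⟨G.al_mem d p1, ?_, (mem_sdiff.1 p2).2⟩
          by_contra h6
          exact p3 (mem_sdiff.2 ⟨G.pi_mem _ (G.al_mem d p1), h6⟩)
        have h6 := hJ.closed _ (hall _ h5)
        rwa [G.al_al d p1] at h6
      · obtain ⟨v, hv⟩ := nB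
        rw [mem_sdiff] at hv
        exact ⟨v, mem_inter.2 ⟨hv.1, mem_sdiff.2 ⟨hZ hv.1, hv.2⟩⟩⟩
      · obtain ⟨v, hv⟩ := nA
        rw [mem_inter] at hv
        exact ⟨v, mem_sdiff.2 ⟨hv.1, fun h => (mem_sdiff.1 h).2 hv.2⟩⟩
      · obtain ⟨v, hv⟩ := nD
        rw [mem_sdiff, mem_union, not_or] at hv
        exact ⟨v, mem_sdiff.2 ⟨mem_sdiff.2 ⟨hv.1, hv.2.2⟩, hv.2.1⟩⟩
      · obtain ⟨v, hv⟩ := nC
        rw [mem_sdiff] at hv
        refine ⟨v, mem_sdiff.2 ⟨hW hv.1, ?_⟩⟩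
        rw [mem_union, not_or]
        exact ⟨hv.2, fun h => (mem_sdiff.1 h).2 hv.1⟩

private lemma quadb_three_le (hT : TEC G) {X : Finset V} (hX : X ⊆ G.vs) (hn : X.Nonempty)
    (hne : X ≠ G.vs) : 3 ≤ (G.bd X).card := by
  rcases Nat.even_or_odd X.card with he | ho
  · have := hT.evn X hX he hn hne
    omega
  · have h1 := hT.b0 X hX ho
    have h2 : G.tk X = ∅ := by
      rw [eq_empty_iff_forall_notMem]
      intro d hd
      have h3 := G.mem_tk.1 hd
      have h4 : d ∈ G.tk G.vs := G.mem_tk.2 ⟨h3.1, hX h3.2.1, h3.2.2⟩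
      rw [hT.tok] at h4
      exact notMem_empty _ h4
    unfold JK.CG.dg at h1
    rw [h2, card_empty] at h1
    omega

/-- the two completions of an empty trace cannot both be bad -/
private lemma quadb_two (hT : TEC G) (hno : NoThree G) (hQ : Quad G z r c) {A : Finset D}
    (hA : Half G (G.vs \ univ.image z) A) {C C' : Finset V} (h0 : QBad G z r A 0 1 2 3 C)
    (h1 : QBad G z r A 1 2 3 0 C') : False := by
  have hYd : ∀ d ∈ G.ds, G.pi d ∉ univ.image z → G.pi (G.al d) ∈ univ.image z →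
      ∃ i, d = G.al (r i) := by
    intro d hd h2 h3
    have h4 : G.al d ∈ G.bd (univ.image z) := by
      rw [G.mem_bd, G.al_al d hd]
      exact ⟨G.al_mem d hd, h3, h2⟩
    rw [hQ.bd hT] at h4
    simp only [mem_insert, mem_singleton] at h4
    rcases h4 with h4 | h4 | h4 | h4
    · exact ⟨0, by rw [← h4, G.al_al d hd]⟩
    · exact ⟨1, by rw [← h4, G.al_al d hd]⟩
    · exact ⟨2, by rw [← h4, G.al_al d hd]⟩
    · exact ⟨3, by rw [← h4, G.al_al d hd]⟩
  have hC := h0.sub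
  have hC' := h1.sub
  -- cells
  have hcell : ∀ (X : Finset V) (i : Fin 4), X ⊆ G.vs \ univ.image z →
      G.pi (G.al (r i)) ∈ X → (∀ j, j ≠ i → G.pi (G.al (r j)) ∉ X) →
      (G.bd X).card ≤ (G.ed X ((G.vs \ univ.image z) \ X)).card + 1 ∧ 3 ≤ (G.bd X).card := by
    intro X i hX hi hj
    have hXv : X ⊆ G.vs := hX.trans sdiff_subset
    constructor
    · have h2 : G.bd X ⊆ insert (G.al (r i)) (G.ed X ((G.vs \ univ.image z) \ X)) := by
        intro d hd
        obtain ⟨p1, p2, p3⟩ := G.mem_bd.1 hd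
        by_cases h3 : G.pi (G.al d) ∈ univ.image z
        · obtain ⟨k, rfl⟩ := hYd d p1 (mem_sdiff.1 (hX p2)).2 h3
          by_cases hk : k = i
          · rw [hk]
            exact mem_insert_self _ _
          · exact absurd p2 (hj k hk)
        · exact mem_insert_of_mem (G.mem_ed.2 ⟨p1, p2, mem_sdiff.2 ⟨mem_sdiff.2
            ⟨G.pi_mem _ (G.al_mem d p1), h3⟩, p3⟩⟩)
      exact (card_le_card h2).trans (card_insert_le _ _)
    · refine quadb_three_le hT hXv ⟨_, hi⟩ ?_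
      rintro rfl
      exact (mem_sdiff.1 (hX (hQ.zvs 0))).2 (quadb_zm 0)
  have a1 := hcell (C ∩ C') 1 (inter_subset_left.trans hC) (mem_inter.2 ⟨h0.yb, h1.ya⟩) (by
    intro j hj h
    rw [mem_inter] at h
    fin_cases j
    · exact h1.yq h.2
    · exact hj rfl
    · exact h0.yp h.1
    · exact h0.yq h.1)
  have a2 := hcell (C \ C') 0 (sdiff_subset.trans hC) (mem_sdiff.2 ⟨h0.ya, h1.yq⟩) (by
    intro j hj h
    rw [mem_sdiff] at h
    fin_cases j
    · exact hj rfl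
    · exact h.2 h1.ya
    · exact h0.yp h.1
    · exact h0.yq h.1)
  have a3 := hcell (C' \ C) 2 (sdiff_subset.trans hC') (mem_sdiff.2 ⟨h1.yb, h0.yp⟩) (by
    intro j hj h
    rw [mem_sdiff] at h
    fin_cases j
    · exact h1.yq h.1
    · exact h.2 h0.yb
    · exact hj rfl
    · exact h1.yp h.1)
  have y3Y : G.pi (G.al (r 3)) ∈ G.vs \ univ.image z :=
    mem_sdiff.2 ⟨G.pi_mem _ (G.al_mem _ (hQ.rds 3)), quadb_rZ hQ 3⟩
  have a4 := hcell ((G.vs \ univ.image z) \ (C ∪ C')) 3 sdiff_subset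
    (mem_sdiff.2 ⟨y3Y, by rw [mem_union, not_or]; exact ⟨h0.yq, h1.yp⟩⟩) (by
    intro j hj h
    rw [mem_sdiff, mem_union, not_or] at h
    fin_cases j
    · exact h.2.1 h0.ya
    · exact h.2.1 h0.yb
    · exact h.2.2 h1.yb
    · exact hj rfl)
  -- counting
  set Y := G.vs \ univ.image z with hYdef
  have hsub : G.ed (C ∩ C') (Y \ (C ∩ C')) ∪ G.ed (C \ C') (Y \ (C \ C')) ∪
      G.ed (C' \ C) (Y \ (C' \ C)) ∪ G.ed (Y \ (C ∪ C')) (Y \ (Y \ (C ∪ C'))) ⊆
      G.ed C (Y \ C) ∪ G.ed (Y \ C) C ∪ G.ed C' (Y \ C') ∪ G.ed (Y \ C') C' := by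
    intro d hd
    simp only [mem_union, G.mem_ed, mem_sdiff, mem_inter] at hd ⊢
    have i1 : G.pi d ∈ C → G.pi d ∈ Y := fun h => hC h
    have i2 : G.pi d ∈ C' → G.pi d ∈ Y := fun h => hC' h
    tauto
  have hdis : ∀ X X' P Q : Finset V, Disjoint X X' → Disjoint (G.ed X P) (G.ed X' Q) := by
    intro X X' P Q h
    rw [disjoint_left]
    intro d h2 h3
    exact disjoint_left.1 h (G.mem_ed.1 h2).2.1 (G.mem_ed.1 h3).2.1
  have d12 : Disjoint (C ∩ C') (C \ C') := by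
    rw [disjoint_left]
    intro v h2 h3
    exact (mem_sdiff.1 h3).2 (mem_inter.1 h2).2
  have d13 : Disjoint (C ∩ C') (C' \ C) := by
    rw [disjoint_left]
    intro v h2 h3
    exact (mem_sdiff.1 h3).2 (mem_inter.1 h2).1
  have d23 : Disjoint (C \ C') (C' \ C) := by
    rw [disjoint_left]
    intro v h2 h3
    exact (mem_sdiff.1 h3).2 (mem_sdiff.1 h2).1
  have d14 : Disjoint (C ∩ C') (Y \ (C ∪ C')) := by
    rw [disjoint_left]
    intro v h2 h3
    exact (mem_sdiff.1 h3).2 (mem_union_left _ (mem_inter.1 h2).1)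
  have d24 : Disjoint (C \ C') (Y \ (C ∪ C')) := by
    rw [disjoint_left]
    intro v h2 h3
    exact (mem_sdiff.1 h3).2 (mem_union_left _ (mem_sdiff.1 h2).1)
  have d34 : Disjoint (C' \ C) (Y \ (C ∪ C')) := by
    rw [disjoint_left]
    intro v h2 h3
    exact (mem_sdiff.1 h3).2 (mem_union_right _ (mem_sdiff.1 h2).1)
  have hcard : (G.ed (C ∩ C') (Y \ (C ∩ C')) ∪ G.ed (C \ C') (Y \ (C \ C')) ∪
      G.ed (C' \ C) (Y \ (C' \ C)) ∪ G.ed (Y \ (C ∪ C')) (Y \ (Y \ (C ∪ C')))).card =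
      (G.ed (C ∩ C') (Y \ (C ∩ C'))).card + (G.ed (C \ C') (Y \ (C \ C'))).card +
      (G.ed (C' \ C) (Y \ (C' \ C))).card +
      (G.ed (Y \ (C ∪ C')) (Y \ (Y \ (C ∪ C')))).card := by
    rw [card_union_of_disjoint, card_union_of_disjoint, card_union_of_disjoint]
    · exact hdis _ _ _ _ d12
    · exact disjoint_union_left.2 ⟨hdis _ _ _ _ d13, hdis _ _ _ _ d23⟩
    · exact disjoint_union_left.2 ⟨disjoint_union_left.2 ⟨hdis _ _ _ _ d14, hdis _ _ _ _ d24⟩,
        hdis _ _ _ _ d34⟩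
  have hle := card_le_card hsub
  rw [hcard] at hle
  have u1 := card_union_le (G.ed C (Y \ C) ∪ G.ed (Y \ C) C ∪ G.ed C' (Y \ C')) (G.ed (Y \ C') C')
  have u2 := card_union_le (G.ed C (Y \ C) ∪ G.ed (Y \ C) C) (G.ed C' (Y \ C'))
  have u3 := card_union_le (G.ed C (Y \ C)) (G.ed (Y \ C) C)
  have t1 := h0.two
  have t2 := h1.two
  have t3 := G.ed_comm (Y \ C) C
  have t4 := G.ed_comm (Y \ C') C'
  rw [← hYdef] at t1 t2
  have hE2 : (G.ed (C ∩ C') (Y \ (C ∩ C'))).card ≤ 2 := by omega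
  have hE2' : 2 ≤ (G.ed (C ∩ C') (Y \ (C ∩ C'))).card := by omega
  have hb3 : (G.bd (C ∩ C')).card = 3 := by omega
  have hIY : C ∩ C' ⊆ Y := inter_subset_left.trans hC
  have hIv : C ∩ C' ⊆ G.vs := hIY.trans sdiff_subset
  have hodd : Odd (C ∩ C').card := by
    rw [← G.dg_parity hIv]
    have h2 : G.tk (C ∩ C') = ∅ := by
      rw [eq_empty_iff_forall_notMem]
      intro d hd
      have h3 := G.mem_tk.1 hd
      have h4 : d ∈ G.tk G.vs := G.mem_tk.2 ⟨h3.1, hIv h3.2.1, h3.2.2⟩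
      rw [hT.tok] at h4
      exact notMem_empty _ h4
    unfold JK.CG.dg
    rw [h2, card_empty, hb3]
    decide
  rcases hno _ hIv hodd hb3 with h2 | h2
  · obtain ⟨v, hv⟩ := card_eq_one.1 h2
    have h3 : G.ed (C ∩ C') (Y \ (C ∩ C')) ⊆ A.filter fun d => G.pi d = v := by
      intro d hd
      obtain ⟨p1, p2, p3⟩ := G.mem_ed.1 hd
      have hpv : G.pi d = v := by
        rw [hv, mem_singleton] at p2
        exact p2
      refine mem_filter.2 ⟨?_, hpv⟩
      rw [mem_sdiff, mem_inter, not_and_or] at p3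
      rw [mem_inter] at p2
      rcases p3.2 with h4 | h4
      · exact h0.inA d (G.mem_ed.2 ⟨p1, p2.1, mem_sdiff.2 ⟨p3.1, h4⟩⟩)
      · exact h1.inA d (G.mem_ed.2 ⟨p1, p2.2, mem_sdiff.2 ⟨p3.1, h4⟩⟩)
    have h4 := card_le_card h3
    have h5 := hA.one v (hIY (by rw [hv]; exact mem_singleton_self v))
    omega
  · have h3 : univ.image z ⊆ G.vs \ (C ∩ C') := by
      intro w hw
      refine mem_sdiff.2 ⟨quadb_sub hQ hw, fun h => ?_⟩
      exact (mem_sdiff.1 (hIY h)).2 hw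
    have h4 := card_le_card h3
    rw [quadb_card hQ, h2] at h4
    omega

private lemma quadb_agree (hT : TEC G) (hQ : Quad G z r c) {B A : Finset D}
    (h : ∀ i, (r i ∈ B ↔ G.al (r i) ∈ A)) : ∀ d ∈ G.bd (univ.image z), (d ∈ B ↔ G.al d ∈ A) := by
  intro d hd
  rw [hQ.bd hT] at hd
  simp only [mem_insert, mem_singleton] at hd
  rcases hd with rfl | rfl | rfl | rfl
  · exact h 0
  · exact h 1
  · exact h 2
  · exact h 3

private lemma quadb_bdY (hT : TEC G) (hQ : Quad G z r c) :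
    G.bd (G.vs \ univ.image z) = {G.al (r 0), G.al (r 1), G.al (r 2), G.al (r 3)} := by
  rw [G.bd_compl_eq (quadb_sub hQ), hQ.bd hT]
  simp only [image_insert, image_singleton]

private lemma quadb_alne (hQ : Quad G z r c) {i j : Fin 4} (h : i ≠ j) :
    G.al (r i) ≠ G.al (r j) := by
  intro h1
  apply h
  apply hQ.inj
  rw [← hQ.rpi i, ← hQ.rpi j, ← G.al_al _ (hQ.rds i), h1, G.al_al _ (hQ.rds j)]

/-- (i): darts at `Y`, pairing 02|13 -/
theorem quad_out {G : JK.CG V D} (hT : TEC G) (hno : NoThree G) (hI : IHK G.vs.card V D)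
    {z : Fin 4 → V} {r c : Fin 4 → D} (hQ : Quad G z r c)
    (h4 : 4 ≤ (G.vs \ univ.image z).card) {e : D} (he : e ∈ G.ds)
    (hY : G.pi e ∉ univ.image z) : ∃ J, Clean G J ∧ e ∈ J := by
  have hYe : Even (G.vs \ univ.image z).card := by
    have h5 := card_sdiff_add_card_eq_card (quadb_sub hQ)
    rw [quadb_card hQ] at h5
    obtain ⟨a, ha⟩ := hT.evenvs
    exact ⟨a - 2, by omega⟩
  have hss : G.vs \ (G.vs \ univ.image z) = univ.image z := Finset.sdiff_sdiff_eq_self (quadb_sub hQ)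
  have hbd : G.bd (G.vs \ univ.image z) =
      {G.al (r 0), G.al (r 2), G.al (r 1), G.al (r 3)} := by
    rw [quadb_bdY hT hQ]
    congr 1
    exact insert_comm _ _ _
  obtain ⟨A, hA, heA, hcase⟩ := (half_of hT hno hI sdiff_subset hYe h4
    (by rw [hss, quadb_card hQ]) hbd (quadb_alne hQ (by decide)) (quadb_alne hQ (by decide))
    (quadb_alne hQ (by decide)) (quadb_alne hQ (by decide)) (quadb_alne hQ (by decide))
    (quadb_alne hQ (by decide))).2 e he (mem_sdiff.2 ⟨G.pi_mem e he, hY⟩)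
  rcases hcase with hnone | ⟨h02, h13⟩
  · -- no leg
    have hnl : ∀ i, G.al (r i) ∉ A := by
      intro i
      apply hnone
      rw [quadb_bdY hT hQ]
      simp only [mem_insert, mem_singleton]
      fin_cases i
      · exact Or.inl rfl
      · exact Or.inr (Or.inl rfl)
      · exact Or.inr (Or.inr (Or.inl rfl))
      · exact Or.inr (Or.inr (Or.inr rfl))
    obtain ⟨B1, hB1, n1, m1, m3⟩ := quadb_cyc1 hQ
    obtain ⟨B0, hB0, n0, m0, m2⟩ := quadb_cyc0 hQ
    have c1 : G.pi (G.al (c 1)) = z 2 := hQ.cend 1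
    have c0 : G.pi (G.al (c 0)) = z 1 := hQ.cend 0
    have ag1 := quadb_agree hT hQ (B := B1) (A := A) (fun i =>
      ⟨fun h => absurd h (n1 i), fun h => absurd h (hnl i)⟩)
    have ag0 := quadb_agree hT hQ (B := B0) (A := A) (fun i =>
      ⟨fun h => absurd h (n0 i), fun h => absurd h (hnl i)⟩)
    rcases quadb_drive hT hno hQ h4 hB1 hA ag1 with h | ⟨-, C, h | h⟩
    · exact ⟨_, h, mem_union_right _ heA⟩
    · rcases quadb_drive hT hno hQ h4 hB0 hA ag0 with h' | ⟨-, C', h' | h'⟩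
      · exact ⟨_, h', mem_union_right _ heA⟩
      · exfalso
        have hJ := half_glue hT (quadb_sub hQ) hB0 hA ag0
        have h5 := hJ.unique h'.1 (hJ.closed _ (mem_union_left _ m0)) (by rw [hQ.cpi 1, c0])
        have h6 : G.pi (G.al (c 1)) = z 0 := by rw [h5, G.al_al _ (hQ.cds 0), hQ.cpi 0]
        rw [c1] at h6
        exact absurd (hQ.inj h6) (by decide)
      · exact (quadb_two hT hno hQ hA h.2 h'.2).elim
    · exfalso
      have hJ := half_glue hT (quadb_sub hQ) hB1 hA ag1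
      have h5 := hJ.unique h.1 (hJ.closed _ (mem_union_left _ m1)) (by rw [hQ.cpi 2, c1])
      have h6 : G.pi (G.al (c 2)) = z 1 := by rw [h5, G.al_al _ (hQ.cds 1), hQ.cpi 1]
      have c2 : G.pi (G.al (c 2)) = z 3 := hQ.cend 2
      rw [c2] at h6
      exact absurd (hQ.inj h6) (by decide)
  · -- a cross pair
    have hk : ∃ k : Fin 4, ∀ i, (G.al (r i) ∈ A ↔ i = k ∨ i = k + 1) := by
      by_cases a0 : G.al (r 0) ∈ A
      · have a2 : G.al (r 2) ∉ A := h02.1 a0
        by_cases a1 : G.al (r 1) ∈ A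
        · have a3 : G.al (r 3) ∉ A := h13.1 a1
          refine ⟨0, fun i => ?_⟩
          fin_cases i
          · exact ⟨fun _ => by decide, fun _ => a0⟩
          · exact ⟨fun _ => by decide, fun _ => a1⟩
          · exact ⟨fun h => absurd h a2, fun h => absurd h (by decide)⟩
          · exact ⟨fun h => absurd h a3, fun h => absurd h (by decide)⟩
        · have a3 : G.al (r 3) ∈ A := by
            by_contra h
            exact a1 (h13.2 h)
          refine ⟨3, fun i => ?_⟩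
          fin_cases i
          · exact ⟨fun _ => by decide, fun _ => a0⟩
          · exact ⟨fun h => absurd h a1, fun h => absurd h (by decide)⟩
          · exact ⟨fun h => absurd h a2, fun h => absurd h (by decide)⟩
          · exact ⟨fun _ => by decide, fun _ => a3⟩
      · have a2 : G.al (r 2) ∈ A := by
          by_contra h
          exact a0 (h02.2 h)
        by_cases a1 : G.al (r 1) ∈ A
        · have a3 : G.al (r 3) ∉ A := h13.1 a1
          refine ⟨1, fun i => ?_⟩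
          fin_cases i
          · exact ⟨fun h => absurd h a0, fun h => absurd h (by decide)⟩
          · exact ⟨fun _ => by decide, fun _ => a1⟩
          · exact ⟨fun _ => by decide, fun _ => a2⟩
          · exact ⟨fun h => absurd h a3, fun h => absurd h (by decide)⟩
        · have a3 : G.al (r 3) ∈ A := by
            by_contra h
            exact a1 (h13.2 h)
          refine ⟨2, fun i => ?_⟩
          fin_cases i
          · exact ⟨fun h => absurd h a0, fun h => absurd h (by decide)⟩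
          · exact ⟨fun h => absurd h a1, fun h => absurd h (by decide)⟩
          · exact ⟨fun _ => by decide, fun _ => a2⟩
          · exact ⟨fun _ => by decide, fun _ => a3⟩
    obtain ⟨k, hk⟩ := hk
    obtain ⟨B, hB, hBk⟩ := quadb_leg hQ k
    have ag := quadb_agree hT hQ (B := B) (A := A) (fun i => by rw [hBk i, hk i])
    rcases quadb_drive hT hno hQ h4 hB hA ag with h | ⟨h, -⟩
    · exact ⟨_, h, mem_union_right _ heA⟩
    · exact absurd (mem_union_left _ ((hBk k).2 (Or.inl rfl))) (h k)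

/-- (ii): the edge `z 0 z 1`, pairing 12|03 -/
theorem quad_in {G : JK.CG V D} (hT : TEC G) (hno : NoThree G) (hI : IHK G.vs.card V D)
    {z : Fin 4 → V} {r c : Fin 4 → D} (hQ : Quad G z r c)
    (h4 : 4 ≤ (G.vs \ univ.image z).card) : ∃ J, Clean G J ∧ c 0 ∈ J := by
  have hYe : Even (G.vs \ univ.image z).card := by
    have h5 := card_sdiff_add_card_eq_card (quadb_sub hQ)
    rw [quadb_card hQ] at h5
    obtain ⟨a, ha⟩ := hT.evenvs
    exact ⟨a - 2, by omega⟩
  have hss : G.vs \ (G.vs \ univ.image z) = univ.image z := Finset.sdiff_sdiff_eq_self (quadb_sub hQ)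
  have hbd : G.bd (G.vs \ univ.image z) =
      {G.al (r 1), G.al (r 2), G.al (r 0), G.al (r 3)} := by
    rw [quadb_bdY hT hQ]
    ext d
    simp only [mem_insert, mem_singleton]
    tauto
  obtain ⟨A, hA, hnone, hU⟩ := (half_of hT hno hI sdiff_subset hYe h4
    (by rw [hss, quadb_card hQ]) hbd (quadb_alne hQ (by decide)) (quadb_alne hQ (by decide))
    (quadb_alne hQ (by decide)) (quadb_alne hQ (by decide)) (quadb_alne hQ (by decide))
    (quadb_alne hQ (by decide))).1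
  have hnl : ∀ i, G.al (r i) ∉ A := by
    intro i
    apply hnone
    rw [quadb_bdY hT hQ]
    simp only [mem_insert, mem_singleton]
    fin_cases i
    · exact Or.inl rfl
    · exact Or.inr (Or.inl rfl)
    · exact Or.inr (Or.inr (Or.inl rfl))
    · exact Or.inr (Or.inr (Or.inr rfl))
  obtain ⟨B0, hB0, n0, m0, m2⟩ := quadb_cyc0 hQ
  have c1 : G.pi (G.al (c 1)) = z 2 := hQ.cend 1
  have c0 : G.pi (G.al (c 0)) = z 1 := hQ.cend 0
  have ag0 := quadb_agree hT hQ (B := B0) (A := A) (fun i =>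
    ⟨fun h => absurd h (n0 i), fun h => absurd h (hnl i)⟩)
  rcases quadb_drive hT hno hQ h4 hB0 hA ag0 with h' | ⟨-, C', h' | h'⟩
  · exact ⟨_, h', mem_union_left _ m0⟩
  · exfalso
    have hJ := half_glue hT (quadb_sub hQ) hB0 hA ag0
    have h5 := hJ.unique h'.1 (hJ.closed _ (mem_union_left _ m0)) (by rw [hQ.cpi 1, c0])
    have h6 : G.pi (G.al (c 1)) = z 0 := by rw [h5, G.al_al _ (hQ.cds 0), hQ.cpi 0]
    rw [c1] at h6
    exact absurd (hQ.inj h6) (by decide)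
  · exfalso
    obtain ⟨-, hb⟩ := h'
    have hout : ∀ i, G.pi (G.al (G.al (r i))) ∉ C' := by
      intro i h
      rw [G.al_al _ (hQ.rds i), hQ.rpi i] at h
      exact (mem_sdiff.1 (hb.sub h)).2 (quadb_zm i)
    have hmem : ∀ i, G.pi (G.al (r i)) ∈ C' → G.al (r i) ∈ G.bd C' := fun i h =>
      G.mem_bd.2 ⟨G.al_mem _ (hQ.rds i), h, hout i⟩
    have hnot : ∀ i, G.pi (G.al (r i)) ∉ C' → G.al (r i) ∉ G.bd C' := fun i h h' =>
      h (G.mem_bd.1 h').2.1
    have h5 := hU C' hb.sub hb.even hb.four (hmem 1 hb.ya) (hmem 2 hb.yb) (hnot 0 hb.yq)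
      (hnot 3 hb.yp)
    obtain ⟨d, hd⟩ := card_pos.1 (by rw [hb.two]; norm_num :
      0 < (G.ed C' ((G.vs \ univ.image z) \ C')).card)
    obtain ⟨p1, p2, p3⟩ := G.mem_ed.1 hd
    have h6 : d ∈ G.bd C' := G.mem_bd.2 ⟨p1, p2, (mem_sdiff.1 p3).2⟩
    have hne : ∀ i, d ≠ G.al (r i) := by
      rintro i rfl
      rw [G.al_al _ (hQ.rds i), hQ.rpi i] at p3
      exact (mem_sdiff.1 (mem_sdiff.1 p3).1).2 (quadb_zm i)
    exact h5 d h6 (hne 1) (hne 2) (hb.inA d hd)

theorem quad {G : JK.CG V D} (hT : TEC G) (hno : NoThree G) (hI : IHK G.vs.card V D)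
    {Z : Finset V} (hZ : Z ⊆ G.vs) (h4 : Z.card = 4) (h4' : 4 ≤ (G.vs \ Z).card)
    (hd : (G.bd Z).card = 4) : KS G := by
  obtain ⟨z, r, c, hQ, rfl⟩ := exists_quad hT hno hZ h4 h4' hd
  have hback : ∀ d ∈ G.ds, (∃ J, Clean G J ∧ G.al d ∈ J) → ∃ J, Clean G J ∧ d ∈ J := by
    rintro d hd ⟨J, hJ, h1⟩
    refine ⟨J, hJ, ?_⟩
    have h2 := hJ.pm.closed _ h1
    rwa [G.al_al d hd] at h2
  have hc : ∀ i, ∃ J, Clean G J ∧ c i ∈ J := by
    intro i
    have h1 := quad_in hT hno hI (hQ.rot i) (by rw [quadb_img]; exact h4')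
    simpa only [zero_add] using h1
  intro e he
  by_cases hY : G.pi e ∈ univ.image z
  · obtain ⟨i, -, hi⟩ := mem_image.1 hY
    rcases hQ.darts hT he hi.symm with rfl | rfl | rfl
    · exact hback _ he (quad_out hT hno hI hQ h4' (G.al_mem _ he) (quadb_rZ hQ i))
    · exact hc i
    · refine hback _ he ?_
      rw [G.al_al _ (hQ.cds _)]
      exact hc _
  · exact quad_out hT hno hI hQ h4' he hY

end K

end R5
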