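import Pool.Agent.Lib.R5.KThree
import Pool.Agent.Lib.R5.KQuadB
import Pool.Agent.Lib.R5.KMin

/-! R5 module KClean: KS_e. -/

set_option autoImplicit false

namespace R5

open Finset Classical

namespace K

variable {V D : Type*}

theorem exists_clean (G : JK.CG V D) (hT : TEC G) : KS G := by
  have main : ∀ n : ℕ, ∀ G : JK.CG V D, G.vs.card = n → TEC G → KS G := by
    intro n
    induction n using Nat.strong_induction_on with
    | _ n ih =>
      intro G hn hT
      have hI : IHK G.vs.card V D := fun G' hlt hT' => ih _ (hn ▸ hlt) G' rfl hT'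
      by_cases hno : NoThree G
      · by_cases hq : ∀ Z ⊆ G.vs, Z.card = 4 → 4 ≤ (G.vs \ Z).card → (G.bd Z).card ≠ 4
        · by_cases hz : ∃ Z ⊆ G.vs, Even Z.card ∧ 4 ≤ Z.card ∧ 4 ≤ (G.vs \ Z).card ∧
              (G.bd Z).card = 4
          · obtain ⟨Z, hZ, he, h4, h4', hd⟩ := hz
            exact min4 hT hno hI hq hZ he h4 h4' hd
          · intro e he
            obtain ⟨M, hM, heM, -⟩ := JK.CG.exists_pm_three G hT.evenvs hT.tok hT.b0 he
            exact ⟨M, clean_of hT hno hM (fun W hW heW hdW h4 h4' =>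
              absurd ⟨W, hW, heW, h4, h4', hdW⟩ hz), heM⟩
        · push Not at hq
          obtain ⟨Z, hZ, h4, h4', hd⟩ := hq
          exact quad hT hno hI hZ h4 h4' hd
      · unfold NoThree at hno
        push Not at hno
        obtain ⟨X, hX, ho, h3, h1, h1'⟩ := hno
        have hc : (G.vs \ X).card = G.vs.card - X.card := card_sdiff_of_subset hX
        have hle : X.card ≤ G.vs.card := card_le_card hX
        obtain ⟨k, hk⟩ := ho
        obtain ⟨l, hl⟩ := hT.evenvs
        exact glue3 hT hI hX ⟨k, hk⟩ h3 (by omega) (by omega)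
  exact main _ G rfl hT

end K

end R5
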