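import Pool.Agent.Lib.R5.Defs
import Pool.Agent.Lib.JK.Three

/-! R5, line B (names K*): the class CORE* and the theorem KS_e of kse74.md.

`T5` is the class of the graphs `H - q`, `H` 5-regular and 5-edge-connected (even cuts >= 6).
`StarThm` is exactly what is left open. `Clean` perfect matchings of cubic graphs meet every 3-cut
once and contain no 4-cut; then `J + 2F` is 5-edge-connected. -/

set_option autoImplicit false

namespace R5

open Finset Classical

namespace DG

variable {V D : Type*}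

/-- `H - q`, `H` 5-regular and 5-edge-connected -/
structure T5 (G : DG V D) : Prop where
  odd : Odd G.vs.card
  five : (G.tk G.vs).card = 5
  cut : ∀ X ⊆ G.vs, X.Nonempty → 5 ≤ G.dg X

/-- (T) for `G` -/
def TT (G : DG V D) : Prop := ∀ τ ∈ G.tk G.vs, G.Sol {τ}

/-- what is left open: (T) for `H - q`, `H` in the class CORE*, given (T) for all smaller graphs of
the class `T5` -/
def StarThm (V D : Type*) : Prop := ∀ G : DG V D, G.T5 →
  (∀ G' : DG V D, G'.vs.card < G.vs.card → G'.T5 → G'.TT) →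
  (∀ Z ⊆ G.vs, Odd Z.card → 3 ≤ Z.card → Z ≠ G.vs → 7 ≤ G.dg Z) → G.TT

end DG

namespace K

variable {V D : Type*}

/-- 3-edge-connected cubic graph without tokens -/
structure TEC (G : JK.CG V D) : Prop where
  evenvs : Even G.vs.card
  tok : G.tk G.vs = ∅
  b0 : G.B0
  evn : ∀ X ⊆ G.vs, Even X.card → X.Nonempty → X ≠ G.vs → 4 ≤ (G.bd X).card

/-- clean perfect matching: meets every 3-cut once, contains no 4-cut -/
structure Clean (G : JK.CG V D) (J : Finset D) : Prop where
  pm : G.IsPM J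
  three : ∀ X ⊆ G.vs, Odd X.card → (G.bd X).card = 3 →
    ((G.bd X).filter fun d => d ∈ J).card = 1
  four : ∀ X ⊆ G.vs, Even X.card → (G.bd X).card = 4 → ∃ d ∈ G.bd X, d ∉ J

/-- (KS_e) for `G` -/
def KS (G : JK.CG V D) : Prop := ∀ e ∈ G.ds, ∃ J, Clean G J ∧ e ∈ J

/-- induction hypothesis of KS_e -/
def IHK (n : ℕ) (V D : Type*) : Prop := ∀ G : JK.CG V D, G.vs.card < n → TEC G → KS G

/-- no nontrivial 3-cuts -/
def NoThree (G : JK.CG V D) : Prop :=
  ∀ X ⊆ G.vs, Odd X.card → (G.bd X).card = 3 → X.card = 1 ∨ (G.vs \ X).card = 1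

/-- a half of a perfect matching: the darts at the vertices of `X` -/
structure Half (G : JK.CG V D) (X : Finset V) (A : Finset D) : Prop where
  sub : ∀ d ∈ A, d ∈ G.ds ∧ G.pi d ∈ X
  cl : ∀ d ∈ A, G.pi (G.al d) ∈ X → G.al d ∈ A
  one : ∀ v ∈ X, (A.filter fun d => G.pi d = v).card = 1
  four : ∀ W ⊆ X, Even W.card → (G.bd W).card = 4 → ∃ d ∈ G.bd W, d ∉ A

/-- a pair of perfect matchings such that no odd cut lies in both -/
structure Pair (G : JK.CG V D) (J N : Finset D) : Prop where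
  j : G.IsPM J
  n : G.IsPM N
  odd : ∀ Z ⊆ G.vs, Odd Z.card → ∃ d ∈ G.bd Z, ¬ (d ∈ J ∧ d ∈ N)

/-- pairs with a prescribed state of one edge -/
def P4 (G : JK.CG V D) : Prop :=
  ∀ h ∈ G.ds, ∀ a b : Prop, ∃ J N, Pair G J N ∧ (h ∈ J ↔ a) ∧ (h ∈ N ↔ b)

end K

end R5
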