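import Pool.Agent.Lib.R5.KRoot

/-! R5 module KFull: from `H - q` to `H`. Take `G = H.res (H.vs.erase q)`, `q = pi d1`: `T5`, tokens =
legs = partners of the darts at `q` (no loops), `Sol {al d1}` by `root`, add `d1`. -/

set_option autoImplicit false

namespace R5

open Finset Classical

namespace DG

variable {V D : Type*}

theorem full (hS : StarThm V D) {H : DG V D} (ht : H.tk H.vs = ∅) (he : Even H.vs.card)
    (hc : ∀ X ⊆ H.vs, X.Nonempty → X ≠ H.vs → 5 ≤ H.dg X) {d1 : D} (hd : d1 ∈ H.ds) :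
    ∃ M, H.Mat ∅ M ∧ d1 ∈ M ∧ H.Con M := by
  have hn : ∀ d ∈ H.ds, H.al d ≠ d := by
    intro d hd2 h
    have h1 : d ∈ H.tk H.vs := H.mem_tk.2 ⟨hd2, H.pi_mem d hd2, h⟩
    rw [ht] at h1
    exact notMem_empty d h1
  have hdg : ∀ X, H.dg X = (H.bd X).card := by
    intro X
    have h1 : H.tk X = ∅ := by
      rw [Finset.eq_empty_iff_forall_notMem]
      intro d hd2
      rw [H.mem_tk] at hd2
      exact hn d hd2.1 hd2.2.2
    unfold dg
    rw [h1, card_empty, add_zero]
  have hd1 := hd
  have hq : H.pi d1 ∈ H.vs := H.pi_mem d1 hd1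
  have hq1 : ({H.pi d1} : Finset V) ⊆ H.vs := singleton_subset_iff.2 hq
  have hev : Even H.vs.card := he
  have hZ : H.vs \ {H.pi d1} ⊆ H.vs := sdiff_subset
  have hqne : ({H.pi d1} : Finset V) ≠ H.vs := by
    intro h1
    rw [← h1, card_singleton] at he
    exact absurd he (by decide)
  have hb5 : (H.bd {H.pi d1}).card = 5 := by
    have h1 := hc {H.pi d1} hq1 (singleton_nonempty _) hqne
    rw [hdg] at h1
    have h2 : H.bd {H.pi d1} ⊆ H.ds.filter fun d => H.pi d = H.pi d1 := by
      intro d hd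
      rw [H.mem_bd, mem_singleton] at hd
      exact mem_filter.2 ⟨hd.1, hd.2.1⟩
    have h3 := card_le_card h2
    rw [H.five _ hq] at h3
    omega
  have hbq : H.bd {H.pi d1} = H.ds.filter fun d => H.pi d = H.pi d1 := by
    apply eq_of_subset_of_card_le
    · intro d hd
      rw [H.mem_bd, mem_singleton] at hd
      exact mem_filter.2 ⟨hd.1, hd.2.1⟩
    · rw [hb5, H.five _ hq]
  have hd1b : d1 ∈ H.bd {H.pi d1} := by
    rw [hbq]
    exact mem_filter.2 ⟨hd1, rfl⟩
  have hbZ : (H.bd (H.vs \ {H.pi d1})).card = 5 := by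
    rw [H.card_bd_compl hq1, hb5]
  have hZc : (H.vs \ {H.pi d1}).card + 1 = H.vs.card := by
    rw [card_sdiff_of_subset hq1, card_singleton]
    have : 0 < H.vs.card := card_pos.2 ⟨_, hq⟩
    omega
  have hZo : Odd (H.vs \ {H.pi d1}).card := by
    rw [← Nat.not_even_iff_odd]
    intro h
    rw [← hZc, Nat.even_add_one] at hev
    exact hev h
  have hC : ∀ X ⊆ H.vs \ {H.pi d1}, X.Nonempty → 5 ≤ (H.res (H.vs \ {H.pi d1}) hZ).dg X := by
    intro X hX hne
    rw [res_dg H hZ hX]
    refine hc X (hX.trans hZ) hne ?_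
    intro h6
    rw [h6] at hX
    exact (mem_sdiff.1 (hX hq)).2 (mem_singleton_self _)
  have hlgZ : ((H.res (H.vs \ {H.pi d1}) hZ).tk (H.vs \ {H.pi d1})).card = 5 := by
    rw [res_tk H hZ, H.card_lg, hdg, hbZ]
  have hτ : H.al d1 ∈ (H.res (H.vs \ {H.pi d1}) hZ).tk (H.vs \ {H.pi d1}) := by
    rw [res_tk H hZ, H.mem_lg]
    have h6 := H.mem_bd_compl hd1b
    rw [H.mem_bd] at h6
    exact ⟨h6.1, h6.2.1, Or.inl h6.2.2⟩
  obtain ⟨N, hN, hcon⟩ := root hS (H.res (H.vs \ {H.pi d1}) hZ) ⟨hZo, hlgZ, hC⟩ _ hτ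
  have hin : ∀ d ∈ N, H.pi (H.al d) ∈ H.vs \ {H.pi d1} →
      (H.res (H.vs \ {H.pi d1}) hZ).al d = H.al d := fun d _ h => if_pos h
  have hout : ∀ d ∈ N, H.pi (H.al d) ∉ H.vs \ {H.pi d1} → d = H.al d1 := by
    intro d hd h
    have h6 : (H.res (H.vs \ {H.pi d1}) hZ).al d = d := if_neg h
    exact mem_singleton.1 ((hN.tok d hd).1 h6)
  have hNs : ∀ d ∈ N, d ∈ H.ds ∧ H.pi d ∈ H.vs \ {H.pi d1} := by
    intro d hd
    exact mem_filter.1 (hN.sub hd)
  have hcl : ∀ d ∈ insert d1 N, H.al d ∈ insert d1 N := by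
    intro d hd
    rcases mem_insert.1 hd with rfl | hd
    · exact mem_insert_of_mem (hN.usub (mem_singleton_self _))
    · by_cases h : H.pi (H.al d) ∈ H.vs \ {H.pi d1}
      · have h6 := hN.closed d hd
        rw [hin d hd h] at h6
        exact mem_insert_of_mem h6
      · rw [hout d hd h, H.al_al d1 hd1]
        exact mem_insert_self _ _
  have hsub : insert d1 N ⊆ H.ds := by
    intro d hd
    rcases mem_insert.1 hd with rfl | hd
    · exact hd1
    · exact (hNs d hd).1
  have hd1N : d1 ∉ N := by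
    intro h
    exact (mem_sdiff.1 (hNs d1 h).2).2 (mem_singleton_self _)
  have hav : ∀ X ⊆ H.vs, X.Nonempty → H.pi d1 ∉ X → ∃ d ∈ H.bd X, d ∉ insert d1 N := by
    intro X hX hne hqX
    have hXZ : X ⊆ H.vs \ {H.pi d1} := by
      intro v hv
      refine mem_sdiff.2 ⟨hX hv, ?_⟩
      rw [mem_singleton]
      rintro rfl
      exact hqX hv
    by_cases hXe : X = H.vs \ {H.pi d1}
    · subst hXe
      have h6 : ∃ d ∈ H.bd (H.vs \ {H.pi d1}), d ≠ H.al d1 := by
        by_contra h
        push Not at h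
        have h7 : H.bd (H.vs \ {H.pi d1}) ⊆ {H.al d1} := by
          intro d hd
          rw [mem_singleton]
          exact h d hd
        have h8 := card_le_card h7
        rw [hbZ, card_singleton] at h8
        omega
      obtain ⟨d, hd, hne⟩ := h6
      refine ⟨d, hd, ?_⟩
      rw [H.mem_bd] at hd
      rw [mem_insert, not_or]
      constructor
      · rintro rfl
        exact hqX hd.2.1
      · intro h
        exact hne (hout d h hd.2.2)
    · obtain ⟨d, hd, hdN⟩ := hcon X hXZ hne hXe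
      rw [res_bd H hZ hXZ] at hd
      have hdX := (mem_filter.1 hd).1
      refine ⟨d, hdX, ?_⟩
      rw [mem_insert, not_or]
      refine ⟨?_, hdN⟩
      rintro rfl
      exact hqX (H.mem_bd.1 hdX).2.1
  refine ⟨insert d1 N, ⟨hsub, hcl, ?_, ?_, ?_⟩, mem_insert_self _ _, ?_⟩
  · intro d hd
    constructor
    · intro h
      exact absurd h (hn d (hsub hd))
    · intro h
      exact absurd h (notMem_empty _)
  · exact empty_subset _
  · intro v hv
    by_cases hvq : v = H.pi d1
    · rw [card_eq_one]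
      refine ⟨d1, ?_⟩
      ext d
      rw [mem_filter, mem_insert, mem_singleton]
      constructor
      · rintro ⟨h | h, h2⟩
        · exact h
        · have h3 := (mem_sdiff.1 (hNs d h).2).2
          rw [h2, hvq] at h3
          exact absurd (mem_singleton_self _) h3
      · intro h
        rw [h]
        exact ⟨Or.inl rfl, hvq.symm⟩
    · have h6 : (insert d1 N).filter (fun d => H.pi d = v) = N.filter (fun d => H.pi d = v) := by
        ext d
        rw [mem_filter, mem_filter, mem_insert]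
        constructor
        · rintro ⟨h | h, h2⟩
          · rw [h] at h2
            exact absurd h2.symm hvq
          · exact ⟨h, h2⟩
        · rintro ⟨h, h2⟩
          exact ⟨Or.inr h, h2⟩
      rw [h6]
      exact hN.one v (mem_sdiff.2 ⟨hv, by rw [mem_singleton]; exact hvq⟩)
  · exact con_of_avoid H hcl hsub hav hq

end DG

end R5
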