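import Pool.Agent.Lib.R5.Res

/-! R5 module Wind: (T) for 4-edge-connected graphs implies the weak statement for all 5-regular
graphs with odd cuts >= 5 (even cuts arbitrary): even sets with 0 or 2 boundary edges are split off,
the two boundary edges are joined on each side. -/

set_option autoImplicit false

namespace R5

open Finset Classical

namespace DG

variable {V D : Type*}

/-- `s` exchanges the boundary darts of `Z` (none or two of them) -/
structure WPair (G : DG V D) (Z : Finset V) (s : D → D) : Prop where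
  mem : ∀ d ∈ G.bd Z, s d ∈ G.bd Z
  inv : ∀ d ∈ G.bd Z, s (s d) = d
  ne : ∀ d ∈ G.bd Z, s d ≠ d
  two : ∀ d ∈ G.bd Z, ∀ e ∈ G.bd Z, e = d ∨ e = s d

/-- the part `Z`, its two boundary darts joined -/
noncomputable def wspl (G : DG V D) (Z : Finset V) (hZ : Z ⊆ G.vs) (s : D → D)
    (hs : WPair G Z s) : DG V D where
  vs := Z
  ds := G.ds.filter fun d => G.pi d ∈ Z
  pi := G.pi
  al := fun d => if G.pi (G.al d) ∈ Z then G.al d else s d
  pi_mem := fun d hd => (mem_filter.1 hd).2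
  al_mem := fun d hd => by
    obtain ⟨h1, h2⟩ := mem_filter.1 hd
    by_cases h : G.pi (G.al d) ∈ Z
    · simp only [h, if_true]
      exact mem_filter.2 ⟨G.al_mem d h1, h⟩
    · simp only [h, if_false]
      have h3 := hs.mem d (G.mem_bd.2 ⟨h1, h2, h⟩)
      rw [G.mem_bd] at h3
      exact mem_filter.2 ⟨h3.1, h3.2.1⟩
  al_al := fun d hd => by
    obtain ⟨h1, h2⟩ := mem_filter.1 hd
    by_cases h : G.pi (G.al d) ∈ Z
    · simp only [h, if_true, G.al_al d h1, h2]
    · have h3 := hs.mem d (G.mem_bd.2 ⟨h1, h2, h⟩)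
      have h4 := hs.inv d (G.mem_bd.2 ⟨h1, h2, h⟩)
      rw [G.mem_bd] at h3
      simp only [h, if_false, h3.2.2, h4]
  five := fun v hv => by
    rw [← G.five v (hZ hv)]
    congr 1
    ext d
    simp only [mem_filter]
    constructor
    · rintro ⟨⟨h1, -⟩, h3⟩
      exact ⟨h1, h3⟩
    · rintro ⟨h1, h3⟩
      exact ⟨⟨h1, by rw [h3]; exact hv⟩, h3⟩

section

variable {G : DG V D} {Z : Finset V} {hZ : Z ⊆ G.vs} {s : D → D} {hs : WPair G Z s}

theorem wspl_vs : (G.wspl Z hZ s hs).vs = Z := rfl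

theorem wspl_pi : (G.wspl Z hZ s hs).pi = G.pi := rfl

theorem wspl_mem {d : D} : d ∈ (G.wspl Z hZ s hs).ds ↔ d ∈ G.ds ∧ G.pi d ∈ Z := mem_filter

theorem wspl_in {d : D} (h : G.pi (G.al d) ∈ Z) : (G.wspl Z hZ s hs).al d = G.al d := if_pos h

theorem wspl_out {d : D} (h : G.pi (G.al d) ∉ Z) : (G.wspl Z hZ s hs).al d = s d := if_neg h

theorem wspl_ne (hn : ∀ d ∈ G.ds, G.al d ≠ d) {d : D} (hd : d ∈ (G.wspl Z hZ s hs).ds) :
    (G.wspl Z hZ s hs).al d ≠ d := by
  rw [wspl_mem] at hd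
  by_cases h : G.pi (G.al d) ∈ Z
  · rw [wspl_in h]
    exact hn d hd.1
  · rw [wspl_out h]
    exact hs.ne d (G.mem_bd.2 ⟨hd.1, hd.2, h⟩)

/-- boundary darts of a set not containing both ends of the new edge -/
theorem wspl_bd {Y : Finset V} (hY : Y ⊆ Z)
    (hb : ∀ d ∈ G.bd Z, G.pi d ∈ Y → G.pi (s d) ∉ Y) :
    (G.wspl Z hZ s hs).bd Y = G.bd Y := by
  ext d
  rw [DG.mem_bd, DG.mem_bd, wspl_mem, wspl_pi]
  constructor
  · rintro ⟨⟨h1, h2⟩, h3, h4⟩
    refine ⟨h1, h3, ?_⟩
    by_cases h : G.pi (G.al d) ∈ Z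
    · rwa [wspl_in h] at h4
    · exact fun h5 => h (hY h5)
  · rintro ⟨h1, h3, h4⟩
    refine ⟨⟨h1, hY h3⟩, h3, ?_⟩
    by_cases h : G.pi (G.al d) ∈ Z
    · rwa [wspl_in h]
    · rw [wspl_out h]
      exact hb d (G.mem_bd.2 ⟨h1, hY h3, h⟩) h3

theorem wtk_empty (hn : ∀ d ∈ G.ds, G.al d ≠ d) (X : Finset V) : G.tk X = ∅ := by
  rw [Finset.eq_empty_iff_forall_notMem]
  intro d hd
  rw [G.mem_tk] at hd
  exact hn d hd.1 hd.2.2

theorem wdg (hn : ∀ d ∈ G.ds, G.al d ≠ d) (X : Finset V) : G.dg X = (G.bd X).card := by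
  unfold dg
  rw [wtk_empty hn X, card_empty, add_zero]

theorem wspl_odd
    (h5 : ∀ X ⊆ G.vs, Odd X.card → 5 ≤ (G.bd X).card) (hev : Even Z.card) :
    ∀ X ⊆ Z, Odd X.card → 5 ≤ ((G.wspl Z hZ s hs).bd X).card := by
  intro X hX ho
  by_cases hb : ∀ d ∈ G.bd Z, G.pi d ∈ X → G.pi (s d) ∉ X
  · rw [wspl_bd hX hb]
    exact h5 X (hX.trans hZ) ho
  · push Not at hb
    obtain ⟨d, hd, h1, h2⟩ := hb
    have h3 : ((G.wspl Z hZ s hs).bd (Z \ X)).card = ((G.wspl Z hZ s hs).bd X).card :=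
      (G.wspl Z hZ s hs).card_bd_compl (X := X) hX
    rw [← h3, wspl_bd sdiff_subset]
    · refine h5 _ (sdiff_subset.trans hZ) ?_
      rw [card_sdiff_of_subset hX]
      exact Nat.Even.sub_odd (card_le_card hX) hev ho
    · intro e he h4
      rcases hs.two d hd e he with h | h
      · rw [h] at h4
        exact absurd h1 (mem_sdiff.1 h4).2
      · rw [h] at h4
        exact absurd h2 (mem_sdiff.1 h4).2

end

/-- non-matching darts at an odd set come in even number -/
theorem wtwo {G : DG V D} (hn : ∀ d ∈ G.ds, G.al d ≠ d) {M : Finset D} (hM : G.Mat ∅ M)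
    {X : Finset V} (hX : X ⊆ G.vs) (ho : Odd X.card) (h : ∃ d ∈ G.bd X, d ∉ M) (e : D) :
    ∃ d ∈ G.bd X, d ∉ M ∧ d ≠ e := by
  by_contra hc
  push Not at hc
  obtain ⟨d, hd, hdM⟩ := h
  have hde : d = e := hc d hd hdM
  have hlg : G.lg X = G.bd X := by
    ext x
    rw [G.mem_lg, G.mem_bd]
    constructor
    · rintro ⟨h1, h2, h3 | h3⟩
      · exact ⟨h1, h2, h3⟩
      · exact absurd h3 (hn x h1)
    · rintro ⟨h1, h2, h3⟩
      exact ⟨h1, h2, Or.inl h3⟩
  have h1 := hM.par hX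
  have h2 := G.par hX
  rw [← G.card_lg, hlg] at h2
  rw [hlg] at h1
  have h3 : G.bd X = insert d (M ∩ G.bd X) := by
    ext x
    rw [mem_insert, mem_inter]
    constructor
    · intro hx
      by_cases hxM : x ∈ M
      · exact Or.inr ⟨hxM, hx⟩
      · exact Or.inl ((hc x hx hxM).trans hde.symm)
    · rintro (hx | hx)
      · rw [hx]
        exact hd
      · exact hx.2
  have h4 : (G.bd X).card = (M ∩ G.bd X).card + 1 := by
    conv_lhs => rw [h3]
    exact card_insert_of_notMem fun h => hdM (mem_inter.1 h).1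
  rw [← Nat.not_even_iff_odd] at ho
  rw [h4] at h2
  have h5 : ¬ Even ((M ∩ G.bd X).card + 1) := fun h => ho (h2.1 h)
  have h6 : ¬ Even (M ∩ G.bd X).card := fun h => ho (h1.1 h)
  rw [Nat.even_add_one, not_not] at h5
  exact h6 h5

/-- one side of the gluing -/
theorem wside {G : DG V D} {Z : Finset V} {hZ : Z ⊆ G.vs} {s : D → D} {hs : WPair G Z s}
    (hn : ∀ d ∈ G.ds, G.al d ≠ d) {M N : Finset D} (hM : (G.wspl Z hZ s hs).Mat ∅ M)
    (hc : ∀ X ⊆ Z, Odd X.card → ∃ d ∈ (G.wspl Z hZ s hs).bd X, d ∉ M)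
    (hN : ∀ d, G.pi d ∈ Z → d ∈ N → d ∈ M) {X : Finset V} (ho : Odd (X ∩ Z).card) :
    ∃ d ∈ G.bd X, d ∉ N := by
  have h0 := hc (X ∩ Z) inter_subset_right ho
  have key : ∃ d ∈ (G.wspl Z hZ s hs).bd (X ∩ Z), d ∉ M ∧ d ∉ G.bd Z := by
    obtain ⟨d, hd, hdM⟩ := h0
    by_cases hdZ : d ∈ G.bd Z
    · obtain ⟨e, he, heM, hne⟩ := wtwo (fun x hx => wspl_ne hn hx) hM
        (X := X ∩ Z) inter_subset_right ho ⟨d, hd, hdM⟩ d
      refine ⟨e, he, heM, fun heZ => ?_⟩
      rcases hs.two d hdZ e heZ with h | h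
      · exact hne h
      · rw [DG.mem_bd, wspl_pi, wspl_out (G.mem_bd.1 hdZ).2.2] at hd
        rw [DG.mem_bd, wspl_pi, h] at he
        exact hd.2.2 he.2.1
    · exact ⟨d, hd, hdM, hdZ⟩
  obtain ⟨d, hd, hdM, hdZ⟩ := key
  rw [DG.mem_bd, wspl_pi, wspl_mem] at hd
  obtain ⟨⟨h1, h2⟩, h3, h4⟩ := hd
  have h5 : G.pi (G.al d) ∈ Z := by
    by_contra h
    exact hdZ (G.mem_bd.2 ⟨h1, h2, h⟩)
  rw [wspl_in h5] at h4
  refine ⟨d, G.mem_bd.2 ⟨h1, (mem_inter.1 h3).1, fun h => h4 (mem_inter.2 ⟨h, h5⟩)⟩, fun h => ?_⟩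
  exact hdM (hN d h2 h)

/-- the pairing on the other side -/
theorem wpair_compl {G : DG V D} {Z : Finset V} (hZ : Z ⊆ G.vs) {s : D → D} (hs : WPair G Z s) :
    WPair G (G.vs \ Z) (fun d => G.al (s (G.al d))) := by
  have key : ∀ d ∈ G.bd (G.vs \ Z), G.al d ∈ G.bd Z := by
    intro d hd
    have := G.mem_bd_compl hd
    rwa [Finset.sdiff_sdiff_eq_self hZ] at this
  constructor
  · intro d hd
    exact G.mem_bd_compl (hs.mem _ (key d hd))
  · intro d hd
    have h1 := key d hd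
    have h2 := hs.mem _ h1
    simp only [G.al_al _ (G.mem_bd.1 h2).1, hs.inv _ h1, G.al_al d (G.mem_bd.1 hd).1]
  · intro d hd h
    have h1 := key d hd
    have h2 := hs.mem _ h1
    apply hs.ne _ h1
    have h3 := congrArg G.al h
    simp only [G.al_al _ (G.mem_bd.1 h2).1] at h3
    exact h3
  · intro d hd e he
    rcases hs.two _ (key d hd) _ (key e he) with h | h
    · left
      have := congrArg G.al h
      rwa [G.al_al d (G.mem_bd.1 hd).1, G.al_al e (G.mem_bd.1 he).1] at this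
    · right
      have := congrArg G.al h
      rwa [G.al_al e (G.mem_bd.1 he).1] at this

theorem wpair_exists {G : DG V D} {Z : Finset V} (h : (G.bd Z).card = 0 ∨ (G.bd Z).card = 2) :
    ∃ s, WPair G Z s := by
  rcases h with h | h
  · rw [card_eq_zero] at h
    refine ⟨id, ⟨?_, ?_, ?_, ?_⟩⟩ <;> rw [h] <;> simp
  · obtain ⟨x, y, hxy, he⟩ := card_eq_two.1 h
    refine ⟨fun d => if d = x then y else x, ?_⟩
    have hy : y ≠ x := fun h => hxy h.symm
    constructor
    · intro d hd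
      rw [he, mem_insert, mem_singleton] at hd ⊢
      rcases hd with rfl | rfl
      · right; simp
      · left; simp [hy]
    · intro d hd
      rw [he, mem_insert, mem_singleton] at hd
      rcases hd with rfl | rfl
      · simp [hy]
      · simp [hy]
    · intro d hd
      rw [he, mem_insert, mem_singleton] at hd
      rcases hd with rfl | rfl
      · simp [hy]
      · simp [hy, hxy]
    · intro d hd e he'
      rw [he, mem_insert, mem_singleton] at hd he'
      rcases hd with rfl | rfl <;> rcases he' with rfl | rfl <;> simp [hy]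

theorem wsub_even {a b : ℕ} (ha : Even a) (hb : Even b) : Even (a - b) := by
  obtain ⟨k, hk⟩ := ha
  obtain ⟨l, hl⟩ := hb
  exact ⟨k - l, by omega⟩

theorem weven {G : DG V D} (h5 : ∀ X ⊆ G.vs, Odd X.card → 5 ≤ (G.bd X).card) :
    Even G.vs.card := by
  by_contra h
  have h1 := h5 G.vs (Subset.refl _) (Nat.not_even_iff_odd.1 h)
  have h2 : G.bd G.vs = ∅ := by
    rw [Finset.eq_empty_iff_forall_notMem]
    intro d hd
    rw [G.mem_bd] at hd
    exact hd.2.2 (G.pi_mem _ (G.al_mem d hd.1))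
  rw [h2, card_empty] at h1
  omega

/-- base case: no even set with fewer than four boundary edges -/
theorem wbase (hP : ∀ G : DG V D, G.C4 → G.PP) (G : DG V D) (hn : ∀ d ∈ G.ds, G.al d ≠ d)
    (h5 : ∀ X ⊆ G.vs, Odd X.card → 5 ≤ (G.bd X).card)
    (h4 : ∀ X ⊆ G.vs, Even X.card → X.Nonempty → X ≠ G.vs → 4 ≤ (G.bd X).card)
    (d0 : D) (hd0 : d0 ∈ G.ds) :
    ∃ M, G.Mat ∅ M ∧ d0 ∈ M ∧ ∀ X ⊆ G.vs, Odd X.card → ∃ d ∈ G.bd X, d ∉ M := by
  have hq : G.pi d0 ∈ G.vs := G.pi_mem d0 hd0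
  have hq1 : ({G.pi d0} : Finset V) ⊆ G.vs := singleton_subset_iff.2 hq
  have hev : Even G.vs.card := weven h5
  have hZ : G.vs \ {G.pi d0} ⊆ G.vs := sdiff_subset
  have hb5 : (G.bd {G.pi d0}).card = 5 := by
    have h1 := h5 {G.pi d0} hq1 (by rw [card_singleton]; exact odd_one)
    have h2 : G.bd {G.pi d0} ⊆ G.ds.filter fun d => G.pi d = G.pi d0 := by
      intro d hd
      rw [G.mem_bd, mem_singleton] at hd
      exact mem_filter.2 ⟨hd.1, hd.2.1⟩
    have h3 := card_le_card h2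
    rw [G.five _ hq] at h3
    omega
  have hbq : G.bd {G.pi d0} = G.ds.filter fun d => G.pi d = G.pi d0 := by
    apply eq_of_subset_of_card_le
    · intro d hd
      rw [G.mem_bd, mem_singleton] at hd
      exact mem_filter.2 ⟨hd.1, hd.2.1⟩
    · rw [hb5, G.five _ hq]
  have hd0b : d0 ∈ G.bd {G.pi d0} := by
    rw [hbq]
    exact mem_filter.2 ⟨hd0, rfl⟩
  have hbZ : (G.bd (G.vs \ {G.pi d0})).card = 5 := by
    rw [G.card_bd_compl hq1, hb5]
  have hZc : (G.vs \ {G.pi d0}).card + 1 = G.vs.card := by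
    rw [card_sdiff_of_subset hq1, card_singleton]
    have : 0 < G.vs.card := card_pos.2 ⟨_, hq⟩
    omega
  have hZo : Odd (G.vs \ {G.pi d0}).card := by
    rw [← Nat.not_even_iff_odd]
    intro h
    rw [← hZc, Nat.even_add_one] at hev
    exact hev h
  have hC : (G.res (G.vs \ {G.pi d0}) hZ).C4 := by
    intro X hX hne hX2
    have hX' : X ⊆ G.vs \ {G.pi d0} := hX
    rw [res_dg G hZ hX', wdg hn]
    rcases Nat.even_or_odd X.card with h | h
    · refine h4 X (hX'.trans hZ) h hne ?_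
      intro h6
      rw [h6] at hX'
      exact (mem_sdiff.1 (hX' hq)).2 (mem_singleton_self _)
    · have := h5 X (hX'.trans hZ) h
      omega
  have hlgZ : ((G.res (G.vs \ {G.pi d0}) hZ).tk (G.vs \ {G.pi d0})).card = 5 := by
    rw [res_tk G hZ, G.card_lg, wdg hn, hbZ]
  have hτ : G.al d0 ∈ (G.res (G.vs \ {G.pi d0}) hZ).tk (G.vs \ {G.pi d0}) := by
    rw [res_tk G hZ, G.mem_lg]
    have h6 := G.mem_bd_compl hd0b
    rw [G.mem_bd] at h6
    exact ⟨h6.1, h6.2.1, Or.inl h6.2.2⟩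
  obtain ⟨N, hN, hcon⟩ := (hP _ hC).t hZo hlgZ _ hτ
  have hin : ∀ d ∈ N, G.pi (G.al d) ∈ G.vs \ {G.pi d0} →
      (G.res (G.vs \ {G.pi d0}) hZ).al d = G.al d := fun d _ h => if_pos h
  have hout : ∀ d ∈ N, G.pi (G.al d) ∉ G.vs \ {G.pi d0} → d = G.al d0 := by
    intro d hd h
    have h6 : (G.res (G.vs \ {G.pi d0}) hZ).al d = d := if_neg h
    exact mem_singleton.1 ((hN.tok d hd).1 h6)
  have hNs : ∀ d ∈ N, d ∈ G.ds ∧ G.pi d ∈ G.vs \ {G.pi d0} := by
    intro d hd
    exact mem_filter.1 (hN.sub hd)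
  have hcl : ∀ d ∈ insert d0 N, G.al d ∈ insert d0 N := by
    intro d hd
    rcases mem_insert.1 hd with rfl | hd
    · exact mem_insert_of_mem (hN.usub (mem_singleton_self _))
    · by_cases h : G.pi (G.al d) ∈ G.vs \ {G.pi d0}
      · have h6 := hN.closed d hd
        rw [hin d hd h] at h6
        exact mem_insert_of_mem h6
      · rw [hout d hd h, G.al_al d0 hd0]
        exact mem_insert_self _ _
  have hsub : insert d0 N ⊆ G.ds := by
    intro d hd
    rcases mem_insert.1 hd with rfl | hd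
    · exact hd0
    · exact (hNs d hd).1
  have hd0N : d0 ∉ N := by
    intro h
    exact (mem_sdiff.1 (hNs d0 h).2).2 (mem_singleton_self _)
  have hav : ∀ X ⊆ G.vs, Odd X.card → G.pi d0 ∉ X → ∃ d ∈ G.bd X, d ∉ insert d0 N := by
    intro X hX ho hqX
    have hXZ : X ⊆ G.vs \ {G.pi d0} := by
      intro v hv
      refine mem_sdiff.2 ⟨hX hv, ?_⟩
      rw [mem_singleton]
      rintro rfl
      exact hqX hv
    by_cases hXe : X = G.vs \ {G.pi d0}
    · subst hXe
      have h6 : ∃ d ∈ G.bd (G.vs \ {G.pi d0}), d ≠ G.al d0 := by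
        by_contra h
        push Not at h
        have h7 : G.bd (G.vs \ {G.pi d0}) ⊆ {G.al d0} := by
          intro d hd
          rw [mem_singleton]
          exact h d hd
        have h8 := card_le_card h7
        rw [hbZ, card_singleton] at h8
        omega
      obtain ⟨d, hd, hne⟩ := h6
      refine ⟨d, hd, ?_⟩
      rw [G.mem_bd] at hd
      rw [mem_insert, not_or]
      constructor
      · rintro rfl
        exact hqX hd.2.1
      · intro h
        exact hne (hout d h hd.2.2)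
    · have hne : X.Nonempty := card_pos.1 ho.pos
      obtain ⟨d, hd, hdN⟩ := hcon X hXZ hne hXe
      rw [res_bd G hZ hXZ] at hd
      have hd1 := (mem_filter.1 hd).1
      refine ⟨d, hd1, ?_⟩
      rw [mem_insert, not_or]
      refine ⟨?_, hdN⟩
      rintro rfl
      exact hqX (G.mem_bd.1 hd1).2.1
  refine ⟨insert d0 N, ⟨hsub, hcl, ?_, ?_, ?_⟩, mem_insert_self _ _, ?_⟩
  · intro d hd
    constructor
    · intro h
      exact absurd h (hn d (hsub hd))
    · intro h
      exact absurd h (notMem_empty _)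
  · exact empty_subset _
  · intro v hv
    by_cases hvq : v = G.pi d0
    · rw [card_eq_one]
      refine ⟨d0, ?_⟩
      ext d
      rw [mem_filter, mem_insert, mem_singleton]
      constructor
      · rintro ⟨h | h, h2⟩
        · exact h
        · have h3 := (mem_sdiff.1 (hNs d h).2).2
          rw [h2, hvq] at h3
          exact absurd (mem_singleton_self _) h3
      · intro h
        rw [h]
        exact ⟨Or.inl rfl, hvq.symm⟩
    · have h6 : (insert d0 N).filter (fun d => G.pi d = v) = N.filter (fun d => G.pi d = v) := by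
        ext d
        rw [mem_filter, mem_filter, mem_insert]
        constructor
        · rintro ⟨h | h, h2⟩
          · rw [h] at h2
            exact absurd h2.symm hvq
          · exact ⟨h, h2⟩
        · rintro ⟨h, h2⟩
          exact ⟨Or.inr h, h2⟩
      rw [h6]
      exact hN.one v (mem_sdiff.2 ⟨hv, by rw [mem_singleton]; exact hvq⟩)
  · intro X hX ho
    by_cases hqX : G.pi d0 ∈ X
    · have h6 : Odd (G.vs \ X).card := by
        rw [card_sdiff_of_subset hX]
        exact Nat.Even.sub_odd (card_le_card hX) hev ho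
      obtain ⟨d, hd, hdM⟩ := hav (G.vs \ X) sdiff_subset h6 (fun h => (mem_sdiff.1 h).2 hqX)
      have h7 := G.mem_bd_compl hd
      rw [Finset.sdiff_sdiff_eq_self hX] at h7
      refine ⟨G.al d, h7, fun h8 => hdM ?_⟩
      have h9 := hcl _ h8
      rwa [G.al_al d (G.mem_bd.1 hd).1] at h9
    · exact hav X hX ho hqX

/-- the gluing step at an even set with no or two boundary darts -/
theorem wstep (G : DG V D) (hn : ∀ d ∈ G.ds, G.al d ≠ d)
    (h5 : ∀ X ⊆ G.vs, Odd X.card → 5 ≤ (G.bd X).card)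
    (ih : ∀ H : DG V D, H.vs.card < G.vs.card → (∀ d ∈ H.ds, H.al d ≠ d) →
      (∀ X ⊆ H.vs, Odd X.card → 5 ≤ (H.bd X).card) → ∀ d0 ∈ H.ds,
      ∃ M, H.Mat ∅ M ∧ d0 ∈ M ∧ ∀ X ⊆ H.vs, Odd X.card → ∃ d ∈ H.bd X, d ∉ M)
    (Z : Finset V) (hZ : Z ⊆ G.vs) (hev : Even Z.card) (hne : Z ≠ G.vs)
    (hb : (G.bd Z).card = 0 ∨ (G.bd Z).card = 2) (d0 : D) (hd0 : d0 ∈ G.ds)
    (hdZ : G.pi d0 ∈ Z) :
    ∃ M, G.Mat ∅ M ∧ d0 ∈ M ∧ ∀ X ⊆ G.vs, Odd X.card → ∃ d ∈ G.bd X, d ∉ M := by
  obtain ⟨s, hs⟩ := wpair_exists hb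
  have hZ2 : G.vs \ Z ⊆ G.vs := sdiff_subset
  have hs2 := wpair_compl hZ hs
  have hevG : Even G.vs.card := weven h5
  have hss : Z ⊂ G.vs := hZ.ssubset_of_ne hne
  have hlt : Z.card < G.vs.card := card_lt_card hss
  have hpos : 0 < Z.card := card_pos.2 ⟨_, hdZ⟩
  have hc2 : (G.vs \ Z).card = G.vs.card - Z.card := card_sdiff_of_subset hZ
  have hev2 : Even (G.vs \ Z).card := by
    rw [hc2]
    exact wsub_even hevG hev
  have hlt2 : (G.vs \ Z).card < G.vs.card := by omega
  have hne2 : (G.vs \ Z).Nonempty := card_pos.1 (by omega)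
  obtain ⟨M, hM, hdM, hMc⟩ := ih (G.wspl Z hZ s hs) hlt (fun d hd => wspl_ne hn hd)
    (fun X hX ho => wspl_odd h5 hev X hX ho) d0 (wspl_mem.2 ⟨hd0, hdZ⟩)
  have hMZ : ∀ d ∈ M, d ∈ G.ds ∧ G.pi d ∈ Z := fun d hd => wspl_mem.1 (hM.sub hd)
  -- the second matching
  have h2 : ∃ N, (G.wspl (G.vs \ Z) hZ2 _ hs2).Mat ∅ N ∧
      (∀ X ⊆ G.vs \ Z, Odd X.card → ∃ d ∈ (G.wspl (G.vs \ Z) hZ2 _ hs2).bd X, d ∉ N) ∧
      ∀ x ∈ G.bd Z, (x ∈ M ↔ G.al x ∈ N) := by
    have ih2 : ∀ e ∈ G.ds, G.pi e ∈ G.vs \ Z → ∃ N, (G.wspl (G.vs \ Z) hZ2 _ hs2).Mat ∅ N ∧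
        e ∈ N ∧ ∀ X ⊆ G.vs \ Z, Odd X.card →
          ∃ d ∈ (G.wspl (G.vs \ Z) hZ2 _ hs2).bd X, d ∉ N := by
      intro e he heZ
      exact ih (G.wspl (G.vs \ Z) hZ2 _ hs2) hlt2 (fun d hd => wspl_ne hn hd)
        (fun X hX ho => wspl_odd h5 hev2 X hX ho) e (wspl_mem.2 ⟨he, heZ⟩)
    by_cases hbe : ∃ x, x ∈ G.bd Z
    · obtain ⟨x, hx⟩ := hbe
      have hx1 := G.mem_bd.1 hx
      have hax := G.mem_bd_compl hx
      have hax1 := G.mem_bd.1 hax
      have hsx := hs.mem x hx
      have hsx1 := G.mem_bd.1 hsx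
      have hasx := G.mem_bd_compl hsx
      have hasx1 := G.mem_bd.1 hasx
      have halx : (G.wspl Z hZ s hs).al x = s x := wspl_out hx1.2.2
      have halsx : (G.wspl Z hZ s hs).al (s x) = x := by
        rw [wspl_out hsx1.2.2]
        exact hs.inv x hx
      have hax2 : (G.wspl (G.vs \ Z) hZ2 _ hs2).al (G.al x) = G.al (s x) := by
        rw [wspl_out hax1.2.2]
        simp only [G.al_al x hx1.1]
      have hax3 : (G.wspl (G.vs \ Z) hZ2 _ hs2).al (G.al (s x)) = G.al x := by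
        rw [wspl_out hasx1.2.2]
        simp only [G.al_al _ hsx1.1, hs.inv x hx]
      by_cases hxM : x ∈ M
      · obtain ⟨N, hN, heN, hNc⟩ := ih2 (G.al x) hax1.1 hax1.2.1
        refine ⟨N, hN, hNc, ?_⟩
        intro y hy
        have h6 : s x ∈ M := by
          have := hM.closed x hxM
          rwa [halx] at this
        have h7 : G.al (s x) ∈ N := by
          have := hN.closed _ heN
          rwa [hax2] at this
        rcases hs.two x hx y hy with h | h
        · rw [h]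
          exact ⟨fun _ => heN, fun _ => hxM⟩
        · rw [h]
          exact ⟨fun _ => h7, fun _ => h6⟩
      · have h8 : ∃ e ∈ G.ds, G.pi e = G.pi (G.al x) ∧ e ≠ G.al x := by
          by_contra h
          push Not at h
          have h9 : (G.ds.filter fun e => G.pi e = G.pi (G.al x)) ⊆ {G.al x} := by
            intro e he
            rw [mem_singleton]
            exact h e (mem_filter.1 he).1 (mem_filter.1 he).2
          have h10 := card_le_card h9
          rw [G.five _ (G.pi_mem _ hax1.1), card_singleton] at h10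
          omega
        obtain ⟨e, he, hpe, hne'⟩ := h8
        obtain ⟨N, hN, heN, hNc⟩ := ih2 e he (by rw [hpe]; exact hax1.2.1)
        refine ⟨N, hN, hNc, ?_⟩
        have h9 : G.al x ∉ N := by
          intro h
          exact hne' (hN.uniq heN h hpe)
        have h10 : s x ∉ M := by
          intro h
          have := hM.closed _ h
          rw [halsx] at this
          exact hxM this
        have h11 : G.al (s x) ∉ N := by
          intro h
          have := hN.closed _ h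
          rw [hax3] at this
          exact h9 this
        intro y hy
        rcases hs.two x hx y hy with h | h
        · rw [h]
          exact ⟨fun h' => absurd h' hxM, fun h' => absurd h' h9⟩
        · rw [h]
          exact ⟨fun h' => absurd h' h10, fun h' => absurd h' h11⟩
    · obtain ⟨v, hv⟩ := hne2
      have h6 : (G.ds.filter fun e => G.pi e = v).Nonempty := by
        rw [← card_pos, G.five v (hZ2 hv)]
        omega
      obtain ⟨e, he⟩ := h6
      rw [mem_filter] at he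
      obtain ⟨N, hN, heN, hNc⟩ := ih2 e he.1 (by rw [he.2]; exact hv)
      exact ⟨N, hN, hNc, fun x hx => absurd ⟨x, hx⟩ hbe⟩
  obtain ⟨N, hN, hNc, hMN⟩ := h2
  have hNZ : ∀ d ∈ N, d ∈ G.ds ∧ G.pi d ∈ G.vs \ Z := fun d hd => wspl_mem.1 (hN.sub hd)
  have hsub : M ∪ N ⊆ G.ds := by
    intro d hd
    rcases mem_union.1 hd with h | h
    · exact (hMZ d h).1
    · exact (hNZ d h).1
  refine ⟨M ∪ N, ⟨hsub, ?_, ?_, empty_subset _, ?_⟩, mem_union_left _ hdM, ?_⟩
  · intro d hd
    rcases mem_union.1 hd with h | h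
    · by_cases h6 : G.pi (G.al d) ∈ Z
      · have := hM.closed d h
        rw [wspl_in h6] at this
        exact mem_union_left _ this
      · exact mem_union_right _ ((hMN d (G.mem_bd.2 ⟨(hMZ d h).1, (hMZ d h).2, h6⟩)).1 h)
    · by_cases h6 : G.pi (G.al d) ∈ G.vs \ Z
      · have := hN.closed d h
        rw [wspl_in h6] at this
        exact mem_union_right _ this
      · have h7 : d ∈ G.bd (G.vs \ Z) := G.mem_bd.2 ⟨(hNZ d h).1, (hNZ d h).2, h6⟩
        have h8 := G.mem_bd_compl h7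
        rw [Finset.sdiff_sdiff_eq_self hZ] at h8
        apply mem_union_left
        rw [hMN _ h8, G.al_al d (hNZ d h).1]
        exact h
  · intro d hd
    exact ⟨fun h => absurd h (hn d (hsub hd)), fun h => absurd h (notMem_empty _)⟩
  · intro v hv
    by_cases hvZ : v ∈ Z
    · have h6 : (M ∪ N).filter (fun d => G.pi d = v) = M.filter (fun d => G.pi d = v) := by
        ext d
        rw [mem_filter, mem_filter, mem_union]
        constructor
        · rintro ⟨h | h, h2⟩
          · exact ⟨h, h2⟩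
          · have h3 := (mem_sdiff.1 (hNZ d h).2).2
            rw [h2] at h3
            exact absurd hvZ h3
        · rintro ⟨h, h2⟩
          exact ⟨Or.inl h, h2⟩
      rw [h6]
      exact hM.one v hvZ
    · have h6 : (M ∪ N).filter (fun d => G.pi d = v) = N.filter (fun d => G.pi d = v) := by
        ext d
        rw [mem_filter, mem_filter, mem_union]
        constructor
        · rintro ⟨h | h, h2⟩
          · have h3 := (hMZ d h).2
            rw [h2] at h3
            exact absurd h3 hvZ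
          · exact ⟨h, h2⟩
        · rintro ⟨h, h2⟩
          exact ⟨Or.inr h, h2⟩
      rw [h6]
      exact hN.one v (mem_sdiff.2 ⟨hv, hvZ⟩)
  · intro X hX ho
    have h6 : (X ∩ Z).card + (X ∩ (G.vs \ Z)).card = X.card := by
      rw [← card_union_of_disjoint]
      · congr 1
        ext v
        rw [mem_union, mem_inter, mem_inter, mem_sdiff]
        constructor
        · rintro (h | h)
          · exact h.1
          · exact h.1
        · intro h
          by_cases h7 : v ∈ Z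
          · exact Or.inl ⟨h, h7⟩
          · exact Or.inr ⟨h, hX h, h7⟩
      · rw [Finset.disjoint_left]
        intro v h7 h8
        exact (mem_sdiff.1 (mem_inter.1 h8).2).2 (mem_inter.1 h7).2
    rcases Nat.even_or_odd (X ∩ Z).card with h7 | h7
    · have h8 : Odd (X ∩ (G.vs \ Z)).card := by
        rw [← Nat.not_even_iff_odd] at ho ⊢
        intro h9
        exact ho (h6 ▸ h7.add h9)
      exact wside hn hN hNc (fun d hd h => by
        rcases mem_union.1 h with h' | h'
        · exact absurd (hMZ d h').2 (mem_sdiff.1 hd).2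
        · exact h') h8
    · exact wside hn hM hMc (fun d hd h => by
        rcases mem_union.1 h with h' | h'
        · exact h'
        · exact absurd hd (mem_sdiff.1 (hNZ d h').2).2) h7

theorem wind (hP : ∀ G : DG V D, G.C4 → G.PP) : ∀ G : DG V D, G.tk G.vs = ∅ →
    (∀ X ⊆ G.vs, Odd X.card → 5 ≤ G.dg X) → ∀ d0 ∈ G.ds,
      ∃ M, G.Mat ∅ M ∧ d0 ∈ M ∧ ∀ X ⊆ G.vs, Odd X.card → ∃ d ∈ G.bd X, d ∉ M := by
  have key : ∀ n : ℕ, ∀ G : DG V D, G.vs.card = n → (∀ d ∈ G.ds, G.al d ≠ d) →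
      (∀ X ⊆ G.vs, Odd X.card → 5 ≤ (G.bd X).card) → ∀ d0 ∈ G.ds,
      ∃ M, G.Mat ∅ M ∧ d0 ∈ M ∧ ∀ X ⊆ G.vs, Odd X.card → ∃ d ∈ G.bd X, d ∉ M := by
    intro n
    induction n using Nat.strong_induction_on with
    | _ n ih =>
      intro G hGn hn h5 d0 hd0
      have ih' : ∀ H : DG V D, H.vs.card < G.vs.card → (∀ d ∈ H.ds, H.al d ≠ d) →
          (∀ X ⊆ H.vs, Odd X.card → 5 ≤ (H.bd X).card) → ∀ d0 ∈ H.ds,
          ∃ M, H.Mat ∅ M ∧ d0 ∈ M ∧ ∀ X ⊆ H.vs, Odd X.card → ∃ d ∈ H.bd X, d ∉ M :=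
        fun H hH => ih _ (hGn ▸ hH) H rfl
      by_cases h4 : ∀ X ⊆ G.vs, Even X.card → X.Nonempty → X ≠ G.vs → 4 ≤ (G.bd X).card
      · exact wbase hP G hn h5 h4 d0 hd0
      · push Not at h4
        obtain ⟨Z, hZ, hev, hne, hne2, hlt⟩ := h4
        have hb : (G.bd Z).card = 0 ∨ (G.bd Z).card = 2 := by
          have h6 := (G.par hZ).2 hev
          rw [wdg hn] at h6
          obtain ⟨k, hk⟩ := h6
          omega
        by_cases hdZ : G.pi d0 ∈ Z
        · exact wstep G hn h5 ih' Z hZ hev hne2 hb d0 hd0 hdZ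
        · have hevG : Even G.vs.card := weven h5
          refine wstep G hn h5 ih' (G.vs \ Z) sdiff_subset ?_ ?_ ?_ d0 hd0
            (mem_sdiff.2 ⟨G.pi_mem d0 hd0, hdZ⟩)
          · rw [card_sdiff_of_subset hZ]
            exact wsub_even hevG hev
          · intro h6
            obtain ⟨v, hv⟩ := hne
            have h7 : v ∈ G.vs \ Z := by
              rw [h6]
              exact hZ hv
            exact (mem_sdiff.1 h7).2 hv
          · rw [G.card_bd_compl hZ]
            exact hb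
  intro G htk h5 d0 hd0
  have hn : ∀ d ∈ G.ds, G.al d ≠ d := by
    intro d hd h
    have h1 : d ∈ G.tk G.vs := G.mem_tk.2 ⟨hd, G.pi_mem d hd, h⟩
    rw [htk] at h1
    exact absurd h1 (notMem_empty _)
  exact key _ G rfl hn (fun X hX ho => by rw [← wdg hn]; exact h5 X hX ho) d0 hd0

end DG

end R5
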