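import Pool.Agent.Lib.R5.Induct
import Pool.Agent.Lib.R5.Wind
import Pool.Agent.Lib.JK.Final

/-! R5 module Top: `H = J + 2F` and the frozen statement S11409. -/

set_option autoImplicit false

namespace R5

open Finset Classical

private lemma dbl_card {D : Type*} (S J : Finset D) :
    ((S ×ˢ (univ : Finset Bool)).filter fun p => p.1 ∉ J ∨ p.2 = false).card =
      S.card + (S \ J).card := by
  have h : ((S ×ˢ (univ : Finset Bool)).filter fun p => p.1 ∉ J ∨ p.2 = false) =
      (S ×ˢ {false}) ∪ ((S \ J) ×ˢ {true}) := by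
    ext ⟨d, b⟩
    cases b <;> simp
  rw [h, card_union_of_disjoint, card_product, card_product, card_singleton, card_singleton,
    mul_one, mul_one]
  rw [disjoint_left]
  rintro ⟨d, b⟩ h1 h2
  simp only [mem_product, mem_singleton] at h1 h2
  rw [h1.2] at h2
  exact absurd h2.2 (by simp)

/-- the 5-valent graph `J + 2F` of a cubic graph without tokens and a perfect matching `J` -/
noncomputable def dbl {V D : Type*} (G : JK.CG V D) (J : Finset D) (hJ : G.IsPM J) :
    DG V (D × Bool) where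
  vs := G.vs
  ds := (G.ds ×ˢ univ).filter fun p => p.1 ∉ J ∨ p.2 = false
  pi := fun p => G.pi p.1
  al := fun p => (G.al p.1, p.2)
  pi_mem := fun p hp => G.pi_mem p.1 (mem_product.1 (mem_filter.1 hp).1).1
  al_mem := fun p hp => by
    obtain ⟨h1, h2⟩ := mem_filter.1 hp
    have h3 := (mem_product.1 h1).1
    refine mem_filter.2 ⟨mem_product.2 ⟨G.al_mem p.1 h3, mem_univ _⟩, ?_⟩
    rcases h2 with h2 | h2
    · left
      intro h
      have := hJ.closed _ h
      rw [G.al_al p.1 h3] at this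
      exact h2 this
    · exact Or.inr h2
  al_al := fun p hp => by
    have h3 := (mem_product.1 (mem_filter.1 hp).1).1
    show (G.al (G.al p.1), p.2) = p
    rw [G.al_al p.1 h3]
  five := fun v hv => by
    have e : (((G.ds ×ˢ (univ : Finset Bool)).filter fun p => p.1 ∉ J ∨ p.2 = false).filter
        fun p => G.pi p.1 = v) =
        (((G.ds.filter fun d => G.pi d = v) ×ˢ (univ : Finset Bool)).filter
          fun p => p.1 ∉ J ∨ p.2 = false) := by
      ext p
      simp only [mem_filter, mem_product, mem_univ, and_true]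
      tauto
    rw [e, dbl_card]
    have e1 : (G.ds.filter fun d => G.pi d = v) \ J =
        (G.ds.filter fun d => G.pi d = v) \ (J.filter fun d => G.pi d = v) := by
      ext d
      simp only [mem_filter, mem_sdiff]
      tauto
    rw [e1, card_sdiff_of_subset (filter_subset_filter _ hJ.sub), G.cubic v hv, hJ.one v hv]

private lemma dbl_dg {V D : Type*} (G : JK.CG V D) (J : Finset D) (hJ : G.IsPM J)
    (hb : G.B0) (htk : ∀ X, G.tk X = ∅)
    (h3 : ∀ X ⊆ G.vs, Odd X.card → (G.bd X).card = 3 →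
      ((G.bd X).filter fun d => d ∈ J).card = 1) :
    ∀ X ⊆ (dbl G J hJ).vs, Odd X.card → 5 ≤ (dbl G J hJ).dg X := by
  intro X hX ho
  have e : (dbl G J hJ).bd X =
      ((G.bd X ×ˢ (univ : Finset Bool)).filter fun p => p.1 ∉ J ∨ p.2 = false) := by
    ext p
    simp only [dbl, DG.bd, JK.CG.bd, mem_filter, mem_product, mem_univ, and_true]
    tauto
  have h0 : G.dg X = (G.bd X).card := by
    unfold JK.CG.dg
    rw [htk X]
    simp
  have h1 : 3 ≤ (G.bd X).card := by rw [← h0]; exact hb X hX ho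
  have h2 : Odd (G.bd X).card := by rw [← h0]; exact (G.dg_parity hX).2 ho
  have h4 : 5 ≤ ((dbl G J hJ).bd X).card := by
    rw [e, dbl_card]
    by_cases h : (G.bd X).card = 3
    · have h5 := h3 X hX ho h
      have h6 : (G.bd X \ J).card + ((G.bd X).filter fun d => d ∈ J).card = (G.bd X).card := by
        have e2 : G.bd X \ J = (G.bd X).filter fun d => ¬ d ∈ J := by
          ext d
          simp only [mem_sdiff, mem_filter]
        rw [e2, add_comm]
        exact card_filter_add_card_filter_not _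
      omega
    · obtain ⟨k, hk⟩ := h2
      omega
  unfold DG.dg
  omega

private lemma dg_mem_tk {V D : Type*} (H : DG V D) {X : Finset V} {d : D} (h : d ∈ H.tk X) :
    d ∈ H.ds ∧ H.al d = d := by
  obtain ⟨h1, h2, h3⟩ := mem_filter.1 h
  exact ⟨h1, h3⟩

private lemma dg_mem_bd {V D : Type*} (H : DG V D) {X : Finset V} {d : D} (h : d ∈ H.bd X) :
    d ∈ H.ds ∧ H.pi d ∈ X ∧ H.pi (H.al d) ∉ X := mem_filter.1 h

private lemma dbl_mem {V D : Type*} (G : JK.CG V D) (J : Finset D) (hJ : G.IsPM J) {p : D × Bool}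
    (h : p ∈ (dbl G J hJ).ds) : p.1 ∈ G.ds ∧ (p.1 ∉ J ∨ p.2 = false) := by
  obtain ⟨h1, h2⟩ := mem_filter.1 h
  exact ⟨(mem_product.1 h1).1, h2⟩

private lemma dbl_of {V D : Type*} (G : JK.CG V D) (J : Finset D) (hJ : G.IsPM J) {d : D}
    (h : d ∈ G.ds) : (d, false) ∈ (dbl G J hJ).ds :=
  mem_filter.2 ⟨mem_product.2 ⟨h, mem_univ _⟩, Or.inr rfl⟩

/-- the matching of `J + 2F` gives a perfect matching of `G` -/
private lemma two_core {V D : Type} (G : JK.CG V D) (hb : G.B0) (htk : ∀ X, G.tk X = ∅)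
    {J : Finset D} (hJ : G.IsPM J)
    (h3 : ∀ X ⊆ G.vs, Odd X.card → (G.bd X).card = 3 →
      ((G.bd X).filter fun d => d ∈ J).card = 1) {d0 : D} (hd0 : d0 ∈ G.ds)
    (h : DG.CoreThm V (D × Bool)) :
    ∃ M2 : Finset D, G.IsPM M2 ∧
      ∀ Z ⊆ G.vs, Odd Z.card → ∃ d ∈ G.bd Z, ¬ (d ∈ J ∧ d ∈ M2) := by
  have hnotok : ∀ d ∈ G.ds, G.al d ≠ d := by
    intro d hd h
    have : d ∈ G.tk G.vs := (G.mem_tk).2 ⟨hd, G.pi_mem d hd, h⟩
    rw [htk] at this
    exact absurd this (notMem_empty _)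
  have hHtk : (dbl G J hJ).tk (dbl G J hJ).vs = ∅ := by
    rw [eq_empty_iff_forall_notMem]
    intro p hp
    obtain ⟨h1, h4⟩ := dg_mem_tk _ hp
    have h6 : G.al p.1 = p.1 := congrArg Prod.fst h4
    exact hnotok _ (dbl_mem G J hJ h1).1 h6
  obtain ⟨M, hM, _, hodd⟩ := DG.wind (DG.induct h) (dbl G J hJ) hHtk
    (dbl_dg G J hJ hb htk h3) (d0, false) (dbl_of G J hJ hd0)
  refine ⟨M.image Prod.fst, ⟨?_, ?_, ?_, ?_⟩, ?_⟩
  · intro d hd
    obtain ⟨p, hp, rfl⟩ := mem_image.1 hd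
    exact (dbl_mem G J hJ (hM.sub hp)).1
  · intro d hd
    obtain ⟨p, hp, rfl⟩ := mem_image.1 hd
    exact mem_image.2 ⟨_, hM.closed p hp, rfl⟩
  · intro d hd
    obtain ⟨p, hp, rfl⟩ := mem_image.1 hd
    exact hnotok _ (dbl_mem G J hJ (hM.sub hp)).1
  · intro v hv
    have hone := hM.one v hv
    obtain ⟨p, hp⟩ := card_eq_one.1 hone
    rw [card_eq_one]
    refine ⟨p.1, ?_⟩
    ext d
    simp only [mem_filter, mem_image, mem_singleton]
    constructor
    · rintro ⟨⟨q, hq, rfl⟩, hv'⟩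
      have : q ∈ M.filter fun d => (dbl G J hJ).pi d = v :=
        mem_filter.2 ⟨hq, hv'⟩
      rw [hp, mem_singleton] at this
      rw [this]
    · rintro rfl
      have : p ∈ M.filter fun d => (dbl G J hJ).pi d = v := by
        rw [hp]; exact mem_singleton_self _
      exact ⟨⟨p, (mem_filter.1 this).1, rfl⟩, (mem_filter.1 this).2⟩
  · intro Z hZs hZ
    obtain ⟨p, hp, hpM⟩ := hodd Z hZs hZ
    obtain ⟨h1, h2, h4⟩ := dg_mem_bd _ hp
    have h5 := dbl_mem G J hJ h1
    refine ⟨p.1, (G.mem_bd).2 ⟨h5.1, h2, h4⟩, ?_⟩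
    rintro ⟨hpJ, hpM2⟩
    obtain ⟨q, hq, hqp⟩ := mem_image.1 hpM2
    have hp2 : p.2 = false := by
      rcases h5.2 with h5 | h5
      · exact absurd hpJ h5
      · exact h5
    have hq2 : q.2 = false := by
      rcases (dbl_mem G J hJ (hM.sub hq)).2 with h5 | h5
      · rw [hqp] at h5
        exact absurd hpJ h5
      · exact h5
    have : q = p := Prod.ext hqp (by rw [hp2, hq2])
    rw [this] at hq
    exact hpM hq

/-- two perfect matchings of a bridgeless cubic graph such that no odd cut lies in both -/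
theorem two_of_core (h : ∀ V D : Type, DG.CoreThm V D) {V : Type} [Fintype V]
    (G : SimpleGraph V) (hc : ∀ v : V, (G.neighborSet v).ncard = 3)
    (hb : ∀ v w : V, G.Adj v w → (G.deleteEdges {s(v, w)}).Reachable v w) :
    ∃ M1 M2, (JK.ofSG G hc).IsPM M1 ∧ (JK.ofSG G hc).IsPM M2 ∧
      ∀ Z : Finset V, Odd Z.card → ∃ d ∈ (JK.ofSG G hc).bd Z, d ∉ M1 ∩ M2 := by
  rcases isEmpty_or_nonempty V with hV | ⟨⟨v0⟩⟩
  · have hpm : (JK.ofSG G hc).IsPM ∅ :=
      ⟨empty_subset _, by simp, by simp, fun v _ => (hV.false v).elim⟩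
    refine ⟨∅, ∅, hpm, hpm, ?_⟩
    intro Z hZ
    have : Z = ∅ := eq_empty_of_isEmpty Z
    subst this
    simp at hZ
  · have hcub := (JK.ofSG G hc).cubic v0 (mem_univ v0)
    have hne : ((JK.ofSG G hc).ds.filter fun d => (JK.ofSG G hc).pi d = v0).Nonempty := by
      rw [← card_pos, hcub]; norm_num
    obtain ⟨d0, hd0⟩ := hne
    have hd0' := (mem_filter.1 hd0).1
    obtain ⟨J, hJ, _, h3⟩ := (JK.ofSG G hc).exists_pm_three (JK.ofSG_even G hc) (JK.ofSG_tk G hc)
      (JK.ofSG_b0 G hc hb) hd0'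
    obtain ⟨M2, hM2, hZ⟩ := two_core (JK.ofSG G hc) (JK.ofSG_b0 G hc hb) (JK.ofSG_tk_eq G hc) hJ h3
      hd0' (h V ((V × V) × Bool))
    refine ⟨J, M2, hJ, hM2, fun Z hodd => ?_⟩
    obtain ⟨d, hd, hd'⟩ := hZ Z (subset_univ _) hodd
    exact ⟨d, hd, fun h => hd' (mem_inter.1 h)⟩

/-- the complement of a perfect matching -/
private def compl2 {V : Type} [Fintype V] (G : SimpleGraph V)
    (hc : ∀ v : V, (G.neighborSet v).ncard = 3) (M : Finset (V × V))
    (hM : (JK.ofSG G hc).IsPM M) : SimpleGraph V where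
  Adj v w := G.Adj v w ∧ (v, w) ∉ M
  symm := ⟨fun v w h => ⟨h.1.symm, fun hw => h.2 (hM.closed (w, v) hw)⟩⟩
  loopless := ⟨fun v h => G.loopless.irrefl v h.1⟩

private lemma compl2_le {V : Type} [Fintype V] (G : SimpleGraph V)
    (hc : ∀ v : V, (G.neighborSet v).ncard = 3) (M : Finset (V × V))
    (hM : (JK.ofSG G hc).IsPM M) : compl2 G hc M hM ≤ G := fun _ _ h => h.1

private lemma compl2_card {V : Type} [Fintype V] (G : SimpleGraph V)
    (hc : ∀ v : V, (G.neighborSet v).ncard = 3) (M : Finset (V × V))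
    (hM : (JK.ofSG G hc).IsPM M) (v : V) : ((compl2 G hc M hM).neighborSet v).ncard = 2 := by
  obtain ⟨d, hd⟩ := Finset.card_eq_one.1 (hM.one v (Finset.mem_univ v))
  have hd1 : d ∈ M ∧ d.1 = v := by
    have : d ∈ M.filter fun d => (JK.ofSG G hc).pi d = v := by rw [hd]; simp
    rw [Finset.mem_filter] at this
    exact this
  obtain ⟨a, w⟩ := d
  obtain ⟨hm, rfl⟩ := hd1
  have hadj : G.Adj a w := by
    have := hM.sub hm
    simpa [JK.ofSG] using this
  have hset : (compl2 G hc M hM).neighborSet a = G.neighborSet a \ {w} := by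
    ext x
    simp only [SimpleGraph.mem_neighborSet, Set.mem_sdiff, Set.mem_singleton_iff]
    constructor
    · rintro ⟨h1, h2⟩
      refine ⟨h1, ?_⟩
      rintro rfl
      exact h2 hm
    · rintro ⟨h1, h2⟩
      refine ⟨h1, fun h3 => h2 ?_⟩
      have : (a, x) ∈ M.filter fun d => (JK.ofSG G hc).pi d = a := by
        rw [Finset.mem_filter]
        exact ⟨h3, rfl⟩
      rw [hd, Finset.mem_singleton] at this
      exact (Prod.ext_iff.1 this).2
  rw [hset, Set.ncard_sdiff_singleton_of_mem (show w ∈ G.neighborSet a from hadj), hc]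

/-- the frozen statement S11409 from the core theorem -/
theorem final (h : ∀ V D : Type, DG.CoreThm V D) :
    ∀ (V : Type) [Fintype V] (G : SimpleGraph V),
      (∀ v : V, (G.neighborSet v).ncard = 3) →
      (∀ v w : V, G.Adj v w → (G.deleteEdges {s(v, w)}).Reachable v w) →
      ∃ F₁ F₂ C : SimpleGraph V,
        F₁ ≤ G ∧ F₂ ≤ G ∧ C ≤ G ∧
        (∀ v : V, (F₁.neighborSet v).ncard = 2) ∧
        (∀ v : V, (F₂.neighborSet v).ncard = 2) ∧
        (∀ v : V, Even ((C.neighborSet v).ncard)) ∧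
        F₁ ⊔ F₂ ⊔ C = G := by
  intro V _ G hc hb
  obtain ⟨M1, M2, h1, h2, hZ⟩ := two_of_core h G hc hb
  obtain ⟨C, hC, hT, hev⟩ := JK.exists_even G hc (M1 ∩ M2)
    (fun d hd => by
      have := h1.sub (Finset.mem_inter.1 hd).1
      simpa [JK.ofSG] using this)
    (fun d hd => Finset.mem_inter.2 ⟨h1.closed d (Finset.mem_inter.1 hd).1,
      h2.closed d (Finset.mem_inter.1 hd).2⟩)
    hZ
  refine ⟨compl2 G hc M1 h1, compl2 G hc M2 h2, C, compl2_le G hc M1 h1, compl2_le G hc M2 h2,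
    hC, compl2_card G hc M1 h1, compl2_card G hc M2 h2, hev, ?_⟩
  ext v w
  simp only [SimpleGraph.sup_adj]
  constructor
  · rintro ((h | h) | h)
    · exact h.1
    · exact h.1
    · exact hC h
  · intro h
    by_cases hm1 : (v, w) ∈ M1
    · by_cases hm2 : (v, w) ∈ M2
      · exact Or.inr (hT _ (Finset.mem_inter.2 ⟨hm1, hm2⟩))
      · exact Or.inl (Or.inr ⟨h, hm2⟩)
    · exact Or.inl (Or.inl ⟨h, hm1⟩)

end R5
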