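import Pool.Agent.Lib.R5.KClean
import Pool.Agent.Lib.R5.KFull
import Pool.Agent.Lib.R5.Top

/-! R5 module KPair: `J` clean with the prescribed state of `h`, `H = dbl G J` is 5-edge-connected,
`N` = projection of the matching of `DG.full` through a copy of `h` or of another edge at `pi h`. -/

set_option autoImplicit false

namespace R5

open Finset Classical

namespace K

variable {V D : Type*}

private lemma pcard (S J : Finset D) :
    ((S ×ˢ (univ : Finset Bool)).filter fun p => p.1 ∉ J ∨ p.2 = false).card =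
      S.card + (S \ J).card := by
  have h : ((S ×ˢ (univ : Finset Bool)).filter fun p => p.1 ∉ J ∨ p.2 = false) =
      (S ×ˢ {false}) ∪ ((S \ J) ×ˢ {true}) := by
    ext ⟨d, b⟩
    cases b <;> simp
  rw [h, card_union_of_disjoint, card_product, card_product, card_singleton, card_singleton,
    mul_one, mul_one]
  rw [disjoint_left]
  rintro ⟨d, b⟩ h1 h2
  simp only [mem_product, mem_singleton] at h1 h2
  rw [h1.2] at h2
  exact absurd h2.2 (by simp)

private lemma ptk {G : JK.CG V D} (hT : TEC G) {X : Finset V} (hX : X ⊆ G.vs) : G.tk X = ∅ := by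
  rw [eq_empty_iff_forall_notMem]
  intro d hd
  obtain ⟨h1, h2, h3⟩ := G.mem_tk.1 hd
  have h4 : d ∈ G.tk G.vs := G.mem_tk.2 ⟨h1, hX h2, h3⟩
  rw [hT.tok] at h4
  exact notMem_empty _ h4

private lemma pdg {G : JK.CG V D} (hT : TEC G) {X : Finset V} (hX : X ⊆ G.vs) :
    G.dg X = (G.bd X).card := by
  unfold JK.CG.dg
  rw [ptk hT hX]
  simp

private lemma pnotok {G : JK.CG V D} (hT : TEC G) : ∀ d ∈ G.ds, G.al d ≠ d := by
  intro d hd h
  have h1 : d ∈ G.tk G.vs := G.mem_tk.2 ⟨hd, G.pi_mem d hd, h⟩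
  rw [hT.tok] at h1
  exact notMem_empty _ h1

private lemma pmem (G : JK.CG V D) (J : Finset D) (hJ : G.IsPM J) {p : D × Bool}
    (h : p ∈ (dbl G J hJ).ds) : p.1 ∈ G.ds ∧ (p.1 ∉ J ∨ p.2 = false) := by
  obtain ⟨h1, h2⟩ := mem_filter.1 h
  exact ⟨(mem_product.1 h1).1, h2⟩

private lemma pof (G : JK.CG V D) (J : Finset D) (hJ : G.IsPM J) {d : D}
    (h : d ∈ G.ds) : (d, false) ∈ (dbl G J hJ).ds :=
  mem_filter.2 ⟨mem_product.2 ⟨h, mem_univ _⟩, Or.inr rfl⟩

private lemma ptok (H : DG V D) {X : Finset V} {d : D} (h : d ∈ H.tk X) :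
    d ∈ H.ds ∧ H.al d = d := by
  obtain ⟨h1, h2, h3⟩ := mem_filter.1 h
  exact ⟨h1, h3⟩

private lemma pbd (H : DG V D) {X : Finset V} {d : D} :
    d ∈ H.bd X ↔ d ∈ H.ds ∧ H.pi d ∈ X ∧ H.pi (H.al d) ∉ X := mem_filter

private lemma pds (G : JK.CG V D) (J : Finset D) (hJ : G.IsPM J) {p : D × Bool} :
    p ∈ (dbl G J hJ).ds ↔ p.1 ∈ G.ds ∧ (p.1 ∉ J ∨ p.2 = false) :=
  ⟨pmem G J hJ, fun h => mem_filter.2 ⟨mem_product.2 ⟨h.1, mem_univ _⟩, h.2⟩⟩

theorem dbl_cut {G : JK.CG V D} (hT : TEC G) {J : Finset D} (hJ : Clean G J) {X : Finset V}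
    (hX : X ⊆ G.vs) (hn : X.Nonempty) (hne : X ≠ G.vs) : 5 ≤ (dbl G J hJ.pm).dg X := by
  have e : (dbl G J hJ.pm).bd X =
      ((G.bd X ×ˢ (univ : Finset Bool)).filter fun p => p.1 ∉ J ∨ p.2 = false) := by
    ext p
    rw [pbd, pds, mem_filter, mem_product, G.mem_bd]
    constructor
    · rintro ⟨⟨h1, h2⟩, h3, h4⟩
      exact ⟨⟨⟨h1, h3, h4⟩, mem_univ _⟩, h2⟩
    · rintro ⟨⟨⟨h1, h3, h4⟩, -⟩, h2⟩
      exact ⟨⟨h1, h2⟩, h3, h4⟩
  have h4 : 5 ≤ ((dbl G J hJ.pm).bd X).card := by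
    rw [e, pcard]
    rcases Nat.even_or_odd X.card with ho | ho
    · have h1 := hT.evn X hX ho hn hne
      by_cases h : (G.bd X).card = 4
      · obtain ⟨d, h2, h3⟩ := hJ.four X hX ho h
        have h5 : 0 < (G.bd X \ J).card := card_pos.2 ⟨d, mem_sdiff.2 ⟨h2, h3⟩⟩
        omega
      · omega
    · have h1 : 3 ≤ (G.bd X).card := by
        rw [← pdg hT hX]
        exact hT.b0 X hX ho
      have h2 : Odd (G.bd X).card := by
        rw [← pdg hT hX]
        exact (G.dg_parity hX).2 ho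
      by_cases h : (G.bd X).card = 3
      · have h5 := hJ.three X hX ho h
        have h6 : (G.bd X \ J).card + ((G.bd X).filter fun d => d ∈ J).card = (G.bd X).card := by
          have e2 : G.bd X \ J = (G.bd X).filter fun d => ¬ d ∈ J := by
            ext d
            simp only [mem_sdiff, mem_filter]
          rw [e2, add_comm]
          exact card_filter_add_card_filter_not _
        omega
      · obtain ⟨k, hk⟩ := h2
        omega
  unfold DG.dg
  omega

/-- another dart at the same vertex -/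
private lemma pother (G : JK.CG V D) {h : D} (hh : h ∈ G.ds) :
    ∃ h' ∈ G.ds, h' ≠ h ∧ G.pi h' = G.pi h := by
  have h1 := G.cubic (G.pi h) (G.pi_mem h hh)
  have h2 : 1 < (G.ds.filter fun d => G.pi d = G.pi h).card := by omega
  obtain ⟨h', h3, h4⟩ := Finset.exists_mem_ne h2 h
  obtain ⟨h5, h6⟩ := mem_filter.1 h3
  exact ⟨h', h5, h4, h6⟩

/-- two darts of a perfect matching at the same vertex are equal -/
private lemma puniq {G : JK.CG V D} {M : Finset D} (hM : G.IsPM M) {d e : D} (hd : d ∈ M)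
    (he : e ∈ M) (h : G.pi d = G.pi e) : d = e := by
  have h1 := hM.one (G.pi e) (G.pi_mem e (hM.sub he))
  exact Finset.card_le_one.1 h1.le d (mem_filter.2 ⟨hd, h⟩) e (mem_filter.2 ⟨he, rfl⟩)

private lemma pclean {G : JK.CG V D} (hT : TEC G) {h : D} (hh : h ∈ G.ds) (a : Prop) :
    ∃ J, Clean G J ∧ (h ∈ J ↔ a) := by
  by_cases ha : a
  · obtain ⟨J, h1, h2⟩ := exists_clean G hT h hh
    exact ⟨J, h1, fun _ => ha, fun _ => h2⟩
  · obtain ⟨h', h3, h4, h5⟩ := pother G hh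
    obtain ⟨J, h1, h2⟩ := exists_clean G hT h' h3
    refine ⟨J, h1, fun h6 => ?_, fun h6 => absurd h6 ha⟩
    exact absurd (puniq h1.pm h2 h6 h5) h4

theorem pair_tec (hS : DG.StarThm V (D × Bool)) {G : JK.CG V D} (hT : TEC G) : P4 G := by
  intro h hh a b
  obtain ⟨J, hJ, hJa⟩ := pclean hT hh a
  obtain ⟨g, hg, hg1, hgb⟩ : ∃ g ∈ G.ds, G.pi g = G.pi h ∧ (g = h ↔ b) := by
    by_cases hb : b
    · exact ⟨h, hh, rfl, fun _ => hb, fun _ => rfl⟩
    · obtain ⟨h', h3, h4, h5⟩ := pother G hh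
      exact ⟨h', h3, h5, fun h6 => absurd h6 h4, fun h6 => absurd h6 hb⟩
  have hnotok := pnotok hT
  have hHtk : (dbl G J hJ.pm).tk (dbl G J hJ.pm).vs = ∅ := by
    rw [eq_empty_iff_forall_notMem]
    intro p hp
    obtain ⟨h1, h4⟩ := ptok _ hp
    have h6 : G.al p.1 = p.1 := congrArg Prod.fst h4
    exact hnotok _ (pmem G J hJ.pm h1).1 h6
  obtain ⟨M, hM, hgM, hcon⟩ := DG.full hS hHtk hT.evenvs
    (fun X hX hn hne => dbl_cut hT hJ hX hn hne) (pof G J hJ.pm hg)
  have hN : G.IsPM (M.image Prod.fst) := by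
    refine ⟨?_, ?_, ?_, ?_⟩
    · intro d hd
      obtain ⟨p, hp, rfl⟩ := mem_image.1 hd
      exact (pmem G J hJ.pm (hM.sub hp)).1
    · intro d hd
      obtain ⟨p, hp, rfl⟩ := mem_image.1 hd
      exact mem_image.2 ⟨_, hM.closed p hp, rfl⟩
    · intro d hd
      obtain ⟨p, hp, rfl⟩ := mem_image.1 hd
      exact hnotok _ (pmem G J hJ.pm (hM.sub hp)).1
    · intro v hv
      have hone := hM.one v hv
      obtain ⟨p, hp⟩ := card_eq_one.1 hone
      rw [card_eq_one]
      refine ⟨p.1, ?_⟩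
      ext d
      simp only [mem_filter, mem_image, mem_singleton]
      constructor
      · rintro ⟨⟨q, hq, rfl⟩, hv'⟩
        have : q ∈ M.filter fun d => (dbl G J hJ.pm).pi d = v :=
          mem_filter.2 ⟨hq, hv'⟩
        rw [hp, mem_singleton] at this
        rw [this]
      · rintro rfl
        have : p ∈ M.filter fun d => (dbl G J hJ.pm).pi d = v := by
          rw [hp]; exact mem_singleton_self _
        exact ⟨⟨p, (mem_filter.1 this).1, rfl⟩, (mem_filter.1 this).2⟩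
  have hgN : g ∈ M.image Prod.fst := mem_image.2 ⟨_, hgM, rfl⟩
  refine ⟨J, M.image Prod.fst, ⟨hJ.pm, hN, ?_⟩, hJa, ?_⟩
  · intro Z hZs hZ
    have hn : Z.Nonempty := by
      rw [← card_pos]
      exact hZ.pos
    have hne : Z ≠ G.vs := by
      rintro rfl
      exact (Nat.not_even_iff_odd.2 hZ) hT.evenvs
    obtain ⟨p, hp, hpM⟩ := hcon Z hZs hn hne
    obtain ⟨h1, h2, h4⟩ := (pbd _).1 hp
    have h5 := pmem G J hJ.pm h1
    refine ⟨p.1, (G.mem_bd).2 ⟨h5.1, h2, h4⟩, ?_⟩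
    rintro ⟨hpJ, hpM2⟩
    obtain ⟨q, hq, hqp⟩ := mem_image.1 hpM2
    have hp2 : p.2 = false := by
      rcases h5.2 with h5 | h5
      · exact absurd hpJ h5
      · exact h5
    have hq2 : q.2 = false := by
      rcases (pmem G J hJ.pm (hM.sub hq)).2 with h5 | h5
      · rw [hqp] at h5
        exact absurd hpJ h5
      · exact h5
    have : q = p := Prod.ext hqp (by rw [hp2, hq2])
    rw [this] at hq
    exact hpM hq
  · constructor
    · intro h1
      exact hgb.1 (puniq hN hgN h1 hg1)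
    · intro h1
      rw [hgb.2 h1] at hgN
      exact hgN

end K

end R5
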