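import Pool.Agent.Lib.R5.KDefs

/-! R5 module KQuadA: an even set with four vertices and four legs is a 4-circuit. -/

set_option autoImplicit false

namespace R5

open Finset Classical

namespace K

variable {V D : Type*}

/-- a 4-circuit `z 0, z 1, z 2, z 3` with legs `r i` at `z i` and circuit darts `c i` from `z i` to
`z (i + 1)` -/
structure Quad (G : JK.CG V D) (z : Fin 4 → V) (r c : Fin 4 → D) : Prop where
  inj : Function.Injective z
  zvs : ∀ i, z i ∈ G.vs
  rds : ∀ i, r i ∈ G.ds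
  cds : ∀ i, c i ∈ G.ds
  rpi : ∀ i, G.pi (r i) = z i
  rout : ∀ i j, G.pi (G.al (r i)) ≠ z j
  cpi : ∀ i, G.pi (c i) = z i
  cend : ∀ i, G.pi (G.al (c i)) = z (i + 1)

/-- the second dart of `F` at a vertex -/
private lemma q_snd {G : JK.CG V D} {F : Finset D} {v : V}
    (h2 : (F.filter fun d => G.pi d = v).card = 2) {p : D} (hp : p ∈ F)
    (hpv : G.pi p = v) : ∃ q ∈ F, G.pi q = v ∧ q ≠ p ∧
      ∀ d ∈ F, G.pi d = v → d = p ∨ d = q := by
  have h1 : p ∈ F.filter fun x => G.pi x = v := mem_filter.2 ⟨hp, hpv⟩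
  have h3 : ((F.filter fun x => G.pi x = v).erase p).card = 1 := by
    rw [card_erase_of_mem h1, h2]
  obtain ⟨q, hq⟩ := card_eq_one.1 h3
  have h4 : q ∈ (F.filter fun x => G.pi x = v).erase p := by
    rw [hq]
    exact mem_singleton_self q
  rw [mem_erase, mem_filter] at h4
  refine ⟨q, h4.2.1, h4.2.2, h4.1, ?_⟩
  intro d hd hdp
  by_cases hdq : d = p
  · exact Or.inl hdq
  · right
    have h5 : d ∈ (F.filter fun x => G.pi x = v).erase p :=
      mem_erase.2 ⟨hdq, mem_filter.2 ⟨hd, hdp⟩⟩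
    rw [hq] at h5
    exact mem_singleton.1 h5

/-- a 2-regular set of edges on four vertices without smaller components is a 4-circuit -/
private lemma cyc4 {G : JK.CG V D} {F : Finset D} {Z : Finset V} (Fsub : ∀ d ∈ F, d ∈ G.ds)
    (Fal : ∀ d ∈ F, G.al d ∈ F) (Ftok : ∀ d ∈ F, G.al d ≠ d)
    (F2 : ∀ v ∈ Z, (F.filter fun d => G.pi d = v).card = 2)
    (clo : ∀ d ∈ F, G.pi d ∈ Z) (h4 : Z.card = 4)
    (hno : ∀ Y ⊆ Z, (∀ d ∈ F, G.pi d ∈ Y → G.pi (G.al d) ∈ Y) → Y.Nonempty → 4 ≤ Y.card) :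
    ∃ a b c e, ∃ p q r s, Z = {a, b, c, e} ∧ (a ≠ b ∧ a ≠ c ∧ a ≠ e ∧ b ≠ c ∧ b ≠ e ∧ c ≠ e) ∧
      (p ∈ F ∧ q ∈ F ∧ r ∈ F ∧ s ∈ F) ∧ (G.pi p = a ∧ G.pi (G.al p) = b) ∧
      (G.pi q = a ∧ G.pi (G.al q) = e) ∧ (G.pi r = b ∧ G.pi (G.al r) = c) ∧
      (G.pi s = e ∧ G.pi (G.al s) = c) := by
  have hal : ∀ d ∈ F, G.al (G.al d) = d := fun d hd => G.al_al d (Fsub d hd)
  have hinj : ∀ d ∈ F, ∀ e ∈ F, G.al d = G.al e → d = e := by
    intro d hd e he h1
    rw [← hal d hd, ← hal e he, h1]
  obtain ⟨a, ha⟩ : Z.Nonempty := card_pos.1 (by omega)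
  obtain ⟨p, hpF, hpa⟩ : ∃ p ∈ F, G.pi p = a := by
    have h2 := F2 _ ha
    obtain ⟨p, hp⟩ := card_pos.1 (by omega : 0 < (F.filter fun x => G.pi x = a).card)
    rw [mem_filter] at hp
    exact ⟨p, hp.1, hp.2⟩
  obtain ⟨q, hqF, hqa, hqp, hda⟩ := q_snd (F2 a ha) hpF hpa
  obtain ⟨b, hb⟩ : ∃ b, G.pi (G.al p) = b := ⟨_, rfl⟩
  obtain ⟨e, he⟩ : ∃ e, G.pi (G.al q) = e := ⟨_, rfl⟩
  have hapF := Fal p hpF
  have haqF := Fal q hqF
  have hbZ : b ∈ Z := by rw [← hb]; exact clo _ hapF
  have heZ : e ∈ Z := by rw [← he]; exact clo _ haqF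
  have hab : a ≠ b := by
    intro h1
    have h2 := hda _ hapF (hb.trans h1.symm)
    have h3 : G.al p = q := h2.resolve_left (Ftok p hpF)
    have h5 := hno {a} (singleton_subset_iff.2 ha) (by
      intro d hd hdp
      rw [mem_singleton] at hdp ⊢
      rcases hda d hd hdp with rfl | rfl
      · rw [hb, h1]
      · rw [← h3, hal p hpF, hpa]) (singleton_nonempty a)
    rw [card_singleton] at h5
    omega
  have hae : a ≠ e := by
    intro h1
    have h2 := hda _ haqF (he.trans h1.symm)
    have h3 : G.al q = p := h2.resolve_right (Ftok q hqF)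
    apply hab
    rw [← hb, ← h3, hal q hqF, hqa]
  obtain ⟨r, hrF, hrb, hrp, hdb⟩ := q_snd (F2 b hbZ) hapF hb
  obtain ⟨s, hsF, hse, hsq, hde⟩ := q_snd (F2 e heZ) haqF he
  have hbe : b ≠ e := by
    intro h1
    have h2 := hdb _ haqF (he.trans h1.symm)
    have h3 : G.al q = r := h2.resolve_left fun h3 => hqp (hinj q hqF p hpF h3)
    have h5 := hno {a, b} (by
      intro x hx
      rw [mem_insert, mem_singleton] at hx
      rcases hx with rfl | rfl
      · exact ha
      · exact hbZ) (by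
      intro d hd hdp
      rw [mem_insert, mem_singleton] at hdp ⊢
      rcases hdp with hdp | hdp
      · rcases hda d hd hdp with rfl | rfl
        · right; exact hb
        · right; rw [he, h1]
      · rcases hdb d hd hdp with rfl | rfl
        · left; rw [hal p hpF, hpa]
        · left; rw [← h3, hal q hqF, hqa]) ⟨a, mem_insert_self _ _⟩
    have h6 : ({a, b} : Finset V).card ≤ 2 := card_le_two
    omega
  obtain ⟨c, hcc⟩ : ∃ c, G.pi (G.al r) = c := ⟨_, rfl⟩
  have harF := Fal r hrF
  have hasF := Fal s hsF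
  have hcZ : c ∈ Z := by rw [← hcc]; exact clo _ harF
  have hac : a ≠ c := by
    intro h1
    rcases hda _ harF (hcc.trans h1.symm) with h2 | h2
    · apply hrp
      rw [← h2, hal r hrF]
    · apply hbe
      rw [← hrb, ← he, ← h2, hal r hrF]
  have hbc : b ≠ c := by
    intro h1
    rcases hdb _ harF (hcc.trans h1.symm) with h2 | h2
    · have h3 := hinj r hrF p hpF h2
      apply hab
      rw [← hpa, ← h3, hrb]
    · exact Ftok r hrF h2
  have hce : c ≠ e := by
    intro h1
    rcases hde _ harF (hcc.trans h1) with h2 | h2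
    · have h3 := hinj r hrF q hqF h2
      apply hab
      rw [← hqa, ← h3, hrb]
    · have h5 := hno {a, b, e} (by
        intro x hx
        rw [mem_insert, mem_insert, mem_singleton] at hx
        rcases hx with rfl | rfl | rfl
        · exact ha
        · exact hbZ
        · exact heZ) (by
        intro d hd hdp
        rw [mem_insert, mem_insert, mem_singleton] at hdp ⊢
        rcases hdp with hdp | hdp | hdp
        · rcases hda d hd hdp with rfl | rfl
          · right; left; exact hb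
          · right; right; exact he
        · rcases hdb d hd hdp with rfl | rfl
          · left; rw [hal p hpF, hpa]
          · right; right; rw [hcc, h1]
        · rcases hde d hd hdp with rfl | rfl
          · left; rw [hal q hqF, hqa]
          · right; left; rw [← h2, hal r hrF, hrb]) ⟨a, mem_insert_self _ _⟩
      have h6 : ({a, b, e} : Finset V).card ≤ 3 := card_le_three
      omega
  have hZe : Z = {a, b, c, e} := by
    symm
    apply eq_of_subset_of_card_le
    · intro x hx
      rw [mem_insert, mem_insert, mem_insert, mem_singleton] at hx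
      rcases hx with rfl | rfl | rfl | rfl
      · exact ha
      · exact hbZ
      · exact hcZ
      · exact heZ
    · rw [h4, card_insert_of_notMem, card_insert_of_notMem, card_insert_of_notMem, card_singleton]
      · rw [mem_singleton]; exact hce
      · rw [mem_insert, mem_singleton, not_or]; exact ⟨hbc, hbe⟩
      · rw [mem_insert, mem_insert, mem_singleton, not_or, not_or]; exact ⟨hab, hac, hae⟩
  have hsc : G.pi (G.al s) = c := by
    have h1 := clo _ hasF
    rw [hZe, mem_insert, mem_insert, mem_insert, mem_singleton] at h1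
    rcases h1 with h1 | h1 | h1 | h1
    · exfalso
      rcases hda _ hasF h1 with h2 | h2
      · apply hbe
        rw [← hb, ← h2, hal s hsF, hse]
      · apply hsq
        rw [← h2, hal s hsF]
    · exfalso
      rcases hdb _ hasF h1 with h2 | h2
      · have h3 := hinj s hsF p hpF h2
        apply hae
        rw [← hpa, ← h3, hse]
      · apply hce
        rw [← hcc, ← h2, hal s hsF, hse]
    · exact h1
    · exfalso
      rcases hde _ hasF h1 with h2 | h2
      · have h3 := hinj s hsF q hqF h2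
        apply hae
        rw [← hqa, ← h3, hse]
      · exact Ftok s hsF h2
  exact ⟨a, b, c, e, p, q, r, s, hZe, ⟨hab, hac, hae, hbc, hbe, hce⟩, ⟨hpF, hqF, hrF, hsF⟩,
    ⟨hpa, hb⟩, ⟨hqa, he⟩, ⟨hrb, hcc⟩, ⟨hse, hsc⟩⟩

private lemma inj4 {a b c e : V} (hab : a ≠ b) (hac : a ≠ c) (hae : a ≠ e) (hbc : b ≠ c)
    (hbe : b ≠ e) (hce : c ≠ e) : Function.Injective (![a, b, c, e] : Fin 4 → V) := by
  intro i j hij
  fin_cases i <;> fin_cases j <;> first
    | rfl
    | exact absurd hij hab
    | exact absurd hij hac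
    | exact absurd hij hae
    | exact absurd hij hbc
    | exact absurd hij hbe
    | exact absurd hij hce
    | exact absurd hij hab.symm
    | exact absurd hij hac.symm
    | exact absurd hij hae.symm
    | exact absurd hij hbc.symm
    | exact absurd hij hbe.symm
    | exact absurd hij hce.symm

theorem exists_quad {G : JK.CG V D} (hT : TEC G) (hno : NoThree G) {Z : Finset V} (hZ : Z ⊆ G.vs)
    (h4 : Z.card = 4) (h4' : 4 ≤ (G.vs \ Z).card) (hd : (G.bd Z).card = 4) :
    ∃ z r c, Quad G z r c ∧ Z = univ.image z := by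
  have htk : ∀ X, G.tk X = ∅ := fun X => JK.CG.tk_eq_empty hT.tok X
  have hdb : ∀ X, G.dg X = (G.bd X).card := fun X => JK.CG.dg_eq_bd hT.tok X
  have hcomp : ∀ Y ⊆ Z, (G.vs \ Y).card ≠ 1 := by
    intro Y hY h1
    have h2 : (G.vs \ Z).card ≤ (G.vs \ Y).card := card_le_card (sdiff_subset_sdiff subset_rfl hY)
    omega
  -- at most one leg at every vertex
  have hle : ∀ v ∈ Z, ((G.bd Z).filter fun d => G.pi d = v).card ≤ 1 := by
    intro v hv
    by_contra hlt
    have hvv := hZ hv
    have h1 : Z = (Z.erase v) ∪ {v} := by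
      ext x
      rw [mem_union, mem_erase, mem_singleton]
      constructor
      · intro hx
        by_cases h : x = v
        · exact Or.inr h
        · exact Or.inl ⟨h, hx⟩
      · rintro (h | rfl)
        · exact h.2
        · exact hv
    have hdis : Disjoint (Z.erase v) {v} := by
      rw [disjoint_singleton_right]
      exact notMem_erase v Z
    have h2 := G.dg_union hdis
    rw [← h1, hdb Z, hd, G.ed_comm, hT.b0.dg_singleton hvv] at h2
    have h3 : (G.ed {v} (Z.erase v)).card + ((G.bd Z).filter fun d => G.pi d = v).card ≤ 3 := by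
      rw [← G.cubic v hvv, ← card_union_of_disjoint]
      · apply card_le_card
        intro d hd'
        rw [mem_filter]
        rcases mem_union.1 hd' with h5 | h5
        · rw [G.mem_ed, mem_singleton] at h5
          exact ⟨h5.1, h5.2.1⟩
        · rw [mem_filter, G.mem_bd] at h5
          exact ⟨h5.1.1, h5.2⟩
      · rw [disjoint_left]
        intro d h5 h6
        rw [G.mem_ed, mem_erase] at h5
        rw [mem_filter, G.mem_bd] at h6
        exact h6.1.2.2 h5.2.2.2
    have hY : (Z.erase v).card = 3 := by rw [card_erase_of_mem hv, h4]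
    have h5 := hT.b0 (Z.erase v) ((erase_subset v Z).trans hZ) (by rw [hY]; decide)
    have h6 : (G.bd (Z.erase v)).card = 3 := by
      rw [← hdb]
      omega
    rcases hno (Z.erase v) ((erase_subset v Z).trans hZ) (by rw [hY]; decide) h6 with h7 | h7
    · omega
    · exact hcomp _ (erase_subset v Z) h7
  have hsum : ∑ v ∈ Z, ((G.bd Z).filter fun d => G.pi d = v).card = ∑ v ∈ Z, 1 := by
    rw [sum_const, smul_eq_mul, mul_one, h4, ← hd]
    exact (card_eq_sum_card_fiberwise fun d hd' => (G.mem_bd.1 hd').2.1).symm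
  have hone : ∀ v ∈ Z, ((G.bd Z).filter fun d => G.pi d = v).card = 1 :=
    (sum_eq_sum_iff_of_le hle).1 hsum
  -- the internal darts
  obtain ⟨F, hF⟩ : ∃ F, F = G.ds.filter (fun d => G.pi d ∈ Z ∧ G.pi (G.al d) ∈ Z) := ⟨_, rfl⟩
  have Fm : ∀ d, d ∈ F ↔ d ∈ G.ds ∧ G.pi d ∈ Z ∧ G.pi (G.al d) ∈ Z := by
    intro d
    rw [hF, mem_filter]
  have F2 : ∀ v ∈ Z, (F.filter fun d => G.pi d = v).card = 2 := by
    intro v hv
    have h1 := hone v hv
    have h2 := G.cubic v (hZ hv)
    have h3 : (G.ds.filter fun d => G.pi d = v) =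
        (F.filter fun d => G.pi d = v) ∪ ((G.bd Z).filter fun d => G.pi d = v) := by
      ext d
      rw [mem_union, mem_filter, mem_filter, mem_filter, Fm, G.mem_bd]
      constructor
      · rintro ⟨h5, h6⟩
        by_cases h7 : G.pi (G.al d) ∈ Z
        · exact Or.inl ⟨⟨h5, by rw [h6]; exact hv, h7⟩, h6⟩
        · exact Or.inr ⟨⟨h5, by rw [h6]; exact hv, h7⟩, h6⟩
      · rintro (h5 | h5)
        · exact ⟨h5.1.1, h5.2⟩
        · exact ⟨h5.1.1, h5.2⟩
    rw [h3, card_union_of_disjoint, h1] at h2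
    · omega
    · rw [disjoint_left]
      intro d h5 h6
      rw [mem_filter, Fm] at h5
      rw [mem_filter, G.mem_bd] at h6
      exact h6.1.2.2 h5.1.2.2
  have hYcard : ∀ Y ⊆ Z, (∀ d ∈ F, G.pi d ∈ Y → G.pi (G.al d) ∈ Y) →
      (G.bd Y).card = Y.card := by
    intro Y hY hcl
    have h1 : (G.bd Y).card = ∑ v ∈ Y, ((G.bd Y).filter fun d => G.pi d = v).card :=
      card_eq_sum_card_fiberwise fun d hd' => (G.mem_bd.1 hd').2.1
    rw [h1, card_eq_sum_ones]
    refine sum_congr rfl fun v hv => ?_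
    rw [← hone v (hY hv)]
    congr 1
    ext d
    rw [mem_filter, mem_filter, G.mem_bd, G.mem_bd]
    constructor
    · rintro ⟨⟨h5, h6, h7⟩, h8⟩
      refine ⟨⟨h5, hY h6, fun h9 => h7 ?_⟩, h8⟩
      exact hcl d ((Fm d).2 ⟨h5, hY h6, h9⟩) h6
    · rintro ⟨⟨h5, h6, h7⟩, h8⟩
      exact ⟨⟨h5, by rw [h8]; exact hv, fun h9 => h7 (hY h9)⟩, h8⟩
  obtain ⟨a, b, c, e, p, q, r, s, hZe, ⟨hab, hac, hae, hbc, hbe, hce⟩, ⟨hpF, hqF, hrF, hsF⟩,
    ⟨hpa, hpb⟩, ⟨hqa, hqe⟩, ⟨hrb, hrc⟩, ⟨hse, hsc⟩⟩ := cyc4 (G := G) (F := F) (Z := Z)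
    (fun d hd' => ((Fm d).1 hd').1)
    (fun d hd' => by
      have h1 := (Fm d).1 hd'
      refine (Fm _).2 ⟨G.al_mem d h1.1, h1.2.2, ?_⟩
      rw [G.al_al d h1.1]
      exact h1.2.1)
    (fun d hd' ht => by
      have h1 := (Fm d).1 hd'
      have h2 : d ∈ G.tk Z := G.mem_tk.2 ⟨h1.1, h1.2.1, ht⟩
      rw [htk Z] at h2
      exact absurd h2 (notMem_empty _))
    F2 (fun d hd' => ((Fm d).1 hd').2.1) h4 (by
      intro Y hY hcl hne
      by_contra hlt
      have h1 := hYcard Y hY hcl
      have h2 := card_pos.2 hne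
      rcases Nat.even_or_odd Y.card with he | ho
      · have h3 := hT.evn Y (hY.trans hZ) he hne (by
          rintro rfl
          have h5 : (G.vs \ Z).card = 0 := by
            rw [card_eq_zero, sdiff_eq_empty_iff_subset]
            exact hY
          omega)
        omega
      · have h3 := hT.b0 Y (hY.trans hZ) ho
        rw [hdb] at h3
        rcases hno Y (hY.trans hZ) ho (by omega) with h5 | h5
        · omega
        · exact hcomp Y hY h5)
  -- the legs
  have hlg : ∀ v ∈ Z, ∃ d ∈ G.bd Z, G.pi d = v := by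
    intro v hv
    obtain ⟨d, hd'⟩ := card_pos.1 (by rw [hone v hv]; decide :
      0 < ((G.bd Z).filter fun d => G.pi d = v).card)
    rw [mem_filter] at hd'
    exact ⟨d, hd'.1, hd'.2⟩
  have ma : a ∈ Z := by rw [hZe]; simp
  have mb : b ∈ Z := by rw [hZe]; simp
  have mc : c ∈ Z := by rw [hZe]; simp
  have me : e ∈ Z := by rw [hZe]; simp
  obtain ⟨ra, hra, pra⟩ := hlg a ma
  obtain ⟨rb, hrb', prb⟩ := hlg b mb
  obtain ⟨rc, hrc', prc⟩ := hlg c mc
  obtain ⟨re, hre, pre⟩ := hlg e me
  have hz : ∀ j, (![a, b, c, e] : Fin 4 → V) j ∈ Z := by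
    intro j
    fin_cases j
    · exact ma
    · exact mb
    · exact mc
    · exact me
  refine ⟨![a, b, c, e], ![ra, rb, rc, re], ![p, r, G.al s, G.al q], ⟨?_, ?_, ?_, ?_, ?_, ?_, ?_,
    ?_⟩, ?_⟩
  · exact inj4 hab hac hae hbc hbe hce
  · exact fun i => hZ (hz i)
  · intro i
    fin_cases i
    · exact (G.mem_bd.1 hra).1
    · exact (G.mem_bd.1 hrb').1
    · exact (G.mem_bd.1 hrc').1
    · exact (G.mem_bd.1 hre).1
  · intro i
    fin_cases i
    · exact ((Fm _).1 hpF).1
    · exact ((Fm _).1 hrF).1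
    · exact G.al_mem _ ((Fm _).1 hsF).1
    · exact G.al_mem _ ((Fm _).1 hqF).1
  · intro i
    fin_cases i
    · exact pra
    · exact prb
    · exact prc
    · exact pre
  · intro i j h1
    have h2 := hz j
    rw [← h1] at h2
    fin_cases i
    · exact (G.mem_bd.1 hra).2.2 h2
    · exact (G.mem_bd.1 hrb').2.2 h2
    · exact (G.mem_bd.1 hrc').2.2 h2
    · exact (G.mem_bd.1 hre).2.2 h2
  · intro i
    fin_cases i
    · exact hpa
    · exact hrb
    · exact hsc
    · exact hqe
  · intro i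
    fin_cases i
    · exact hpb
    · exact hrc
    · show G.pi (G.al (G.al s)) = e
      rw [G.al_al _ ((Fm _).1 hsF).1]
      exact hse
    · show G.pi (G.al (G.al q)) = a
      rw [G.al_al _ ((Fm _).1 hqF).1]
      exact hqa
  · ext x
    rw [hZe, mem_insert, mem_insert, mem_insert, mem_singleton, mem_image]
    constructor
    · rintro (rfl | rfl | rfl | rfl)
      · exact ⟨0, mem_univ _, rfl⟩
      · exact ⟨1, mem_univ _, rfl⟩
      · exact ⟨2, mem_univ _, rfl⟩
      · exact ⟨3, mem_univ _, rfl⟩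
    · rintro ⟨i, -, rfl⟩
      fin_cases i
      · exact Or.inl rfl
      · exact Or.inr (Or.inl rfl)
      · exact Or.inr (Or.inr (Or.inl rfl))
      · exact Or.inr (Or.inr (Or.inr rfl))

/-- rotation -/
theorem Quad.rot {G : JK.CG V D} {z : Fin 4 → V} {r c : Fin 4 → D} (h : Quad G z r c) (k : Fin 4) :
    Quad G (fun i => z (i + k)) (fun i => r (i + k)) (fun i => c (i + k)) := by
  refine ⟨?_, fun i => h.zvs _, fun i => h.rds _, fun i => h.cds _, fun i => h.rpi _,
    fun i j => h.rout _ _, fun i => h.cpi _, ?_⟩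
  · intro i j hij
    exact add_right_cancel (h.inj hij)
  · intro i
    show G.pi (G.al (c (i + k))) = z (i + 1 + k)
    rw [h.cend, add_right_comm]

/-- the darts at the circuit -/
theorem Quad.darts {G : JK.CG V D} (_hT : TEC G) {z : Fin 4 → V} {r c : Fin 4 → D}
    (h : Quad G z r c) {d : D} (hd : d ∈ G.ds) {i : Fin 4} (hi : G.pi d = z i) :
    d = r i ∨ d = c i ∨ d = G.al (c (i + 3)) := by
  have e1 : ∀ j : Fin 4, j + 3 + 1 = j := by decide
  have h1 : r i ≠ c i := by
    intro he
    apply h.rout i (i + 1)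
    rw [he, h.cend]
  have h2 : r i ≠ G.al (c (i + 3)) := by
    intro he
    apply h.rout i (i + 3)
    rw [he, G.al_al _ (h.cds _), h.cpi]
  have h3 : c i ≠ G.al (c (i + 3)) := by
    intro he
    have h4 := h.cend i
    rw [he, G.al_al _ (h.cds _), h.cpi] at h4
    have h5 := h.inj h4
    have h6 : ∀ j : Fin 4, j + 3 ≠ j + 1 := by decide
    exact h6 i h5
  have h4 := G.cubic (z i) (h.zvs i)
  have h5 : ({r i, c i, G.al (c (i + 3))} : Finset D) ⊆ G.ds.filter fun x => G.pi x = z i := by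
    intro x hx
    rw [mem_insert, mem_insert, mem_singleton] at hx
    rw [mem_filter]
    rcases hx with rfl | rfl | rfl
    · exact ⟨h.rds i, h.rpi i⟩
    · exact ⟨h.cds i, h.cpi i⟩
    · exact ⟨G.al_mem _ (h.cds _), by rw [h.cend, e1 i]⟩
  have h6 : ({r i, c i, G.al (c (i + 3))} : Finset D).card = 3 :=
    card_eq_three.2 ⟨_, _, _, h1, h2, h3, rfl⟩
  have h7 := eq_of_subset_of_card_le h5 (by omega)
  have h8 : d ∈ G.ds.filter fun x => G.pi x = z i := mem_filter.2 ⟨hd, hi⟩
  rw [← h7, mem_insert, mem_insert, mem_singleton] at h8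
  exact h8

/-- the boundary of the circuit -/
theorem Quad.bd {G : JK.CG V D} (hT : TEC G) {z : Fin 4 → V} {r c : Fin 4 → D}
    (h : Quad G z r c) : G.bd (univ.image z) = {r 0, r 1, r 2, r 3} := by
  ext d
  rw [G.mem_bd, mem_insert, mem_insert, mem_insert, mem_singleton]
  constructor
  · rintro ⟨h1, h2, h3⟩
    obtain ⟨i, -, hi⟩ := mem_image.1 h2
    rcases h.darts hT h1 hi.symm with rfl | rfl | rfl
    · fin_cases i
      · exact Or.inl rfl
      · exact Or.inr (Or.inl rfl)
      · exact Or.inr (Or.inr (Or.inl rfl))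
      · exact Or.inr (Or.inr (Or.inr rfl))
    · exfalso
      apply h3
      rw [h.cend]
      exact mem_image_of_mem z (mem_univ _)
    · exfalso
      apply h3
      rw [G.al_al _ (h.cds _), h.cpi]
      exact mem_image_of_mem z (mem_univ _)
  · have key : ∀ i, r i ∈ G.ds ∧ G.pi (r i) ∈ univ.image z ∧ G.pi (G.al (r i)) ∉ univ.image z := by
      intro i
      refine ⟨h.rds i, by rw [h.rpi]; exact mem_image_of_mem z (mem_univ _), ?_⟩
      intro h1
      obtain ⟨j, -, hj⟩ := mem_image.1 h1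
      exact h.rout i j hj.symm
    rintro (rfl | rfl | rfl | rfl)
    · exact key 0
    · exact key 1
    · exact key 2
    · exact key 3

end K

end R5
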