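import Pool.Agent.Lib.R5.KDefs

/-! R5 module KThree: kse74.md section 1 (nontrivial 3-cuts glue); compare `JK.CG.thr_glue`. -/

set_option autoImplicit false

namespace R5

open Finset Classical

namespace K

open JK.CG

variable {V D : Type*}

/-- contraction keeps even cuts of size at least 4 -/
lemma con_tec {G : JK.CG V D} (hT : TEC G) {X : Finset V} (hX : X ⊆ G.vs) (ho : Odd X.card)
    {z : V} (c : G.CD X z ∅) : TEC c.con := by
  have hv := c.vs_card
  have t1 : c.con.tk c.con.vs = ∅ := by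
    rw [← Finset.card_eq_zero, c.tk_vs, tk_eq_empty hT.tok]; rfl
  have e1 : Even c.con.vs.card := by rw [hv]; exact ho.add_one
  have hXne : X ≠ G.vs := by
    intro h
    have h1 := hT.evenvs
    rw [← h, Nat.even_iff] at h1
    rw [Nat.odd_iff] at ho
    omega
  have key : ∀ Y ⊆ X, Even Y.card → Y.Nonempty → 4 ≤ (c.con.bd Y).card := by
    intro Y hY he hn
    rw [c.bd_sub hY]
    refine hT.evn Y (hY.trans hX) he hn ?_
    intro h
    exact hXne (Finset.Subset.antisymm hX (h ▸ hY))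
  refine ⟨e1, t1, c.b0_eq hT.b0 ho (by rw [tk_eq_empty hT.tok]), ?_⟩
  intro Y hY he hn hne
  by_cases hz : z ∈ Y
  · have hsub : c.con.vs \ Y ⊆ X := by
      intro v hv
      rw [Finset.mem_sdiff, c.con_vs, Finset.mem_insert] at hv
      rcases hv.1 with h | h
      · exact absurd (h ▸ hz) hv.2
      · exact h
    have h2 : Even (c.con.vs \ Y).card := by
      rw [Finset.card_sdiff_of_subset hY]
      have hle := Finset.card_le_card hY
      rw [Nat.even_sub hle]
      exact ⟨fun _ => he, fun _ => e1⟩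
    have h3 : (c.con.vs \ Y).Nonempty := by
      rw [Finset.sdiff_nonempty]
      intro h
      exact hne (Finset.Subset.antisymm hY h)
    have h4 := key _ hsub h2 h3
    rwa [c.con.bd_compl hY] at h4
  · refine key Y ?_ he hn
    intro v hv
    have h := hY hv
    rw [c.con_vs, Finset.mem_insert] at h
    rcases h with h | h
    · exact absurd (h ▸ hv) hz
    · exact h

lemma even_compl {G : JK.CG V D} (he : Even G.vs.card) {X : Finset V} (hX : X ⊆ G.vs)
    (h : Even X.card) : Even (G.vs \ X).card := by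
  rw [Finset.card_sdiff_of_subset hX, Nat.even_sub (Finset.card_le_card hX)]
  exact ⟨fun _ => h, fun _ => he⟩

/-- a dart outside `M` leaving the complement gives one leaving `Y` -/
lemma four_of_compl {G : JK.CG V D} {M : Finset D} (hM : G.IsPM M) {Y : Finset V}
    (hY : Y ⊆ G.vs) (h : ∃ d ∈ G.bd (G.vs \ Y), d ∉ M) : ∃ d ∈ G.bd Y, d ∉ M := by
  obtain ⟨d, hd, hdM⟩ := h
  rw [G.bd_compl_eq hY, Finset.mem_image] at hd
  obtain ⟨e, he, rfl⟩ := hd
  exact ⟨e, he, fun h => hdM (hM.closed e h)⟩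

lemma glue3_side {G : JK.CG V D} (hT : TEC G) (hI : IHK G.vs.card V D) {X : Finset V}
    (hX : X ⊆ G.vs) (ho : Odd X.card) (h3 : (G.bd X).card = 3) (hX3 : 3 ≤ X.card)
    (hY3 : 3 ≤ (G.vs \ X).card) {d0 : D} (hd : d0 ∈ G.ds)
    (hside : G.pi d0 ∈ X ∨ G.pi (G.al d0) ∈ X) : ∃ J, Clean G J ∧ d0 ∈ J := by
  have he := hT.evenvs
  have ht := hT.tok
  have hb := hT.b0
  have hcard : X.card + (G.vs \ X).card = G.vs.card := by
    rw [Finset.card_sdiff_of_subset hX]
    have := Finset.card_le_card hX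
    omega
  have hoc : Odd (G.vs \ X).card := (odd_compl he hX).2 ho
  obtain ⟨z, hz⟩ : (G.vs \ X).Nonempty := by rw [← Finset.card_pos]; omega
  obtain ⟨z2, hz2⟩ : X.Nonempty := by rw [← Finset.card_pos]; omega
  rw [Finset.mem_sdiff] at hz
  -- the two contractions
  have c1 : G.CD X z ∅ := ⟨hX, hz.1, hz.2, Finset.empty_subset _, by simpa using h3⟩
  have c2 : G.CD (G.vs \ X) z2 ∅ := ⟨Finset.sdiff_subset, hX hz2,
    fun h => (Finset.mem_sdiff.1 h).2 hz2, Finset.empty_subset _, by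
      rw [G.bd_compl hX]; simpa using h3⟩
  have T1 : TEC c1.con := con_tec hT hX ho c1
  have T2 : TEC c2.con := con_tec hT Finset.sdiff_subset hoc c2
  have v1 := c1.vs_card
  have v2 := c2.vs_card
  have hd1 : d0 ∈ c1.con.ds := c1.mem_con_ds.2 (Or.inl ⟨hd, hside⟩)
  obtain ⟨M1, hC1, hd0M⟩ := hI c1.con (by omega) T1 d0 hd1
  have hM1 := hC1.pm
  have hc1 := hC1.three
  -- the crossing dart of `M1`
  have hsub1 : ∀ Y ⊆ X, Y ⊆ c1.con.vs := fun Y hY => by
    rw [c1.con_vs]; exact hY.trans (Finset.subset_insert _ _)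
  have hsub2 : ∀ Y ⊆ G.vs \ X, Y ⊆ c2.con.vs := fun Y hY => by
    rw [c2.con_vs]; exact hY.trans (Finset.subset_insert _ _)
  have hm1 : ((G.bd X).filter fun d => d ∈ M1).card = 1 := by
    have h := hc1 X (hsub1 X (Finset.Subset.refl _)) ho (by
      rw [c1.bd_sub (Finset.Subset.refl _)]; exact h3)
    rwa [c1.bd_sub (Finset.Subset.refl _)] at h
  obtain ⟨e, hee⟩ := Finset.card_eq_one.1 hm1
  have hem : e ∈ (G.bd X).filter fun d => d ∈ M1 := by rw [hee]; exact Finset.mem_singleton_self e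
  rw [Finset.mem_filter] at hem
  obtain ⟨hebd, heM1⟩ := hem
  have hebd' := G.mem_bd.mp hebd
  have hal : G.pi (G.al e) ∈ G.vs \ X :=
    Finset.mem_sdiff.2 ⟨G.pi_mem _ (G.al_mem e hebd'.1), hebd'.2.2⟩
  have hd2 : e ∈ c2.con.ds := c2.mem_con_ds.2 (Or.inl ⟨hebd'.1, Or.inr hal⟩)
  obtain ⟨M2, hC2, heM2⟩ := hI c2.con (by omega) T2 e hd2
  have hM2 := hC2.pm
  have hc2 := hC2.three
  have hm2 : ((G.bd (G.vs \ X)).filter fun d => d ∈ M2).card = 1 := by
    have h := hc2 (G.vs \ X) (hsub2 _ (Finset.Subset.refl _)) hoc (by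
      rw [c2.bd_sub (Finset.Subset.refl _), G.bd_compl hX]; exact h3)
    rwa [c2.bd_sub (Finset.Subset.refl _)] at h
  have halM2 : G.al e ∈ M2 := hM2.closed e heM2
  have huniq : ∀ d ∈ G.bd X, d ∈ M2 → d = e := by
    intro d hdb hdM2
    obtain ⟨f, hf⟩ := Finset.card_eq_one.1 hm2
    have m1 : G.al d ∈ (G.bd (G.vs \ X)).filter fun d => d ∈ M2 := by
      rw [Finset.mem_filter, G.bd_compl_eq hX]
      exact ⟨Finset.mem_image_of_mem _ hdb, hM2.closed d hdM2⟩
    have m2 : G.al e ∈ (G.bd (G.vs \ X)).filter fun d => d ∈ M2 := by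
      rw [Finset.mem_filter, G.bd_compl_eq hX]
      exact ⟨Finset.mem_image_of_mem _ hebd, halM2⟩
    rw [hf, Finset.mem_singleton] at m1 m2
    rw [← G.al_al d (G.mem_bd.mp hdb).1, ← G.al_al e hebd'.1, m1, m2]
  have hag : ∀ d ∈ G.bd X, (d ∈ M1 ↔ d ∈ M2) := by
    intro d hdb
    constructor
    · intro h
      have : d ∈ (G.bd X).filter fun d => d ∈ M1 := Finset.mem_filter.2 ⟨hdb, h⟩
      rw [hee, Finset.mem_singleton] at this
      rw [this]
      exact heM2
    · intro h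
      rw [huniq d hdb h]
      exact heM1
  obtain ⟨hM, g1, g2⟩ := glue_pm c1 c2 hM1 hM2 hag
  -- matching darts of cuts on one side
  have s1 : ∀ Y ⊆ X, Odd Y.card → (G.bd Y).card = 3 → G.mc (M1 ∪ M2) Y = 1 := by
    intro Y hY hoY h3Y
    have h := hc1 Y (hsub1 Y hY) hoY (by rw [c1.bd_sub hY]; exact h3Y)
    rw [c1.bd_sub hY] at h
    rw [← h]
    unfold mc
    congr 1
    apply Finset.filter_congr
    intro d hdb
    have h5 := G.mem_bd.mp hdb
    exact g1 d h5.1 (Or.inl (hY h5.2.1))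
  have s2 : ∀ Y ⊆ G.vs \ X, Odd Y.card → (G.bd Y).card = 3 → G.mc (M1 ∪ M2) Y = 1 := by
    intro Y hY hoY h3Y
    have h := hc2 Y (hsub2 Y hY) hoY (by rw [c2.bd_sub hY]; exact h3Y)
    rw [c2.bd_sub hY] at h
    rw [← h]
    unfold mc
    congr 1
    apply Finset.filter_congr
    intro d hdb
    have h5 := G.mem_bd.mp hdb
    exact g2 d h5.1 (Or.inl (Finset.mem_sdiff.1 (hY h5.2.1)).2)
  have f1 : ∀ Y ⊆ X, Even Y.card → (G.bd Y).card = 4 → ∃ d ∈ G.bd Y, d ∉ M1 ∪ M2 := by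
    intro Y hY heY h4Y
    obtain ⟨d, hdb, hdM⟩ := hC1.four Y (hsub1 Y hY) heY (by rw [c1.bd_sub hY]; exact h4Y)
    rw [c1.bd_sub hY] at hdb
    have h5 := G.mem_bd.mp hdb
    exact ⟨d, hdb, fun h => hdM ((g1 d h5.1 (Or.inl (hY h5.2.1))).1 h)⟩
  have f2 : ∀ Y ⊆ G.vs \ X, Even Y.card → (G.bd Y).card = 4 → ∃ d ∈ G.bd Y, d ∉ M1 ∪ M2 := by
    intro Y hY heY h4Y
    obtain ⟨d, hdb, hdM⟩ := hC2.four Y (hsub2 Y hY) heY (by rw [c2.bd_sub hY]; exact h4Y)
    rw [c2.bd_sub hY] at hdb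
    have h5 := G.mem_bd.mp hdb
    exact ⟨d, hdb, fun h => hdM ((g2 d h5.1 (Or.inl (Finset.mem_sdiff.1 (hY h5.2.1)).2)).1 h)⟩
  have hB : ∀ Y ⊆ G.vs, Odd Y.card → 3 ≤ (G.bd Y).card := by
    intro Y hY hoY
    rw [← dg_eq_bd ht]
    exact hb Y hY hoY
  have hpar : ∀ Y ⊆ G.vs, ¬ Odd (X ∩ Y).card → Odd (X ∩ (G.vs \ Y)).card := by
    intro Y hY hoI
    have h1 : X ∩ (G.vs \ Y) = X \ (X ∩ Y) := by
      ext v
      simp only [Finset.mem_inter, Finset.mem_sdiff, not_and]
      constructor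
      · rintro ⟨a, b, c⟩
        exact ⟨a, fun _ => c⟩
      · rintro ⟨a, b⟩
        exact ⟨a, hX a, b a⟩
    rw [h1, Finset.card_sdiff_of_subset Finset.inter_subset_left]
    rw [Nat.not_odd_iff_even] at hoI
    have hle : (X ∩ Y).card ≤ X.card := Finset.card_le_card Finset.inter_subset_left
    obtain ⟨a, ha⟩ := ho
    obtain ⟨b, hb'⟩ := hoI
    exact ⟨a - b, by omega⟩
  -- uncrossing
  have claim : ∀ Y ⊆ G.vs, Odd Y.card → (G.bd Y).card = 3 → Odd (X ∩ Y).card →
      G.mc (M1 ∪ M2) Y = 1 := by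
    intro Y hY hoY h3Y hoI
    have hU : X ∪ Y ⊆ G.vs := Finset.union_subset hX hY
    have hoU : Odd (X ∪ Y).card := by
      have := Finset.card_union_add_card_inter X Y
      obtain ⟨a, ha⟩ := ho
      obtain ⟨b, hb'⟩ := hoY
      obtain ⟨c, hc⟩ := hoI
      exact ⟨a + b - c, by omega⟩
    have hsm := G.bd_submod X Y
    have hI3 := hB (X ∩ Y) (Finset.inter_subset_left.trans hX) hoI
    have hU3 := hB (X ∪ Y) hU hoU
    have q0 : (G.ed (X \ Y) (Y \ X)).card = 0 := by omega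
    have q1 : (G.bd (X ∩ Y)).card = 3 := by omega
    have q2 : (G.bd (X ∪ Y)).card = 3 := by omega
    have r1 := s1 (X ∩ Y) Finset.inter_subset_left hoI q1
    have r2 : G.mc (M1 ∪ M2) (X ∪ Y) = 1 := by
      rw [← G.mc_compl hM hU]
      apply s2
      · exact Finset.sdiff_subset_sdiff (Finset.Subset.refl _) Finset.subset_union_left
      · exact (odd_compl he hU).2 hoU
      · rw [G.bd_compl hU]; exact q2
    have r3 := s1 X (Finset.Subset.refl _) ho h3
    have := G.mc_submod (M1 ∪ M2) X Y q0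
    omega
  have claim4 : ∀ Y ⊆ G.vs, Even Y.card → (G.bd Y).card = 4 → Odd (X ∩ Y).card →
      ∃ d ∈ G.bd Y, d ∉ M1 ∪ M2 := by
    intro Y hY heY h4Y hoI
    have heY' := even_compl he hY heY
    have h4Y' : (G.bd (G.vs \ Y)).card = 4 := by rw [G.bd_compl hY]; exact h4Y
    by_cases hD : X ∪ Y = G.vs
    · -- the complement of `Y` lies in `X`
      refine four_of_compl hM hY (f1 _ ?_ heY' h4Y')
      intro v hv
      rw [Finset.mem_sdiff, ← hD, Finset.mem_union] at hv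
      rcases hv.1 with h | h
      · exact h
      · exact absurd h hv.2
    by_cases hBe : X ⊆ Y
    · refine four_of_compl hM hY (f2 _ ?_ heY' h4Y')
      exact Finset.sdiff_subset_sdiff (Finset.Subset.refl _) hBe
    have hU : X ∪ Y ⊆ G.vs := Finset.union_subset hX hY
    have hIX := Finset.card_le_card (Finset.inter_subset_left : X ∩ Y ⊆ X)
    have hIY := Finset.card_le_card (Finset.inter_subset_right : X ∩ Y ⊆ Y)
    have hcu := Finset.card_union_add_card_inter X Y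
    obtain ⟨a, ha⟩ := ho
    obtain ⟨b, hb'⟩ := heY
    obtain ⟨c, hc⟩ := hoI
    have heU : Even (X ∪ Y).card := ⟨a + b - c, by omega⟩
    have hoI : Odd (X ∩ Y).card := ⟨c, hc⟩
    have hUn : (X ∪ Y).Nonempty := ⟨z2, Finset.mem_union_left _ hz2⟩
    have hA3 := hB (X ∩ Y) (Finset.inter_subset_left.trans hX) hoI
    have hU4 := hT.evn (X ∪ Y) hU heU hUn hD
    have hsm := G.bd_submod X Y
    have qA : (G.bd (X ∩ Y)).card = 3 := by omega
    -- the other side
    have hC' : (G.vs \ X) ∩ Y = Y \ (X ∩ Y) := by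
      ext v
      simp only [Finset.mem_inter, Finset.mem_sdiff, not_and]
      constructor
      · rintro ⟨⟨_, b⟩, c⟩
        exact ⟨c, fun h => absurd h b⟩
      · rintro ⟨a, b⟩
        exact ⟨⟨hY a, fun h => b h a⟩, a⟩
    have hCc : ((G.vs \ X) ∩ Y).card = Y.card - (X ∩ Y).card := by
      rw [hC', Finset.card_sdiff_of_subset Finset.inter_subset_right]
    have hoC : Odd ((G.vs \ X) ∩ Y).card := ⟨b - c - 1, by omega⟩
    have hU' : (G.vs \ X) ∪ Y ⊆ G.vs := Finset.union_subset Finset.sdiff_subset hY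
    have heU' : Even ((G.vs \ X) ∪ Y).card := by
      have h1 := Finset.card_union_add_card_inter (G.vs \ X) Y
      obtain ⟨k, hk⟩ := hoc
      obtain ⟨l, hl⟩ := hoC
      exact ⟨k + b - l, by omega⟩
    have hne' : (G.vs \ X) ∪ Y ≠ G.vs := by
      intro h
      apply hBe
      intro v hv
      have : v ∈ (G.vs \ X) ∪ Y := by rw [h]; exact hX hv
      rw [Finset.mem_union, Finset.mem_sdiff] at this
      rcases this with h | h
      · exact absurd hv h.2
      · exact h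
    have hUn' : ((G.vs \ X) ∪ Y).Nonempty :=
      ⟨z, Finset.mem_union_left _ (Finset.mem_sdiff.2 hz)⟩
    have hC3 := hB ((G.vs \ X) ∩ Y) (Finset.inter_subset_right.trans hY) hoC
    have hU4' := hT.evn _ hU' heU' hUn' hne'
    have hsm' := G.bd_submod (G.vs \ X) Y
    rw [G.bd_compl hX] at hsm'
    have qC : (G.bd ((G.vs \ X) ∩ Y)).card = 3 := by omega
    have rA := s1 (X ∩ Y) Finset.inter_subset_left hoI qA
    have rC := s2 ((G.vs \ X) ∩ Y) Finset.inter_subset_left hoC qC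
    by_contra hcon
    push Not at hcon
    have hfull : (G.bd Y).filter (fun d => d ∈ M1 ∪ M2) = G.bd Y :=
      Finset.filter_true_of_mem hcon
    have hle : G.mc (M1 ∪ M2) Y ≤ G.mc (M1 ∪ M2) (X ∩ Y) + G.mc (M1 ∪ M2) ((G.vs \ X) ∩ Y) := by
      unfold mc
      refine le_trans (Finset.card_le_card ?_) (Finset.card_union_le _ _)
      intro d hd
      rw [Finset.mem_filter] at hd
      have h5 := G.mem_bd.mp hd.1
      rw [Finset.mem_union, Finset.mem_filter, Finset.mem_filter, G.mem_bd, G.mem_bd]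
      by_cases hdX : G.pi d ∈ X
      · left
        exact ⟨⟨h5.1, Finset.mem_inter.2 ⟨hdX, h5.2.1⟩,
          fun h => h5.2.2 (Finset.mem_inter.1 h).2⟩, hd.2⟩
      · right
        exact ⟨⟨h5.1, Finset.mem_inter.2 ⟨Finset.mem_sdiff.2 ⟨hY h5.2.1, hdX⟩, h5.2.1⟩,
          fun h => h5.2.2 (Finset.mem_inter.1 h).2⟩, hd.2⟩
    have h6 : G.mc (M1 ∪ M2) Y = 4 := by
      unfold mc
      rw [hfull]
      exact h4Y
    omega
  refine ⟨M1 ∪ M2, ⟨hM, ?_, ?_⟩, Finset.mem_union_left _ hd0M⟩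
  · intro Y hY hoY h3Y
    show G.mc (M1 ∪ M2) Y = 1
    by_cases hoI : Odd (X ∩ Y).card
    · exact claim Y hY hoY h3Y hoI
    · rw [← G.mc_compl hM hY]
      apply claim
      · exact Finset.sdiff_subset
      · exact (odd_compl he hY).2 hoY
      · rw [G.bd_compl hY]; exact h3Y
      · exact hpar Y hY hoI
  · intro Y hY heY h4Y
    by_cases hoI : Odd (X ∩ Y).card
    · exact claim4 Y hY heY h4Y hoI
    · exact four_of_compl hM hY (claim4 _ Finset.sdiff_subset (even_compl he hY heY)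
        (by rw [G.bd_compl hY]; exact h4Y) (hpar Y hY hoI))

theorem glue3 {G : JK.CG V D} (hT : TEC G) (hI : IHK G.vs.card V D) {X : Finset V}
    (hX : X ⊆ G.vs) (ho : Odd X.card) (h3 : (G.bd X).card = 3) (hX3 : 3 ≤ X.card)
    (hY3 : 3 ≤ (G.vs \ X).card) : KS G := by
  intro d0 hd
  by_cases hside : G.pi d0 ∈ X ∨ G.pi (G.al d0) ∈ X
  · exact glue3_side hT hI hX ho h3 hX3 hY3 hd hside
  · push Not at hside
    have hcc : G.vs \ (G.vs \ X) = X := by
      rw [Finset.sdiff_sdiff_eq_self hX]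
    exact glue3_side hT hI (X := G.vs \ X) Finset.sdiff_subset
      ((odd_compl hT.evenvs hX).2 ho) (by rw [G.bd_compl hX]; exact h3) hY3
      (by rw [hcc]; exact hX3) hd (Or.inl (Finset.mem_sdiff.2 ⟨G.pi_mem d0 hd, hside.1⟩))

end K

end R5
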