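import Pool.Agent.Lib.R5.KDefs
import Pool.Agent.Lib.JK.CutTwo

/-! R5 module KTwo: 0- and 2-cuts. If an even nonempty proper `X` has `bd X` of size 0 or 2, split
`G`: on each side the two boundary darts are joined (the new edges `h1`, `h2`); solve the side of `h`
first, read the state of the new edge, prescribe it on the other side. An odd `Z`, say `Z ∩ X` odd: the
dart of `bd (Z ∩ X)` in the graph on `X` which is not in both matchings is an old one, or the new edge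
crosses `Z ∩ X`, and counting the non-matching darts mod 2 in `J` and in `N` gives another dart. -/

set_option autoImplicit false

namespace R5

open Finset Classical

namespace K

variable {V D : Type*}

/-- restriction to a set without boundary -/
noncomputable def kres (G : JK.CG V D) (X : Finset V) (hX : X ⊆ G.vs) (h0 : G.bd X = ∅) :
    JK.CG V D where
  vs := X
  ds := G.ds.filter fun d => G.pi d ∈ X
  pi := G.pi
  al := G.al
  pi_mem := fun d hd => (mem_filter.1 hd).2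
  al_mem := by
    intro d hd
    rw [mem_filter] at hd ⊢
    refine ⟨G.al_mem d hd.1, ?_⟩
    by_contra hc
    have h1 : d ∈ G.bd X := (G.mem_bd).2 ⟨hd.1, hd.2, hc⟩
    rw [h0] at h1
    exact absurd h1 (notMem_empty _)
  al_al := fun d hd => G.al_al d (mem_filter.1 hd).1
  cubic := by
    intro v hv
    rw [← G.cubic v (hX hv), filter_filter]
    congr 1
    ext d
    simp only [mem_filter]
    constructor
    · rintro ⟨h1, _, h3⟩
      exact ⟨h1, h3⟩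
    · rintro ⟨h1, h3⟩
      exact ⟨h1, by rw [h3]; exact hv, h3⟩

lemma ktwo_lone {H : JK.CG V D} (ht : H.tk H.vs = ∅) {J N : Finset D} (hP : Pair H J N)
    {Z : Finset V} (hZ : Z ⊆ H.vs) {e : D} (he : e ∈ H.bd Z) (hne : ¬ (e ∈ J ∧ e ∈ N))
    (hall : ∀ d ∈ H.bd Z, d ≠ e → d ∈ J ∧ d ∈ N) : False := by
  have htZ : H.tk Z = ∅ := JK.CG.tk_eq_empty ht Z
  have key : ∀ M : Finset D, H.IsPM M → e ∉ M → (∀ d ∈ H.bd Z, d ≠ e → d ∈ M) → False := by
    intro M hM heM hd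
    have h1 := hM.even_compl hZ htZ
    have h2 : ((H.bd Z).filter fun d => d ∉ M) = {e} := by
      ext d
      rw [mem_filter, mem_singleton]
      constructor
      · rintro ⟨h3, h4⟩
        by_contra h5
        exact h4 (hd d h3 h5)
      · rintro rfl
        exact ⟨he, heM⟩
    rw [h2, card_singleton] at h1
    exact absurd h1 (by decide)
  by_cases h1 : e ∈ J
  · exact key N hP.n (fun h2 => hne ⟨h1, h2⟩) (fun d hd hde => (hall d hd hde).2)
  · exact key J hP.j h1 (fun d hd hde => (hall d hd hde).1)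

/-- one side of a 2-cut -/
lemma ktwo_side {G : JK.CG V D} (ht : G.tk G.vs = ∅) {R : Finset V} {p q : D} (h : G.RJ R p q)
    {J N : Finset D} (hP : Pair h.gr J N) {Z : Finset V} (hZ : Z ⊆ R) (ho : Odd Z.card) :
    ∃ d ∈ G.bd Z, G.pi (G.al d) ∈ R ∧ ¬ (d ∈ J ∧ d ∈ N) := by
  by_contra hcon
  push Not at hcon
  have htg : h.gr.tk h.gr.vs = ∅ := by
    show h.gr.tk R = ∅
    rw [h.gr_tk (subset_refl R)]
    exact JK.CG.tk_eq_empty ht R
  have h1 : ∀ d ∈ h.gr.bd Z, d ≠ p → d ≠ q → d ∈ J ∧ d ∈ N := by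
    intro d hd hp hq
    rw [JK.CG.mem_bd, h.mem_gr_ds, h.gr_al_of hp hq] at hd
    exact hcon d ((G.mem_bd).2 ⟨hd.1.1, hd.2.1, hd.2.2⟩) (h.in_of hd.1.1 hd.1.2 hp hq)
  obtain ⟨d0, hd0, hn⟩ := hP.odd Z hZ ho
  have h2 : d0 = p ∨ d0 = q := by
    by_contra h3
    push Not at h3
    exact hn (h1 d0 hd0 h3.1 h3.2)
  refine ktwo_lone htg hP hZ hd0 hn ?_
  rcases h2 with rfl | rfl
  · intro d hd hde
    refine h1 d hd hde ?_
    rintro rfl
    rw [JK.CG.mem_bd, h.gr_al_p] at hd0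
    rw [JK.CG.mem_bd] at hd
    exact hd0.2.2 hd.2.1
  · intro d hd hde
    refine h1 d hd ?_ hde
    rintro rfl
    rw [JK.CG.mem_bd, h.gr_al_q] at hd0
    rw [JK.CG.mem_bd] at hd
    exact hd0.2.2 hd.2.1

/-- gluing the pairs of the two sides -/
lemma ktwo_glue {G : JK.CG V D} {X : Finset V} {J1 N1 J2 N2 : Finset D}
    (pJ : G.IsPM (J2 ∪ J1)) (pN : G.IsPM (N2 ∪ N1))
    (sJ1 : ∀ d ∈ J1, G.pi d ∈ X) (sN1 : ∀ d ∈ N1, G.pi d ∈ X)
    (sJ2 : ∀ d ∈ J2, G.pi d ∉ X) (sN2 : ∀ d ∈ N2, G.pi d ∉ X)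
    (o1 : ∀ Z ⊆ X, Odd Z.card → ∃ d ∈ G.bd Z, G.pi (G.al d) ∈ X ∧ ¬ (d ∈ J1 ∧ d ∈ N1))
    (o2 : ∀ Z ⊆ G.vs \ X, Odd Z.card →
      ∃ d ∈ G.bd Z, G.pi (G.al d) ∈ G.vs \ X ∧ ¬ (d ∈ J2 ∧ d ∈ N2)) :
    Pair G (J2 ∪ J1) (N2 ∪ N1) := by
  refine ⟨pJ, pN, ?_⟩
  intro Z hZ ho
  have hc : (Z ∩ X).card + (Z \ X).card = Z.card := card_inter_add_card_sdiff Z X
  by_cases h1 : Odd (Z ∩ X).card
  · obtain ⟨d, hd, hin, hn⟩ := o1 (Z ∩ X) inter_subset_right h1
    rw [JK.CG.mem_bd, mem_inter, mem_inter] at hd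
    refine ⟨d, (G.mem_bd).2 ⟨hd.1, hd.2.1.1, fun h2 => hd.2.2 ⟨h2, hin⟩⟩, ?_⟩
    rintro ⟨h3, h4⟩
    apply hn
    refine ⟨?_, ?_⟩
    · rcases mem_union.1 h3 with h5 | h5
      · exact absurd hd.2.1.2 (sJ2 d h5)
      · exact h5
    · rcases mem_union.1 h4 with h5 | h5
      · exact absurd hd.2.1.2 (sN2 d h5)
      · exact h5
  · have h2 : Odd (Z \ X).card := by
      rw [← hc, Nat.odd_add'] at ho
      exact ho.2 (Nat.not_odd_iff_even.1 h1)
    obtain ⟨d, hd, hin, hn⟩ := o2 (Z \ X)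
      (fun v hv => mem_sdiff.2 ⟨hZ (mem_sdiff.1 hv).1, (mem_sdiff.1 hv).2⟩) h2
    rw [JK.CG.mem_bd, mem_sdiff, mem_sdiff] at hd
    refine ⟨d, (G.mem_bd).2 ⟨hd.1, hd.2.1.1, fun h3 => hd.2.2 ⟨h3, (mem_sdiff.1 hin).2⟩⟩, ?_⟩
    rintro ⟨h3, h4⟩
    apply hn
    refine ⟨?_, ?_⟩
    · rcases mem_union.1 h3 with h5 | h5
      · exact h5
      · exact absurd (sJ1 d h5) hd.2.1.2
    · rcases mem_union.1 h4 with h5 | h5
      · exact h5
      · exact absurd (sN1 d h5) hd.2.1.2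

/-- a side of a 2-cut is again in the class -/
lemma ktwo_gr {G : JK.CG V D} (ht : G.tk G.vs = ∅) (hb : G.B0) {R : Finset V} {p q : D}
    (h : G.RJ R p q) (he : Even R.card) :
    Even h.gr.vs.card ∧ h.gr.tk h.gr.vs = ∅ ∧ h.gr.B0 := by
  have htk : ∀ Y ⊆ R, h.gr.tk Y = ∅ := by
    intro Y hY
    rw [h.gr_tk hY]
    exact JK.CG.tk_eq_empty ht Y
  refine ⟨he, htk R (subset_refl R), ?_⟩
  intro Y hY ho
  have hYR : Y ⊆ R := hY
  unfold JK.CG.dg
  rw [htk Y hYR, card_empty, add_zero]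
  by_cases h1 : G.pi p ∈ Y ∧ G.pi q ∈ Y
  · rw [h.gr_bd_both hYR h1.1, ← JK.CG.dg_eq_bd ht]
    apply hb _ (sdiff_subset.trans h.sub)
    have h2 := card_sdiff_add_card_eq_card hYR
    rw [← h2, Nat.even_add] at he
    by_contra h3
    exact (Nat.not_even_iff_odd.2 ho) (he.1 (Nat.not_odd_iff_even.1 h3))
  · rw [h.gr_bd hYR h1, ← JK.CG.dg_eq_bd ht]
    exact hb _ (hYR.trans h.sub) ho

/-- gluing perfect matchings across a 2-cut -/
lemma ktwo_pm {G : JK.CG V D} {R : Finset V} {p q : D} (h : G.RJ R p q) {M1 M2 : Finset D}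
    (h1 : h.gr.IsPM M1) (h2 : h.compl.gr.IsPM M2) (hp : G.al p ∈ M2 ↔ p ∈ M1) :
    G.IsPM (M2 ∪ M1) := by
  have hq1 : q ∈ M1 ↔ p ∈ M1 := by
    constructor
    · intro h3
      have h4 := h1.closed q h3
      rwa [h.gr_al_q] at h4
    · intro h3
      have h4 := h1.closed p h3
      rwa [h.gr_al_p] at h4
  have hq2 : G.al q ∈ M2 ↔ G.al p ∈ M2 := by
    constructor
    · intro h3
      have h4 := h2.closed _ h3
      rwa [h.compl.gr_al_q] at h4
    · intro h3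
      have h4 := h2.closed _ h3
      rwa [h.compl.gr_al_p] at h4
  have s1 : ∀ d ∈ M1, d ∈ G.ds ∧ G.pi d ∈ R := fun d hd => (h.mem_gr_ds).1 (h1.sub hd)
  have s2 : ∀ d ∈ M2, d ∈ G.ds ∧ G.pi d ∈ G.vs \ R := fun d hd =>
    (h.compl.mem_gr_ds).1 (h2.sub hd)
  apply JK.CG.pm_sides (X := R)
  · exact fun d hd => ⟨(s2 d hd).1, (mem_sdiff.1 (s2 d hd).2).2⟩
  · exact s1
  · intro d hd
    rw [mem_union]
    by_cases h3 : d = G.al p
    · right
      rw [h3, G.al_al p h.mp.1]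
      exact hp.1 (h3 ▸ hd)
    · by_cases h4 : d = G.al q
      · right
        rw [h4, G.al_al q h.mq.1]
        exact hq1.2 (hp.1 (hq2.1 (h4 ▸ hd)))
      · left
        have h5 := h2.closed d hd
        rwa [h.compl.gr_al_of h3 h4] at h5
  · intro d hd
    rw [mem_union]
    by_cases h3 : d = p
    · left
      rw [h3]
      exact hp.2 (h3 ▸ hd)
    · by_cases h4 : d = q
      · left
        rw [h4]
        exact hq2.2 (hp.2 (hq1.1 (h4 ▸ hd)))
      · right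
        have h5 := h1.closed d hd
        rwa [h.gr_al_of h3 h4] at h5
  · intro d hd he
    by_cases h3 : d = G.al p
    · rw [h3, G.al_al p h.mp.1] at he
      exact h.mp.2.2 (by rw [← he]; exact h.mp.2.1)
    · by_cases h4 : d = G.al q
      · rw [h4, G.al_al q h.mq.1] at he
        exact h.mq.2.2 (by rw [← he]; exact h.mq.2.1)
      · have h5 := h2.notok d hd
        rw [h.compl.gr_al_of h3 h4] at h5
        exact h5 he
  · intro d hd he
    by_cases h3 : d = p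
    · rw [h3] at he
      exact h.mp.2.2 (by rw [he]; exact h.mp.2.1)
    · by_cases h4 : d = q
      · rw [h4] at he
        exact h.mq.2.2 (by rw [he]; exact h.mq.2.1)
      · have h5 := h1.notok d hd
        rw [h.gr_al_of h3 h4] at h5
        exact h5 he
  · intro v hv hR
    exact h2.one v (mem_sdiff.2 ⟨hv, hR⟩)
  · intro v _ hR
    exact h1.one v hR

/-- the case of a 2-cut, dart in `R` -/
lemma ktwo_two {G : JK.CG V D} (hev : Even G.vs.card) (ht : G.tk G.vs = ∅) (hb : G.B0)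
    (ih : ∀ G' : JK.CG V D, G'.vs.card < G.vs.card → Even G'.vs.card → G'.tk G'.vs = ∅ → G'.B0 →
      P4 G') {R : Finset V} {p q : D} (h : G.RJ R p q) (he : Even R.card)
    (hl : R.card < G.vs.card) (hl' : (G.vs \ R).card < G.vs.card) {x : D} (hx : x ∈ G.ds)
    (hxR : G.pi x ∈ R) (a b : Prop) :
    ∃ J N, Pair G J N ∧ (x ∈ J ↔ a) ∧ (x ∈ N ↔ b) := by
  have heR' : Even (G.vs \ R).card := by
    have h2 := card_sdiff_add_card_eq_card h.sub
    rw [← h2, Nat.even_add] at hev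
    exact hev.2 he
  obtain ⟨g1, g2, g3⟩ := ktwo_gr ht hb h he
  obtain ⟨k1, k2, k3⟩ := ktwo_gr ht hb h.compl heR'
  obtain ⟨J1, N1, hP1, ha, hbb⟩ := ih h.gr hl g1 g2 g3 x ((h.mem_gr_ds).2 ⟨hx, hxR⟩) a b
  obtain ⟨J2, N2, hP2, hc, hd⟩ := ih h.compl.gr hl' k1 k2 k3 (G.al p)
    ((h.compl.mem_gr_ds).2 ⟨h.compl.mp.1, h.compl.mp.2.1⟩) (p ∈ J1) (p ∈ N1)
  have s1 : ∀ M, h.gr.IsPM M → ∀ d ∈ M, G.pi d ∈ R := fun M hM d hd =>
    ((h.mem_gr_ds).1 (hM.sub hd)).2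
  have s2 : ∀ M, h.compl.gr.IsPM M → ∀ d ∈ M, G.pi d ∉ R := fun M hM d hd =>
    (mem_sdiff.1 ((h.compl.mem_gr_ds).1 (hM.sub hd)).2).2
  refine ⟨J2 ∪ J1, N2 ∪ N1, ktwo_glue (X := R) (ktwo_pm h hP1.j hP2.j hc)
    (ktwo_pm h hP1.n hP2.n hd) (s1 _ hP1.j) (s1 _ hP1.n) (s2 _ hP2.j) (s2 _ hP2.n) ?_ ?_, ?_, ?_⟩
  · intro Z hZ ho
    exact ktwo_side ht h hP1 hZ ho
  · intro Z hZ ho
    exact ktwo_side ht h.compl hP2 hZ ho
  · rw [mem_union, ← ha]
    exact ⟨fun h3 => h3.resolve_left fun h4 => s2 _ hP2.j _ h4 hxR, Or.inr⟩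
  · rw [mem_union, ← hbb]
    exact ⟨fun h3 => h3.resolve_left fun h4 => s2 _ hP2.n _ h4 hxR, Or.inr⟩

/-- the case of a 0-cut, dart in `X` -/
lemma ktwo_zero {G : JK.CG V D} (hev : Even G.vs.card) (ht : G.tk G.vs = ∅) (hb : G.B0)
    (ih : ∀ G' : JK.CG V D, G'.vs.card < G.vs.card → Even G'.vs.card → G'.tk G'.vs = ∅ → G'.B0 →
      P4 G') {X : Finset V} (hX : X ⊆ G.vs) (h0 : G.bd X = ∅) (he : Even X.card)
    (hl : X.card < G.vs.card) (hn : (G.vs \ X).Nonempty) (hl' : (G.vs \ X).card < G.vs.card)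
    {x : D} (hx : x ∈ G.ds) (hxX : G.pi x ∈ X) (a b : Prop) :
    ∃ J N, Pair G J N ∧ (x ∈ J ↔ a) ∧ (x ∈ N ↔ b) := by
  have heX' : Even (G.vs \ X).card := by
    have h2 := card_sdiff_add_card_eq_card hX
    rw [← h2, Nat.even_add] at hev
    exact hev.2 he
  have h0' : G.bd (G.vs \ X) = ∅ := by
    rw [G.bd_compl_eq hX, h0, image_empty]
  have gen : ∀ (Y : Finset V) (hY : Y ⊆ G.vs) (h1 : G.bd Y = ∅), Even Y.card →
      Y.card < G.vs.card → P4 (kres G Y hY h1) := by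
    intro Y hY h1 h2 h3
    have hbd : ∀ U ⊆ Y, (kres G Y hY h1).bd U = G.bd U := by
      intro U hU
      ext d
      rw [JK.CG.mem_bd, JK.CG.mem_bd]
      show d ∈ G.ds.filter (fun d => G.pi d ∈ Y) ∧ G.pi d ∈ U ∧ G.pi (G.al d) ∉ U ↔ _
      rw [mem_filter]
      exact ⟨fun h4 => ⟨h4.1.1, h4.2.1, h4.2.2⟩, fun h4 => ⟨⟨h4.1, hU h4.2.1⟩, h4.2.1, h4.2.2⟩⟩
    have htk : ∀ U, (kres G Y hY h1).tk U = ∅ := by
      intro U
      rw [eq_empty_iff_forall_notMem]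
      intro d hd
      rw [JK.CG.mem_tk] at hd
      have h4 : d ∈ G.tk G.vs := (G.mem_tk).2
        ⟨(mem_filter.1 hd.1).1, G.pi_mem d (mem_filter.1 hd.1).1, hd.2.2⟩
      rw [ht] at h4
      exact absurd h4 (notMem_empty _)
    refine ih _ h3 h2 (htk _) ?_
    intro U hU ho
    unfold JK.CG.dg
    rw [htk, hbd U hU, card_empty, add_zero, ← JK.CG.dg_eq_bd ht]
    exact hb U (hU.trans hY) ho
  have side : ∀ (Y : Finset V) (hY : Y ⊆ G.vs) (h1 : G.bd Y = ∅) (J N : Finset D),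
      Pair (kres G Y hY h1) J N → ∀ Z ⊆ Y, Odd Z.card →
      ∃ d ∈ G.bd Z, G.pi (G.al d) ∈ Y ∧ ¬ (d ∈ J ∧ d ∈ N) := by
    intro Y hY h1 J N hP Z hZ ho
    obtain ⟨d, hd, hn⟩ := hP.odd Z hZ ho
    rw [JK.CG.mem_bd] at hd
    have hd1 := mem_filter.1 hd.1
    refine ⟨d, (G.mem_bd).2 ⟨hd1.1, hd.2.1, hd.2.2⟩, ?_, hn⟩
    by_contra hc
    have h2 : d ∈ G.bd Y := (G.mem_bd).2 ⟨hd1.1, hd1.2, hc⟩
    rw [h1] at h2
    exact absurd h2 (notMem_empty _)
  obtain ⟨J1, N1, hP1, ha, hbb⟩ := gen X hX h0 he hl x (mem_filter.2 ⟨hx, hxX⟩) a b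
  obtain ⟨v, hv⟩ := hn
  have hvd : ∃ y, y ∈ G.ds ∧ G.pi y = v := by
    have h1 := G.cubic v (mem_sdiff.1 hv).1
    have h2 : (G.ds.filter fun d => G.pi d = v).Nonempty := by
      rw [← card_pos, h1]
      norm_num
    obtain ⟨y, hy⟩ := h2
    exact ⟨y, (mem_filter.1 hy).1, (mem_filter.1 hy).2⟩
  obtain ⟨y, hy, hyv⟩ := hvd
  obtain ⟨J2, N2, hP2, -, -⟩ := gen (G.vs \ X) sdiff_subset h0' heX' hl' y
    (mem_filter.2 ⟨hy, by rw [hyv]; exact hv⟩) True True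
  have s1 : ∀ M, (kres G X hX h0).IsPM M → ∀ d ∈ M, d ∈ G.ds ∧ G.pi d ∈ X := fun M hM d hd =>
    mem_filter.1 (hM.sub hd)
  have s2 : ∀ M, (kres G (G.vs \ X) sdiff_subset h0').IsPM M → ∀ d ∈ M,
      d ∈ G.ds ∧ G.pi d ∉ X := fun M hM d hd =>
    ⟨(mem_filter.1 (hM.sub hd)).1, (mem_sdiff.1 (mem_filter.1 (hM.sub hd)).2).2⟩
  have pm : ∀ M1 M2, (kres G X hX h0).IsPM M1 →
      (kres G (G.vs \ X) sdiff_subset h0').IsPM M2 → G.IsPM (M2 ∪ M1) := by
    intro M1 M2 h1 h2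
    apply JK.CG.pm_sides (X := X) (s2 M2 h2) (s1 M1 h1)
    · exact fun d hd => mem_union_left _ (h2.closed d hd)
    · exact fun d hd => mem_union_right _ (h1.closed d hd)
    · exact fun d hd => h2.notok d hd
    · exact fun d hd => h1.notok d hd
    · intro v hv hvX
      exact h2.one v (mem_sdiff.2 ⟨hv, hvX⟩)
    · intro v _ hvX
      exact h1.one v hvX
  refine ⟨J2 ∪ J1, N2 ∪ N1, ktwo_glue (X := X) (pm _ _ hP1.j hP2.j) (pm _ _ hP1.n hP2.n)
    (fun d hd => (s1 _ hP1.j d hd).2) (fun d hd => (s1 _ hP1.n d hd).2)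
    (fun d hd => (s2 _ hP2.j d hd).2) (fun d hd => (s2 _ hP2.n d hd).2)
    (side X hX h0 J1 N1 hP1) (side (G.vs \ X) sdiff_subset h0' J2 N2 hP2), ?_, ?_⟩
  · rw [mem_union, ← ha]
    exact ⟨fun h3 => h3.resolve_left fun h4 => (s2 _ hP2.j _ h4).2 hxX, Or.inr⟩
  · rw [mem_union, ← hbb]
    exact ⟨fun h3 => h3.resolve_left fun h4 => (s2 _ hP2.n _ h4).2 hxX, Or.inr⟩

theorem two_cut (hP : ∀ G : JK.CG V D, TEC G → P4 G) :
    ∀ G : JK.CG V D, Even G.vs.card → G.tk G.vs = ∅ → G.B0 → P4 G := by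
  intro G
  induction hn : G.vs.card using Nat.strong_induction_on generalizing G with
  | _ n ih =>
    intro hev ht hb
    have ih' : ∀ G' : JK.CG V D, G'.vs.card < G.vs.card → Even G'.vs.card →
        G'.tk G'.vs = ∅ → G'.B0 → P4 G' := fun G' h1 h2 h3 h4 =>
      ih _ (by rw [← hn]; exact h1) G' rfl h2 h3 h4
    rw [← hn] at hev
    by_cases hT : ∀ X ⊆ G.vs, Even X.card → X.Nonempty → X ≠ G.vs → 4 ≤ (G.bd X).card
    · exact hP G ⟨hev, ht, hb, hT⟩
    · push Not at hT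
      obtain ⟨X, hX, he, hne, hXne, hlt⟩ := hT
      have hpar : Even (G.bd X).card := by
        have h3 := G.dg_parity hX
        rw [JK.CG.dg_eq_bd ht] at h3
        by_contra h4
        exact (Nat.not_odd_iff_even.2 he) (h3.1 (Nat.not_even_iff_odd.1 h4))
      have hXpos : 0 < X.card := card_pos.2 hne
      have hcard := card_sdiff_add_card_eq_card hX
      have hltX : X.card < G.vs.card := card_lt_card (Finset.ssubset_iff_subset_ne.2 ⟨hX, hXne⟩)
      have hl' : (G.vs \ X).card < G.vs.card := by omega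
      have hne' : (G.vs \ X).Nonempty := by
        rw [← card_pos]
        omega
      have hss : G.vs \ (G.vs \ X) = X := Finset.sdiff_sdiff_eq_self hX
      have heX' : Even (G.vs \ X).card := by
        rw [← hcard, Nat.even_add] at hev
        exact hev.2 he
      have hc : (G.bd X).card = 0 ∨ (G.bd X).card = 2 := by
        obtain ⟨k, hk⟩ := hpar
        omega
      intro x hx a b
      rcases hc with hc | hc
      · have h0 : G.bd X = ∅ := card_eq_zero.1 hc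
        by_cases hxX : G.pi x ∈ X
        · exact ktwo_zero hev ht hb ih' hX h0 he hltX hne' hl' hx hxX a b
        · have h0' : G.bd (G.vs \ X) = ∅ := by
            rw [G.bd_compl_eq hX, h0, image_empty]
          refine ktwo_zero hev ht hb ih' sdiff_subset h0' heX' hl' ?_ ?_ hx
            (mem_sdiff.2 ⟨G.pi_mem x hx, hxX⟩) a b
          · rw [hss]; exact hne
          · rw [hss]; exact hltX
      · obtain ⟨p, q, hpq, hbdX⟩ := card_eq_two.1 hc
        have hin : G.RJ X p q := by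
          refine ⟨hX, hpq, ?_⟩
          intro d
          rw [hbdX, mem_insert, mem_singleton]
        by_cases hxX : G.pi x ∈ X
        · exact ktwo_two hev ht hb ih' hin he hltX hl' hx hxX a b
        · refine ktwo_two hev ht hb ih' hin.compl heX' hl' ?_ hx
            (mem_sdiff.2 ⟨G.pi_mem x hx, hxX⟩) a b
          rw [hss]; exact hltX

end K

end R5
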