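import Pool.Agent.Lib.R5.KPair
import Pool.Agent.Lib.R5.KTwo

/-! R5 module KTop: the frozen statement S11409 from `StarThm`. -/

set_option autoImplicit false

namespace R5

open Finset Classical

private lemma ktop_two (h : ∀ V D : Type, DG.StarThm V D) {V : Type} [Fintype V]
    (G : SimpleGraph V) (hc : ∀ v : V, (G.neighborSet v).ncard = 3)
    (hb : ∀ v w : V, G.Adj v w → (G.deleteEdges {s(v, w)}).Reachable v w) :
    ∃ M1 M2, (JK.ofSG G hc).IsPM M1 ∧ (JK.ofSG G hc).IsPM M2 ∧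
      ∀ Z : Finset V, Odd Z.card → ∃ d ∈ (JK.ofSG G hc).bd Z, d ∉ M1 ∩ M2 := by
  rcases isEmpty_or_nonempty V with hV | ⟨⟨v0⟩⟩
  · have hpm : (JK.ofSG G hc).IsPM ∅ :=
      ⟨empty_subset _, by simp, by simp, fun v _ => (hV.false v).elim⟩
    refine ⟨∅, ∅, hpm, hpm, ?_⟩
    intro Z hZ
    have : Z = ∅ := eq_empty_of_isEmpty Z
    subst this
    simp at hZ
  · have hcub := (JK.ofSG G hc).cubic v0 (mem_univ v0)
    have hne : ((JK.ofSG G hc).ds.filter fun d => (JK.ofSG G hc).pi d = v0).Nonempty := by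
      rw [← card_pos, hcub]; norm_num
    obtain ⟨d0, hd0⟩ := hne
    have hd0' := (mem_filter.1 hd0).1
    have hP : K.P4 (JK.ofSG G hc) :=
      K.two_cut (fun G' hT => K.pair_tec (h V ((V × V) × Bool)) hT) (JK.ofSG G hc)
        (JK.ofSG_even G hc) (JK.ofSG_tk G hc) (JK.ofSG_b0 G hc hb)
    obtain ⟨J, N, hJN, -, -⟩ := hP d0 hd0' True True
    refine ⟨J, N, hJN.j, hJN.n, fun Z hodd => ?_⟩
    obtain ⟨d, hd, hd'⟩ := hJN.odd Z (subset_univ _) hodd
    exact ⟨d, hd, fun h => hd' (mem_inter.1 h)⟩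

/-- the complement of a perfect matching -/
private def kcompl {V : Type} [Fintype V] (G : SimpleGraph V)
    (hc : ∀ v : V, (G.neighborSet v).ncard = 3) (M : Finset (V × V))
    (hM : (JK.ofSG G hc).IsPM M) : SimpleGraph V where
  Adj v w := G.Adj v w ∧ (v, w) ∉ M
  symm := ⟨fun v w h => ⟨h.1.symm, fun hw => h.2 (hM.closed (w, v) hw)⟩⟩
  loopless := ⟨fun v h => G.loopless.irrefl v h.1⟩

private lemma kcompl_le {V : Type} [Fintype V] (G : SimpleGraph V)
    (hc : ∀ v : V, (G.neighborSet v).ncard = 3) (M : Finset (V × V))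
    (hM : (JK.ofSG G hc).IsPM M) : kcompl G hc M hM ≤ G := fun _ _ h => h.1

private lemma kcompl_card {V : Type} [Fintype V] (G : SimpleGraph V)
    (hc : ∀ v : V, (G.neighborSet v).ncard = 3) (M : Finset (V × V))
    (hM : (JK.ofSG G hc).IsPM M) (v : V) : ((kcompl G hc M hM).neighborSet v).ncard = 2 := by
  obtain ⟨d, hd⟩ := Finset.card_eq_one.1 (hM.one v (Finset.mem_univ v))
  have hd1 : d ∈ M ∧ d.1 = v := by
    have : d ∈ M.filter fun d => (JK.ofSG G hc).pi d = v := by rw [hd]; simp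
    rw [Finset.mem_filter] at this
    exact this
  obtain ⟨a, w⟩ := d
  obtain ⟨hm, rfl⟩ := hd1
  have hadj : G.Adj a w := by
    have := hM.sub hm
    simpa [JK.ofSG] using this
  have hset : (kcompl G hc M hM).neighborSet a = G.neighborSet a \ {w} := by
    ext x
    simp only [SimpleGraph.mem_neighborSet, Set.mem_sdiff, Set.mem_singleton_iff]
    constructor
    · rintro ⟨h1, h2⟩
      refine ⟨h1, ?_⟩
      rintro rfl
      exact h2 hm
    · rintro ⟨h1, h2⟩
      refine ⟨h1, fun h3 => h2 ?_⟩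
      have : (a, x) ∈ M.filter fun d => (JK.ofSG G hc).pi d = a := by
        rw [Finset.mem_filter]
        exact ⟨h3, rfl⟩
      rw [hd, Finset.mem_singleton] at this
      exact (Prod.ext_iff.1 this).2
  rw [hset, Set.ncard_sdiff_singleton_of_mem (show w ∈ G.neighborSet a from hadj), hc]

theorem final_star (h : ∀ V D : Type, DG.StarThm V D) :
    ∀ (V : Type) [Fintype V] (G : SimpleGraph V),
      (∀ v : V, (G.neighborSet v).ncard = 3) →
      (∀ v w : V, G.Adj v w → (G.deleteEdges {s(v, w)}).Reachable v w) →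
      ∃ F₁ F₂ C : SimpleGraph V,
        F₁ ≤ G ∧ F₂ ≤ G ∧ C ≤ G ∧
        (∀ v : V, (F₁.neighborSet v).ncard = 2) ∧
        (∀ v : V, (F₂.neighborSet v).ncard = 2) ∧
        (∀ v : V, Even ((C.neighborSet v).ncard)) ∧
        F₁ ⊔ F₂ ⊔ C = G := by
  intro V _ G hc hb
  obtain ⟨M1, M2, h1, h2, hZ⟩ := ktop_two h G hc hb
  obtain ⟨C, hC, hT, hev⟩ := JK.exists_even G hc (M1 ∩ M2)
    (fun d hd => by
      have := h1.sub (Finset.mem_inter.1 hd).1
      simpa [JK.ofSG] using this)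
    (fun d hd => Finset.mem_inter.2 ⟨h1.closed d (Finset.mem_inter.1 hd).1,
      h2.closed d (Finset.mem_inter.1 hd).2⟩)
    hZ
  refine ⟨kcompl G hc M1 h1, kcompl G hc M2 h2, C, kcompl_le G hc M1 h1, kcompl_le G hc M2 h2,
    hC, kcompl_card G hc M1 h1, kcompl_card G hc M2 h2, hev, ?_⟩
  ext v w
  simp only [SimpleGraph.sup_adj]
  constructor
  · rintro ((h | h) | h)
    · exact h.1
    · exact h.1
    · exact hC h
  · intro h
    by_cases hm1 : (v, w) ∈ M1
    · by_cases hm2 : (v, w) ∈ M2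
      · exact Or.inr (hT _ (Finset.mem_inter.2 ⟨hm1, hm2⟩))
      · exact Or.inl (Or.inr ⟨h, hm2⟩)
    · exact Or.inl (Or.inl ⟨h, hm1⟩)

end R5
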