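import Pool.Agent.Lib.R5.Basic

/-! R5 module Res: the restriction `G.res Z hZ`. -/

set_option autoImplicit false

namespace R5

open Finset Classical

namespace DG

variable {V D : Type*} (G : DG V D) {Z : Finset V} (hZ : Z ⊆ G.vs)

theorem res_vs : (G.res Z hZ).vs = Z := rfl

theorem res_pi : (G.res Z hZ).pi = G.pi := rfl

private theorem mem_res_ds {d : D} : d ∈ (G.res Z hZ).ds ↔ d ∈ G.ds ∧ G.pi d ∈ Z := by
  show d ∈ G.ds.filter (fun d => G.pi d ∈ Z) ↔ _
  exact mem_filter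

private theorem res_al_pos {d : D} (h : G.pi (G.al d) ∈ Z) : (G.res Z hZ).al d = G.al d := by
  show (if G.pi (G.al d) ∈ Z then G.al d else d) = _
  exact if_pos h

private theorem res_al_neg {d : D} (h : G.pi (G.al d) ∉ Z) : (G.res Z hZ).al d = d := by
  show (if G.pi (G.al d) ∈ Z then G.al d else d) = _
  exact if_neg h

/-- the tokens of the restriction are the legs of `Z` -/
theorem res_tk : (G.res Z hZ).tk Z = G.lg Z := by
  ext d
  unfold tk lg
  rw [mem_filter, mem_filter, mem_res_ds, res_pi]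
  constructor
  · rintro ⟨⟨h1, h2⟩, -, h3⟩
    refine ⟨h1, h2, ?_⟩
    by_cases h : G.pi (G.al d) ∈ Z
    · rw [res_al_pos G hZ h] at h3
      exact Or.inr h3
    · exact Or.inl h
  · rintro ⟨h1, h2, h3⟩
    refine ⟨⟨h1, h2⟩, h2, ?_⟩
    by_cases h : G.pi (G.al d) ∈ Z
    · rw [res_al_pos G hZ h]
      exact h3.resolve_left (fun h' => h' h)
    · exact res_al_neg G hZ h

/-- live darts: the boundary inside `Z` -/
theorem res_bd {X : Finset V} (hX : X ⊆ Z) :
    (G.res Z hZ).bd X = (G.bd X).filter fun d => G.pi (G.al d) ∈ Z := by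
  ext d
  unfold bd
  rw [mem_filter, mem_filter, mem_filter, mem_res_ds, res_pi]
  constructor
  · rintro ⟨⟨h1, h2⟩, h3, h4⟩
    by_cases h : G.pi (G.al d) ∈ Z
    · rw [res_al_pos G hZ h] at h4
      exact ⟨⟨h1, h3, h4⟩, h⟩
    · rw [res_al_neg G hZ h] at h4
      exact absurd h3 h4
  · rintro ⟨⟨h1, h3, h4⟩, h⟩
    refine ⟨⟨h1, hX h3⟩, h3, ?_⟩
    rw [res_al_pos G hZ h]
    exact h4

private theorem res_tk_union {X : Finset V} (hX : X ⊆ Z) :
    (G.res Z hZ).tk X = G.tk X ∪ ((G.bd X).filter fun d => ¬ G.pi (G.al d) ∈ Z) := by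
  ext d
  unfold tk bd
  rw [mem_filter, mem_union, mem_filter, mem_filter, mem_filter, mem_res_ds, res_pi]
  constructor
  · rintro ⟨⟨h1, h2⟩, h3, h4⟩
    by_cases h : G.pi (G.al d) ∈ Z
    · rw [res_al_pos G hZ h] at h4
      exact Or.inl ⟨h1, h3, h4⟩
    · exact Or.inr ⟨⟨h1, h3, fun h' => h (hX h')⟩, h⟩
  · rintro (⟨h1, h3, h4⟩ | ⟨⟨h1, h3, h4⟩, h⟩)
    · refine ⟨⟨h1, hX h3⟩, h3, ?_⟩
      have h : G.pi (G.al d) ∈ Z := by rw [h4]; exact hX h3
      rw [res_al_pos G hZ h]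
      exact h4
    · exact ⟨⟨h1, hX h3⟩, h3, res_al_neg G hZ h⟩

theorem res_dg {X : Finset V} (hX : X ⊆ Z) : (G.res Z hZ).dg X = G.dg X := by
  have hd : Disjoint (G.tk X) ((G.bd X).filter fun d => ¬ G.pi (G.al d) ∈ Z) := by
    rw [Finset.disjoint_left]
    intro d h1 h2
    unfold tk at h1
    unfold bd at h2
    rw [mem_filter] at h1
    rw [mem_filter, mem_filter] at h2
    have h3 := h2.1.2.2
    rw [h1.2.2] at h3
    exact h3 h1.2.1
  have h1 := card_filter_add_card_filter_not (s := G.bd X) (fun d => G.pi (G.al d) ∈ Z)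
  unfold dg
  rw [res_bd G hZ hX, res_tk_union G hZ hX, card_union_of_disjoint hd]
  omega

theorem C4.res {G : DG V D} (h : G.C4) {Z : Finset V} (hZ : Z ⊆ G.vs) : (G.res Z hZ).C4 := by
  intro X hX hne hX2
  have hX' : X ⊆ Z := hX
  have hne2 : X ≠ Z := hX2
  rw [res_dg G hZ hX']
  refine h X (hX'.trans hZ) hne ?_
  intro h3
  apply hne2
  apply Subset.antisymm hX'
  rw [h3]
  exact hZ

end DG

end R5
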