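import Pool.Agent.Lib.R5.Basic

/-! R5, line X: plain existence in the class Q5 gives prescribed edges (host trick with `K_{5,5}`).

`host H q σ` consists of five copies of `H`; the five copies of `q` are cut apart and reassembled: the
new vertex `(q, j)` gets the dart `d` at `q` with `σ d = j` from each copy. A perfect matching of the
host uses exactly one dart at `q` of every copy. -/

set_option autoImplicit false

namespace R5

open Finset Classical

namespace DG

variable {V D : Type*}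

/-- plain existence, weak form: every 5-regular 5-edge-connected graph has a perfect matching which
contains no odd cut -/
def ExThm (V D : Type*) : Prop := ∀ G : DG V D, G.tk G.vs = ∅ → Even G.vs.card →
  (∀ X ⊆ G.vs, X.Nonempty → X ≠ G.vs → 5 ≤ G.dg X) →
  ∃ M, G.Mat ∅ M ∧ ∀ Z ⊆ G.vs, Odd Z.card → ∃ d ∈ G.bd Z, d ∉ M

/-- the host graph -/
noncomputable def host (H : DG V D) (q : V) (σ : D → Fin 5) (hq : q ∈ H.vs)
    (hσ : ∀ j, ((H.ds.filter fun d => H.pi d = q).filter fun d => σ d = j).card = 1) :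
    DG (V × Fin 5) (D × Fin 5) where
  vs := H.vs ×ˢ univ
  ds := H.ds ×ˢ univ
  pi := fun p => if H.pi p.1 = q then (q, σ p.1) else (H.pi p.1, p.2)
  al := fun p => (H.al p.1, p.2)
  pi_mem := fun p hp => by
    have h1 := (mem_product.1 hp).1
    by_cases h : H.pi p.1 = q
    · simp only [h, if_true]
      exact mem_product.2 ⟨hq, mem_univ _⟩
    · simp only [h, if_false]
      exact mem_product.2 ⟨H.pi_mem _ h1, mem_univ _⟩
  al_mem := fun p hp => mem_product.2 ⟨H.al_mem _ (mem_product.1 hp).1, mem_univ _⟩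
  al_al := fun p hp => by
    show (H.al (H.al p.1), p.2) = p
    rw [H.al_al _ (mem_product.1 hp).1]
  five := fun v hv => by
    obtain ⟨w, j⟩ := v
    have hw := (mem_product.1 hv).1
    by_cases h : w = q
    · subst h
      refine Eq.trans (congrArg card (a₂ := ((H.ds.filter fun d => H.pi d = w).filter
        fun d => σ d = j) ×ˢ (univ : Finset (Fin 5))) ?_) ?_
      · ext ⟨d, i⟩
        simp only [mem_filter, mem_product, mem_univ, and_true]
        constructor
        · rintro ⟨h1, h2⟩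
          by_cases h3 : H.pi d = w
          · rw [if_pos h3, Prod.mk.injEq] at h2
            exact ⟨⟨h1, h3⟩, h2.2⟩
          · rw [if_neg h3, Prod.mk.injEq] at h2
            exact absurd h2.1 h3
        · rintro ⟨⟨h1, h2⟩, h3⟩
          refine ⟨h1, ?_⟩
          rw [if_pos h2, h3]
      · rw [card_product, hσ j]
        simp
    · refine Eq.trans (congrArg card (a₂ := (H.ds.filter fun d => H.pi d = w) ×ˢ
        ({j} : Finset (Fin 5))) ?_) ?_
      · ext ⟨d, i⟩
        simp only [mem_filter, mem_product, mem_univ, and_true, mem_singleton]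
        constructor
        · rintro ⟨h1, h2⟩
          by_cases h3 : H.pi d = q
          · rw [if_pos h3, Prod.mk.injEq] at h2
            exact absurd h2.1.symm h
          · rw [if_neg h3, Prod.mk.injEq] at h2
            exact ⟨⟨h1, h2.1⟩, h2.2⟩
        · rintro ⟨⟨h1, h2⟩, h3⟩
          refine ⟨h1, ?_⟩
          rw [if_neg (by rw [h2]; exact h), h2, h3]
      · rw [card_product, H.five w hw]
        simp

/-- a numbering of the darts at `q` -/
private theorem exists_num (H : DG V D) {q : V} (hq : q ∈ H.vs) : ∃ σ : D → Fin 5,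
    ∀ j, ((H.ds.filter fun d => H.pi d = q).filter fun d => σ d = j).card = 1 := by
  let S := H.ds.filter fun d => H.pi d = q
  have hS : S.card = 5 := H.five q hq
  let e : S ≃ Fin 5 := S.equivFinOfCardEq hS
  refine ⟨fun d => if h : d ∈ S then e ⟨d, h⟩ else 0, fun j => ?_⟩
  rw [card_eq_one]
  refine ⟨(e.symm j).1, ?_⟩
  ext d
  rw [mem_filter, mem_singleton]
  constructor
  · rintro ⟨h1, h2⟩
    change (if h : d ∈ S then e ⟨d, h⟩ else 0) = j at h2
    rw [dif_pos h1] at h2
    have : e.symm j = ⟨d, h1⟩ := by rw [← h2, Equiv.symm_apply_apply]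
    rw [this]
  · rintro rfl
    refine ⟨(e.symm j).2, ?_⟩
    change (if h : (e.symm j).1 ∈ S then e ⟨(e.symm j).1, h⟩ else 0) = j
    rw [dif_pos (e.symm j).2]
    exact e.apply_symm_apply j

section

variable {H : DG V D} {q : V} {σ : D → Fin 5} {hq : q ∈ H.vs}
  {hσ : ∀ j, ((H.ds.filter fun d => H.pi d = q).filter fun d => σ d = j).card = 1}

private theorem host_pi_q {d : D} {i : Fin 5} (h : H.pi d = q) :
    (H.host q σ hq hσ).pi (d, i) = (q, σ d) := by
  show (if H.pi d = q then (q, σ d) else (H.pi d, i)) = _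
  rw [if_pos h]

private theorem host_pi_n {d : D} {i : Fin 5} (h : H.pi d ≠ q) :
    (H.host q σ hq hσ).pi (d, i) = (H.pi d, i) := by
  show (if H.pi d = q then (q, σ d) else (H.pi d, i)) = _
  rw [if_neg h]

private theorem host_tk (ht : H.tk H.vs = ∅) :
    (H.host q σ hq hσ).tk (H.host q σ hq hσ).vs = ∅ := by
  rw [eq_empty_iff_forall_notMem]
  rintro ⟨d, i⟩ hp
  rw [mem_tk] at hp
  have h1 : d ∈ H.ds := (mem_product.1 hp.1).1
  have h2 : H.al d = d := congrArg Prod.fst hp.2.2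
  have h3 : d ∈ H.tk H.vs := H.mem_tk.2 ⟨h1, H.pi_mem d h1, h2⟩
  rw [ht] at h3
  exact notMem_empty _ h3

private theorem dg_bd {G : DG V D} (ht : G.tk G.vs = ∅) {X : Finset V} (hX : X ⊆ G.vs) :
    G.dg X = (G.bd X).card := by
  have : G.tk X = ∅ := by
    rw [eq_empty_iff_forall_notMem]
    intro d hd
    rw [mem_tk] at hd
    have h3 : d ∈ G.tk G.vs := G.mem_tk.2 ⟨hd.1, hX hd.2.1, hd.2.2⟩
    rw [ht] at h3
    exact notMem_empty _ h3
  unfold dg
  rw [this, card_empty, add_zero]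

/-- the dart at `q` with number `j` -/
private theorem num_ex (hσ : ∀ j, ((H.ds.filter fun d => H.pi d = q).filter
    fun d => σ d = j).card = 1) (j : Fin 5) : ∃ d ∈ H.ds, H.pi d = q ∧ σ d = j := by
  obtain ⟨d, hd⟩ := card_eq_one.1 (hσ j)
  have : d ∈ (H.ds.filter fun d => H.pi d = q).filter fun d => σ d = j := by
    rw [hd]; exact mem_singleton_self _
  obtain ⟨h1, h2⟩ := mem_filter.1 this
  exact ⟨d, (mem_filter.1 h1).1, (mem_filter.1 h1).2, h2⟩

private theorem num_uniq (hσ : ∀ j, ((H.ds.filter fun d => H.pi d = q).filter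
    fun d => σ d = j).card = 1) {d e : D} (hd : d ∈ H.ds) (he : e ∈ H.ds) (hdq : H.pi d = q)
    (heq : H.pi e = q) (h : σ d = σ e) : d = e :=
  card_le_one.1 (hσ (σ e)).le d (mem_filter.2 ⟨mem_filter.2 ⟨hd, hdq⟩, h⟩) e
    (mem_filter.2 ⟨mem_filter.2 ⟨he, heq⟩, rfl⟩)

/-- sets which avoid all `(q, j)` -/
private theorem host_cut0 (ht : H.tk H.vs = ∅)
    (hc : ∀ X ⊆ H.vs, X.Nonempty → X ≠ H.vs → 5 ≤ H.dg X)
    {X : Finset (V × Fin 5)} (hX : X ⊆ (H.host q σ hq hσ).vs) (hn : X.Nonempty)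
    (h0 : ∀ j, (q, j) ∉ X) : 5 ≤ ((H.host q σ hq hσ).bd X).card := by
  obtain ⟨⟨v, i⟩, hv⟩ := hn
  let Y : Finset V := H.vs.filter fun w => (w, i) ∈ X
  have hvY : v ∈ Y := mem_filter.2 ⟨(mem_product.1 (hX hv)).1, hv⟩
  have hY : Y ⊆ H.vs := filter_subset _ _
  have hqY : q ∉ Y := fun h => h0 i (mem_filter.1 h).2
  have h5 := hc Y hY ⟨v, hvY⟩ (fun h => hqY (h ▸ hq))
  rw [dg_bd ht hY] at h5
  refine h5.trans ?_
  refine card_le_card_of_injOn (fun d => (d, i)) ?_ ?_
  · intro d hd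
    rw [mem_coe, mem_bd] at hd
    obtain ⟨h1, h2, h3⟩ := hd
    rw [mem_coe, mem_bd]
    have hdq : H.pi d ≠ q := fun h => hqY (h ▸ h2)
    refine ⟨mem_product.2 ⟨h1, mem_univ _⟩, ?_, ?_⟩
    · rw [host_pi_n hdq]
      exact (mem_filter.1 h2).2
    · show (H.host q σ hq hσ).pi (H.al d, i) ∉ X
      by_cases h4 : H.pi (H.al d) = q
      · rw [host_pi_q h4]
        exact h0 _
      · rw [host_pi_n h4]
        intro h5
        exact h3 (mem_filter.2 ⟨H.pi_mem _ (H.al_mem d h1), h5⟩)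
  · intro d _ e _ h
    exact (Prod.mk.inj h).1

/-- every copy contributes a dart -/
private theorem host_copy (ht : H.tk H.vs = ∅)
    (hc : ∀ X ⊆ H.vs, X.Nonempty → X ≠ H.vs → 5 ≤ H.dg X) (h2 : 2 ≤ H.vs.card)
    {X : Finset (V × Fin 5)} {j k : Fin 5} (hj : (q, j) ∈ X) (hk : (q, k) ∉ X) (i : Fin 5) :
    ∃ d, (d, i) ∈ (H.host q σ hq hσ).bd X := by
  by_contra hcon
  push Not at hcon
  have hno : ∀ d ∈ H.ds, (H.host q σ hq hσ).pi (d, i) ∈ X →
      (H.host q σ hq hσ).pi (H.al d, i) ∈ X := by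
    intro d hd h1
    by_contra h3
    exact hcon d ((H.host q σ hq hσ).mem_bd.2 ⟨mem_product.2 ⟨hd, mem_univ _⟩, h1, h3⟩)
  have hC4 : H.C4 := fun Y hY hn hne => le_trans (by norm_num) (hc Y hY hn hne)
  have hnt : ∀ d ∈ H.ds, H.al d ≠ d := by
    intro d hd h
    have h3 : d ∈ H.tk H.vs := H.mem_tk.2 ⟨hd, H.pi_mem d hd, h⟩
    rw [ht] at h3
    exact notMem_empty _ h3
  have hnl : ∀ d ∈ H.ds, H.pi (H.al d) ≠ H.pi d := fun d hd => hC4.noloop h2 d hd (hnt d hd)
  let Y : Finset V := (H.vs.erase q).filter fun w => (w, i) ∈ X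
  let Y' : Finset V := (H.vs.erase q).filter fun w => (w, i) ∉ X
  have hY : Y ⊆ H.vs := (filter_subset _ _).trans (erase_subset _ _)
  have hY' : Y' ⊆ H.vs := (filter_subset _ _).trans (erase_subset _ _)
  have hqY : q ∉ Y := fun h => (mem_erase.1 (mem_filter.1 h).1).1 rfl
  have hqY' : q ∉ Y' := fun h => (mem_erase.1 (mem_filter.1 h).1).1 rfl
  -- both are nonempty
  have hYn : Y.Nonempty := by
    obtain ⟨d, hd, hdq, hdj⟩ := num_ex hσ j
    have h1 := hno d hd (by rw [host_pi_q hdq, hdj]; exact hj)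
    have h3 : H.pi (H.al d) ≠ q := hdq ▸ hnl d hd
    rw [host_pi_n h3] at h1
    exact ⟨_, mem_filter.2 ⟨mem_erase.2 ⟨h3, H.pi_mem _ (H.al_mem d hd)⟩, h1⟩⟩
  have hYn' : Y'.Nonempty := by
    obtain ⟨d, hd, hdq, hdj⟩ := num_ex hσ k
    have h3 : H.pi (H.al d) ≠ q := hdq ▸ hnl d hd
    refine ⟨H.pi (H.al d), mem_filter.2 ⟨mem_erase.2 ⟨h3, H.pi_mem _ (H.al_mem d hd)⟩, ?_⟩⟩
    intro h4
    have h5 := hno (H.al d) (H.al_mem d hd) (by rw [host_pi_n h3]; exact h4)
    rw [H.al_al d hd, host_pi_q hdq, hdj] at h5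
    exact hk h5
  have h5 := hc Y hY hYn (fun h => hqY (h ▸ hq))
  have h5' := hc Y' hY' hYn' (fun h => hqY' (h ▸ hq))
  rw [dg_bd ht hY] at h5
  rw [dg_bd ht hY'] at h5'
  -- all their boundary darts go to `q`
  have hin : ∀ d ∈ H.bd Y, H.al d ∈ H.ds.filter fun d => H.pi d = q := by
    intro d hd
    rw [mem_bd] at hd
    obtain ⟨h1, h3, h4⟩ := hd
    have hdq : H.pi d ≠ q := fun h => hqY (h ▸ h3)
    refine mem_filter.2 ⟨H.al_mem d h1, ?_⟩
    by_contra h6
    have h7 := hno d h1 (by rw [host_pi_n hdq]; exact (mem_filter.1 h3).2)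
    rw [host_pi_n h6] at h7
    exact h4 (mem_filter.2 ⟨mem_erase.2 ⟨h6, H.pi_mem _ (H.al_mem d h1)⟩, h7⟩)
  have hin' : ∀ d ∈ H.bd Y', H.al d ∈ H.ds.filter fun d => H.pi d = q := by
    intro d hd
    rw [mem_bd] at hd
    obtain ⟨h1, h3, h4⟩ := hd
    have hdq : H.pi d ≠ q := fun h => hqY' (h ▸ h3)
    refine mem_filter.2 ⟨H.al_mem d h1, ?_⟩
    by_contra h6
    refine h4 (mem_filter.2 ⟨mem_erase.2 ⟨h6, H.pi_mem _ (H.al_mem d h1)⟩, ?_⟩)
    intro h7
    have h8 := hno (H.al d) (H.al_mem d h1) (by rw [host_pi_n h6]; exact h7)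
    rw [H.al_al d h1, host_pi_n hdq] at h8
    exact (mem_filter.1 h3).2 h8
  have hdisj : Disjoint (H.bd Y) (H.bd Y') := by
    rw [Finset.disjoint_left]
    intro d h1 h3
    rw [mem_bd] at h1 h3
    exact (mem_filter.1 h3.2.1).2 (mem_filter.1 h1.2.1).2
  have hle : (H.bd Y ∪ H.bd Y').card ≤ (H.ds.filter fun d => H.pi d = q).card := by
    refine card_le_card_of_injOn H.al ?_ ?_
    · intro d hd
      rw [mem_coe, mem_union] at hd
      rcases hd with hd | hd
      · exact hin d hd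
      · exact hin' d hd
    · intro d hd e he h
      rw [mem_coe, mem_union, mem_bd, mem_bd] at hd he
      have h1 : d ∈ H.ds := hd.elim (fun h => h.1) (fun h => h.1)
      have h3 : e ∈ H.ds := he.elim (fun h => h.1) (fun h => h.1)
      rw [← H.al_al d h1, ← H.al_al e h3, h]
  rw [card_union_of_disjoint hdisj, H.five q hq] at hle
  omega

private theorem host_cut (ht : H.tk H.vs = ∅)
    (hc : ∀ X ⊆ H.vs, X.Nonempty → X ≠ H.vs → 5 ≤ H.dg X) (h2 : 2 ≤ H.vs.card)
    {X : Finset (V × Fin 5)} (hX : X ⊆ (H.host q σ hq hσ).vs) (hn : X.Nonempty)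
    (hne : X ≠ (H.host q σ hq hσ).vs) : 5 ≤ (H.host q σ hq hσ).dg X := by
  rw [dg_bd (host_tk ht) hX]
  by_cases h0 : ∀ j, (q, j) ∉ X
  · exact host_cut0 ht hc hX hn h0
  · push Not at h0
    obtain ⟨j, hj⟩ := h0
    by_cases h1 : ∀ k, (q, k) ∈ X
    · -- the complement
      have hcc : ((H.host q σ hq hσ).bd ((H.host q σ hq hσ).vs.filter fun p => p ∉ X)).card =
          ((H.host q σ hq hσ).bd X).card := by
        refine Eq.trans (congrArg card (congrArg _ ?_)) ((H.host q σ hq hσ).card_bd_compl hX)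
        ext p
        simp only [mem_filter, mem_sdiff]
      rw [← hcc]
      refine host_cut0 ht hc (filter_subset _ _) ?_ ?_
      · by_contra h
        rw [not_nonempty_iff_eq_empty] at h
        refine hne (Subset.antisymm hX fun p hp => ?_)
        by_contra h3
        have h4 : p ∈ (H.host q σ hq hσ).vs.filter fun p => p ∉ X := mem_filter.2 ⟨hp, h3⟩
        rw [h] at h4
        exact notMem_empty _ h4
      · intro k h
        exact (mem_filter.1 h).2 (h1 k)
    · push Not at h1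
      obtain ⟨k, hk⟩ := h1
      have hcopy := fun i => host_copy (hq := hq) (hσ := hσ) ht hc h2 hj hk i
      choose f hf using hcopy
      have : (univ : Finset (Fin 5)).card ≤ ((H.host q σ hq hσ).bd X).card := by
        refine card_le_card_of_injOn (fun i => (f i, i)) ?_ ?_
        · intro i _
          exact hf i
        · intro a _ b _ h
          exact (Prod.mk.inj h).2
      simpa using this

end

/-- plain existence gives a perfect matching through any prescribed edge -/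
theorem through (hE : ExThm (V × Fin 5) (D × Fin 5)) {H : DG V D} (ht : H.tk H.vs = ∅)
    (he : Even H.vs.card) (hc : ∀ X ⊆ H.vs, X.Nonempty → X ≠ H.vs → 5 ≤ H.dg X) {d1 : D}
    (hd : d1 ∈ H.ds) :
    ∃ M, H.Mat ∅ M ∧ d1 ∈ M ∧ ∀ Z ⊆ H.vs, Odd Z.card → ∃ d ∈ H.bd Z, d ∉ M := by
  obtain ⟨q, hqd⟩ : ∃ q, H.pi d1 = q := ⟨_, rfl⟩
  have hq : q ∈ H.vs := hqd ▸ H.pi_mem d1 hd
  have h2 : 2 ≤ H.vs.card := by
    have h1 : 0 < H.vs.card := card_pos.2 ⟨q, hq⟩
    obtain ⟨k, hk⟩ := he
    omega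
  obtain ⟨σ, hσ⟩ := exists_num H hq
  have hnt : ∀ d ∈ H.ds, H.al d ≠ d := by
    intro d hd h
    have h3 : d ∈ H.tk H.vs := H.mem_tk.2 ⟨hd, H.pi_mem d hd, h⟩
    rw [ht] at h3
    exact notMem_empty _ h3
  obtain ⟨M', hM, hodd⟩ := hE (H.host q σ hq hσ) (host_tk ht) (by
      show Even (H.vs ×ˢ (univ : Finset (Fin 5))).card
      rw [card_product]
      exact he.mul_right _)
    (fun X hX hn hne => host_cut ht hc h2 hX hn hne)
  have hMds : ∀ p ∈ M', p.1 ∈ H.ds := fun p hp => (mem_product.1 (hM.sub hp)).1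
  -- the copies
  let Mc : Fin 5 → Finset D := fun i => H.ds.filter fun d => (d, i) ∈ M'
  let Mq : Fin 5 → Finset D := fun i => (Mc i).filter fun d => H.pi d = q
  have hcl : ∀ i, ∀ d ∈ Mc i, H.al d ∈ Mc i := by
    intro i d hd
    obtain ⟨h1, h3⟩ := mem_filter.1 hd
    exact mem_filter.2 ⟨H.al_mem d h1, hM.closed _ h3⟩
  have hone : ∀ i, ∀ v ∈ H.vs, v ≠ q → ((Mc i).filter fun d => H.pi d = v).card = 1 := by
    intro i v hv hvq
    have h1 := hM.one (v, i) (mem_product.2 ⟨hv, mem_univ _⟩)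
    refine Eq.trans (card_bij (fun d _ => (d, i)) ?_ ?_ ?_) h1
    · intro d hd
      obtain ⟨h3, h4⟩ := mem_filter.1 hd
      simp only [mem_filter]
      refine ⟨(mem_filter.1 h3).2, ?_⟩
      rw [host_pi_n (by rw [h4]; exact hvq), h4]
    · intro a _ b _ h
      exact (Prod.mk.inj h).1
    · rintro ⟨d, k⟩ hp
      simp only [mem_filter] at hp
      obtain ⟨h3, h4⟩ := hp
      by_cases h5 : H.pi d = q
      · rw [host_pi_q h5, Prod.mk.injEq] at h4
        exact absurd h4.1.symm hvq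
      · rw [host_pi_n h5, Prod.mk.injEq] at h4
        obtain ⟨h6, rfl⟩ := h4
        exact ⟨d, mem_filter.2 ⟨mem_filter.2 ⟨hMds _ h3, h3⟩, h6⟩, rfl⟩
  -- odd number of darts at `q` in each copy
  have hoddq : ∀ i, Odd (Mq i).card := by
    intro i
    have hev : Even (Mc i).card := H.even_of_closed (filter_subset _ _) (hcl i)
      (fun d hd => hnt d (mem_filter.1 hd).1)
    have hsum : (Mc i).card = ∑ v ∈ H.vs, ((Mc i).filter fun d => H.pi d = v).card :=
      card_eq_sum_card_fiberwise (fun d hd => H.pi_mem d (mem_filter.1 (mem_coe.1 hd)).1)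
    rw [← insert_erase hq, sum_insert (notMem_erase _ _)] at hsum
    have hs : ∑ v ∈ H.vs.erase q, ((Mc i).filter fun d => H.pi d = v).card =
        (H.vs.erase q).card := by
      rw [sum_congr rfl (fun v hv => hone i v (mem_erase.1 hv).2 (mem_erase.1 hv).1), sum_const,
        smul_eq_mul, mul_one]
    rw [hs, card_erase_of_mem hq] at hsum
    have h3 : (Mq i).card + (H.vs.card - 1) = (Mc i).card := hsum.symm
    obtain ⟨a, ha⟩ := hev
    obtain ⟨b, hb⟩ := he
    exact ⟨a - b, by omega⟩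
  -- the sum is five
  have htot : ∑ i, (Mq i).card = 5 := by
    have h3 : (M'.filter fun p => H.pi p.1 = q).card = 5 := by
      have h4 : (M'.filter fun p => H.pi p.1 = q).card =
          ∑ j : Fin 5, ((M'.filter fun p => H.pi p.1 = q).filter fun p => σ p.1 = j).card :=
        card_eq_sum_card_fiberwise (fun p _ => mem_coe.2 (mem_univ _))
      rw [h4]
      have h5 : ∀ j : Fin 5,
          ((M'.filter fun p => H.pi p.1 = q).filter fun p => σ p.1 = j).card = 1 := by
        intro j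
        refine Eq.trans (congrArg card ?_) (hM.one (q, j) (mem_product.2 ⟨hq, mem_univ _⟩))
        ext ⟨d, i⟩
        simp only [mem_filter]
        constructor
        · rintro ⟨⟨h6, h7⟩, h8⟩
          refine ⟨h6, ?_⟩
          rw [host_pi_q h7, h8]
        · rintro ⟨h6, h7⟩
          by_cases h8 : H.pi d = q
          · rw [host_pi_q h8, Prod.mk.injEq] at h7
            exact ⟨⟨h6, h8⟩, h7.2⟩
          · rw [host_pi_n h8, Prod.mk.injEq] at h7
            exact absurd h7.1 h8
      simp [h5]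
    have h4 : (M'.filter fun p => H.pi p.1 = q).card =
        ∑ i : Fin 5, ((M'.filter fun p => H.pi p.1 = q).filter fun p => p.2 = i).card :=
      card_eq_sum_card_fiberwise (fun p _ => mem_coe.2 (mem_univ _))
    refine Eq.trans ?_ (h4.symm.trans h3)
    refine sum_congr rfl fun i _ => ?_
    refine card_bij (fun d _ => (d, i)) ?_ ?_ ?_
    · intro d hd
      obtain ⟨h5, h6⟩ := mem_filter.1 hd
      exact mem_filter.2 ⟨mem_filter.2 ⟨(mem_filter.1 h5).2, h6⟩, rfl⟩
    · intro a _ b _ h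
      exact (Prod.mk.inj h).1
    · rintro ⟨d, k⟩ hp
      obtain ⟨h5, h6⟩ := mem_filter.1 hp
      obtain ⟨h7, h8⟩ := mem_filter.1 h5
      have h9 : k = i := h6
      subst h9
      exact ⟨d, mem_filter.2 ⟨mem_filter.2 ⟨hMds _ h7, h7⟩, h8⟩, rfl⟩
  have hq1 : ∀ i, (Mq i).card = 1 := by
    intro i
    have hpos : ∀ k, 1 ≤ (Mq k).card := fun k => (hoddq k).pos
    have h3 : ∑ k ∈ univ.erase i, (Mq k).card + (Mq i).card = 5 := by
      rw [sum_erase_add _ _ (mem_univ i)]
      exact htot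
    have h4 : (univ.erase i : Finset (Fin 5)).card ≤ ∑ k ∈ univ.erase i, (Mq k).card := by
      rw [card_eq_sum_ones]
      exact sum_le_sum fun k _ => hpos k
    rw [card_erase_of_mem (mem_univ i)] at h4
    simp only [card_univ, Fintype.card_fin] at h4
    have := hpos i
    omega
  -- the copy which uses `d1`
  obtain ⟨⟨d, i⟩, hp, hpi⟩ := hM.ex (v := (q, σ d1)) (mem_product.2 ⟨hq, mem_univ _⟩)
  have hdds : d ∈ H.ds := hMds _ hp
  have hdq : H.pi d = q := by
    by_contra h
    rw [host_pi_n h, Prod.mk.injEq] at hpi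
    exact h hpi.1
  rw [host_pi_q hdq, Prod.mk.injEq] at hpi
  have hdd : d = d1 := num_uniq hσ hdds hd hdq hqd hpi.2
  subst hdd
  refine ⟨Mc i, ⟨filter_subset _ _, hcl i, ?_, empty_subset _, ?_⟩, mem_filter.2 ⟨hdds, hp⟩, ?_⟩
  · intro e he'
    exact ⟨fun h => absurd h (hnt e (mem_filter.1 he').1), fun h => absurd h (notMem_empty _)⟩
  · intro v hv
    by_cases hvq : v = q
    · subst hvq
      exact hq1 i
    · exact hone i v hv hvq
  · -- odd cuts
    have key : ∀ Z ⊆ H.vs, Odd Z.card → q ∉ Z → ∃ e ∈ H.bd Z, e ∉ Mc i := by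
      intro Z hZ hZo hqZ
      obtain ⟨⟨e, k⟩, hb, hbM⟩ := hodd (Z ×ˢ {i}) (product_subset_product hZ (subset_univ _)) (by
        rw [card_product, card_singleton, mul_one]
        exact hZo)
      rw [mem_bd] at hb
      obtain ⟨h1, h3, h4⟩ := hb
      have he1 : e ∈ H.ds := (mem_product.1 h1).1
      have heq : H.pi e ≠ q := by
        intro h
        rw [host_pi_q h] at h3
        exact hqZ (mem_product.1 h3).1
      rw [host_pi_n heq] at h3
      obtain ⟨h5, h6⟩ := mem_product.1 h3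
      have hk : k = i := mem_singleton.1 h6
      subst hk
      refine ⟨e, H.mem_bd.2 ⟨he1, h5, fun h => h4 ?_⟩, fun h => hbM (mem_filter.1 h).2⟩
      have h8 : H.pi (H.al e) ≠ q := fun h' => hqZ (h' ▸ h)
      show (H.host q σ hq hσ).pi (H.al e, k) ∈ _
      rw [host_pi_n h8]
      exact mem_product.2 ⟨h, mem_singleton_self _⟩
    intro Z hZ hZo
    by_cases hqZ : q ∈ Z
    · obtain ⟨e, he1, he2⟩ := key (H.vs \ Z) sdiff_subset (by
        rw [card_sdiff_of_subset hZ]
        have := card_le_card hZ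
        obtain ⟨a, ha⟩ := he
        obtain ⟨b, hb⟩ := hZo
        exact ⟨a - b - 1, by omega⟩) (fun h => (mem_sdiff.1 h).2 hqZ)
      have h3 := H.mem_bd_compl he1
      rw [Finset.sdiff_sdiff_eq_self hZ] at h3
      refine ⟨H.al e, h3, fun h => he2 ?_⟩
      have h4 := hcl i _ h
      rwa [H.al_al e (H.mem_bd.1 he1).1] at h4
    · exact key Z hZ hZo hqZ

end DG

end R5
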