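import Pool.Agent.Lib.R5.KPair
import Pool.Agent.Lib.R5.KTwo
import Pool.Agent.Lib.R5.XHost

/-! R5, line X: the frozen statement S11409 from plain existence (`DG.ExThm`) in the class of 5-regular
5-edge-connected graphs. -/

set_option autoImplicit false

namespace R5

open Finset Classical

namespace K

variable {V D : Type*}

private lemma pcard (S J : Finset D) :
    ((S ×ˢ (univ : Finset Bool)).filter fun p => p.1 ∉ J ∨ p.2 = false).card =
      S.card + (S \ J).card := by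
  have h : ((S ×ˢ (univ : Finset Bool)).filter fun p => p.1 ∉ J ∨ p.2 = false) =
      (S ×ˢ {false}) ∪ ((S \ J) ×ˢ {true}) := by
    ext ⟨d, b⟩
    cases b <;> simp
  rw [h, card_union_of_disjoint, card_product, card_product, card_singleton, card_singleton,
    mul_one, mul_one]
  rw [disjoint_left]
  rintro ⟨d, b⟩ h1 h2
  simp only [mem_product, mem_singleton] at h1 h2
  rw [h1.2] at h2
  exact absurd h2.2 (by simp)

private lemma ptk {G : JK.CG V D} (hT : TEC G) {X : Finset V} (hX : X ⊆ G.vs) : G.tk X = ∅ := by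
  rw [eq_empty_iff_forall_notMem]
  intro d hd
  obtain ⟨h1, h2, h3⟩ := G.mem_tk.1 hd
  have h4 : d ∈ G.tk G.vs := G.mem_tk.2 ⟨h1, hX h2, h3⟩
  rw [hT.tok] at h4
  exact notMem_empty _ h4

private lemma pdg {G : JK.CG V D} (hT : TEC G) {X : Finset V} (hX : X ⊆ G.vs) :
    G.dg X = (G.bd X).card := by
  unfold JK.CG.dg
  rw [ptk hT hX]
  simp

private lemma pnotok {G : JK.CG V D} (hT : TEC G) : ∀ d ∈ G.ds, G.al d ≠ d := by
  intro d hd h
  have h1 : d ∈ G.tk G.vs := G.mem_tk.2 ⟨hd, G.pi_mem d hd, h⟩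
  rw [hT.tok] at h1
  exact notMem_empty _ h1

private lemma pmem (G : JK.CG V D) (J : Finset D) (hJ : G.IsPM J) {p : D × Bool}
    (h : p ∈ (dbl G J hJ).ds) : p.1 ∈ G.ds ∧ (p.1 ∉ J ∨ p.2 = false) := by
  obtain ⟨h1, h2⟩ := mem_filter.1 h
  exact ⟨(mem_product.1 h1).1, h2⟩

private lemma pof (G : JK.CG V D) (J : Finset D) (hJ : G.IsPM J) {d : D}
    (h : d ∈ G.ds) : (d, false) ∈ (dbl G J hJ).ds :=
  mem_filter.2 ⟨mem_product.2 ⟨h, mem_univ _⟩, Or.inr rfl⟩

private lemma ptok (H : DG V D) {X : Finset V} {d : D} (h : d ∈ H.tk X) :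
    d ∈ H.ds ∧ H.al d = d := by
  obtain ⟨h1, h2, h3⟩ := mem_filter.1 h
  exact ⟨h1, h3⟩

private lemma pbd (H : DG V D) {X : Finset V} {d : D} :
    d ∈ H.bd X ↔ d ∈ H.ds ∧ H.pi d ∈ X ∧ H.pi (H.al d) ∉ X := mem_filter

private lemma pds (G : JK.CG V D) (J : Finset D) (hJ : G.IsPM J) {p : D × Bool} :
    p ∈ (dbl G J hJ).ds ↔ p.1 ∈ G.ds ∧ (p.1 ∉ J ∨ p.2 = false) :=
  ⟨pmem G J hJ, fun h => mem_filter.2 ⟨mem_product.2 ⟨h.1, mem_univ _⟩, h.2⟩⟩

/-- another dart at the same vertex -/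
private lemma pother (G : JK.CG V D) {h : D} (hh : h ∈ G.ds) :
    ∃ h' ∈ G.ds, h' ≠ h ∧ G.pi h' = G.pi h := by
  have h1 := G.cubic (G.pi h) (G.pi_mem h hh)
  have h2 : 1 < (G.ds.filter fun d => G.pi d = G.pi h).card := by omega
  obtain ⟨h', h3, h4⟩ := Finset.exists_mem_ne h2 h
  obtain ⟨h5, h6⟩ := mem_filter.1 h3
  exact ⟨h', h5, h4, h6⟩

/-- two darts of a perfect matching at the same vertex are equal -/
private lemma puniq {G : JK.CG V D} {M : Finset D} (hM : G.IsPM M) {d e : D} (hd : d ∈ M)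
    (he : e ∈ M) (h : G.pi d = G.pi e) : d = e := by
  have h1 := hM.one (G.pi e) (G.pi_mem e (hM.sub he))
  exact Finset.card_le_one.1 h1.le d (mem_filter.2 ⟨hd, h⟩) e (mem_filter.2 ⟨he, rfl⟩)

private lemma pclean {G : JK.CG V D} (hT : TEC G) {h : D} (hh : h ∈ G.ds) (a : Prop) :
    ∃ J, Clean G J ∧ (h ∈ J ↔ a) := by
  by_cases ha : a
  · obtain ⟨J, h1, h2⟩ := exists_clean G hT h hh
    exact ⟨J, h1, fun _ => ha, fun _ => h2⟩
  · obtain ⟨h', h3, h4, h5⟩ := pother G hh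
    obtain ⟨J, h1, h2⟩ := exists_clean G hT h' h3
    refine ⟨J, h1, fun h6 => ?_, fun h6 => absurd h6 ha⟩
    exact absurd (puniq h1.pm h2 h6 h5) h4

/-- the four states of an edge from plain existence -/
theorem pair_ex (hE : DG.ExThm (V × Fin 5) ((D × Bool) × Fin 5)) {G : JK.CG V D} (hT : TEC G) :
    P4 G := by
  intro h hh a b
  obtain ⟨J, hJ, hJa⟩ := pclean hT hh a
  obtain ⟨g, hg, hg1, hgb⟩ : ∃ g ∈ G.ds, G.pi g = G.pi h ∧ (g = h ↔ b) := by
    by_cases hb : b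
    · exact ⟨h, hh, rfl, fun _ => hb, fun _ => rfl⟩
    · obtain ⟨h', h3, h4, h5⟩ := pother G hh
      exact ⟨h', h3, h5, fun h6 => absurd h6 h4, fun h6 => absurd h6 hb⟩
  have hnotok := pnotok hT
  have hHtk : (dbl G J hJ.pm).tk (dbl G J hJ.pm).vs = ∅ := by
    rw [eq_empty_iff_forall_notMem]
    intro p hp
    obtain ⟨h1, h4⟩ := ptok _ hp
    have h6 : G.al p.1 = p.1 := congrArg Prod.fst h4
    exact hnotok _ (pmem G J hJ.pm h1).1 h6
  obtain ⟨M, hM, hgM, hcon⟩ := DG.through hE hHtk hT.evenvs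
    (fun X hX hn hne => dbl_cut hT hJ hX hn hne) (pof G J hJ.pm hg)
  have hN : G.IsPM (M.image Prod.fst) := by
    refine ⟨?_, ?_, ?_, ?_⟩
    · intro d hd
      obtain ⟨p, hp, rfl⟩ := mem_image.1 hd
      exact (pmem G J hJ.pm (hM.sub hp)).1
    · intro d hd
      obtain ⟨p, hp, rfl⟩ := mem_image.1 hd
      exact mem_image.2 ⟨_, hM.closed p hp, rfl⟩
    · intro d hd
      obtain ⟨p, hp, rfl⟩ := mem_image.1 hd
      exact hnotok _ (pmem G J hJ.pm (hM.sub hp)).1
    · intro v hv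
      have hone := hM.one v hv
      obtain ⟨p, hp⟩ := card_eq_one.1 hone
      rw [card_eq_one]
      refine ⟨p.1, ?_⟩
      ext d
      simp only [mem_filter, mem_image, mem_singleton]
      constructor
      · rintro ⟨⟨q, hq, rfl⟩, hv'⟩
        have : q ∈ M.filter fun d => (dbl G J hJ.pm).pi d = v :=
          mem_filter.2 ⟨hq, hv'⟩
        rw [hp, mem_singleton] at this
        rw [this]
      · rintro rfl
        have : p ∈ M.filter fun d => (dbl G J hJ.pm).pi d = v := by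
          rw [hp]; exact mem_singleton_self _
        exact ⟨⟨p, (mem_filter.1 this).1, rfl⟩, (mem_filter.1 this).2⟩
  have hgN : g ∈ M.image Prod.fst := mem_image.2 ⟨_, hgM, rfl⟩
  refine ⟨J, M.image Prod.fst, ⟨hJ.pm, hN, ?_⟩, hJa, ?_⟩
  · intro Z hZs hZ
    obtain ⟨p, hp, hpM⟩ := hcon Z hZs hZ
    obtain ⟨h1, h2, h4⟩ := (pbd _).1 hp
    have h5 := pmem G J hJ.pm h1
    refine ⟨p.1, (G.mem_bd).2 ⟨h5.1, h2, h4⟩, ?_⟩
    rintro ⟨hpJ, hpM2⟩
    obtain ⟨q, hq, hqp⟩ := mem_image.1 hpM2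
    have hp2 : p.2 = false := by
      rcases h5.2 with h5 | h5
      · exact absurd hpJ h5
      · exact h5
    have hq2 : q.2 = false := by
      rcases (pmem G J hJ.pm (hM.sub hq)).2 with h5 | h5
      · rw [hqp] at h5
        exact absurd hpJ h5
      · exact h5
    have : q = p := Prod.ext hqp (by rw [hp2, hq2])
    rw [this] at hq
    exact hpM hq
  · constructor
    · intro h1
      exact hgb.1 (puniq hN hgN h1 hg1)
    · intro h1
      rw [hgb.2 h1] at hgN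
      exact hgN

end K

private lemma xtop_two (h : ∀ V D : Type, DG.ExThm V D) {V : Type} [Fintype V]
    (G : SimpleGraph V) (hc : ∀ v : V, (G.neighborSet v).ncard = 3)
    (hb : ∀ v w : V, G.Adj v w → (G.deleteEdges {s(v, w)}).Reachable v w) :
    ∃ M1 M2, (JK.ofSG G hc).IsPM M1 ∧ (JK.ofSG G hc).IsPM M2 ∧
      ∀ Z : Finset V, Odd Z.card → ∃ d ∈ (JK.ofSG G hc).bd Z, d ∉ M1 ∩ M2 := by
  rcases isEmpty_or_nonempty V with hV | ⟨⟨v0⟩⟩
  · have hpm : (JK.ofSG G hc).IsPM ∅ :=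
      ⟨empty_subset _, by simp, by simp, fun v _ => (hV.false v).elim⟩
    refine ⟨∅, ∅, hpm, hpm, ?_⟩
    intro Z hZ
    have : Z = ∅ := eq_empty_of_isEmpty Z
    subst this
    simp at hZ
  · have hcub := (JK.ofSG G hc).cubic v0 (mem_univ v0)
    have hne : ((JK.ofSG G hc).ds.filter fun d => (JK.ofSG G hc).pi d = v0).Nonempty := by
      rw [← card_pos, hcub]; norm_num
    obtain ⟨d0, hd0⟩ := hne
    have hd0' := (mem_filter.1 hd0).1
    have hP : K.P4 (JK.ofSG G hc) :=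
      K.two_cut (fun G' hT => K.pair_ex (h (V × Fin 5) (((V × V) × Bool) × Fin 5)) hT) (JK.ofSG G hc)
        (JK.ofSG_even G hc) (JK.ofSG_tk G hc) (JK.ofSG_b0 G hc hb)
    obtain ⟨J, N, hJN, -, -⟩ := hP d0 hd0' True True
    refine ⟨J, N, hJN.j, hJN.n, fun Z hodd => ?_⟩
    obtain ⟨d, hd, hd'⟩ := hJN.odd Z (subset_univ _) hodd
    exact ⟨d, hd, fun h => hd' (mem_inter.1 h)⟩

/-- the complement of a perfect matching -/
private def xcompl {V : Type} [Fintype V] (G : SimpleGraph V)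
    (hc : ∀ v : V, (G.neighborSet v).ncard = 3) (M : Finset (V × V))
    (hM : (JK.ofSG G hc).IsPM M) : SimpleGraph V where
  Adj v w := G.Adj v w ∧ (v, w) ∉ M
  symm := ⟨fun v w h => ⟨h.1.symm, fun hw => h.2 (hM.closed (w, v) hw)⟩⟩
  loopless := ⟨fun v h => G.loopless.irrefl v h.1⟩

private lemma xcompl_le {V : Type} [Fintype V] (G : SimpleGraph V)
    (hc : ∀ v : V, (G.neighborSet v).ncard = 3) (M : Finset (V × V))
    (hM : (JK.ofSG G hc).IsPM M) : xcompl G hc M hM ≤ G := fun _ _ h => h.1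

private lemma xcompl_card {V : Type} [Fintype V] (G : SimpleGraph V)
    (hc : ∀ v : V, (G.neighborSet v).ncard = 3) (M : Finset (V × V))
    (hM : (JK.ofSG G hc).IsPM M) (v : V) : ((xcompl G hc M hM).neighborSet v).ncard = 2 := by
  obtain ⟨d, hd⟩ := Finset.card_eq_one.1 (hM.one v (Finset.mem_univ v))
  have hd1 : d ∈ M ∧ d.1 = v := by
    have : d ∈ M.filter fun d => (JK.ofSG G hc).pi d = v := by rw [hd]; simp
    rw [Finset.mem_filter] at this
    exact this
  obtain ⟨a, w⟩ := d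
  obtain ⟨hm, rfl⟩ := hd1
  have hadj : G.Adj a w := by
    have := hM.sub hm
    simpa [JK.ofSG] using this
  have hset : (xcompl G hc M hM).neighborSet a = G.neighborSet a \ {w} := by
    ext x
    simp only [SimpleGraph.mem_neighborSet, Set.mem_sdiff, Set.mem_singleton_iff]
    constructor
    · rintro ⟨h1, h2⟩
      refine ⟨h1, ?_⟩
      rintro rfl
      exact h2 hm
    · rintro ⟨h1, h2⟩
      refine ⟨h1, fun h3 => h2 ?_⟩
      have : (a, x) ∈ M.filter fun d => (JK.ofSG G hc).pi d = a := by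
        rw [Finset.mem_filter]
        exact ⟨h3, rfl⟩
      rw [hd, Finset.mem_singleton] at this
      exact (Prod.ext_iff.1 this).2
  rw [hset, Set.ncard_sdiff_singleton_of_mem (show w ∈ G.neighborSet a from hadj), hc]

theorem final_ex (h : ∀ V D : Type, DG.ExThm V D) :
    ∀ (V : Type) [Fintype V] (G : SimpleGraph V),
      (∀ v : V, (G.neighborSet v).ncard = 3) →
      (∀ v w : V, G.Adj v w → (G.deleteEdges {s(v, w)}).Reachable v w) →
      ∃ F₁ F₂ C : SimpleGraph V,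
        F₁ ≤ G ∧ F₂ ≤ G ∧ C ≤ G ∧
        (∀ v : V, (F₁.neighborSet v).ncard = 2) ∧
        (∀ v : V, (F₂.neighborSet v).ncard = 2) ∧
        (∀ v : V, Even ((C.neighborSet v).ncard)) ∧
        F₁ ⊔ F₂ ⊔ C = G := by
  intro V _ G hc hb
  obtain ⟨M1, M2, h1, h2, hZ⟩ := xtop_two h G hc hb
  obtain ⟨C, hC, hT, hev⟩ := JK.exists_even G hc (M1 ∩ M2)
    (fun d hd => by
      have := h1.sub (Finset.mem_inter.1 hd).1
      simpa [JK.ofSG] using this)
    (fun d hd => Finset.mem_inter.2 ⟨h1.closed d (Finset.mem_inter.1 hd).1,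
      h2.closed d (Finset.mem_inter.1 hd).2⟩)
    hZ
  refine ⟨xcompl G hc M1 h1, xcompl G hc M2 h2, C, xcompl_le G hc M1 h1, xcompl_le G hc M2 h2,
    hC, xcompl_card G hc M1 h1, xcompl_card G hc M2 h2, hev, ?_⟩
  ext v w
  simp only [SimpleGraph.sup_adj]
  constructor
  · rintro ((h | h) | h)
    · exact h.1
    · exact h.1
    · exact hC h
  · intro h
    by_cases hm1 : (v, w) ∈ M1
    · by_cases hm2 : (v, w) ∈ M2
      · exact Or.inr (hT _ (Finset.mem_inter.2 ⟨hm1, hm2⟩))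
      · exact Or.inl (Or.inr ⟨h, hm2⟩)
    · exact Or.inl (Or.inl ⟨h, hm1⟩)

end R5
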